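import Pool.Agent.P.MP_8fb1ed_pr.Defs

/-! Definitions used in the statement: the tree hierarchy of groups. -/

open MeasureTheory
open scoped ENNReal

namespace Pool.Agent.FusfFlat

open Pool.Agent.FusfTree

universe u

/-- Translation of an edge configuration on a `Γ`-set `V`: `{x,y}` is in `vshift g η` iff
`{g⁻¹x, g⁻¹y}` is in `η`. -/
def vshift {Γ V : Type*} [Group Γ] [MulAction Γ V] (g : Γ) (η : Cfg V) : Cfg V :=
  fun e => η (e.map fun x => g⁻¹ • x)

/-- `Γ` is approximately treeable relative to the class `C`: for every finite `A` and `ε > 0`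
there are a countable `Γ`-set `V` all of whose point stabilisers lie in `C`, a point `v₀` and a
`Γ`-invariant random forest on the vertex set `V` in which each `a • v₀`, `a ∈ A`, lies in the
tree of `v₀` with probability at least `1 - ε`. -/
def RelTreeable (C : ∀ (G : Type u) [Group G], Prop) (Γ : Type u) [Group Γ] : Prop :=
  ∀ (A : Finset Γ) (ε : ℝ≥0∞), 0 < ε →
    ∃ (V : Type u) (_ : MulAction Γ V) (v₀ : V) (τ : Measure (Cfg V)), Countable V ∧
      (∀ v : V, C (MulAction.stabilizer Γ v)) ∧ IsProbabilityMeasure τ ∧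
      (∀ g : Γ, τ.map (vshift g) = τ) ∧ (∀ᵐ η ∂τ, (graphOf η).IsAcyclic) ∧
      ∀ a ∈ A, τ {η | ¬ (graphOf η).Reachable v₀ (a • v₀)} ≤ ε

/-- The tree hierarchy: the smallest class of groups that contains the trivial groups and every
group that is approximately treeable relative to the class. -/
def TreeHier (Γ : Type u) [Group Γ] : Prop :=
  ∀ C : ∀ (G : Type u) [Group G], Prop, (∀ (G : Type u) [Group G], Subsingleton G → C G) →
    (∀ (G : Type u) [Group G], RelTreeable C G → C G) → C Γ

/-- Følner's condition (amenability of a discrete group). -/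
def Folner (Γ : Type*) [Group Γ] : Prop :=
  ∀ (A : Finset Γ) (ε : ℝ), 0 < ε → ∃ F : Finset Γ, F.Nonempty ∧
    ∀ a ∈ A, ({x ∈ (F : Set Γ) | a * x ∉ F}.ncard : ℝ) ≤ ε * F.card

end Pool.Agent.FusfFlat
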