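import Pool.Agent.P.MP_8fb1ed_pr.Basic
import Pool.Agent.P.MP_8fb1ed_pr.Fl.Stmt

/-! Amenable groups are in the tree hierarchy (star forests from Følner sets). -/

open MeasureTheory Filter Topology Relation
open scoped ENNReal

namespace Pool.Agent.FusfFlat

open Pool.Agent.FusfTree

universe u

/-- Independent uniform labels. -/
noncomputable def Amen_P (Γ : Type u) : Measure (Γ → unitInterval) :=
  Measure.infinitePi fun _ : Γ => (volume : Measure unitInterval)

instance Amen_prob (Γ : Type u) : IsProbabilityMeasure (Amen_P Γ) := by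
  unfold Amen_P; infer_instance

lemma Amen_meas_comp {Γ : Type u} (σ : Γ → Γ) :
    Measurable fun (ω : Γ → unitInterval) (i : Γ) => ω (σ i) :=
  measurable_pi_lambda _ fun _ => measurable_pi_apply _

lemma Amen_map {Γ : Type u} {σ : Γ → Γ} (hσ : Function.Injective σ) :
    (Amen_P Γ).map (fun ω i => ω (σ i)) = Amen_P Γ :=
  Measure.map_infinitePi_infinitePi_of_inj
    (P := fun _ : Γ => (volume : Measure unitInterval)) hσ

lemma Amen_tie {Γ : Type u} {c d : Γ} (h : c ≠ d) : Amen_P Γ {ω | ω c = ω d} = 0 := by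
  have h1 := Measure.infinitePi_map_eval_prod
    (P := fun _ : Γ => (volume : Measure unitInterval)) h
  have h2 : MeasurableSet {p : unitInterval × unitInterval | p.1 = p.2} :=
    measurableSet_eq_fun measurable_fst measurable_snd
  have h3 : Measurable fun ω : Γ → unitInterval => (ω c, ω d) :=
    (measurable_pi_apply c).prodMk (measurable_pi_apply d)
  have h4 : Amen_P Γ {ω | ω c = ω d}
      = (Amen_P Γ).map (fun ω => (ω c, ω d)) {p | p.1 = p.2} := by
    rw [Measure.map_apply h3 h2]; rfl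
  rw [h4, Amen_P, h1, Measure.prod_apply h2]
  have h5 : ∀ x : unitInterval,
      (volume : Measure unitInterval) (Prod.mk x ⁻¹' {p | p.1 = p.2}) = 0 := by
    intro x
    have : (Prod.mk x ⁻¹' {p : unitInterval × unitInterval | p.1 = p.2}) = {x} := by
      ext y; simp [eq_comm]
    rw [this]; exact measure_singleton x
  simp [h5]

/-- `c` has the strictly largest label in `U`. -/
def Amen_E {Γ : Type u} (U : Finset Γ) (c : Γ) : Set (Γ → unitInterval) :=
  {ω | ∀ d ∈ U, d ≠ c → ω d < ω c}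

lemma Amen_lt_meas {Γ : Type u} (d c : Γ) :
    Measurable fun ω : Γ → unitInterval => ω d < ω c :=
  measurableSet_setOf.1 (measurableSet_lt (measurable_pi_apply d) (measurable_pi_apply c))

lemma Amen_E_meas {Γ : Type u} [Countable Γ] (U : Finset Γ) (c : Γ) :
    MeasurableSet (Amen_E U c) :=
  measurableSet_setOf.2 (Measurable.forall fun d =>
    measurable_const.imp (measurable_const.imp (Amen_lt_meas d c)))

lemma Amen_E_eq {Γ : Type u} [Countable Γ] {U : Finset Γ} {c c' : Γ} (hc : c ∈ U) (hc' : c' ∈ U) :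
    Amen_P Γ (Amen_E U c') = Amen_P Γ (Amen_E U c) := by
  classical
  have hU : ∀ d ∈ U, Equiv.swap c c' d ∈ U := by
    intro d hd
    rw [Equiv.swap_apply_def]
    split_ifs <;> assumption
  rw [← Amen_map (Equiv.swap c c').injective,
    Measure.map_apply (Amen_meas_comp _) (Amen_E_meas U c'), Amen_map (Equiv.swap c c').injective]
  congr 1
  ext ω
  simp only [Amen_E, Set.mem_preimage, Set.mem_setOf_eq, Equiv.swap_apply_right]
  constructor
  · intro h d hd hdc
    have := h _ (hU d hd) fun he => hdc (by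
      have h2 := congrArg (Equiv.swap c c') he
      simpa using h2)
    simpa using this
  · intro h d hd hdc
    exact h _ (hU d hd) fun he => hdc (by
      have h2 := congrArg (Equiv.swap c c') he
      simpa using h2)

lemma Amen_E_le {Γ : Type u} [Countable Γ] {U : Finset Γ} {c : Γ} (hc : c ∈ U) :
    (U.card : ℝ≥0∞) * Amen_P Γ (Amen_E U c) ≤ 1 := by
  have hd : Set.PairwiseDisjoint (U : Set Γ) (Amen_E U) := by
    intro a ha b hb hab
    refine Set.disjoint_left.2 fun ω h1 h2 => ?_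
    exact lt_asymm (h1 b hb hab.symm) (h2 a ha hab)
  have h1 := measure_biUnion_finset (μ := Amen_P Γ) hd fun b _ => Amen_E_meas U b
  have h2 : ∑ b ∈ U, Amen_P Γ (Amen_E U b) = (U.card : ℝ≥0∞) * Amen_P Γ (Amen_E U c) := by
    rw [Finset.sum_congr rfl fun b hb => Amen_E_eq hc hb, Finset.sum_const, nsmul_eq_mul]
  rw [← h2, ← h1]
  exact prob_le_one

section
variable {Γ : Type u} [Group Γ]

/-- The point `x` is joined to the centre `c`. -/
def Amen_J (F : Finset Γ) (ω : Γ → unitInterval) (x c : Γ) : Prop :=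
  x⁻¹ * c ∈ F ∧ ∀ f ∈ F, x * f ≠ c → ω (x * f) < ω c

lemma Amen_J_uniq {F : Finset Γ} {ω : Γ → unitInterval} {x c c' : Γ} (h : Amen_J F ω x c)
    (h' : Amen_J F ω x c') : c = c' := by
  by_contra hne
  have h1 := h.2 _ h'.1 (by simpa using Ne.symm hne)
  have h2 := h'.2 _ h.1 (by simpa using hne)
  simp only [mul_inv_cancel_left] at h1 h2
  exact lt_asymm h1 h2

lemma Amen_J_meas [Countable Γ] (F : Finset Γ) (x c : Γ) :
    Measurable fun ω => Amen_J F ω x c :=
  measurable_const.and (Measurable.forall fun f =>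
    measurable_const.imp (measurable_const.imp (Amen_lt_meas (x * f) c)))

lemma Amen_J_shift (F : Finset Γ) (ω : Γ → unitInterval) (g x c : Γ) :
    Amen_J F (fun i => ω (g⁻¹ * i)) (g * x) (g * c) ↔ Amen_J F ω x c := by
  simp [Amen_J, mul_assoc]

open Classical in
/-- The star forest. -/
noncomputable def Amen_star (F : Finset Γ) (ω : Γ → unitInterval) : Cfg (Γ ⊕ Γ) :=
  fun e => decide (∃ x c, e = s(Sum.inl x, Sum.inr c) ∧ Amen_J F ω x c)

lemma Amen_star_true (F : Finset Γ) (ω : Γ → unitInterval) (e : Sym2 (Γ ⊕ Γ)) :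
    Amen_star F ω e = true ↔ ∃ x c, e = s(Sum.inl x, Sum.inr c) ∧ Amen_J F ω x c := by
  simp [Amen_star]

lemma Amen_star_edge (F : Finset Γ) (ω : Γ → unitInterval) (x c : Γ) :
    Amen_star F ω s(Sum.inl x, Sum.inr c) = true ↔ Amen_J F ω x c := by
  rw [Amen_star_true]
  constructor
  · rintro ⟨y, d, he, h⟩
    simp only [Sym2.eq_iff, Sum.inl.injEq, Sum.inr.injEq, reduceCtorEq, and_self, or_false] at he
    obtain ⟨rfl, rfl⟩ := he
    exact h
  · exact fun h => ⟨x, c, rfl, h⟩

lemma Amen_star_meas [Countable Γ] (F : Finset Γ) : Measurable (Amen_star F) := by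
  refine measurable_pi_lambda _ fun e => measurable_to_bool ?_
  have : (fun ω => Amen_star F ω e) ⁻¹' {true}
      = {ω | ∃ x c, e = s(Sum.inl x, Sum.inr c) ∧ Amen_J F ω x c} := by
    ext ω; exact Amen_star_true F ω e
  rw [this]
  exact measurableSet_setOf.2 (Measurable.exists fun x => Measurable.exists fun c =>
    measurable_const.and (Amen_J_meas F x c))

lemma Amen_star_shift (F : Finset Γ) (g : Γ) (ω : Γ → unitInterval) :
    vshift g (Amen_star F ω) = Amen_star F fun i => ω (g⁻¹ * i) := by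
  funext e
  rw [Bool.eq_iff_iff, vshift, Amen_star_true, Amen_star_true]
  constructor
  · rintro ⟨x, c, he, h⟩
    refine ⟨g * x, g * c, ?_, (Amen_J_shift F ω g x c).2 h⟩
    have h2 := congrArg (Sym2.map fun v : Γ ⊕ Γ => g • v) he
    simpa [Sym2.map_map, Function.comp_def] using h2
  · rintro ⟨x, c, rfl, h⟩
    refine ⟨g⁻¹ * x, g⁻¹ * c, by simp, (Amen_J_shift F ω g _ _).1 (by simpa using h)⟩

omit [Group Γ] in
/-- Graphs of star type are forests. -/
lemma Amen_acyclic {η : Cfg (Γ ⊕ Γ)}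
    (h1 : ∀ e, η e = true → ∃ x c, e = s(Sum.inl x, Sum.inr c))
    (h2 : ∀ x c c', η s(Sum.inl x, Sum.inr c) = true → η s(Sum.inl x, Sum.inr c') = true →
      c = c') : (graphOf η).IsAcyclic := by
  have key : ∀ x c, η s(Sum.inl x, Sum.inr c) = true →
      (graphOf η).IsBridge s(Sum.inl x, Sum.inr c) := by
    intro x c hxc
    rw [SimpleGraph.isBridge_iff]
    rintro ⟨p⟩
    cases p with
    | cons hadj q =>
      rename_i w
      rw [SimpleGraph.deleteEdges_adj, graphOf_adj] at hadj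
      obtain ⟨y, d, he⟩ := h1 _ hadj.1.1
      have he' := he
      simp only [Sym2.eq_iff, Sum.inl.injEq, reduceCtorEq, false_and, or_false] at he'
      obtain ⟨rfl, rfl⟩ := he'
      obtain rfl := h2 _ _ _ hxc hadj.1.1
      exact hadj.2 rfl
  refine SimpleGraph.isAcyclic_iff_forall_adj_isBridge.2 fun v w hvw => ?_
  rw [graphOf_adj] at hvw
  obtain ⟨x, c, he⟩ := h1 _ hvw.1
  rw [he]
  exact key x c (he ▸ hvw.1)

lemma Amen_bad [Countable Γ] [DecidableEq Γ] {F : Finset Γ} (hF : F.Nonempty) (a : Γ) {δ : ℝ}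
    (h1 : ({x ∈ (F : Set Γ) | a * x ∉ F}.ncard : ℝ) ≤ δ * F.card)
    (h2 : ({x ∈ (F : Set Γ) | a⁻¹ * x ∉ F}.ncard : ℝ) ≤ δ * F.card) :
    Amen_P Γ {ω | ¬ ∃ c, Amen_J F ω 1 c ∧ Amen_J F ω a c} ≤ ENNReal.ofReal (2 * δ) := by
  set U : Finset Γ := F ∪ F.image (a * ·) with hU
  set B : Finset Γ := F.filter (fun x => a⁻¹ * x ∉ F) ∪
    (F.filter fun x => a * x ∉ F).image (a * ·) with hB
  have hBU : B ⊆ U := Finset.union_subset_union (Finset.filter_subset _ _)
    (Finset.image_subset_image (Finset.filter_subset _ _))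
  have hcard : (B.card : ℝ) ≤ 2 * δ * F.card := by
    have e1 : {x ∈ (F : Set Γ) | a * x ∉ F} = ↑(F.filter fun x => a * x ∉ F) := by
      ext x; simp
    have e2 : {x ∈ (F : Set Γ) | a⁻¹ * x ∉ F} = ↑(F.filter fun x => a⁻¹ * x ∉ F) := by
      ext x; simp
    rw [e1, Set.ncard_coe_finset] at h1
    rw [e2, Set.ncard_coe_finset] at h2
    have e3 : B.card ≤ (F.filter fun x => a⁻¹ * x ∉ F).card
        + (F.filter fun x => a * x ∉ F).card :=
      (Finset.card_union_le _ _).trans (Nat.add_le_add_left Finset.card_image_le _)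
    have e4 : (B.card : ℝ) ≤ (F.filter fun x => a⁻¹ * x ∉ F).card
        + (F.filter fun x => a * x ∉ F).card := by exact_mod_cast e3
    linarith
  have hT : Amen_P Γ {ω | ∃ c d, c ≠ d ∧ ω c = ω d} = 0 := by
    have : {ω : Γ → unitInterval | ∃ c d, c ≠ d ∧ ω c = ω d}
        = ⋃ c, ⋃ d, ⋃ _ : c ≠ d, {ω | ω c = ω d} := by
      ext ω; simp
    rw [this]
    exact measure_iUnion_null fun c => measure_iUnion_null fun d =>
      measure_iUnion_null fun h => Amen_tie h
  have hsub : {ω | ¬ ∃ c, Amen_J F ω 1 c ∧ Amen_J F ω a c}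
      ⊆ {ω | ∃ c d, c ≠ d ∧ ω c = ω d} ∪ ⋃ c ∈ B, Amen_E U c := by
    intro ω hω
    by_cases ht : ∃ c d, c ≠ d ∧ ω c = ω d
    · exact Or.inl ht
    right
    obtain ⟨c, hc, hmax⟩ := Finset.exists_max_image U ω (hF.mono Finset.subset_union_left)
    have hE : ω ∈ Amen_E U c := fun d hd hdc =>
      lt_of_le_of_ne (hmax d hd) fun he => ht ⟨d, c, hdc, he⟩
    refine Set.mem_biUnion (s := (B : Set Γ)) ?_ hE
    by_contra hcB
    have hcB' : c ∉ B := hcB
    rw [hB, Finset.mem_union, not_or] at hcB'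
    have hcF : c ∈ F ∧ a⁻¹ * c ∈ F := by
      rcases Finset.mem_union.1 hc with h | h
      · refine ⟨h, by_contra fun h' => hcB'.1 (Finset.mem_filter.2 ⟨h, h'⟩)⟩
      · obtain ⟨f, hf, rfl⟩ := Finset.mem_image.1 h
        refine ⟨by_contra fun h' => hcB'.2 ?_, by simpa using hf⟩
        exact Finset.mem_image.2 ⟨f, Finset.mem_filter.2 ⟨hf, h'⟩, rfl⟩
    refine hω ⟨c, ⟨by simpa using hcF.1, fun f hf hne => hE _ ?_ hne⟩,
      ⟨hcF.2, fun f hf hne => hE _ ?_ hne⟩⟩
    · exact Finset.mem_union_left _ (by simpa using hf)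
    · exact Finset.mem_union_right _ (Finset.mem_image.2 ⟨f, hf, rfl⟩)
  have hF0 : (F.card : ℝ≥0∞) ≠ 0 := by exact_mod_cast hF.card_pos.ne'
  have hE : ∀ c ∈ B, Amen_P Γ (Amen_E U c) ≤ (F.card : ℝ≥0∞)⁻¹ := by
    intro c hc
    rw [ENNReal.le_inv_iff_mul_le, mul_comm]
    refine le_trans ?_ (Amen_E_le (hBU hc))
    have : F.card ≤ U.card := Finset.card_le_card Finset.subset_union_left
    exact mul_le_mul_left (by exact_mod_cast this) _
  calc Amen_P Γ {ω | ¬ ∃ c, Amen_J F ω 1 c ∧ Amen_J F ω a c}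
      ≤ Amen_P Γ {ω | ∃ c d, c ≠ d ∧ ω c = ω d} + Amen_P Γ (⋃ c ∈ B, Amen_E U c) :=
        (measure_mono hsub).trans (measure_union_le _ _)
    _ ≤ ∑ c ∈ B, Amen_P Γ (Amen_E U c) := by
        rw [hT, zero_add]; exact measure_biUnion_finset_le _ _
    _ ≤ (B.card : ℝ≥0∞) * (F.card : ℝ≥0∞)⁻¹ := by
        rw [← nsmul_eq_mul]; exact Finset.sum_le_card_nsmul _ _ _ hE
    _ ≤ ENNReal.ofReal (2 * δ) := by
        rw [← div_eq_mul_inv, ENNReal.div_le_iff hF0 (ENNReal.natCast_ne_top _),
          ← ENNReal.ofReal_natCast, ← ENNReal.ofReal_natCast F.card,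
          ← ENNReal.ofReal_mul' (Nat.cast_nonneg _)]
        exact ENNReal.ofReal_le_ofReal hcard

end

theorem relTreeable_of_folner {C : ∀ (G : Type u) [Group G], Prop}
    (hC : ∀ (G : Type u) [Group G], Subsingleton G → C G) {Γ : Type u} [Group Γ] [Countable Γ]
    (h : Folner Γ) : RelTreeable C Γ := by
  classical
  intro A ε hε
  obtain ⟨r, -, hr0, hrε⟩ := ENNReal.lt_iff_exists_real_btwn.1 hε
  have hr : 0 < r := ENNReal.ofReal_pos.1 hr0
  obtain ⟨F, hF, hA⟩ := h (A ∪ A.image (·⁻¹)) (r / 2) (by linarith)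
  have hm := Amen_star_meas F
  refine ⟨Γ ⊕ Γ, inferInstance, Sum.inl 1, (Amen_P Γ).map (Amen_star F), inferInstance,
    fun v => hC _ ?_, Measure.isProbabilityMeasure_map hm.aemeasurable, fun g => ?_, ?_,
    fun a ha => ?_⟩
  · have : ∀ g : MulAction.stabilizer Γ v, (g : Γ) = 1 := by
      rintro ⟨g, hg⟩
      rw [MulAction.mem_stabilizer_iff] at hg
      cases v <;> simpa using hg
    exact ⟨fun a b => Subtype.ext ((this a).trans (this b).symm)⟩
  · have hv : Measurable (vshift g : Cfg (Γ ⊕ Γ) → Cfg (Γ ⊕ Γ)) :=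
      measurable_pi_lambda _ fun _ => measurable_pi_apply _
    have e : vshift g ∘ Amen_star F
        = Amen_star F ∘ fun (ω : Γ → unitInterval) (i : Γ) => ω (g⁻¹ * i) :=
      funext fun ω => Amen_star_shift F g ω
    rw [Measure.map_map hv hm, e, ← Measure.map_map hm (Amen_meas_comp _),
      Amen_map (mul_right_injective g⁻¹)]
  · have hq : MeasurableSet {η : Cfg (Γ ⊕ Γ) |
        (∀ e, η e = true → ∃ x c, e = s(Sum.inl x, Sum.inr c)) ∧
        ∀ x c c', η s(Sum.inl x, Sum.inr c) = true → η s(Sum.inl x, Sum.inr c') = true →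
          c = c'} :=
      measurableSet_setOf.2 ((Measurable.forall fun e => (measurable_edge e).imp
        measurable_const).and (Measurable.forall fun x => Measurable.forall fun c =>
          Measurable.forall fun c' => (measurable_edge _).imp
            ((measurable_edge _).imp measurable_const)))
    refine ((ae_map_iff hm.aemeasurable hq).2 (Eventually.of_forall fun ω => ⟨?_, ?_⟩)).mono
      fun η hη => Amen_acyclic hη.1 hη.2
    · intro e he
      obtain ⟨x, c, h1, -⟩ := (Amen_star_true F ω e).1 he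
      exact ⟨x, c, h1⟩
    · intro x c c' h1 h2
      exact Amen_J_uniq ((Amen_star_edge F ω x c).1 h1) ((Amen_star_edge F ω x c').1 h2)
  · have hq : MeasurableSet {η : Cfg (Γ ⊕ Γ) | ¬ ∃ c, η s(Sum.inl 1, Sum.inr c) = true ∧
        η s(Sum.inl a, Sum.inr c) = true} :=
      measurableSet_setOf.2 (Measurable.exists fun c =>
        (measurable_edge _).and (measurable_edge _)).not
    have hsub : {η : Cfg (Γ ⊕ Γ) | ¬ (graphOf η).Reachable (Sum.inl 1) (a • Sum.inl 1)}
        ⊆ {η | ¬ ∃ c, η s(Sum.inl 1, Sum.inr c) = true ∧ η s(Sum.inl a, Sum.inr c) = true} := by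
      rintro η hη ⟨c, h1, h2⟩
      have e : a • (Sum.inl 1 : Γ ⊕ Γ) = Sum.inl a := by simp
      apply hη
      rw [e]
      have a1 : (graphOf η).Adj (Sum.inl 1) (Sum.inr c) := (graphOf_adj _ _ _).2 ⟨h1, by simp⟩
      have a2 : (graphOf η).Adj (Sum.inl a) (Sum.inr c) := (graphOf_adj _ _ _).2 ⟨h2, by simp⟩
      exact a1.reachable.trans a2.reachable.symm
    refine (measure_mono hsub).trans ?_
    rw [Measure.map_apply hm hq]
    have hb := Amen_bad hF a (hA a (Finset.mem_union_left _ ha))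
      (hA a⁻¹ (Finset.mem_union_right _ (Finset.mem_image.2 ⟨a, ha, rfl⟩)))
    have e2 : 2 * (r / 2) = r := by ring
    rw [e2] at hb
    refine le_trans (le_of_eq ?_) (hb.trans hrε.le)
    congr 1
    ext ω
    simp only [Set.mem_preimage, Set.mem_setOf_eq, Amen_star_edge]

end Pool.Agent.FusfFlat
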