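import Pool.Agent.P.MP_8fb1ed_pr.Fl.SysMeas

/-! Averaging over the labels; elementary properties of `h`. -/

open MeasureTheory Filter Topology Relation
open scoped ENNReal

namespace Pool.Agent.FusfFlat

open Pool.Agent.FusfTree

variable {Γ Ω V ι : Type*} [Group Γ] [Countable Γ] [MeasurableSpace Ω] [MulAction Γ V]
  [MulAction Γ ι] [Countable V] [Countable ι] {p : Par V ι} {β : ι → Γ} {k : ℕ} {P : Measure Ω}
  [IsProbabilityMeasure P] {a : Γ → Ω → Ω} {d : Ω → Dat V ι}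

open Classical in
/-- The root term of one subspace. -/
noncomputable def Avg_r {Γ ι : Type*} [Group Γ] (β : ι → Γ) (K : Sub ι) : ℝ≥0∞ :=
  ∑' i, if β i = 1 then ‖proj K (dl i)‖ₑ ^ 2 else 0

theorem Avg_r_bot {Γ ι : Type*} [Group Γ] (β : ι → Γ) : Avg_r β (⊥ : Sub ι) = 0 := by
  simp [Avg_r, proj_bot]

theorem Avg_meas {Γ Ω ι : Type*} [Group Γ] [MeasurableSpace Ω] [Countable ι] (β : ι → Γ)
    {K : Ω → Sub ι} (h : PMeas K) : Measurable fun ω => Avg_r β (K ω) := by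
  refine Measurable.tsum fun i => ?_
  by_cases hi : β i = 1
  · simpa only [if_pos hi] using h.enorm i
  · simpa only [if_neg hi] using measurable_const

theorem Avg_fdim {Γ Ω ι J : Type*} [Group Γ] [MeasurableSpace Ω] [Countable ι] [Countable J]
    (P : Measure Ω) (β : ι → Γ) {K : Ω → J → Sub ι} (h : ∀ j, PMeas fun ω => K ω j) :
    fdim P β K = ∑' j, ∫⁻ ω, Avg_r β (K ω j) ∂P :=
  lintegral_tsum fun j => (Avg_meas β (h j)).aemeasurable

theorem Avg_rH (h : Sys p β k P a d) (s s' : ℤ) : RFam a fun ω (e : V × V) =>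
    (d ω).msg p e.1 e.2 s ⊔ (d ω).msg p e.2 e.1 s' := ((h.amsg s).sup (h.amsg' s')).rfam

/-- Splitting the normal edges according to the orientation. -/
theorem Avg_split (h : Sys p β k P a d) (s s' : ℤ) :
    (fdim P β fun ω (e : V × V) =>
      onIf ((d ω).nrm p e.1 e.2) ((d ω).msg p e.1 e.2 s ⊔ (d ω).msg p e.2 e.1 s')) =
      nH p P β d s s' + nH p P β d s' s := by
  rw [fdim_split h.rori.meas ((Avg_rH h s s').cond h.rnrm).meas, nH, nH,
    ← fdim_equiv (Equiv.prodComm V V) (K := fun ω (e : V × V) =>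
      onIf ((d ω).ori p e.1 e.2) ((d ω).msg p e.1 e.2 s' ⊔ (d ω).msg p e.2 e.1 s))]
  congr 2
  · funext ω e
    by_cases h1 : (d ω).ori p e.1 e.2
    · rw [onIf_pos h1, onIf_pos h1, onIf_pos h1.1]
    · rw [onIf_neg h1, onIf_neg h1]
  · funext ω e
    show _ = onIf ((d ω).ori p e.2 e.1) ((d ω).msg p e.2 e.1 s' ⊔ (d ω).msg p e.1 e.2 s)
    by_cases h1 : (d ω).ori p e.2 e.1
    · rw [onIf_pos h1, onIf_pos (Dat.ori_asymm h1), onIf_pos ((h.good ω).nrm_symm h1.1), sup_comm]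
    · rw [onIf_neg h1]
      by_cases h2 : (d ω).ori p e.1 e.2
      · exact onIf_neg (not_not.2 h2) _
      · rw [onIf_pos h2, onIf_neg fun h3 => ((h.good ω).nrm_iff.1 h3).elim h2 h1]

theorem Avg_edge (h : Sys p β k P a d) (hr : Res p P a d) (s s' : ℤ) (u v : V) :
    (p.W : ℝ≥0∞) ^ 2 * ∫⁻ ω, Avg_r β (onIf ((d ω).nrm p u v)
      ((d ω).msg p u v (s + (d ω).dz u v) ⊔ (d ω).msg p v u s')) ∂P =
      ∑ α ∈ Finset.range p.W, ∑ γ ∈ Finset.range p.W, ∫⁻ ω, Avg_r β (onIf ((d ω).nrm p u v)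
        ((d ω).msg p u v (s + α - γ) ⊔ (d ω).msg p v u s')) ∂P := by
  have : NeZero p.W := ⟨hr.W_pos.ne'⟩
  obtain ⟨up, h1, h2⟩ := hr.rz u v
  obtain ⟨up', h1', h2'⟩ := hr.rz v u
  have m1 : Measurable fun ω => Avg_r β (onIf ((d ω).nrm p u v)
      ((d ω).msg p u v (s + (d ω).dz u v) ⊔ (d ω).msg p v u s')) :=
    Avg_meas β ((((h.amsgz s).sup (h.amsg' s')).rfam.cond h.rnrm).meas (u, v))
  rw [pow_two, mul_assoc, h1.lintegral_unf m1, Finset.mul_sum, Finset.sum_range]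
  refine Finset.sum_congr rfl fun α _ => ?_
  have e1 : ∀ ω, Avg_r β (onIf ((d (up α ω)).nrm p u v)
      ((d (up α ω)).msg p u v (s + (d (up α ω)).dz u v) ⊔ (d (up α ω)).msg p v u s')) =
      Avg_r β (onIf ((d ω).nrm p u v)
        ((d ω).msg p u v (s + (α : ℕ) - (d ω).z v u) ⊔ (d ω).msg p v u s')) := fun ω => by
    rw [h2]
    by_cases h3 : (d ω).nrm p u v
    · have h4 := (h.good ω).ne h3.1
      have h5 : ((d ω).setZ u v α).nrm p u v := h3
      have h6 : s + ((d ω).setZ u v α).dz u v = s + (α : ℕ) - (d ω).z v u := by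
        simp only [Dat.dz, Dat.setZ, and_self, if_true, h4, and_false, if_false]
        ring
      rw [onIf_pos h3, onIf_pos h5, h6, ((h.good ω).msg_setZ h3.1 _ _).1,
        ((h.good ω).msg_setZ h3.1 _ _).2]
    · have h5 : ¬ ((d ω).setZ u v α).nrm p u v := h3
      rw [onIf_neg h3, onIf_neg h5]
  have m2 : Measurable fun ω => Avg_r β (onIf ((d ω).nrm p u v)
      ((d ω).msg p u v (s + (α : ℕ) - (d ω).z v u) ⊔ (d ω).msg p v u s')) :=
    Avg_meas β (PMeas.index (K := fun (j : ℕ) ω => onIf ((d ω).nrm p u v)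
      ((d ω).msg p u v (s + (α : ℕ) - j) ⊔ (d ω).msg p v u s'))
      (fun j => ((Avg_rH h _ s').cond h.rnrm).meas (u, v)) (h.mz v u))
  simp only [e1]
  rw [h1'.lintegral_unf m2, Finset.sum_range]
  refine Finset.sum_congr rfl fun γ _ => lintegral_congr fun ω => ?_
  rw [h2']
  by_cases h3 : (d ω).nrm p u v
  · have h4 := (h.good ω).symm u v h3.1
    have h5 : ((d ω).setZ v u γ).nrm p u v := h3
    have h6 : ((d ω).setZ v u γ).z v u = γ := by simp [Dat.setZ]
    rw [onIf_pos h3, onIf_pos h5, h6, ((h.good ω).msg_setZ h4 _ _).1,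
      ((h.good ω).msg_setZ h4 _ _).2]
  · have h5 : ¬ ((d ω).setZ v u γ).nrm p u v := h3
    rw [onIf_neg h3, onIf_neg h5]

theorem nE_avg (h : Sys p β k P a d) (hr : Res p P a d) (s s' : ℤ) :
    (p.W : ℝ≥0∞) ^ 2 * nE p P β d s s' = ∑ α ∈ Finset.range p.W, ∑ γ ∈ Finset.range p.W,
      (nH p P β d (s + α - γ) s' + nH p P β d s' (s + α - γ)) := by
  rw [nE, Avg_fdim P β (((h.amsgz s).sup (h.amsg' s')).rfam.cond h.rnrm).meas,
    ← ENNReal.tsum_mul_left]
  simp only [fun e : V × V => Avg_edge h hr s s' e.1 e.2]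
  rw [Summable.tsum_finsetSum fun _ _ => ENNReal.summable]
  refine Finset.sum_congr rfl fun α _ => ?_
  rw [Summable.tsum_finsetSum fun _ _ => ENNReal.summable]
  refine Finset.sum_congr rfl fun γ _ => ?_
  rw [← Avg_split h, Avg_fdim P β ((Avg_rH h _ s').cond h.rnrm).meas]

theorem Avg_lam (h : Sys p β k P a d) (hr : Res p P a d) {u v : V} (huv : u ≠ v)
    {τ : Dat V ι → ℝ≥0∞} (hτ : Measurable fun ω => τ (d ω))
    (hs : ∀ ω j, τ ((d ω).setLam u v j) = τ (d ω)) (c : ℕ → ℕ → Prop) [∀ j m, Decidable (c j m)]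
    {n : ℕ} (hc : ∀ m, ((Finset.range p.N).filter fun j => c j m).card ≤ n) :
    (p.N : ℝ≥0∞) * ∫⁻ ω, (if c ((d ω).lam u v) ((d ω).lam v u) then τ (d ω) else 0) ∂P ≤
      n * ∫⁻ ω, τ (d ω) ∂P := by
  have : NeZero p.N := ⟨(hr.J_pos.trans_le hr.J_le).ne'⟩
  obtain ⟨up, h1, h2⟩ := hr.rlam u v
  have m1 : Measurable fun ω =>
      if c ((d ω).lam u v) ((d ω).lam v u) then τ (d ω) else 0 :=
    Measurable.ite (((h.mlam u v).prodMk (h.mlam v u))
      (MeasurableSet.of_discrete (s := {q : ℕ × ℕ | c q.1 q.2}))) hτ measurable_const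
  have m2 : ∀ j : ℕ, Measurable fun ω => if c j ((d ω).lam v u) then τ (d ω) else 0 := fun j =>
    Measurable.ite ((h.mlam v u) (MeasurableSet.of_discrete (s := {m | c j m}))) hτ
      measurable_const
  have e1 : ∀ (j : Fin p.N) ω, (if c ((d (up j ω)).lam u v) ((d (up j ω)).lam v u) then
      τ (d (up j ω)) else 0) = if c j ((d ω).lam v u) then τ (d ω) else 0 := fun j ω => by
    have h3 : (d (up j ω)).lam u v = j := by rw [h2]; simp [Dat.setLam]
    have h4 : (d (up j ω)).lam v u = (d ω).lam v u := by rw [h2]; simp [Dat.setLam, huv]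
    have h5 : τ (d (up j ω)) = τ (d ω) := by rw [h2, hs]
    simp only [h3, h4, h5]
  rw [h1.lintegral_unf m1]
  simp only [e1]
  rw [← lintegral_finsetSum _ fun (j : Fin p.N) _ => m2 j, ← lintegral_const_mul _ hτ]
  refine lintegral_mono fun ω => ?_
  rw [← Finset.sum_range fun j => if c j ((d ω).lam v u) then τ (d ω) else 0, ← Finset.sum_filter,
    Finset.sum_const, nsmul_eq_mul]
  exact mul_le_mul_left (Nat.cast_le.2 (hc _)) _

theorem Avg_abn (h : Sys p β k P a d) (hr : Res p P a d) (u v : V) :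
    (p.N : ℝ≥0∞) * ∫⁻ ω, Avg_r β (onIf ((d ω).t u v ∧ ¬ (d ω).nrm p u v)
      (coord ((d ω).sp u v))) ∂P ≤
      (2 * p.J + 1 : ℕ) * ∫⁻ ω, Avg_r β (coord ((d ω).sp u v)) ∂P := by
  by_cases huv : u = v
  · have e : ∀ ω, Avg_r β (onIf ((d ω).t u v ∧ ¬ (d ω).nrm p u v) (coord ((d ω).sp u v))) = 0 :=
      fun ω => by rw [onIf_neg fun h1 => (h.good ω).ne h1.1 huv, Avg_r_bot]
    simp [e]
  have m : Measurable fun ω => Avg_r β (coord ((d ω).sp u v)) :=
    Avg_meas β ((RFam.crd h.rsp).meas (u, v))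
  have c1 : ∀ _ : ℕ, ((Finset.range p.N).filter fun j => j < p.J).card ≤ p.J := fun _ =>
    (Finset.card_le_card fun j hj => Finset.mem_range.2 (Finset.mem_filter.1 hj).2).trans
      (Finset.card_range _).le
  have a1 := Avg_lam h hr huv (τ := fun x => Avg_r β (coord (x.sp u v))) m (fun _ _ => rfl)
    (fun j _ => j < p.J) c1
  have a2 := Avg_lam h hr (Ne.symm huv) (τ := fun x => Avg_r β (coord (x.sp u v))) m
    (fun _ _ => rfl) (fun j _ => j < p.J) c1
  have a3 := Avg_lam h hr huv (τ := fun x => Avg_r β (coord (x.sp u v))) m (fun _ _ => rfl)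
    (fun j m => j = m) (n := 1) fun m => Finset.card_le_one.2 fun x hx y hy =>
      (Finset.mem_filter.1 hx).2.trans (Finset.mem_filter.1 hy).2.symm
  have m1 : ∀ x y : V, Measurable fun ω =>
      if (d ω).lam x y < p.J then Avg_r β (coord ((d ω).sp u v)) else 0 := fun x y =>
    Measurable.ite ((h.mlam x y) (MeasurableSet.of_discrete (s := {m | m < p.J}))) m
      measurable_const
  have e : ((2 * p.J + 1 : ℕ) : ℝ≥0∞) = p.J + p.J + (1 : ℕ) := by
    push_cast
    ring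
  rw [e, add_mul, add_mul]
  refine le_trans ?_ (add_le_add (add_le_add a1 a2) a3)
  rw [← mul_add, ← mul_add, ← lintegral_add_left (m1 u v), ← lintegral_add_left
    ((m1 u v).fun_add (m1 v u))]
  refine mul_le_mul_right (lintegral_mono fun ω => ?_) _
  by_cases h1 : (d ω).t u v ∧ ¬ (d ω).nrm p u v
  · rw [onIf_pos h1]
    by_cases h2 : (d ω).lam u v < p.J
    · rw [if_pos h2, add_assoc]
      exact le_self_add
    · by_cases h3 : (d ω).lam v u < p.J
      · rw [if_pos h3]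
        exact le_add_right le_add_self
      · have h4 : (d ω).lam u v = (d ω).lam v u :=
          by_contra fun h4 => h1.2 ⟨h1.1, not_lt.1 h2, not_lt.1 h3, h4⟩
        rw [if_pos h4]
        exact le_add_self
  · rw [onIf_neg h1, Avg_r_bot]
    exact zero_le

theorem nA_le (h : Sys p β k P a d) (hr : Res p P a d) :
    nA p P β d ≤ (k * p.C ^ 2 : ℕ) * ((2 * p.J + 1 : ℕ) / (p.N : ℝ≥0∞)) := by
  have hN : (p.N : ℝ≥0∞) ≠ 0 := Nat.cast_ne_zero.2 (hr.J_pos.trans_le hr.J_le).ne'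
  have hc : ∀ e : V × V, Measurable fun ω => (d ω).t e.1 e.2 ∧ ¬ (d ω).nrm p e.1 e.2 := fun e =>
    (h.rt.meas e).and (h.rnrm.meas e).not
  have h1 : (p.N : ℝ≥0∞) * nA p P β d ≤ (2 * p.J + 1 : ℕ) * (k * p.C ^ 2 : ℕ) := by
    refine le_trans ?_ (mul_le_mul_right (h.fdim_E_le fun _ _ => le_rfl) _)
    rw [nA, Avg_fdim P β fun e => PMeas.cond (hc e) ((RFam.crd h.rsp).meas e),
      Avg_fdim P β (RFam.crd h.rsp).meas, ← ENNReal.tsum_mul_left, ← ENNReal.tsum_mul_left]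
    exact ENNReal.tsum_le_tsum fun e => Avg_abn h hr e.1 e.2
  rw [← mul_div_assoc, ENNReal.le_div_iff_mul_le (Or.inl hN) (Or.inl (ENNReal.natCast_ne_top _)),
    mul_comm, mul_comm ((k * p.C ^ 2 : ℕ) : ℝ≥0∞)]
  exact h1

theorem nH_mono (h : Sys p β k P a d) {s₁ s₂ s₁' s₂' : ℤ} (h₁ : s₁ ≤ s₁') (h₂ : s₂ ≤ s₂') :
    nH p P β d s₁ s₂ ≤ nH p P β d s₁' s₂' := by
  have _ := h
  exact fdim_mono' fun ω e => onIf_mono id fun _ =>
    sup_le_sup ((d ω).msg_mono p _ _ h₁) ((d ω).msg_mono p _ _ h₂)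

theorem nH_le (h : Sys p β k P a d) (s s' : ℤ) : nH p P β d s s' ≤ nY p P β d := by
  refine fdim_mono' fun ω e => onIf_mono id fun _ => sup_le
    (((h.good ω).msg_le _ _ _).trans (units_le_coord _)) ?_
  rw [(d ω).sp_comm]
  exact ((h.good ω).msg_le _ _ _).trans (units_le_coord _)

theorem nH_top (h : Sys p β k P a d) (s : ℤ) {s' : ℤ} (hs : (p.D : ℤ) + p.D0 < s') :
    nH p P β d s s' = nY p P β d := by
  refine le_antisymm (nH_le h s s') (fdim_mono (Eventually.of_forall fun ω e =>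
    onIf_le fun h1 => ?_))
  rw [onIf_pos h1, (h.good ω).msg_top _ _ hs, (d ω).sp_comm, ← cl_units]
  exact cl_mono le_sup_right

theorem nH_sub (h : Sys p β k P a d) (s s' : ℤ) :
    nH p P β d (s + 1) (s' + 1) + nH p P β d s s' ≤
      nH p P β d (s + 1) s' + nH p P β d s (s' + 1) := by
  have h1 := fdim_kap h.mp h.base ((Avg_rH h (s + 1) s').cond h.rori)
    ((Avg_rH h s (s' + 1)).cond h.rori)
  refine le_trans (add_le_add ?_ ?_) h1.le
  · refine fdim_mono' fun ω e => onIf_le fun h2 => ?_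
    rw [onIf_pos h2, onIf_pos h2]
    exact sup_le_sup le_sup_left le_sup_right
  · refine fdim_mono' fun ω e => onIf_le fun h2 => ?_
    rw [onIf_pos h2, onIf_pos h2]
    exact le_inf ((sup_le_sup_right ((d ω).msg_mono p _ _ (by omega)) _).trans (le_cl _))
      ((sup_le_sup_left ((d ω).msg_mono p _ _ (by omega)) _).trans (le_cl _))

theorem nN_top (h : Sys p β k P a d) {s : ℤ} (hs : (p.D : ℤ) + p.D0 < s) :
    nN p P β d s = nX P β d := by
  rw [nN, nX, ← fdim_cl]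
  congr 1
  funext ω v
  rw [(h.good ω).Mv_top v hs, cl_units]

end Pool.Agent.FusfFlat
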