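import Pool.Agent.P.MP_8fb1ed_pr.Fl.UniDefs

/-! Finite subtrees of an invariant random forest on a `Γ`-set. -/

open MeasureTheory Filter Topology Relation
open scoped ENNReal

namespace Pool.Agent.FusfFlat

open Pool.Agent.FusfTree

universe u

theorem measurable_vshift {Γ V : Type*} [Group Γ] [MulAction Γ V] (g : Γ) :
    Measurable (vshift g : Cfg V → Cfg V) :=
  measurable_pi_lambda _ fun _ => measurable_pi_apply _

section near
variable {V : Type*} {R R' : V → V → Prop}

lemma Bags_near_self (n : ℕ) (u : V) : Near R n u u := by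
  induction n with
  | zero => rfl
  | succ n ih => exact .inl ih

lemma Bags_near_mono (h : ∀ p q, R p q → R' p q) {n : ℕ} {u v : V} (hv : Near R n u v) :
    Near R' n u v := by
  induction n generalizing v with
  | zero => exact hv
  | succ n ih =>
    rcases hv with hv | ⟨x, h1, h2⟩
    · exact .inl (ih hv)
    · exact .inr ⟨x, ih h1, h _ _ h2⟩

lemma Bags_near_le {n m : ℕ} (h : n ≤ m) {u v : V} (hv : Near R n u v) : Near R m u v := by
  induction h with
  | refl => exact hv
  | step _ ih => exact .inl ih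

lemma Bags_near_last {n : ℕ} {u v : V} (hv : Near R n u v) : v = u ∨ ∃ x, R x v := by
  induction n with
  | zero => exact .inl hv
  | succ n ih =>
    rcases hv with hv | ⟨x, -, h2⟩
    · exact ih hv
    · exact .inr ⟨x, h2⟩

lemma Bags_near_walk {n r : ℕ} (h : n ≤ r) {u v : V} (hv : Near R n u v) :
    ReflTransGen (fun p q => R p q ∧ Near R r u q) u v := by
  induction n generalizing v with
  | zero => obtain rfl : v = u := hv; exact .refl
  | succ n ih =>
    rcases hv with hv | ⟨x, h1, h2⟩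
    · exact ih (by omega) hv
    · exact (ih (by omega) h1).tail ⟨h2, Bags_near_le h (.inr ⟨x, h1, h2⟩)⟩

lemma Bags_near_equiv (e : V ≃ V) (h : ∀ p q, R' (e p) (e q) ↔ R p q) (n : ℕ) (u v : V) :
    Near R' n (e u) (e v) ↔ Near R n u v := by
  induction n generalizing v with
  | zero => exact e.injective.eq_iff
  | succ n ih =>
    simp only [Near]
    rw [← e.exists_congr_right]
    simp only [ih, h]

lemma Bags_near_meas {Ω : Type*} [MeasurableSpace Ω] [Countable V] {S : Ω → V → V → Prop}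
    (hS : ∀ p q, Measurable fun ω => S ω p q) (n : ℕ) (u v : V) :
    Measurable fun ω => Near (S ω) n u v := by
  induction n generalizing v with
  | zero => exact measurable_const
  | succ n ih => exact (ih v).or (Measurable.exists fun x => (ih x).and (hS x v))

lemma Bags_near_of_rtg {Q : ℕ → V → Prop} (hm : ∀ n m v, n ≤ m → Q n v → Q m v)
    (hQ : ∀ v, ∃ n, Q n v) {u v : V} (hv : ReflTransGen R u v) :
    ∃ n, Near (fun p q => R p q ∧ Q n q) n u v := by
  induction hv with
  | refl => exact ⟨0, rfl⟩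
  | @tail x y _ h2 ih =>
    obtain ⟨n, hn⟩ := ih
    obtain ⟨m, hm'⟩ := hQ y
    refine ⟨max n m + 1, .inr ⟨x, Bags_near_le (le_max_left n m) (Bags_near_mono ?_ hn), h2,
      hm _ _ _ (by omega) hm'⟩⟩
    exact fun p q hpq => ⟨hpq.1, hm _ _ _ (by omega) hpq.2⟩

end near

lemma Bags_adj {Γ V : Type*} [Group Γ] [MulAction Γ V] (g : Γ) (η : Cfg V) (x y : V) :
    (graphOf (vshift g η)).Adj (g • x) (g • y) ↔ (graphOf η).Adj x y := by
  simp [graphOf_adj, vshift]

open TruncAux in
lemma Bags_rrel_forest {Γ V : Type*} [Group Γ] [MulAction Γ V] [Countable V] :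
    RRel (vshift : Γ → Cfg V → Cfg V) fun η => (forest η).Adj := by
  have hm : ∀ x y : V, Measurable fun η : Cfg V => (graphOf η).Adj x y := fun x y => by
    simp only [graphOf_adj]
    exact (measurable_edge _).and measurable_const
  refine ⟨fun x y => Measurable.and ?_ (hm x y), fun g η x y =>
    and_congr ?_ (Bags_adj g η x y)⟩
  · simp only [acyclic_iff]
    exact Measurable.forall fun u => Measurable.forall fun w => (hm u w).imp
      (measurable_rtg (fun p q => (hm p q).and measurable_const) u w).not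
  · exact (SimpleGraph.Iso.isAcyclic_iff
      (⟨MulAction.toPerm g, fun {x y} => Bags_adj g η x y⟩ :
        graphOf η ≃g graphOf (vshift g η))).symm

open TruncAux in
lemma Bags_bags {Γ V : Type*} [Group Γ] [MulAction Γ V] [Countable V] (v₀ : V) (B : Finset V)
    (hB : v₀ ∈ B) (r : ℕ) :
    Bags v₀ B r (fun η => (forest η).Adj) (fun η v (y : Γ) =>
      Near (fun p q => (forest η).Adj p q ∧ y⁻¹ • q ∈ B) r (y • v₀) v) where
  rt := Bags_rrel_forest
  rT := ⟨fun v y => Bags_near_meas
      (fun p q => ((Bags_rrel_forest (Γ := Γ)).meas p q).and measurable_const) r _ v,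
    fun g η v y => by
      have := Bags_near_equiv (MulAction.toPerm g)
        (R := fun p q => (forest η).Adj p q ∧ y⁻¹ • q ∈ B)
        (R' := fun p q => (forest (vshift g η)).Adj p q ∧ (g • y)⁻¹ • q ∈ B)
        (fun p q => by
          simp only [MulAction.toPerm_apply]
          refine and_congr ((Bags_rrel_forest (Γ := Γ)).eqv g η p q) ?_
          rw [smul_eq_mul, mul_inv_rev, mul_smul, inv_smul_smul]) r (y • v₀) v
      simp only [MulAction.toPerm_apply] at this
      rw [← this, smul_eq_mul, mul_smul]⟩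
  symm := fun η u v h => h.symm
  acyc := fun η u v h hs => (acyclic_iff _).1 (forest_acyclic η) v u h.symm
    (rtg_mono (fun p q hpq => ⟨hpq.1, by rw [Sym2.eq_swap (a := v)]; exact hpq.2⟩) hs)
  self := fun η y => Bags_near_self _ _
  mem := fun η v y h => by
    rcases Bags_near_last h with rfl | ⟨x, -, hx⟩
    · rwa [inv_smul_smul]
    · exact hx
  walk := fun η v y h => rtg_mono (fun p q hpq => ⟨hpq.1.1, hpq.2⟩) (Bags_near_walk le_rfl h)
  near := fun η v y h => Bags_near_mono (fun p q hpq => hpq.1) h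

open TruncAux in
theorem exists_bags {Γ V : Type*} [Group Γ] [Countable Γ] [MulAction Γ V] [Countable V] (v₀ : V)
    {τ : Measure (Cfg V)} [IsProbabilityMeasure τ] (hi : ∀ g : Γ, τ.map (vshift g) = τ)
    (hac : ∀ᵐ η ∂τ, (graphOf η).IsAcyclic) (A : Finset Γ) {ε : ℝ≥0∞} (hε : 0 < ε)
    (hA : ∀ c ∈ A, τ {η | ¬ (graphOf η).Reachable v₀ (c • v₀)} ≤ ε) :
    ∃ (B : Finset V) (r : ℕ) (t : Cfg V → V → V → Prop) (T : Cfg V → V → Γ → Prop),
      Bags v₀ B r t T ∧ ∀ c ∈ A, τ {η | ¬ T η v₀ c} ≤ 2 * ε := by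
  classical
  have : Nonempty V := ⟨v₀⟩
  obtain ⟨f, hf⟩ := exists_surjective_nat V
  let B : ℕ → Finset V := fun n => insert v₀ ((Finset.range n).image f)
  have hB : ∀ n, v₀ ∈ B n := fun n => Finset.mem_insert_self _ _
  have hBm : ∀ n m v, n ≤ m → v ∈ B n → v ∈ B m := fun n m v h hv =>
    Finset.insert_subset_insert _ (Finset.image_subset_image (Finset.range_mono h)) hv
  have hBa : ∀ v, ∃ n, v ∈ B n := fun v => by
    obtain ⟨n, rfl⟩ := hf v
    exact ⟨n + 1, Finset.mem_insert_of_mem (Finset.mem_image_of_mem f (by simp))⟩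
  have s1 : ∀ c ∈ A, ∀ᶠ n in atTop,
      τ {η | ReflTransGen (forest η).Adj (c • v₀) v₀ ∧
        ¬ Near (fun p q => (forest η).Adj p q ∧ c⁻¹ • q ∈ B n) n (c • v₀) v₀} ≤ ε := by
    intro c _
    refine ev_small (fun n => ((measurable_rtg (Bags_rrel_forest (Γ := Γ)).meas _ _).and
      ((Bags_bags v₀ (B n) (hB n) n).rT.meas v₀ c).not).setOf)
      (fun n m hn η hη => ⟨hη.1, fun h => hη.2 (Bags_near_le hn
        (Bags_near_mono (fun p q hpq => ⟨hpq.1, hBm _ _ _ hn hpq.2⟩) h))⟩) ?_ hε
    refine measure_mono_null (fun η hη => ?_) measure_empty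
    obtain ⟨n, hn⟩ := Bags_near_of_rtg (Q := fun n q => c⁻¹ • q ∈ B n)
      (fun n m v h hv => hBm _ _ _ h hv) (fun v => hBa _) (Set.mem_iInter.1 hη 0).1
    exact (Set.mem_iInter.1 hη n).2 hn
  obtain ⟨n, hn⟩ := ((eventually_all_finset A).2 s1).exists
  refine ⟨B n, n, _, _, Bags_bags v₀ (B n) (hB n) n, fun c hc => ?_⟩
  have sub : {η | ¬ Near (fun p q => (forest η).Adj p q ∧ c⁻¹ • q ∈ B n) n (c • v₀) v₀} ⊆
      ({η | ¬ (graphOf η).IsAcyclic} ∪ {η | ¬ (graphOf η).Reachable v₀ (c • v₀)}) ∪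
        {η | ReflTransGen (forest η).Adj (c • v₀) v₀ ∧
          ¬ Near (fun p q => (forest η).Adj p q ∧ c⁻¹ • q ∈ B n) n (c • v₀) v₀} := by
    intro η hη
    by_contra hc
    simp only [Set.mem_union, Set.mem_ofPred_eq, not_or, not_not, not_and] at hc
    obtain ⟨⟨c1, c2⟩, c3⟩ := hc
    have c4 := c2.symm.mono (G' := forest η) fun _ _ h => ⟨c1, h⟩
    exact hη (c3 ((SimpleGraph.reachable_iff_reflTransGen _ _).1 c4))
  refine (measure_mono sub).trans ((measure_union_le _ _).trans ?_)
  rw [two_mul]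
  refine add_le_add ((measure_union_le _ _).trans ?_) (hn c hc)
  rw [ae_iff.1 hac, zero_add]
  exact hA c hc

end Pool.Agent.FusfFlat
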