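import Mathlib

/-! The real-variable lemma 5.6. -/

namespace Pool.Agent.FusfFlat

open Finset

theorem RealLem_tel (f : ℤ → ℝ) (B : ℤ) (m : ℕ) :
    ∑ i ∈ range m, (f (B + i + 1) - f (B + i)) = f (B + m) - f B := by
  induction m with
  | zero => simp
  | succ m ih =>
    rw [sum_range_succ, ih]
    have e1 : B + ((m + 1 : ℕ) : ℤ) = B + m + 1 := by push_cast; ring
    rw [e1]; ring

theorem RealLem_sub (F : ℤ → ℝ) (hF : ∀ a, 0 ≤ F a) (A B : ℤ) (m L : ℕ) (h1 : A ≤ B)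
    (h2 : B + m ≤ A + L) : ∑ i ∈ range m, F (B + i) ≤ ∑ i ∈ range L, F (A + i) := by
  obtain ⟨k, rfl⟩ : ∃ k : ℕ, B = A + k := ⟨(B - A).toNat, by omega⟩
  have e1 : ∑ i ∈ range m, F (A + k + i) = ∑ i ∈ Ico k (k + m), F (A + (i : ℕ)) := by
    rw [sum_Ico_eq_sum_range]
    simp only [Nat.add_sub_cancel_left]
    refine sum_congr rfl fun i _ => ?_
    congr 1; push_cast; ring
  rw [e1]
  refine sum_le_sum_of_subset_of_nonneg (fun i hi => ?_) fun i _ _ => hF _
  rw [mem_Ico] at hi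
  rw [mem_range]; omega

theorem RealLem_mono (f : ℤ → ℝ) (hf : ∀ a, f a ≤ f (a + 1)) {a b : ℤ} (hab : a ≤ b) :
    f a ≤ f b := monotone_int_of_le_succ hf hab

/-- Pigeonhole along a telescoping sum. -/
theorem RealLem_pigeon (g : ℤ → ℝ) {y : ℝ} (h0 : ∀ a, 0 ≤ g a) (hy : ∀ a, g a ≤ y) (W S : ℕ)
    (hS : 0 < S) : ∃ j : ℕ, 1 ≤ j ∧ j ≤ S ∧
      g (-(3 * W * j : ℕ) + 2 * W) - g (-(3 * W * j : ℕ) - W) ≤ y / S := by
  by_contra hc
  push Not at hc
  set u : ℕ → ℝ := fun i => g (-(3 * W * i : ℕ) - W) with hu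
  have e1 : ∑ i ∈ range S, (u i - u (i + 1)) = u 0 - u S := sum_range_sub' u S
  have e2 : ∑ _i ∈ range S, y / S < ∑ i ∈ range S, (u i - u (i + 1)) := by
    refine sum_lt_sum_of_nonempty (nonempty_range_iff.2 hS.ne') fun i hi => ?_
    have := hc (i + 1) (by omega) (by rw [mem_range] at hi; omega)
    have e3 : (-((3 * W * (i + 1) : ℕ) : ℤ) + 2 * W) = -((3 * W * i : ℕ) : ℤ) - W := by
      push_cast; ring
    rw [e3] at this
    exact this
  have hS' : (S : ℝ) ≠ 0 := by exact_mod_cast hS.ne'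
  rw [sum_const, card_range, nsmul_eq_mul, mul_div_cancel₀ _ hS', e1] at e2
  have a1 := hy (-(3 * W * 0 : ℕ) - W)
  have a2 := h0 (-(3 * W * S : ℕ) - W)
  simp only [hu] at e2
  linarith

/-- The increments of both kinds, for one value of the second index. -/
theorem RealLem_row {h : ℤ → ℤ → ℝ} {y : ℝ} {W m L : ℕ} {A : ℤ}
    (h0 : ∀ a b, 0 ≤ h a b)
    (hm1 : ∀ a b, h a b ≤ h (a + 1) b) (hm2 : ∀ a b, h a b ≤ h a (b + 1))
    (hsub : ∀ a b, h (a + 1) (b + 1) + h a b ≤ h (a + 1) b + h a (b + 1))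
    (hh : ∀ a, h a (A + W + m) = y) (hL : L = m + 2 * W) {γ : ℕ} (hγ : γ < W) :
    W * (y - h (A + 2 * W) (A + 2 * W)) - y ≤
      ∑ α ∈ range W,
        (∑ i ∈ range L, (h (A + i + 1 + α - γ) (A + i + 1) - h (A + i + α - γ) (A + i + 1)) +
         ∑ i ∈ range L, (h (A + i + 1) (A + i + 1 + γ - α) - h (A + i + 1) (A + i + γ - α))) := by
  set B : ℤ := A + W with hB
  set φ : ℤ → ℤ → ℝ := fun q p => h p (q + 1) - h p q with hφ
  have φ0 : ∀ q p, 0 ≤ φ q p := fun q p => sub_nonneg.2 (hm2 p q)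
  have φm : ∀ q p p', p ≤ p' → φ q p' ≤ φ q p := by
    intro q p p' hp
    have := RealLem_mono (fun p => -φ q p) (fun a => by
      have := hsub a q
      simp only [hφ]; linarith) hp
    linarith
  have key : ∀ α ∈ range W, (y - h (A + 2 * W) (A + 2 * W)) -
      ∑ i ∈ range m, (φ (B + i) (B + i - γ + α) - φ (B + i) (B + i - γ + α + 1)) ≤
        ∑ i ∈ range L, (h (A + i + 1 + α - γ) (A + i + 1) - h (A + i + α - γ) (A + i + 1)) +
         ∑ i ∈ range L, (h (A + i + 1) (A + i + 1 + γ - α) - h (A + i + 1) (A + i + γ - α)) := by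
    intro α hα
    rw [mem_range] at hα
    have s1 := RealLem_sub (fun a => h (a + 1 + α - γ) (a + 1) - h (a + α - γ) (a + 1))
      (fun a => by
        have := hm1 (a + α - γ) (a + 1)
        rw [show a + α - γ + 1 = a + 1 + α - γ by ring] at this
        linarith) A B m L (by omega) (by omega)
    have s2 := RealLem_sub (fun a => h (a + 1) (a + 1 + γ - α) - h (a + 1) (a + γ - α))
      (fun a => by
        have := hm2 (a + 1) (a + γ - α)
        rw [show a + γ - α + 1 = a + 1 + γ - α by ring] at this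
        linarith) A (B + α - γ) m L (by omega) (by omega)
    have t := RealLem_tel (fun a => h (a + α - γ) a) B m
    have m1 : h (B + α - γ) B ≤ h (A + 2 * W) (A + 2 * W) :=
      (RealLem_mono (fun a => h a B) (fun a => hm1 a B) (by omega)).trans
        (RealLem_mono (fun b => h (A + 2 * W) b) (fun b => hm2 _ b) (by omega))
    have eq : ∑ i ∈ range m, (h (B + i + 1 + α - γ) (B + i + 1) - h (B + i + α - γ) (B + i)) -
        ∑ i ∈ range m, (φ (B + i) (B + i - γ + α) - φ (B + i) (B + i - γ + α + 1)) =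
        ∑ i ∈ range m, (h (B + i + 1 + α - γ) (B + i + 1) - h (B + i + α - γ) (B + i + 1)) +
        ∑ i ∈ range m, (h (B + α - γ + i + 1) (B + α - γ + i + 1 + γ - α) -
          h (B + α - γ + i + 1) (B + α - γ + i + γ - α)) := by
      rw [← sum_sub_distrib, ← sum_add_distrib]
      refine sum_congr rfl fun i _ => ?_
      simp only [hφ]
      rw [show B + α - γ + i + 1 + γ - α = B + i + 1 by ring,
        show B + α - γ + i + γ - α = B + i by ring,
        show B + α - γ + i + 1 = B + i + 1 + α - γ by ring,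
        show B + i - γ + α + 1 = B + i + 1 + α - γ by ring,
        show B + i - γ + α = B + i + α - γ by ring]
      ring
    rw [hh] at t
    linarith
  have s := sum_le_sum key
  rw [sum_sub_distrib, sum_const, card_range, nsmul_eq_mul, sum_comm] at s
  have mix : ∑ i ∈ range m, ∑ α ∈ range W,
      (φ (B + i) (B + i - γ + α) - φ (B + i) (B + i - γ + α + 1)) ≤ y := by
    have a1 : ∀ i ∈ range m, ∑ α ∈ range W,
        (φ (B + i) (B + i - γ + α) - φ (B + i) (B + i - γ + α + 1)) ≤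
          h A (B + i + 1) - h A (B + i) := by
      intro i _
      have t := RealLem_tel (fun p => -φ (B + i) p) (B + i - γ) W
      have e1 : ∑ α ∈ range W, (φ (B + i) (B + i - γ + α) - φ (B + i) (B + i - γ + α + 1)) =
          ∑ α ∈ range W, (-φ (B + i) (B + i - γ + α + 1) - -φ (B + i) (B + i - γ + α)) :=
        sum_congr rfl fun α _ => by ring
      rw [e1, t]
      have b1 := φ0 (B + i) (B + i - γ + W)
      have b2 := φm (B + i) A (B + i - γ) (by omega)
      simp only [hφ] at b1 b2 ⊢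
      linarith
    refine (sum_le_sum a1).trans ?_
    rw [RealLem_tel (fun b => h A b) B m, hh]
    linarith [h0 A B]
  linarith

theorem real_lemma {n lp : ℤ → ℝ} {h : ℤ → ℤ → ℝ} {x y c e : ℝ} {W S D T : ℕ} (hW : 0 < W)
    (hS : 0 < S) (hD : 0 < D) (hDT : D < T) (he : 0 ≤ e)
    (hlp : ∀ a, n a ≤ lp a) (h0 : ∀ a b, 0 ≤ h a b) (hy : ∀ a b, h a b ≤ y)
    (hm1 : ∀ a b, h a b ≤ h (a + 1) b) (hm2 : ∀ a b, h a b ≤ h a (b + 1))
    (hsub : ∀ a b, h (a + 1) (b + 1) + h a b ≤ h (a + 1) b + h a (b + 1))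
    (hn : ∀ a, (T : ℤ) ≤ a → n a = x) (hh : ∀ a b, (T : ℤ) ≤ b → h a b = y)
    (h1 : ∀ a, (W : ℝ) ^ 2 * lp a + ∑ α ∈ range W, ∑ γ ∈ range W,
        (h (a + 1 + α - γ) (a + 1) + h (a + 1) (a + 1 + α - γ)) ≤
      (W : ℝ) ^ 2 * (n (a + 1) + e) + ∑ α ∈ range W, ∑ γ ∈ range W,
        (h (a + α - γ) (a + 1) + h (a + 1) (a + α - γ)))
    (h2 : ∀ a, x + h (a - W) (a - W) ≤ n a + c + y) :
    lp 0 + lp D ≤ n 0 + n D + c + y / S + y / W + e * (T + W + 3 * W * S) := by
  obtain ⟨j, hj1, hjS, hj⟩ := RealLem_pigeon (fun a => h a a) (fun a => h0 a a) (fun a => hy a a)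
    W S hS
  set K : ℕ := 3 * W * j with hK
  have hKW : W ≤ K := by rw [hK]; nlinarith
  have hKS : K ≤ 3 * W * S := by rw [hK]; exact Nat.mul_le_mul_left _ hjS
  set A : ℤ := -(K : ℤ) with hA
  obtain ⟨m, hm⟩ : ∃ m : ℕ, m + W = T + K := ⟨T + K - W, by omega⟩
  set L : ℕ := m + 2 * W with hL
  have hhm : ∀ a, h a (A + W + m) = y := fun a => hh a _ (by omega)
  set I1 : ℤ → ℕ → ℕ → ℝ := fun a α γ => h (a + 1 + α - γ) (a + 1) - h (a + α - γ) (a + 1)
    with hI1
  set I2 : ℤ → ℕ → ℕ → ℝ := fun a α γ => h (a + 1) (a + 1 + α - γ) - h (a + 1) (a + α - γ)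
    with hI2
  have step : ∀ i ∈ range L, (W : ℝ) ^ 2 * (lp (A + i) - n (A + i)) +
      (∑ α ∈ range W, ∑ γ ∈ range W, I1 (A + i) α γ +
        ∑ α ∈ range W, ∑ γ ∈ range W, I2 (A + i) α γ) ≤
      (W : ℝ) ^ 2 * (n (A + i + 1) - n (A + i)) + (W : ℝ) ^ 2 * e := by
    intro i _
    have a1 := h1 (A + i)
    have a2 : ∑ α ∈ range W, ∑ γ ∈ range W, I1 (A + i) α γ +
        ∑ α ∈ range W, ∑ γ ∈ range W, I2 (A + i) α γ =
        ∑ α ∈ range W, ∑ γ ∈ range W,
          (h (A + i + 1 + α - γ) (A + i + 1) + h (A + i + 1) (A + i + 1 + α - γ)) -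
        ∑ α ∈ range W, ∑ γ ∈ range W,
          (h (A + i + α - γ) (A + i + 1) + h (A + i + 1) (A + i + α - γ)) := by
      rw [← sum_add_distrib, ← sum_sub_distrib]
      refine sum_congr rfl fun α _ => ?_
      rw [← sum_add_distrib, ← sum_sub_distrib]
      refine sum_congr rfl fun γ _ => ?_
      simp only [hI1, hI2]; ring
    rw [a2]; linarith
  have s := sum_le_sum step
  rw [sum_add_distrib, sum_add_distrib, sum_add_distrib, ← mul_sum, ← mul_sum,
    RealLem_tel n A L, hn (A + L) (by omega), sum_const, card_range, nsmul_eq_mul] at s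
  -- the local terms
  have l1 : (lp 0 - n 0) + (lp D - n D) ≤ ∑ i ∈ range L, (lp (A + i) - n (A + i)) := by
    have hne : K ≠ K + D := by omega
    have e1 : ∑ i ∈ ({K, K + D} : Finset ℕ), (lp (A + i) - n (A + i)) =
        (lp 0 - n 0) + (lp D - n D) := by
      rw [sum_pair hne, show A + (K : ℤ) = 0 by omega,
        show A + ((K + D : ℕ) : ℤ) = D by push_cast; omega]
    rw [← e1]
    refine sum_le_sum_of_subset_of_nonneg (fun i hi => ?_) fun i _ _ => sub_nonneg.2 (hlp _)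
    rw [mem_insert, mem_singleton] at hi
    rw [mem_range]; omega
  -- the increments
  have l2 : (W : ℝ) * (W * (y - h (A + 2 * W) (A + 2 * W)) - y) ≤
      ∑ i ∈ range L, ∑ α ∈ range W, ∑ γ ∈ range W, I1 (A + i) α γ +
        ∑ i ∈ range L, ∑ α ∈ range W, ∑ γ ∈ range W, I2 (A + i) α γ := by
    have r := sum_le_sum fun γ (hγ : γ ∈ range W) =>
      RealLem_row (L := L) h0 hm1 hm2 hsub hhm hL (mem_range.1 hγ)
    rw [sum_const, card_range, nsmul_eq_mul] at r
    refine r.trans (le_of_eq ?_)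
    have e1 : ∑ i ∈ range L, ∑ α ∈ range W, ∑ γ ∈ range W, I1 (A + i) α γ =
        ∑ γ ∈ range W, ∑ α ∈ range W, ∑ i ∈ range L, I1 (A + i) α γ := by
      rw [sum_comm]
      rw [sum_congr rfl fun α _ => sum_comm]
      rw [sum_comm]
    have e2 : ∑ i ∈ range L, ∑ α ∈ range W, ∑ γ ∈ range W, I2 (A + i) α γ =
        ∑ γ ∈ range W, ∑ α ∈ range W, ∑ i ∈ range L, I2 (A + i) γ α := by
      rw [sum_comm]
      exact sum_congr rfl fun α _ => sum_comm
    rw [e1, e2, ← sum_add_distrib]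
    refine sum_congr rfl fun γ _ => ?_
    rw [← sum_add_distrib]
  have a2 := h2 A
  have hW' : (0 : ℝ) < W := by exact_mod_cast hW
  have hLe : (L : ℝ) ≤ T + W + 3 * W * S := by
    have : L ≤ T + W + 3 * W * S := by omega
    exact_mod_cast this
  have hLe' : (L : ℝ) * e ≤ e * (T + W + 3 * W * S) := by nlinarith
  have hW2 : (0 : ℝ) < (W : ℝ) ^ 2 := by positivity
  have e3 : (W : ℝ) * (W * (y - h (A + 2 * W) (A + 2 * W)) - y) =
      (W : ℝ) ^ 2 * (y - h (A + 2 * W) (A + 2 * W) - y / W) := by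
    field_simp
  have fin : (W : ℝ) ^ 2 * ((lp 0 - n 0) + (lp D - n D) +
      (y - h (A + 2 * W) (A + 2 * W) - y / W)) ≤ (W : ℝ) ^ 2 * (x - n A + L * e) := by
    have := mul_le_mul_of_nonneg_left l1 hW2.le
    nlinarith
  have fin2 := le_of_mul_le_mul_left fin hW2
  linarith

end Pool.Agent.FusfFlat
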