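import Pool.Agent.P.MP_8fb1ed_pr.Fl.Step
import Pool.Agent.P.MP_8fb1ed_pr.Fl.Avg
import Pool.Agent.P.MP_8fb1ed_pr.Fl.RealLem

/-! The Bethe bound on the local increments (paper 5.6). -/

open MeasureTheory Filter Topology Relation
open scoped ENNReal

namespace Pool.Agent.FusfFlat

open Pool.Agent.FusfTree

variable {Γ Ω V ι : Type*} [Group Γ] [Countable Γ] [MeasurableSpace Ω] [MulAction Γ V]
  [MulAction Γ ι] [Countable V] [Countable ι] {p : Par V ι} {β : ι → Γ} {k : ℕ} {P : Measure Ω}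
  [IsProbabilityMeasure P] {a : Γ → Ω → Ω} {d : Ω → Dat V ι}

/-- The total error of the Bethe count. -/
noncomputable def errB (p : Par V ι) (k S : ℕ) : ℝ≥0∞ :=
  (k * p.C ^ 2 : ℕ) * ((2 * p.J + 1 : ℕ) / (p.N : ℝ≥0∞) + (S : ℝ≥0∞)⁻¹ + (p.W : ℝ≥0∞)⁻¹ +
    (p.D + p.D0 + 1 + p.W + 3 * p.W * S : ℕ) / (p.J : ℝ≥0∞))

theorem BetheF_toReal_le {x y : ℝ≥0∞} (hx : x ≠ ⊤) (hy : y ≠ ⊤) (h : x.toReal ≤ y.toReal) :
    x ≤ y := (ENNReal.toReal_le_toReal hx hy).1 h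

theorem bethe (h : Sys p β k P a d) (hr : Res p P a d) (hD : 0 < p.D) {S : ℕ} (hS : 0 < S) :
    nL p P β d 0 + nL p P β d p.D + nB P β d ≤
      nN p P β d 0 + nN p P β d p.D + nK p P β + errB p k S := by
  have hW := hr.W_pos
  have hJ := hr.J_pos
  have hN : 0 < p.N := hJ.trans_le hr.J_le
  have fV : ∀ {K : Ω → V → Sub ι}, (∀ ω v, K ω v ≤ coord ((d ω).X v)) → fdim P β K ≠ ⊤ :=
    fun hK => ne_top_of_le_ne_top (ENNReal.natCast_ne_top _) (h.fdim_V_le hK)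
  have fN : ∀ s, nN p P β d s ≠ ⊤ := fun s =>
    fV fun ω v => ((h.good ω).Mv_le v s).trans (units_le_coord _)
  have fL : ∀ s, nL p P β d s ≠ ⊤ := fun s => fV fun ω v =>
    (sup_le ((h.good ω).Mv_le v s) (Dat.Ut_le _ _ _ _)).trans (units_le_coord _)
  have fX : nX P β d ≠ ⊤ := fV fun _ _ => le_rfl
  have bY : nY p P β d ≤ (k * p.C ^ 2 : ℕ) := h.fdim_E_le fun _ _ => onIf_le fun _ => le_rfl
  have fY : nY p P β d ≠ ⊤ := ne_top_of_le_ne_top (ENNReal.natCast_ne_top _) bY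
  have fH : ∀ s s', nH p P β d s s' ≠ ⊤ := fun s s' => ne_top_of_le_ne_top fY (nH_le h s s')
  have fA : nA p P β d ≠ ⊤ := ne_top_of_le_ne_top (ENNReal.natCast_ne_top _)
    (h.fdim_E_le fun _ _ => onIf_le fun _ => le_rfl)
  have fK : nK p P β ≠ ⊤ := ne_top_of_le_ne_top (ENNReal.natCast_ne_top _)
    (h.fdim_one_le fun _ => le_rfl)
  have fB : nB P β d ≠ ⊤ := ne_top_of_le_ne_top (ENNReal.natCast_ne_top _)
    (h.fdim_one_le fun ω => (h.good ω).BB_le.trans (units_le_coord _))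
  have J0 : (p.J : ℝ≥0∞) ≠ 0 := by exact_mod_cast hJ.ne'
  have N0 : (p.N : ℝ≥0∞) ≠ 0 := by exact_mod_cast hN.ne'
  have W0 : (p.W : ℝ≥0∞) ≠ 0 := by exact_mod_cast hW.ne'
  have S0 : (S : ℝ≥0∞) ≠ 0 := by exact_mod_cast hS.ne'
  set m : ℕ := k * p.C ^ 2 with hm
  have fe : (m : ℝ≥0∞) / (p.J : ℝ≥0∞) ≠ ⊤ := ENNReal.div_ne_top (ENNReal.natCast_ne_top _) J0
  have key := real_lemma (n := fun s => (nN p P β d s).toReal)
    (lp := fun s => (nL p P β d s).toReal) (h := fun s s' => (nH p P β d s s').toReal)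
    (x := (nX P β d).toReal) (y := (nY p P β d).toReal)
    (c := (nK p P β).toReal + (nA p P β d).toReal - (nB P β d).toReal) (e := (m : ℝ) / p.J)
    (W := p.W) (S := S) (D := p.D) (T := p.D + p.D0 + 1) hW hS hD (by omega) (by positivity)
    (fun s => ENNReal.toReal_mono (fL s) (fdim_mono' fun _ _ => le_sup_left))
    (fun _ _ => ENNReal.toReal_nonneg) (fun s s' => ENNReal.toReal_mono fY (nH_le h s s'))
    (fun s s' => ENNReal.toReal_mono (fH _ _) (nH_mono h (by omega) le_rfl))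
    (fun s s' => ENNReal.toReal_mono (fH _ _) (nH_mono h le_rfl (by omega)))
    (fun s s' => by
      have := ENNReal.toReal_mono (ENNReal.add_ne_top.2 ⟨fH _ _, fH _ _⟩) (nH_sub h s s')
      rwa [ENNReal.toReal_add (fH _ _) (fH _ _), ENNReal.toReal_add (fH _ _) (fH _ _)] at this)
    (fun s hs => by rw [nN_top h (by push_cast at hs; omega)])
    (fun s s' hs => by rw [nH_top h s (by push_cast at hs; omega)])
    (fun s => by
      have h1 := mul_le_mul_right (step1 h hr s) ((p.W : ℝ≥0∞) ^ 2)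
      rw [mul_add, nE_avg h hr, add_right_comm, mul_add, nE_avg h hr] at h1
      have fS : ∀ s s' : ℤ, ∑ α ∈ Finset.range p.W, ∑ γ ∈ Finset.range p.W,
          (nH p P β d (s + α - γ) s' + nH p P β d s' (s + α - γ)) ≠ ⊤ := fun s s' =>
        ENNReal.sum_ne_top.2 fun _ _ => ENNReal.sum_ne_top.2 fun _ _ =>
          ENNReal.add_ne_top.2 ⟨fH _ _, fH _ _⟩
      have eS : ∀ s s' : ℤ, (∑ α ∈ Finset.range p.W, ∑ γ ∈ Finset.range p.W,
          (nH p P β d (s + α - γ) s' + nH p P β d s' (s + α - γ))).toReal =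
          ∑ α ∈ Finset.range p.W, ∑ γ ∈ Finset.range p.W,
            ((nH p P β d (s + α - γ) s').toReal + (nH p P β d s' (s + α - γ)).toReal) := by
        intro s s'
        rw [ENNReal.toReal_sum fun _ _ => ENNReal.sum_ne_top.2 fun _ _ =>
          ENNReal.add_ne_top.2 ⟨fH _ _, fH _ _⟩]
        refine Finset.sum_congr rfl fun _ _ => ?_
        rw [ENNReal.toReal_sum fun _ _ => ENNReal.add_ne_top.2 ⟨fH _ _, fH _ _⟩]
        exact Finset.sum_congr rfl fun _ _ => ENNReal.toReal_add (fH _ _) (fH _ _)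
      have fW : (p.W : ℝ≥0∞) ^ 2 ≠ ⊤ := by finiteness
      have f1 : (p.W : ℝ≥0∞) ^ 2 * (nN p P β d (s + 1) + (m : ℝ≥0∞) / p.J) ≠ ⊤ :=
        ENNReal.mul_ne_top fW (ENNReal.add_ne_top.2 ⟨fN _, fe⟩)
      have h2 := ENNReal.toReal_mono (ENNReal.add_ne_top.2 ⟨f1, fS _ _⟩) h1
      rw [ENNReal.toReal_add (ENNReal.mul_ne_top fW (fL _)) (fS _ _),
        ENNReal.toReal_add f1 (fS _ _), eS, eS, ENNReal.toReal_mul, ENNReal.toReal_mul,
        ENNReal.toReal_add (fN _) fe] at h2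
      simpa using h2)
    (fun s => by
      have f1 := ENNReal.add_ne_top.2 ⟨fN s, fK⟩
      have f2 := ENNReal.add_ne_top.2 ⟨f1, fA⟩
      have f3 := ENNReal.add_ne_top.2 ⟨fX, fH (s - p.W) (s - p.W)⟩
      have h2 := ENNReal.toReal_mono (ENNReal.add_ne_top.2 ⟨f2, fY⟩) (step2 h s)
      rw [ENNReal.toReal_add f3 fB, ENNReal.toReal_add fX (fH _ _), ENNReal.toReal_add f2 fY,
        ENNReal.toReal_add f1 fA, ENNReal.toReal_add (fN _) fK] at h2
      linarith)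
  have hY : (nY p P β d).toReal ≤ m := by
    simpa using ENNReal.toReal_mono (ENNReal.natCast_ne_top _) bY
  have f0 : ((2 * p.J + 1 : ℕ) : ℝ≥0∞) / p.N ≠ ⊤ :=
    ENNReal.div_ne_top (ENNReal.natCast_ne_top _) N0
  have hA : (nA p P β d).toReal ≤ m * (((2 * p.J + 1 : ℕ) : ℝ) / p.N) := by
    have := ENNReal.toReal_mono (ENNReal.mul_ne_top (ENNReal.natCast_ne_top _) f0) (nA_le h hr)
    rwa [ENNReal.toReal_mul, ENNReal.toReal_div, ENNReal.toReal_natCast, ENNReal.toReal_natCast,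
      ENNReal.toReal_natCast] at this
  have f1 := ENNReal.add_ne_top.2 ⟨f0, ENNReal.inv_ne_top.2 S0⟩
  have f2 := ENNReal.add_ne_top.2 ⟨f1, ENNReal.inv_ne_top.2 W0⟩
  have f3 : ((p.D + p.D0 + 1 + p.W + 3 * p.W * S : ℕ) : ℝ≥0∞) / p.J ≠ ⊤ :=
    ENNReal.div_ne_top (ENNReal.natCast_ne_top _) J0
  have fE : errB p k S ≠ ⊤ :=
    ENNReal.mul_ne_top (ENNReal.natCast_ne_top _) (ENNReal.add_ne_top.2 ⟨f2, f3⟩)
  have eE : (errB p k S).toReal = m * (((2 * p.J + 1 : ℕ) : ℝ) / p.N + (S : ℝ)⁻¹ + (p.W : ℝ)⁻¹ +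
      ((p.D + p.D0 + 1 + p.W + 3 * p.W * S : ℕ) : ℝ) / p.J) := by
    unfold errB
    rw [ENNReal.toReal_mul, ENNReal.toReal_add f2 f3,
      ENNReal.toReal_add f1 (ENNReal.inv_ne_top.2 W0),
      ENNReal.toReal_add f0 (ENNReal.inv_ne_top.2 S0)]
    simp only [ENNReal.toReal_div, ENNReal.toReal_inv, ENNReal.toReal_natCast, hm]
  have g1 := ENNReal.add_ne_top.2 ⟨fL 0, fL p.D⟩
  have g2 := ENNReal.add_ne_top.2 ⟨fN 0, fN p.D⟩
  have g3 := ENNReal.add_ne_top.2 ⟨g2, fK⟩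
  refine BetheF_toReal_le (ENNReal.add_ne_top.2 ⟨g1, fB⟩) (ENNReal.add_ne_top.2 ⟨g3, fE⟩) ?_
  rw [ENNReal.toReal_add g1 fB, ENNReal.toReal_add (fL _) (fL _), ENNReal.toReal_add g3 fE,
    ENNReal.toReal_add g2 fK, ENNReal.toReal_add (fN _) (fN _), eE]
  have y1 : (nY p P β d).toReal / S ≤ m * (S : ℝ)⁻¹ := by
    rw [div_eq_mul_inv]; gcongr
  have y2 : (nY p P β d).toReal / p.W ≤ m * (p.W : ℝ)⁻¹ := by
    rw [div_eq_mul_inv]; gcongr
  have y3 : (m : ℝ) / p.J * (((p.D + p.D0 + 1 : ℕ) : ℝ) + p.W + 3 * p.W * S) =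
      m * (((p.D + p.D0 + 1 + p.W + 3 * p.W * S : ℕ) : ℝ) / p.J) := by
    push_cast; ring
  rw [y3] at key
  linarith

end Pool.Agent.FusfFlat
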