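import Pool.Agent.P.MP_8fb1ed_pr.Fl.Dim

/-! The summation operator and the biorthogonality inequality (paper 5.4). -/

open MeasureTheory Filter Topology Relation
open scoped ENNReal

namespace Pool.Agent.FusfFlat

open Pool.Agent.FusfTree

theorem Biorth_sum_mem {ι J : Type*} {K : Sub ι} {f : J → L2 ι} {s : L2 ι} (h : HasSum f s)
    (hf : ∀ j, f j ∈ cl K) : s ∈ cl K :=
  (Submodule.isClosed_topologicalClosure K).mem_of_tendsto h
    (Eventually.of_forall fun _ => Submodule.sum_mem _ fun j _ => hf j)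

/-- A vector of `cl L` orthogonal to the complement of `K` in `cl L` lies in `cl K`. -/
theorem Biorth_mem {ι : Type*} {K L : Sub ι} (h : K ≤ cl L) {s : L2 ι} (hs : s ∈ cl L)
    (h0 : proj (cl L ⊓ Kᗮ) s = 0) : s ∈ cl K := by
  have h1 : s - proj K s ∈ Kᗮ := by
    have := proj_mem_cl Kᗮ s
    rwa [cl_orth, proj_orth] at this
  have h2 : s - proj K s ∈ cl L := Submodule.sub_mem _ hs (cl_le_cl h (proj_mem_cl _ _))
  have h3 : inner ℝ (s - proj K s) s = 0 :=
    (Submodule.mem_orthogonal _ _).1 (proj_eq_zero_iff.1 h0) _ ⟨h2, h1⟩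
  have h4 : inner ℝ (proj K s) (s - proj K s) = 0 := by
    rw [← Submodule.orthogonal_closure] at h1
    exact (Submodule.mem_orthogonal _ _).1 h1 _ (proj_mem_cl _ _)
  have h5 : inner ℝ (s - proj K s) (s - proj K s) = 0 := by
    rw [inner_sub_right, h3, real_inner_comm, h4, sub_zero]
  have h6 := sub_eq_zero.1 (inner_self_eq_zero.1 h5)
  rw [h6]
  exact proj_mem_cl _ _

section
variable {Γ Ω ι J J' : Type*} [Group Γ] [Countable Γ] [MeasurableSpace Ω] [MulAction Γ ι]
  [MulAction Γ J] [MulAction Γ J'] [Countable ι] [Countable J] [Countable J'] {a : Γ → Ω → Ω}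
  {P : Measure Ω} {β : ι → Γ}

open Classical in
/-- The summation operator along `p : J → J'` for supports of bounded multiplicity. -/
theorem exists_sum (p : J → J') (hp : ∀ (g : Γ) j, p (g • j) = g • p j)
    {U : Ω → J → ι → Prop} (hU : RRel a U) (C : ℕ) (hC : ∀ ω i, {j | U ω j i}.encard ≤ C) :
    ∃ S : Ω → L2 (J × ι) →L[ℝ] L2 (J' × ι), ROp a S ∧ ∀ ω w,
      (∀ j, slice j w ∈ coord (U ω j)) → ∀ j',
        HasSum (fun j => if p j = j' then slice j w else 0) (slice j' (S ω w)) := by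
  have hR : RRel a fun ω (k : J × ι) (m : J' × ι) => U ω k.1 k.2 ∧ m = (p k.1, k.2) := by
    refine ⟨fun k m => (hU.meas k.1 k.2).and measurable_const, fun g ω k m => ?_⟩
    refine and_congr (hU.eqv g ω k.1 k.2) ?_
    have : (p (g • k).1, (g • k).2) = g • (p k.1, k.2) := by
      rw [Prod.smul_fst, Prod.smul_snd, hp, Prod.smul_mk]
    rw [this]
    exact (MulAction.injective g).eq_iff
  obtain ⟨X, hX, h1, h2⟩ := exists_pull hR (fun ω k m m' h h' => h.2.trans h'.2.symm) C
    (fun ω m => by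
      refine le_trans (Set.encard_le_encard_of_injOn (f := Prod.fst) ?_ ?_) (hC ω m.2)
      · rintro k ⟨hk, rfl⟩
        exact hk
      · rintro k ⟨_, hk⟩ k' ⟨_, hk'⟩ hkk
        exact Prod.ext hkk (Prod.mk.inj (hk.symm.trans hk')).2)
  refine ⟨fun ω => ContinuousLinearMap.adjoint (X ω), hX.adjoint, fun ω w hw j' => ?_⟩
  let T : L2 (J × ι) →L[ℝ] L2 ι :=
    (⟨slice j', continuous_slice j'⟩ : L2 (J' × ι) →L[ℝ] L2 ι).comp
      (ContinuousLinearMap.adjoint (X ω))
  have hT : ∀ k i', T (dl k) i' = X ω (dl (j', i')) k := fun k i' =>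
    OpAlgAux.adjoint_entry (X ω) (j', i') k
  have h3 : HasSum (fun k => T (w k • dl k)) (T w) := (OpAlgAux.hasSum_dl w).mapL T
  refine h3.prod_fiberwise fun j => ?_
  have h4 : ∀ i, T (w (j, i) • dl (j, i)) = if p j = j' then w (j, i) • dl i else 0 := by
    intro i
    by_cases hu : U ω j i
    · rw [map_smul]
      ext i'
      rw [lp.coeFn_smul, Pi.smul_apply, hT, h1 ω _ (j, i) (p j, i) ⟨hu, rfl⟩, OpAlgAux.dl_apply]
      by_cases hj : p j = j'
      · rw [if_pos hj, lp.coeFn_smul, Pi.smul_apply, OpAlgAux.dl_apply]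
        by_cases hi : i' = i
        · rw [if_pos hi, if_pos (by rw [hj, hi])]
        · rw [if_neg hi, if_neg fun h => hi (congrArg Prod.snd h).symm]
      · rw [if_neg hj, if_neg fun h => hj (congrArg Prod.fst h)]
        simp
    · have h0 : w (j, i) = 0 := mem_coord.1 (hw j) i hu
      simp [h0]
  simp only [h4]
  by_cases hj : p j = j'
  · simp only [if_pos hj]
    exact OpAlgAux.hasSum_dl (slice j w)
  · simp only [if_neg hj]
    exact hasSum_zero


end

variable {Γ Ω ι J V : Type*} [Group Γ] [Countable Γ] [MeasurableSpace Ω] [MulAction Γ ι]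
  [MulAction Γ J] [MulAction Γ V] [Countable ι] [Countable J] [Countable V] {a : Γ → Ω → Ω}
  {P : Measure Ω} {β : ι → Γ}

/-- Adding the subspaces `D j` (`p j = v`) to `V₀ v` raises the dimension by at least the sum of
the parts of `D j` that are not in the closure `O j` of all the rest. -/
theorem biorth (ha : ∀ g, MeasurePreserving (a g) P P) (hβ : IsBase β) (p : J → V)
    (hp : ∀ (g : Γ) j, p (g • j) = g • p j) {U : Ω → J → ι → Prop} (hU : RRel a U) (C : ℕ)
    (hC : ∀ ω i, {j | U ω j i}.encard ≤ C) {D O : Ω → J → Sub ι} {V₀ V₁ : Ω → V → Sub ι}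
    (hD : RFam a D) (hO : RFam a O) (h₀ : RFam a V₀) (h₁ : RFam a V₁)
    (hDU : ∀ ω j, D ω j ≤ coord (U ω j)) (h01 : ∀ ω v, V₀ ω v ≤ cl (V₁ ω v))
    (hD1 : ∀ ω j, D ω j ≤ cl (V₁ ω (p j)))
    (hO0 : ∀ ω j, D ω j ≠ ⊥ → V₀ ω (p j) ≤ cl (O ω j))
    (hOD : ∀ ω j j', D ω j ≠ ⊥ → j' ≠ j → p j' = p j → D ω j' ≤ cl (O ω j)) :
    fdim P β V₀ + fdim P β D ≤
      fdim P β V₁ + fdim P β fun ω j => cl (D ω j) ⊓ cl (O ω j) := by
  classical
  obtain ⟨S, hS, hsum⟩ := exists_sum p hp hU C hC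
  have hDO := hD.inf hO
  have hE := hD.inf_orth hDO
  have hF := h₁.inf_orth h₀
  have e1 := fdim_add_orth (P := P) (β := β) (L := D) hDO.meas fun ω j => inf_le_left
  have e2 := fdim_add_orth (P := P) (β := β) h₀.meas h01
  have key := dim_le ha (isBase_snd hβ) (isBase_snd hβ) hE.rsub hF.rsub (hF.rsub.rop.comp hS)
    (fun ω v _ => by
      have := proj_mem_cl (fam fun v => cl (V₁ ω v) ⊓ (V₀ ω v)ᗮ) (S ω v)
      rwa [cl, (isClosed_fam _).submodule_topologicalClosure_eq] at this)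
  rw [dim_fam, dim_fam, dim_bot, add_zero] at key
  · rw [e1, e2]
    calc _ = fdim P β V₀ + (fdim P β fun ω j => cl (D ω j) ⊓ (cl (D ω j) ⊓ cl (O ω j))ᗮ)
          + fdim P β fun ω j => cl (D ω j) ⊓ cl (O ω j) := by ring
      _ ≤ _ := by gcongr
  intro ω
  rw [eq_bot_iff]
  rintro w ⟨hw, hk⟩
  have hw1 : ∀ j, slice j w ∈ cl (D ω j) := fun j => cl_le_cl inf_le_left (mem_fam.1 hw j)
  have hw2 : ∀ j, slice j w ∈ (cl (D ω j) ⊓ cl (O ω j))ᗮ := fun j => by
    rw [← cl_orth]
    exact cl_mono inf_le_right (mem_fam.1 hw j)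
  have hw3 : ∀ j, slice j w ∈ coord (U ω j) := fun j => by
    rw [← cl_coord]
    exact cl_mono (hDU ω j) (hw1 j)
  have hk' : proj (fam fun v => cl (V₁ ω v) ⊓ (V₀ ω v)ᗮ) (S ω w) = 0 := hk
  have hs0 : ∀ v, slice v (S ω w) ∈ cl (V₀ ω v) := by
    intro v
    refine Biorth_mem (h01 ω v) (Biorth_sum_mem (hsum ω w hw3 v) fun j => ?_) ?_
    · split_ifs with hj
      · rw [← hj]
        exact cl_le_cl (hD1 ω j) (hw1 j)
      · exact Submodule.zero_mem _
    · rw [← slice_proj_fam (fun v => cl (V₁ ω v) ⊓ (V₀ ω v)ᗮ), hk', map_zero]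
  have hz : ∀ j, slice j w = 0 := by
    intro j
    by_cases hb : D ω j = ⊥
    · have := hw1 j
      rw [hb] at this
      have h2 : cl (⊥ : Sub ι) = ⊥ := IsClosed.submodule_topologicalClosure_eq isClosed_singleton
      rwa [h2, Submodule.mem_bot] at this
    have h1 := Biorth_sum_mem (K := O ω j) ((hsum ω w hw3 (p j)).update j 0) fun j' => by
      by_cases hj : j' = j
      · rw [hj, Function.update_self]
        exact Submodule.zero_mem _
      · rw [Function.update_of_ne hj]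
        split_ifs with hp'
        · exact cl_le_cl (hOD ω j j' hb hj hp') (hw1 j')
        · exact Submodule.zero_mem _
    rw [if_pos rfl] at h1
    have h2 := Submodule.sub_mem _ (cl_le_cl (hO0 ω j hb) (hs0 (p j))) h1
    have h3 : slice j w ∈ cl (O ω j) := by
      convert h2 using 1
      abel
    exact inner_self_eq_zero.1 ((Submodule.mem_orthogonal _ _).1 (hw2 j) _ ⟨hw1 j, h3⟩)
  rw [Submodule.mem_bot]
  ext k
  exact congrArg (fun f : L2 ι => f k.2) (hz k.1)

end Pool.Agent.FusfFlat
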