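import Pool.Agent.P.MP_8fb1ed_pr.Fl.SysMeas

/-! Exactness of the separators (paper 5.3). -/

open MeasureTheory Filter Topology Relation
open scoped ENNReal

namespace Pool.Agent.FusfFlat

open Pool.Agent.FusfTree

variable {Γ Ω V ι : Type*} [Group Γ] [Countable Γ] [MeasurableSpace Ω] [MulAction Γ V]
  [MulAction Γ ι] [Countable V] [Countable ι] {p : Par V ι} {β : ι → Γ} {k : ℕ} {P : Measure Ω}
  [IsProbabilityMeasure P] {a : Γ → Ω → Ω} {d : Ω → Dat V ι}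

/-- Claim A. -/
theorem claimA (h : Sys p β k P a d) (hr : Res p P a d) (s : ℤ) :
    ∀ᵐ ω ∂P, ∀ u v, (d ω).t u v → (d ω).Qp p ((d ω).th v - 1) u v s ≤
      cl ((d ω).msg p u v (s + (d ω).dz u v) ⊔ (d ω).msg p v u (s + 1)) := by
  have hE := hr.flat (fun d v => d.Mt p v s) (fun d => d.YI) (h.aMt s) h.rYI
    (fun ω v => ((h.good ω).Mt_le v s).trans (units_le_coord _))
    (fun ω v i ⟨_, _, hi⟩ => hi.2) (fun ω v S => (h.good ω).Mt_setW v S s) (fun _ _ _ => rfl)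
  have : NeZero p.N := ⟨(hr.J_pos.trans_le hr.J_le).ne'⟩
  refine ae_all_iff.2 fun u => ae_all_iff.2 fun v => ?_
  obtain ⟨up, hup, hd⟩ := hr.rlam u v
  filter_upwards [hup.ae_unf hE] with ω hω huv
  have hg := h.good ω
  have h1 := hg.th_pos v
  have h2 := (hg.th_le v).trans hr.J_le
  have hj : (d ω).th v - 1 < p.N := by omega
  have h3 := hω ⟨_, hj⟩ v
  have hg' := h.good (up ⟨_, hj⟩ ω)
  rw [hd] at h3 hg'
  have h4 := hg'.claimA (u := u) (v := v) huv (by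
    have e1 : ((d ω).setLam u v ((d ω).th v - 1)).lam u v = (d ω).th v - 1 := if_pos ⟨rfl, rfl⟩
    show ((d ω).setLam u v ((d ω).th v - 1)).lam u v + 1 = (d ω).th v
    omega) h3
  rw [hg.Qp_setLam huv, (hg.msg_setLam huv _ _).1, (hg.msg_setLam huv _ _).2] at h4
  exact h4

omit [Countable Γ] [MulAction Γ ι] [IsProbabilityMeasure P] in
open Classical in
theorem Claim_fdim {J : Type*} [Countable J] {K : Ω → J → Sub ι}
    (hK : ∀ j, PMeas fun ω => K ω j) : fdim P β K =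
      ∑' j, ∑' i, ∫⁻ ω, (if β i = 1 then ‖proj (K ω j) (dl i)‖ₑ ^ 2 else 0) ∂P := by
  have hm : ∀ j i, Measurable fun ω =>
      if β i = 1 then ‖proj (K ω j) (dl i)‖ₑ ^ 2 else 0 := fun j i => by
    split_ifs
    · exact (hK j).enorm i
    · exact measurable_const
  unfold fdim
  rw [lintegral_tsum fun j => (Measurable.tsum fun i => hm j i).aemeasurable]
  exact tsum_congr fun j => lintegral_tsum fun i => (hm j i).aemeasurable

theorem Claim_avg (h : Sys p β k P a d) (hr : Res p P a d) (s : ℤ) (c : ℕ) :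
    (p.J : ℝ≥0∞) * fdim P β (fun ω (e : V × V) =>
      onIf ((d ω).nrm p e.1 e.2) ((d ω).Qp p ((d ω).th e.2 - c) e.1 e.2 s)) =
    ∑ j ∈ Finset.range p.J, fdim P β fun ω (e : V × V) =>
      onIf ((d ω).nrm p e.1 e.2) ((d ω).Qp p (j + 1 - c) e.1 e.2 s) := by
  classical
  have : NeZero p.J := ⟨hr.J_pos.ne'⟩
  have m1 := ((h.rQpTh c s).cond h.rnrm).meas
  have m2 := fun j => ((h.rQp j s).cond h.rnrm).meas
  rw [Claim_fdim m1, Finset.sum_congr rfl fun j _ => Claim_fdim (m2 (j + 1 - c)),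
    ← Summable.tsum_finsetSum fun _ _ => ENNReal.summable, ← ENNReal.tsum_mul_left]
  refine tsum_congr fun e => ?_
  rw [← Summable.tsum_finsetSum fun _ _ => ENNReal.summable, ← ENNReal.tsum_mul_left]
  refine tsum_congr fun i => ?_
  by_cases hi : β i = 1
  · simp only [if_pos hi]
    obtain ⟨up, hup, hd⟩ := hr.rth e.2
    rw [hup.lintegral_unf ((m1 e).enorm i), Finset.sum_range]
    refine Finset.sum_congr rfl fun j _ => lintegral_congr fun ω => ?_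
    rw [hd]
    have e1 : ((d ω).setTh e.2 (j + 1)).th e.2 = j + 1 := if_pos rfl
    have e2 : ((d ω).setTh e.2 (j + 1)).nrm p e.1 e.2 ↔ (d ω).nrm p e.1 e.2 := Iff.rfl
    by_cases hn : (d ω).nrm p e.1 e.2
    · rw [onIf_pos hn, onIf_pos (e2.2 hn), e1, (h.good ω).Qp_setTh hn.1]
    · rw [onIf_neg hn, onIf_neg (mt e2.1 hn)]
  · simp only [if_neg hi, lintegral_zero, mul_zero, Finset.sum_const_zero]

/-- Claim B. -/
theorem claimB (h : Sys p β k P a d) (hr : Res p P a d) (s : ℤ) :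
    nQ p P β d s ≤ fdim P β (fun ω (e : V × V) =>
      onIf ((d ω).nrm p e.1 e.2) ((d ω).Qp p ((d ω).th e.2 - 1) e.1 e.2 s)) +
        (k * p.C ^ 2 : ℕ) / (p.J : ℝ≥0∞) := by
  have h0 : (p.J : ℝ≥0∞) ≠ 0 := Nat.cast_ne_zero.2 hr.J_pos.ne'
  have h1 : (p.J : ℝ≥0∞) ≠ ⊤ := ENNReal.natCast_ne_top _
  let φ : ℕ → ℝ≥0∞ := fun j => fdim P β fun ω (e : V × V) =>
    onIf ((d ω).nrm p e.1 e.2) ((d ω).Qp p j e.1 e.2 s)
  have e0 : (p.J : ℝ≥0∞) * nQ p P β d s = ∑ j ∈ Finset.range p.J, φ (j + 1) :=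
    Claim_avg h hr s 0
  have e1 : (p.J : ℝ≥0∞) * _ = ∑ j ∈ Finset.range p.J, φ j := Claim_avg h hr s 1
  have e2 : φ p.J ≤ (k * p.C ^ 2 : ℕ) :=
    h.fdim_E_le fun ω e => onIf_le fun _ => inf_le_right
  rw [← ENNReal.mul_le_mul_iff_right h0 h1, mul_add, ENNReal.mul_div_cancel h0 h1, e0, e1]
  calc ∑ j ∈ Finset.range p.J, φ (j + 1) ≤ ∑ j ∈ Finset.range p.J, φ (j + 1) + φ 0 :=
        le_self_add
    _ = ∑ j ∈ Finset.range p.J, φ j + φ p.J := by
        rw [← Finset.sum_range_succ', Finset.sum_range_succ]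
    _ ≤ _ := add_le_add le_rfl e2

theorem nQ_le (h : Sys p β k P a d) (hr : Res p P a d) (s : ℤ) :
    nQ p P β d s ≤ nE p P β d s (s + 1) + (k * p.C ^ 2 : ℕ) / (p.J : ℝ≥0∞) := by
  refine (claimB h hr s).trans (add_le_add (fdim_mono ?_) le_rfl)
  filter_upwards [claimA h hr s] with ω hω e
  refine onIf_le fun hn => ?_
  rw [onIf_pos hn]
  exact hω e.1 e.2 hn.1

/-- Exactness of the bag spaces on owned coordinates. -/
theorem exact_own (h : Sys p β k P a d) (hr : Res p P a d) (s : ℤ) :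
    ∀ᵐ ω ∂P, ∀ v, ExactAt ((d ω).Mv p v s) (fun i => p.Xh i ∧ p.o i = v) ∧
      ExactAt ((d ω).Mv p v s) fun i => (p.Xh i ∧ p.o i = v) ∧ (d ω).Y i := by
  have e : ∀ (g : Γ) v i, p.Xh (g • i) ∧ p.o (g • i) = g • v ↔ p.Xh i ∧ p.o i = v :=
    fun g v i => by rw [h.Xh_inv, h.o_eqv, smul_left_cancel_iff]
  have hX : ∀ ω v i, p.Xh i ∧ p.o i = v → (d ω).X v i := fun ω v i hi =>
    hi.2 ▸ ((h.good ω).own i).2 hi.1
  have hM : ∀ ω v, (d ω).M0 p v s ≤ coord ((d ω).X v) := fun ω v =>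
    ((h.good ω).M0_le v s).trans (units_le_coord _)
  have h1 := hr.flat (fun d v => d.M0 p v s) (fun _ v i => p.Xh i ∧ p.o i = v) (h.aM0 s)
    ⟨fun _ _ => measurable_const, fun g _ v i => e g v i⟩ hM hX
    (fun ω v S => (h.good ω).M0_setW v S s) (fun _ _ _ => rfl)
  have h2 := hr.flat (fun d v => d.M0 p v s) (fun d v i => (p.Xh i ∧ p.o i = v) ∧ d.Y i)
    (h.aM0 s) ⟨fun _ i => measurable_const.and (h.mY i),
      fun g ω v i => and_congr (e g v i) (h.rY.eqv g ω i)⟩ hM (fun ω v i hi => hX ω v i hi.1)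
    (fun ω v S => (h.good ω).M0_setW v S s) (fun _ _ _ => rfl)
  filter_upwards [h1, h2] with ω h1 h2 v
  exact ⟨h1 v, h2 v⟩

end Pool.Agent.FusfFlat
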