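import Pool.Agent.P.MP_8fb1ed_pr.Fl.Amen

/-! Closure properties of the tree hierarchy. -/

open MeasureTheory Filter Topology Relation
open scoped ENNReal

namespace Pool.Agent.FusfFlat

open Pool.Agent.FusfTree

universe u

theorem Class_mono {C D : ∀ (G : Type u) [Group G], Prop}
    (hCD : ∀ (G : Type u) [Group G], C G → D G) {Γ : Type u} [Group Γ]
    (h : RelTreeable C Γ) : RelTreeable D Γ := by
  intro A ε hε
  obtain ⟨V, inst, v₀, τ, h1, h2, h3⟩ := h A ε hε
  exact ⟨V, inst, v₀, τ, h1, fun v => hCD _ (h2 v), h3⟩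

theorem Class_pull {C D : ∀ (G : Type u) [Group G], Prop} {Γ Q : Type u} [Group Γ] [Group Q]
    (f : Γ →* Q) (h : RelTreeable C Q)
    (hD : ∀ S : Subgroup Q, C S → D (S.comap f)) : RelTreeable D Γ := by
  classical
  intro A ε hε
  obtain ⟨V, inst, v₀, τ, h1, h2, h3, h4, h5, h6⟩ := h (A.image f) ε hε
  refine ⟨V, MulAction.compHom V f, v₀, τ, h1, fun v => ?_, h3, fun g => ?_, h5,
    fun a ha => h6 (f a) (Finset.mem_image_of_mem f ha)⟩
  · exact hD _ (h2 v)
  · have : @vshift Γ V _ (MulAction.compHom V f) g = vshift (f g) := by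
      funext η e
      simp only [vshift, MulAction.compHom_smul_def, map_inv]
    rw [this]
    exact h4 (f g)

theorem Class_det {C : ∀ (G : Type u) [Group G], Prop} {Γ : Type u} [Group Γ]
    (h : ∀ A : Finset Γ, ∃ (V : Type u) (_ : MulAction Γ V) (v₀ : V) (T : SimpleGraph V),
      Countable V ∧ (∀ v : V, C (MulAction.stabilizer Γ v)) ∧ T.IsAcyclic ∧
      (∀ (g : Γ) v w, T.Adj v w → T.Adj (g • v) (g • w)) ∧ ∀ a ∈ A, T.Reachable v₀ (a • v₀)) :
    RelTreeable C Γ := by
  classical
  intro A ε hε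
  obtain ⟨V, inst, v₀, T, h1, h2, h3, h4, h5⟩ := h A
  let η₀ : Cfg V := fun e => decide (e ∈ T.edgeSet)
  have hg : graphOf η₀ = T := by
    have : {e | η₀ e = true} = T.edgeSet := by
      ext e; simp [η₀]
    rw [graphOf, this, SimpleGraph.fromEdgeSet_edgeSet]
  refine ⟨V, inst, v₀, Measure.dirac η₀, h1, h2, inferInstance, fun g => ?_, ?_, fun a ha => ?_⟩
  · have hm : Measurable (vshift g : Cfg V → Cfg V) :=
      measurable_pi_lambda _ fun e => measurable_pi_apply _
    rw [Measure.map_dirac' hm]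
    congr 1
    funext e
    induction e using Sym2.ind with
    | h x y =>
      simp only [vshift, η₀, Sym2.map_mk, SimpleGraph.mem_edgeSet]
      refine decide_eq_decide.2 ⟨fun h => ?_, fun h => h4 _ _ _ h⟩
      simpa using h4 g _ _ h
  · rw [ae_dirac_eq]
    simpa [hg] using h3
  · rw [Measure.dirac_apply, Set.indicator_of_notMem]
    · exact zero_le
    · simpa [hg] using h5 a ha

theorem TreeHier.triv (Γ : Type u) [Group Γ] [Subsingleton Γ] : TreeHier Γ :=
  fun _ h1 _ => h1 Γ inferInstance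

theorem TreeHier.step {Γ : Type u} [Group Γ] (h : RelTreeable TreeHier Γ) : TreeHier Γ :=
  fun C h1 h2 => h2 Γ (Class_mono (fun _ _ hG => hG C h1 h2) h)

theorem TreeHier.of_approx {Γ : Type u} [Group Γ] [Countable Γ] (h : ApproxTreeable Γ) :
    TreeHier Γ := by
  refine TreeHier.step fun A ε hε => ?_
  obtain ⟨τ, h1, h2, h3, h4⟩ := h A ε hε
  refine ⟨Γ, inferInstance, 1, τ, inferInstance, fun v => ?_, h1, h2, h3, fun a ha => ?_⟩
  · have : Subsingleton (MulAction.stabilizer Γ v) := by
      refine ⟨fun x y => Subtype.ext ?_⟩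
      have hx : x.1 * v = v := x.2
      have hy : y.1 * v = v := y.2
      exact mul_right_cancel (hx.trans hy.symm)
    exact TreeHier.triv _
  · simpa using h4 a ha

theorem TreeHier.of_folner {Γ : Type u} [Group Γ] [Countable Γ] (h : Folner Γ) : TreeHier Γ :=
  TreeHier.step (relTreeable_of_folner (fun G _ _ => TreeHier.triv G) h)

theorem TreeHier.of_tree {Γ V : Type u} [Group Γ] [MulAction Γ V] [Countable V]
    (T : SimpleGraph V) (hT : T.IsTree) (hi : ∀ (g : Γ) v w, T.Adj v w → T.Adj (g • v) (g • w))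
    (hs : ∀ v : V, TreeHier (MulAction.stabilizer Γ v)) : TreeHier Γ := by
  refine TreeHier.step (Class_det fun A => ?_)
  obtain ⟨v₀⟩ := hT.connected.nonempty
  exact ⟨V, inferInstance, v₀, T, inferInstance, hs, hT.isAcyclic, hi,
    fun a _ => hT.connected.preconnected _ _⟩

theorem Class_inj {Γ Q : Type u} [Group Γ] [Group Q] (f : Γ →* Q)
    (hf : Function.Injective f) (hQ : TreeHier Q) : TreeHier Γ := by
  refine hQ (fun G _ => ∀ (K : Type u) [Group K] (φ : K →* G), Function.Injective φ → TreeHier K)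
    ?_ ?_ Γ f hf
  · intro G _ hG K _ φ hφ
    have : Subsingleton K := hφ.subsingleton
    exact TreeHier.triv K
  · intro G _ hG K _ φ hφ
    refine TreeHier.step (Class_pull φ hG fun S hS => hS _ (φ.subgroupComap S) ?_)
    intro x y hxy
    exact Subtype.ext (hφ (congrArg Subtype.val hxy))

theorem TreeHier.ext {Γ Q : Type u} [Group Γ] [Group Q] (f : Γ →* Q) (hQ : TreeHier Q)
    (hk : TreeHier f.ker) : TreeHier Γ := by
  refine hQ (fun G _ => ∀ (K : Type u) [Group K] (φ : K →* G), TreeHier φ.ker → TreeHier K)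
    ?_ ?_ Γ f hk
  · intro G _ hG K _ φ hφ
    refine Class_inj ((MonoidHom.id K).codRestrict φ.ker fun x => Subsingleton.elim _ _) ?_ hφ
    intro x y hxy
    exact congrArg Subtype.val hxy
  · intro G _ hG K _ φ hφ
    refine TreeHier.step (Class_pull φ hG fun S hS => hS _ (φ.subgroupComap S) ?_)
    refine Class_inj ((((S.comap φ).subtype).comp (φ.subgroupComap S).ker.subtype).codRestrict
      φ.ker fun x => ?_) ?_ hφ
    · exact congrArg Subtype.val (MonoidHom.mem_ker.1 x.2)
    · intro x y hxy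
      have := congrArg Subtype.val hxy
      exact Subtype.ext (Subtype.ext this)

theorem TreeHier.of_injective {Γ Q : Type u} [Group Γ] [Group Q] (f : Γ →* Q)
    (hf : Function.Injective f) (hQ : TreeHier Q) : TreeHier Γ := Class_inj f hf hQ

theorem TreeHier.of_local {Γ : Type u} [Group Γ] [Countable Γ]
    (h : ∀ H : Subgroup Γ, H.FG → TreeHier H) : TreeHier Γ := by
  refine TreeHier.step (Class_det fun A => ?_)
  let H : Subgroup Γ := Subgroup.closure (A : Set Γ)
  have hH : TreeHier H := h H ⟨A, rfl⟩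
  refine ⟨Γ ⧸ H, inferInstance, ((1 : Γ) : Γ ⧸ H), ⊥, Quotient.countable, fun v => ?_,
    SimpleGraph.isAcyclic_bot, fun g v w hvw => hvw.elim, fun a ha => ?_⟩
  · induction v using QuotientGroup.induction_on with
    | H g =>
      refine Class_inj (((MulAut.conj g⁻¹).toMonoidHom.comp
        (MulAction.stabilizer Γ ((g : Γ) : Γ ⧸ H)).subtype).codRestrict H fun x => ?_) ?_ hH
      · have hx : ((x.1 * g : Γ) : Γ ⧸ H) = (g : Γ ⧸ H) := x.2
        have := QuotientGroup.eq.1 hx.symm
        simpa [mul_assoc] using this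
      · intro x y hxy
        exact Subtype.ext ((MulAut.conj g⁻¹).injective (congrArg Subtype.val hxy))
  · have : a • ((1 : Γ) : Γ ⧸ H) = ((1 : Γ) : Γ ⧸ H) := by
      have h1 : ((a * 1 : Γ) : Γ ⧸ H) = ((1 : Γ) : Γ ⧸ H) := by
        refine (QuotientGroup.eq.2 ?_).symm
        simpa using Subgroup.subset_closure (Finset.mem_coe.2 ha)
      exact h1
    rw [this]

theorem TreeHier.of_finiteIndex {Γ : Type u} [Group Γ] (H : Subgroup Γ) [H.FiniteIndex]
    (h : TreeHier H) : TreeHier Γ := by
  refine TreeHier.ext (MulAction.toPermHom Γ (Γ ⧸ H)) (TreeHier.of_folner ?_) ?_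
  · intro A ε hε
    have := Fintype.ofFinite (Equiv.Perm (Γ ⧸ H))
    refine ⟨Finset.univ, Finset.univ_nonempty, fun a _ => ?_⟩
    simp only [Finset.mem_univ, not_true_eq_false, and_false, Set.ofPred_false, Set.ncard_empty,
      Nat.cast_zero]
    positivity
  · have hle : (MulAction.toPermHom Γ (Γ ⧸ H)).ker ≤ H := by
      rw [← Subgroup.normalCore_eq_ker]
      exact H.normalCore_le
    exact Class_inj (Subgroup.inclusion hle) (Subgroup.inclusion_injective hle) h

end Pool.Agent.FusfFlat
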