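import Pool.Agent.P.MP_8fb1ed_pr.Fl.UniDefs

/-! Co-induction of the flat measures of the stabilisers. -/

open MeasureTheory Filter Topology Relation
open scoped ENNReal

namespace Pool.Agent.FusfFlat

open Pool.Agent.FusfTree

universe u

theorem Coind_meas_pull {A B : Type*} (γ : A → B) :
    Measurable fun (w : B → Prop) (x : A) => w (γ x) :=
  measurable_pi_lambda _ fun x => measurable_pi_apply (γ x)

theorem Coind_meas_lsh {Γ : Type*} [Group Γ] (g : Γ) : Measurable (lsh g) :=
  Coind_meas_pull fun x => g⁻¹ * x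

theorem Coind_measSet {A : Type*} (x : A) : MeasurableSet {w : A → Prop | w x} :=
  measurableSet_setOfPred.2 (measurable_pi_apply x)

theorem Coind_lsh_comp {Γ : Type*} [Group Γ] (g h : Γ) : lsh g ∘ lsh h = lsh (g * h) := by
  funext w x
  simp [lsh, mul_assoc]

theorem Coind_lsh_one {Γ : Type*} [Group Γ] : lsh (1 : Γ) = id := by
  funext w x
  simp [lsh]

theorem Coind_retract {Γ : Type*} [Group Γ] (H : Subgroup Γ) :
    ∃ γ : Γ → H, ∀ (h : H) x, γ ((h : Γ) * x) = h * γ x := by
  let q : Γ → Γ := fun x => (Quotient.mk (QuotientGroup.rightRel H) x).out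
  have hq : ∀ x, x * (q x)⁻¹ ∈ H := fun x =>
    QuotientGroup.rightRel_apply.1 (Quotient.mk_out (s := QuotientGroup.rightRel H) x)
  have hq2 : ∀ (h : H) x, q ((h : Γ) * x) = q x := by
    intro h x
    have : Quotient.mk (QuotientGroup.rightRel H) ((h : Γ) * x)
        = Quotient.mk (QuotientGroup.rightRel H) x := by
      apply Quotient.sound
      refine QuotientGroup.rightRel_apply.2 ?_
      simp
    simp only [q, this]
  refine ⟨fun x => ⟨x * (q x)⁻¹, hq x⟩, fun h x => Subtype.ext ?_⟩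
  simp [hq2, mul_assoc]

theorem Coind_dens {Γ : Type*} [Group Γ] {δ : ℝ≥0∞} {μ : Measure (Γ → Prop)} (h : InvSet δ μ)
    (x : Γ) : μ {w | w x} ≤ δ := by
  have h1 := h.dens
  rw [← h.inv x, Measure.map_apply (Coind_meas_lsh x) (Coind_measSet x)]
  simpa [lsh] using h1

theorem Coind_indep {Γ : Type*} [Group Γ] {H : Subgroup Γ} {δ : ℝ≥0∞} {μ : Measure (H → Prop)}
    (hμ : InvSet δ μ) {γ : Γ → H} (hγ : ∀ (h : H) x, γ ((h : Γ) * x) = h * γ x) {a b : Γ}
    (hab : a⁻¹ * b ∈ H) :
    (μ.map fun w x => w (γ x)).map (lsh a) = (μ.map fun w x => w (γ x)).map (lsh b) := by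
  have h1 : (μ.map fun w x => w (γ x)).map (lsh (a⁻¹ * b)) = μ.map fun w x => w (γ x) := by
    conv_rhs => rw [← hμ.inv ⟨a⁻¹ * b, hab⟩]
    rw [Measure.map_map (Coind_meas_lsh _) (Coind_meas_pull γ),
      Measure.map_map (Coind_meas_pull γ) (Coind_meas_lsh _)]
    congr 1
    funext w x
    have := hγ (⟨a⁻¹ * b, hab⟩ : H)⁻¹ x
    simp only [Function.comp, lsh]
    rw [← this]
    rfl
  conv_lhs => rw [← h1]
  rw [Measure.map_map (Coind_meas_lsh _) (Coind_meas_lsh _), Coind_lsh_comp, mul_inv_cancel_left]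

theorem exists_coind {Γ : Type u} {V : Type*} [Group Γ] [Countable Γ] [MulAction Γ V]
    (hf : ∀ v : V, Flat (MulAction.stabilizer Γ v)) {δ : ℝ≥0∞} (hδ : 0 < δ) :
    ∃ ν : V → Measure (Γ → Prop), (∀ v, IsProbabilityMeasure (ν v)) ∧
      (∀ (g : Γ) v, (ν v).map (lsh g) = ν (g • v)) ∧ (∀ v x, ν v {w | w x} ≤ δ) ∧
      ∀ v : V, ∃ (g : Γ) (v₁ : V), v = g • v₁ ∧
        ∃ (γ : Γ → MulAction.stabilizer Γ v₁) (μ : Measure (MulAction.stabilizer Γ v₁ → Prop)),
          (∀ (h : MulAction.stabilizer Γ v₁) x, γ ((h : Γ) * x) = h * γ x) ∧ InvSet δ μ ∧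
          FlatM μ ∧ ν v₁ = μ.map fun w x => w (γ x) := by
  choose μ hμ hμF using fun v => hf v δ hδ
  choose γ hγ using fun v : V => Coind_retract (MulAction.stabilizer Γ v)
  let r : V → V := fun v => (Quotient.mk (MulAction.orbitRel Γ V) v).out
  have hr : ∀ (g : Γ) v, r (g • v) = r v := by
    intro g v
    have : Quotient.mk (MulAction.orbitRel Γ V) (g • v) = Quotient.mk (MulAction.orbitRel Γ V) v :=
      Quotient.sound (MulAction.orbitRel_apply.2 (MulAction.mem_orbit v g))
    simp only [r, this]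
  have hs : ∀ v, ∃ g : Γ, g • r v = v := by
    intro v
    have h1 := (MulAction.orbitRel Γ V).symm (Quotient.mk_out (s := MulAction.orbitRel Γ V) v)
    exact MulAction.orbitRel_apply.1 h1
  choose s hs using hs
  let ν0 : V → Measure (Γ → Prop) := fun u => (μ u).map fun w x => w (γ u x)
  have key : ∀ (v u : V) (a : Γ), r v = u → a • u = v →
      (ν0 (r v)).map (lsh (s v)) = (ν0 u).map (lsh a) := by
    intro v u a h1 h2
    subst h1
    refine Coind_indep (hμ _) (hγ _) ?_
    rw [MulAction.mem_stabilizer_iff, mul_smul, h2, inv_smul_eq_iff, hs]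
  refine ⟨fun v => (ν0 (r v)).map (lsh (s v)), fun v => ?_, fun g v => ?_, fun v x => ?_,
    fun v => ⟨s v, r v, (hs v).symm, γ (r v), μ (r v), hγ _, hμ _, hμF _, ?_⟩⟩
  · have := (hμ (r v)).prob
    have : IsProbabilityMeasure (ν0 (r v)) :=
      Measure.isProbabilityMeasure_map (Coind_meas_pull _).aemeasurable
    exact Measure.isProbabilityMeasure_map (Coind_meas_lsh _).aemeasurable
  · simp only
    rw [key (g • v) (r v) (g * s v) (hr g v) (by rw [mul_smul, hs]),
      Measure.map_map (Coind_meas_lsh _) (Coind_meas_lsh _), Coind_lsh_comp]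
  · simp only [ν0]
    rw [Measure.map_apply (Coind_meas_lsh _) (Coind_measSet x),
      Measure.map_apply (Coind_meas_pull _) (Coind_meas_lsh _ (Coind_measSet x))]
    exact Coind_dens (hμ (r v)) (γ (r v) ((s v)⁻¹ * x))
  · have h1 : r (r v) = r v := by
      conv_rhs => rw [← hs v, hr]
    simp only
    rw [key (r v) (r v) 1 h1 (one_smul _ _), Coind_lsh_one, Measure.map_id]

end Pool.Agent.FusfFlat
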