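import Pool.Agent.P.MP_8fb1ed_pr.Fl.Slab
import Pool.Agent.P.MP_8fb1ed_pr.Fl.BetheF

/-! The tree step for an abstract system. -/

open MeasureTheory Filter Topology Relation
open scoped ENNReal

namespace Pool.Agent.FusfFlat

open Pool.Agent.FusfTree

variable {Γ Ω V ι : Type*} [Group Γ] [Countable Γ] [MeasurableSpace Ω] [MulAction Γ V]
  [MulAction Γ ι] [Countable V] [Countable ι] {p : Par V ι} {β : ι → Γ} {k : ℕ} {P : Measure Ω}
  [IsProbabilityMeasure P] {a : Γ → Ω → Ω} {d : Ω → Dat V ι}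

/-- End of 5.7: `Ω'` carries the residues of the levels. -/
theorem core (h : Sys p β k P a d) (hr : Res p P a d) (hD : 0 < p.D) {S : ℕ} (hS : 0 < S)
    {Ω' : Type*} [MeasurableSpace Ω'] {P' : Measure Ω'} [IsProbabilityMeasure P']
    {a' : Γ → Ω' → Ω'} (ha' : ∀ g, MeasurePreserving (a' g) P' P') {π : Ω' → Ω}
    (hπ : MeasurePreserving π P' P) (he : ∀ g ω, π (a' g ω) = a g (π ω))
    {K : ℕ} {val : Ω' → ι → ℕ} {om : Ω' → ι → Prop}
    (hvm : ∀ i, Measurable fun ω => val ω i) (hve : ∀ g ω i, val (a' g ω) (g • i) = val ω i)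
    (hvl : ∀ ω i, val ω i < K) (hom : RSet a' om)
    (hw : ∀ᵐ ω ∂P', Dat.Win p (d (π ω)) K (val ω) (om ω)) :
    fdim P β (one fun ω => cl (d ω).BB ⊓ coord (d ω).Y) ≤
      fdim P' β (one fun ω =>
        ((d (π ω)).BB ⊔ units fun i => p.Xh i ∧ om ω i) ⊓ coord (d (π ω)).Y) +
      fdim P' β (one fun ω => coord fun i => p.Xh i ∧ om ω i) + errB p k S := by
  have h' := h.factor ha' hπ.measurable he
  have hex := fun s => hπ.quasiMeasurePreserving.ae (exact_own h hr s)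
  have s0 := slab0 h' hD hvm hve hvl hom hw ((hex 0).mono fun _ e v => (e v).2)
  have sD := slabD h' hvm hve hvl hom hw ((hex p.D).mono fun _ e v => (e v).1)
  have eN : ∀ s, nN p P' β (fun ω => d (π ω)) s = nN p P β d s := fun s =>
    fdim_factor (K := fun ω v => (d ω).Mv p v s) hπ (h.aMv s).rfam.meas
  have eL : ∀ s, nL p P' β (fun ω => d (π ω)) s = nL p P β d s := fun s =>
    fdim_factor (K := fun ω v => (d ω).Mv p v s ⊔ (d ω).Ut p v (s + 1)) hπ
      ((h.aMv s).sup (h.aUt (s + 1))).rfam.meas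
  have eK : nK p P' β = nK p P β :=
    fdim_factor (K := one fun _ : Ω => coord p.Xh) hπ fun _ => PMeas.const _
  have eB : nB P' β (fun ω => d (π ω)) = nB P β d :=
    fdim_factor (K := one fun ω => (d ω).BB) hπ h.aBB.rfam.meas
  have eI : fdim P' β (one fun ω => cl (d (π ω)).BB ⊓ coord (d (π ω)).Y) =
      fdim P β (one fun ω => cl (d ω).BB ⊓ coord (d ω).Y) :=
    fdim_factor (K := one fun ω => cl (d ω).BB ⊓ coord (d ω).Y) hπ
      (h.aBB.rfam.inf_coord (rrel_one h.rY)).meas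
  rw [eN, eL] at s0
  rw [eN, eL, eK] at sD
  have bt := bethe h hr hD hS
  have rXY : RSet a' fun ω i => p.Xh i ∧ (d (π ω)).Y i :=
    ⟨fun i => measurable_const.and (h'.rY.meas i),
      fun g ω i => and_congr (h.Xh_inv g i) (h'.rY.eqv g ω i)⟩
  have rXo : RSet a' fun ω i => p.Xh i ∧ om ω i :=
    ⟨fun i => measurable_const.and (hom.meas i),
      fun g ω i => and_congr (h.Xh_inv g i) (hom.eqv g ω i)⟩
  have c1 := RFam.crd (rrel_one rXY)
  have c2 := RFam.crd (rrel_one rXo)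
  have k1 := fdim_kap ha' h.base h'.aBB.rfam c1
  have k2 := fdim_kap ha' h.base (h'.aBB.rfam.sup c1) c2
  have m1 : fdim P' β (one fun ω => cl (d (π ω)).BB ⊓ coord (d (π ω)).Y) ≤
      fdim P' β fun ω j => cl (one (fun ω => (d (π ω)).BB) ω j) ⊓
        cl (coord fun i => p.Xh i ∧ (d (π ω)).Y i) := by
    refine fdim_mono' fun ω _ => le_inf inf_le_left ?_
    rw [cl_coord, ← coord_inf_coord]
    refine inf_le_inf_right _ ?_
    rw [← cl_units]
    exact cl_mono (h'.good ω).BB_le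
  have m2 : fdim P' β (one fun ω => (d (π ω)).BB ⊔
        units fun i => p.Xh i ∧ (om ω i ∨ (d (π ω)).Y i)) ≤
      fdim P' β fun ω j => (one (fun ω => (d (π ω)).BB) ω j ⊔
        coord fun i => p.Xh i ∧ (d (π ω)).Y i) ⊔ coord fun i => p.Xh i ∧ om ω i := by
    refine fdim_mono' fun ω _ => sup_le (le_sup_of_le_left le_sup_left) ?_
    rw [sup_assoc]
    refine le_sup_of_le_right (le_trans ?_ (sup_le_sup (units_le_coord _) (units_le_coord _)))
    rw [units_sup_units]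
    exact units_mono fun i hi => hi.2.elim (fun h1 => .inr ⟨hi.1, h1⟩) fun h1 => .inl ⟨hi.1, h1⟩
  have fV : ∀ {K : Ω → V → Sub ι}, (∀ ω v, K ω v ≤ coord ((d ω).X v)) → fdim P β K ≠ ⊤ :=
    fun hK => ne_top_of_le_ne_top (ENNReal.natCast_ne_top _) (h.fdim_V_le hK)
  have fN : ∀ s, nN p P β d s ≠ ⊤ := fun s =>
    fV fun ω v => ((h.good ω).Mv_le v s).trans (units_le_coord _)
  have fL : ∀ s, nL p P β d s ≠ ⊤ := fun s => fV fun ω v =>
    (sup_le ((h.good ω).Mv_le v s) (Dat.Ut_le _ _ _ _)).trans (units_le_coord _)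
  have fK : nK p P β ≠ ⊤ := ne_top_of_le_ne_top (ENNReal.natCast_ne_top _)
    (h.fdim_one_le fun _ => le_rfl)
  have fB : nB P β d ≠ ⊤ := ne_top_of_le_ne_top (ENNReal.natCast_ne_top _)
    (h.fdim_one_le fun ω => (h.good ω).BB_le.trans (units_le_coord _))
  have fY : fdim P' β (one fun ω => coord fun i => p.Xh i ∧ (d (π ω)).Y i) ≠ ⊤ :=
    ne_top_of_le_ne_top (ENNReal.natCast_ne_top _)
      (h'.fdim_one_le fun ω => coord_mono fun _ hi => hi.1)
  rw [← eI]
  change _ = nB P' β (fun ω => d (π ω)) +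
    fdim P' β (one fun ω => coord fun i => p.Xh i ∧ (d (π ω)).Y i) at k1
  change _ = _ + fdim P' β (one fun ω => coord fun i => p.Xh i ∧ om ω i) at k2
  rw [eB] at k1
  have a1 := (add_le_add_right m1 _).trans k1.le
  have a2 := m2.trans (le_self_add.trans k2.le)
  have a3 := sD.trans (add_le_add_left a2 _)
  have tot := add_le_add (add_le_add (add_le_add s0 a3) a1) bt
  have fQ : fdim P' β (fun ω j => one (fun ω => (d (π ω)).BB) ω j ⊔
      coord fun i => p.Xh i ∧ (d (π ω)).Y i) ≠ ⊤ :=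
    ne_top_of_le_ne_top (ENNReal.add_ne_top.2 ⟨fB, fY⟩) (le_self_add.trans k1.le)
  generalize fdim P' β (fun ω j => one (fun ω => (d (π ω)).BB) ω j ⊔
      coord fun i => p.Xh i ∧ (d (π ω)).Y i) = q at tot fQ
  generalize fdim P' β (one fun ω => coord fun i => p.Xh i ∧ (d (π ω)).Y i) = y at tot fY
  have fin : y + nN p P β d 0 + nK p P β + nN p P β d p.D + q + nL p P β d 0 + nL p P β d p.D +
      nB P β d ≠ ⊤ := by
    simp only [ne_eq, ENNReal.add_eq_top, not_or]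
    exact ⟨⟨⟨⟨⟨⟨⟨fY, fN _⟩, fK⟩, fN _⟩, fQ⟩, fL _⟩, fL _⟩, fB⟩
  refine (ENNReal.add_le_add_iff_left fin).1 (le_trans (le_of_eq ?_) (tot.trans (le_of_eq ?_)))
  · ring
  · ring

end Pool.Agent.FusfFlat
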