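import Pool.Agent.P.MP_8fb1ed_pr.Main
import Pool.Agent.P.MP_8fb1ed_pr.Fl.Stmt

/-! Random algebraic subspaces, families of subspaces, their dimension, flat groups. -/

open MeasureTheory Filter Topology
open scoped ENNReal

namespace Pool.Agent.FusfFlat

open Pool.Agent.FusfTree

universe u

/-- Subspaces of `ℓ²(ι)`. -/
abbrev Sub (ι : Type*) := Submodule ℝ (L2 ι)

/-- Closure of a subspace. -/
noncomputable abbrev cl {ι : Type*} (K : Sub ι) : Sub ι := K.topologicalClosure

/-- Finitely supported vectors with support in `S`. -/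
noncomputable def units {ι : Type*} (S : ι → Prop) : Sub ι := Submodule.span ℝ (dl '' {i | S i})

/-- `K` if `c` holds, `⊥` otherwise. -/
noncomputable def onIf {ι : Type*} (c : Prop) (K : Sub ι) : Sub ι := ⨆ _ : c, K

lemma memℓp_reix {ι κ : Type*} (e : ι ≃ κ) (f : L2 ι) : Memℓp (fun j => f (e.symm j)) 2 := by
  have h := (lp.memℓp f).summable (by simp)
  exact memℓp_gen ((e.symm.summable_iff (f := fun i => ‖f i‖ ^ (2 : ℝ≥0∞).toReal)).2 h)

/-- Reindexing isometry: `reix e f j = f (e.symm j)`. -/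
noncomputable def reix {ι κ : Type*} (e : ι ≃ κ) : L2 ι ≃ₗᵢ[ℝ] L2 κ where
  toFun f := ⟨fun j => f (e.symm j), memℓp_reix e f⟩
  invFun f := ⟨fun i => f (e.symm.symm i), memℓp_reix e.symm f⟩
  map_add' f g := by ext j; rfl
  map_smul' c f := by ext j; rfl
  left_inv f := by ext i; simp
  right_inv f := by ext i; simp
  norm_map' f := by
    rw [lp.norm_eq_tsum_rpow (by simp), lp.norm_eq_tsum_rpow (by simp)]
    congr 1
    exact e.symm.tsum_eq fun i => ‖f i‖ ^ (2 : ℝ≥0∞).toReal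

/-- Translation of vectors: `tr g f (g • i) = f i`. -/
noncomputable def tr {Γ ι : Type*} [Group Γ] [MulAction Γ ι] (g : Γ) : L2 ι ≃ₗᵢ[ℝ] L2 ι :=
  reix (MulAction.toPerm g)

/-- Translation of subspaces. -/
noncomputable def trS {Γ ι : Type*} [Group Γ] [MulAction Γ ι] (g : Γ) (K : Sub ι) : Sub ι :=
  K.map ((tr g : L2 ι ≃ₗᵢ[ℝ] L2 ι).toLinearEquiv : L2 ι →ₗ[ℝ] L2 ι)

section
variable {Γ Ω ι J : Type*} [Group Γ] [MeasurableSpace Ω] [MulAction Γ ι] [MulAction Γ J]

/-- The projection onto the closure has measurable entries. -/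
def PMeas (K : Ω → Sub ι) : Prop := ∀ i j, Measurable fun ω => proj (K ω) (dl i) j

/-- A measurable random subspace of finitely supported vectors. -/
structure AMeas (M : Ω → Sub ι) : Prop where
  fin : ∀ ω, M ω ≤ units fun _ => True
  meas : ∀ F : Finset ι, PMeas fun ω => M ω ⊓ coord fun i => i ∈ F

/-- An equivariant family of subspaces. -/
def Eqv (a : Γ → Ω → Ω) (K : Ω → J → Sub ι) : Prop :=
  ∀ g ω j, K (a g ω) (g • j) = trS g (K ω j)

/-- A measurable equivariant family of subspaces (not necessarily closed). -/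
structure RFam (a : Γ → Ω → Ω) (K : Ω → J → Sub ι) : Prop where
  meas : ∀ j, PMeas fun ω => K ω j
  eqv : Eqv a K

/-- A measurable equivariant family of algebraic subspaces. -/
structure AFam (a : Γ → Ω → Ω) (K : Ω → J → Sub ι) : Prop where
  meas : ∀ j, AMeas fun ω => K ω j
  eqv : Eqv a K

open Classical in
/-- Dimension of (the direct sum of the closures of) a family of subspaces. -/
noncomputable def fdim (P : Measure Ω) (β : ι → Γ) (K : Ω → J → Sub ι) : ℝ≥0∞ :=
  ∫⁻ ω, ∑' j, ∑' i, if β i = 1 then ‖proj (K ω j) (dl i)‖ₑ ^ 2 else 0 ∂P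

/-- A single random subspace as a family. -/
def one (K : Ω → Sub ι) : Ω → Unit → Sub ι := fun ω _ => K ω

/-- Input data for flatness. -/
structure IsInp (β : ι → Γ) (Xh : ι → Prop) (k : ℕ) (P : Measure Ω) (a : Γ → Ω → Ω)
    (M : Ω → Sub ι) (Y : Ω → ι → Prop) : Prop where
  base : IsBase β
  inv : ∀ (g : Γ) i, Xh (g • i) ↔ Xh i
  card : {i | β i = 1 ∧ Xh i}.encard ≤ k
  mp : ∀ g, MeasurePreserving (a g) P P
  hM : AFam a (one M)
  le : ∀ ω, M ω ≤ coord Xh
  hY : RSet a Y

/-- Left translation of subsets of `Γ`. -/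
def lsh (g : Γ) (w : Γ → Prop) : Γ → Prop := fun x => w (g⁻¹ * x)

/-- An invariant random subset of `Γ` of density at most `δ`. -/
structure InvSet (δ : ℝ≥0∞) (μ : Measure (Γ → Prop)) : Prop where
  prob : IsProbabilityMeasure μ
  inv : ∀ g : Γ, μ.map (lsh g) = μ
  dens : μ {w | w 1} ≤ δ

/-- `M` with the units over `w` added. -/
noncomputable def addU (β : ι → Γ) (Xh : ι → Prop) (M : Sub ι) (w : Γ → Prop) : Sub ι :=
  M ⊔ units fun i => Xh i ∧ w (β i)

/-- Closure and intersection with the vectors supported in `Y` commute for `N`. -/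
def ExactAt (N : Sub ι) (Y : ι → Prop) : Prop := cl N ⊓ coord Y ≤ cl (N ⊓ coord Y)

/-- The part of `M` spanned by vectors of range `A`. -/
noncomputable def trunc (β : ι → Γ) (A : Finset Γ) (M : Sub ι) : Sub ι :=
  ⨆ x : Γ, M ⊓ coord fun i => x⁻¹ * β i ∈ A

/-- `up` resamples a coordinate with law `ν`. -/
def Resample {F : Type*} [MeasurableSpace F] (P : Measure Ω) (ν : Measure F)
    (up : F → Ω → Ω) : Prop :=
  MeasurePreserving (fun p : F × Ω => up p.1 p.2) (ν.prod P) P

/-- The uniform law on `Fin n`. -/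
noncomputable abbrev unf (n : ℕ) : Measure (Fin n) := ProbabilityTheory.uniformOn Set.univ

end

/-- `μ` makes every independent random algebraic subspace exact. -/
def FlatM {Γ : Type u} [Group Γ] (μ : Measure (Γ → Prop)) : Prop :=
  ∀ (ι Ω : Type u) [Countable ι] [MulAction Γ ι] [MeasurableSpace Ω] (β : ι → Γ)
    (Xh : ι → Prop) (k : ℕ) (P : Measure Ω) [IsProbabilityMeasure P] (a : Γ → Ω → Ω)
    (M : Ω → Sub ι) (Y : Ω → ι → Prop), IsInp β Xh k P a M Y →
    ∀ᵐ p ∂(μ.prod P), ExactAt (addU β Xh (M p.2) p.1) (Y p.2)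

/-- Flat groups. -/
def Flat (Γ : Type u) [Group Γ] : Prop :=
  ∀ δ : ℝ≥0∞, 0 < δ → ∃ μ : Measure (Γ → Prop), InvSet δ μ ∧ FlatM μ

/-- Approximate flatness of `μ` for fibres of size `k` and range `A`. -/
def FlatE {Γ : Type u} [Group Γ] (ε : ℝ≥0∞) (k : ℕ) (A : Finset Γ)
    (μ : Measure (Γ → Prop)) : Prop :=
  ∀ (ι Ω : Type u) [Countable ι] [MulAction Γ ι] [MeasurableSpace Ω] (β : ι → Γ)
    (Xh : ι → Prop) (P : Measure Ω) [IsProbabilityMeasure P] (a : Γ → Ω → Ω)
    (M : Ω → Sub ι) (Y : Ω → ι → Prop), IsInp β Xh k P a M Y →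
    fdim P β (one fun ω => cl (trunc β A (M ω)) ⊓ coord (Y ω)) ≤
      fdim (μ.prod P) β (one fun p => addU β Xh (M p.2) p.1 ⊓ coord (Y p.2)) + ε

end Pool.Agent.FusfFlat
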