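import Pool.Agent.P.MP_8fb1ed_pr.Fl.DimA

/-! Calculus of dimensions of families. -/

open MeasureTheory Filter Topology Relation
open scoped ENNReal

namespace Pool.Agent.FusfFlat

open Pool.Agent.FusfTree

variable {Γ Ω ι J : Type*} [Group Γ] [MeasurableSpace Ω] [MulAction Γ ι]
  [MulAction Γ J] [Countable ι] [Countable J] {a : Γ → Ω → Ω}
  {P : Measure Ω} {β : ι → Γ} {K L D Q : Ω → J → Sub ι}

open Classical in
theorem measurable_fdim (β : ι → Γ) (h : ∀ j, PMeas fun ω => K ω j) : Measurable fun ω =>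
    ∑' j, ∑' i, if β i = 1 then ‖proj (K ω j) (dl i)‖ₑ ^ 2 else 0 := by
  refine Measurable.tsum fun j => Measurable.tsum fun i => ?_
  by_cases hi : β i = 1
  · simpa only [if_pos hi] using (h j).enorm i
  · simpa only [if_neg hi] using measurable_const

theorem fdim_mono (h : ∀ᵐ ω ∂P, ∀ j, K ω j ≤ cl (L ω j)) : fdim P β K ≤ fdim P β L := by
  refine lintegral_mono_ae (h.mono fun ω hω => ?_)
  refine ENNReal.tsum_le_tsum fun j => ENNReal.tsum_le_tsum fun i => ?_
  split_ifs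
  · exact enorm_proj_mono (hω j) _
  · exact le_rfl

theorem fdim_mono' (h : ∀ ω j, K ω j ≤ L ω j) : fdim P β K ≤ fdim P β L :=
  fdim_mono (Eventually.of_forall fun ω j => (h ω j).trans (le_cl _))

theorem fdim_cl : fdim P β (fun ω j => cl (K ω j)) = fdim P β K := by
  simp only [fdim, proj_cl]

theorem fdim_add_orth (hK : ∀ j, PMeas fun ω => K ω j) (h : ∀ ω j, K ω j ≤ cl (L ω j)) :
    fdim P β L = fdim P β K + fdim P β fun ω j => cl (L ω j) ⊓ (K ω j)ᗮ := by
  unfold fdim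
  rw [← lintegral_add_left (measurable_fdim β hK)]
  refine lintegral_congr fun ω => ?_
  rw [← ENNReal.tsum_add]
  refine tsum_congr fun j => ?_
  rw [← ENNReal.tsum_add]
  refine tsum_congr fun i => ?_
  split_ifs
  · exact enorm_proj_add (h ω j) _
  · simp

theorem fdim_coord {U : Ω → J → ι → Prop} : fdim P β (fun ω j => coord (U ω j)) =
    ∫⁻ ω, ({p : J × ι | β p.2 = 1 ∧ U ω p.1 p.2}.encard : ℝ≥0∞) ∂P := by
  classical
  unfold fdim
  refine lintegral_congr fun ω => ?_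
  rw [encard_eq_tsum (fun p : J × ι => β p.2 = 1 ∧ U ω p.1 p.2), ENNReal.tsum_prod']
  refine tsum_congr fun j => tsum_congr fun i => ?_
  by_cases hi : β i = 1
  · by_cases hU : U ω j i
    · have h1 : ‖(dl i : L2 ι)‖ₑ = 1 := by rw [← ofReal_norm, norm_dl', ENNReal.ofReal_one]
      simp [hi, hU, proj_coord_dl, h1]
    · simp [hi, hU, proj_coord_dl]
  · simp [hi]

theorem fdim_le_card [IsProbabilityMeasure P] {U : Ω → J → ι → Prop} {n : ℕ}
    (h : ∀ ω j, K ω j ≤ coord (U ω j))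
    (hn : ∀ ω, {p : J × ι | β p.2 = 1 ∧ U ω p.1 p.2}.encard ≤ n) : fdim P β K ≤ n := by
  refine (fdim_mono' h).trans ?_
  rw [fdim_coord]
  refine (lintegral_mono (g := fun _ => (n : ℝ≥0∞)) fun ω => ?_).trans (by simp)
  have := ENat.toENNReal_le.2 (hn ω)
  simpa using this

theorem fdim_factor {Ω' : Type*} [MeasurableSpace Ω'] {P' : Measure Ω'} {π : Ω' → Ω}
    (hπ : MeasurePreserving π P' P) (h : ∀ j, PMeas fun ω => K ω j) :
    fdim P' β (fun ω => K (π ω)) = fdim P β K := 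
  hπ.lintegral_comp (measurable_fdim β h)

lemma Dim_tsum_iSup {α : Type*} {f : α → ℕ → ℝ≥0∞} (hf : ∀ x, Monotone (f x)) :
    ∑' x, ⨆ n, f x n = ⨆ n, ∑' x, f x n := by
  simp only [ENNReal.tsum_eq_iSup_sum]
  rw [iSup_comm]
  exact iSup_congr fun s => ENNReal.finsetSum_iSup_of_monotone hf

theorem fdim_iSup {K : ℕ → Ω → J → Sub ι} (hK : ∀ n j, PMeas fun ω => K n ω j)
    (h : ∀ ω j, Monotone fun n => K n ω j) :
    fdim P β (fun ω j => ⨆ n, K n ω j) = ⨆ n, fdim P β (K n) := by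
  classical
  have hm : ∀ ω j i, Monotone fun n =>
      (if β i = 1 then ‖proj (K n ω j) (dl i)‖ₑ ^ 2 else 0 : ℝ≥0∞) := by
    intro ω j i m n hmn
    dsimp only
    split_ifs
    · exact enorm_proj_mono ((h ω j hmn).trans (le_cl _)) _
    · exact le_rfl
  unfold fdim
  rw [← lintegral_iSup (fun n => measurable_fdim β (hK n))
    fun m n hmn ω => ENNReal.tsum_le_tsum fun j => ENNReal.tsum_le_tsum fun i => hm ω j i hmn]
  refine lintegral_congr fun ω => ?_
  rw [← Dim_tsum_iSup fun j m n hmn => ENNReal.tsum_le_tsum fun i => hm ω j i hmn]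
  refine tsum_congr fun j => ?_
  rw [← Dim_tsum_iSup (hm ω j)]
  refine tsum_congr fun i => ?_
  by_cases hi : β i = 1
  · simp only [if_pos hi]
    have h1 : Tendsto (fun n => ‖proj (K n ω j) (dl i)‖ₑ ^ 2) atTop
        (𝓝 (‖proj (⨆ n, K n ω j) (dl i)‖ₑ ^ 2)) :=
      ENNReal.Tendsto.pow (proj_tendsto_iSup (h ω j) (dl i)).enorm
    have h2 : Monotone fun n => ‖proj (K n ω j) (dl i)‖ₑ ^ 2 := fun m n hmn =>
      enorm_proj_mono ((h ω j hmn).trans (le_cl _)) _
    exact tendsto_nhds_unique h1 (tendsto_atTop_iSup h2)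
  · simp [hi]

theorem fdim_equiv {J' : Type*} (e : J' ≃ J) :
    fdim P β (fun ω j => K ω (e j)) = fdim P β K := by
  classical
  unfold fdim
  refine lintegral_congr fun ω => ?_
  exact e.tsum_eq fun j => ∑' i, if β i = 1 then ‖proj (K ω j) (dl i)‖ₑ ^ 2 else 0

/-- Splitting according to a random condition. -/
theorem fdim_split {c : Ω → J → Prop} (hc : ∀ j, Measurable fun ω => c ω j)
    (hK : ∀ j, PMeas fun ω => K ω j) : fdim P β K =
      fdim P β (fun ω j => onIf (c ω j) (K ω j)) +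
        fdim P β fun ω j => onIf (¬ c ω j) (K ω j) := by
  unfold fdim
  rw [← lintegral_add_left (measurable_fdim β fun j => (hK j).cond (hc j))]
  refine lintegral_congr fun ω => ?_
  rw [← ENNReal.tsum_add]
  refine tsum_congr fun j => ?_
  rw [← ENNReal.tsum_add]
  refine tsum_congr fun i => ?_
  dsimp only
  split_ifs
  · by_cases h : c ω j
    · rw [onIf_pos h, onIf_neg (not_not.2 h), proj_bot]
      simp
    · rw [onIf_neg h, onIf_pos h, proj_bot]
      simp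
  · simp

/-- Families with disjoint supports. -/
theorem fdim_total (o : ι → J) (h : ∀ ω j, K ω j ≤ coord fun i => o i = j) :
    fdim P β (one fun ω => ⨆ j, K ω j) = fdim P β K := by
  classical
  unfold fdim one
  refine lintegral_congr fun ω => ?_
  rw [tsum_fintype, Fintype.sum_unique, ENNReal.tsum_comm]
  refine tsum_congr fun i => ?_
  rw [tsum_eq_single (o i), proj_iSup_disj o (h ω) i]
  intro j hj
  rw [proj_dl_of_not (h ω j) fun h' => hj h'.symm]
  simp

/-- Decomposition of a family supported on fibres of `o` according to a bounded random label. -/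
theorem fdim_sum_label (o : ι → J) (h : ∀ ω j, K ω j ≤ coord fun i => o i = j)
    (hK : ∀ j, PMeas fun ω => K ω j) {val : Ω → ι → ℕ} (hv : ∀ i, Measurable fun ω => val ω i)
    {n : ℕ} (hn : ∀ ω i, val ω i < n) (hc : ∀ᵐ ω ∂P, ∀ i i', o i = o i' → val ω i = val ω i') :
    fdim P β K = ∑ l ∈ Finset.range n,
      fdim P β fun ω j => onIf (∃ i, o i = j ∧ val ω i = l) (K ω j) := by
  classical
  have hcm : ∀ l j, Measurable fun ω => ∃ i, o i = j ∧ val ω i = l := fun l j =>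
    Measurable.exists fun i => measurable_const.and
      ((Measurable.of_discrete (f := fun m : ℕ => m = l)).comp (hv i))
  unfold fdim
  rw [← lintegral_finsetSum _ fun l _ => measurable_fdim β fun j => (hK j).cond (hcm l j)]
  refine lintegral_congr_ae (hc.mono fun ω hω => ?_)
  dsimp only
  rw [← Summable.tsum_finsetSum fun _ _ => ENNReal.summable]
  refine tsum_congr fun j => ?_
  rw [← Summable.tsum_finsetSum fun _ _ => ENNReal.summable]
  refine tsum_congr fun i => ?_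
  by_cases hi : β i = 1
  · simp only [if_pos hi]
    by_cases hj : o i = j
    · rw [Finset.sum_eq_single_of_mem (val ω i) (Finset.mem_range.2 (hn ω i)),
        onIf_pos ⟨i, hj, rfl⟩]
      intro l _ hl
      rw [onIf_neg, proj_bot]
      · simp
      · rintro ⟨i', h1, h2⟩
        exact hl (h2.symm.trans (hω i' i (h1.trans hj.symm)))
    · rw [proj_dl_of_not (h ω j) hj, Finset.sum_eq_zero]
      · simp
      · intro l _
        rw [proj_dl_of_not (onIf_le fun _ => h ω j) hj]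
        simp
  · simp [hi]

variable [Countable Γ]

omit [Countable Γ] [Countable ι] in
lemma Dim_cl_inf_orth (K L : Sub ι) : cl (cl K ⊓ Lᗮ) = cl K ⊓ Lᗮ := by
  have h := cl_inf_cl K Lᗮ
  rwa [cl_orth] at h

omit [Countable Γ] [Countable ι] in
lemma Dim_sub_proj (K : Sub ι) (f : L2 ι) : f - proj K f ∈ Kᗮ := by
  have h := proj_mem_cl Kᗮ f
  rwa [cl_orth, proj_orth] at h

omit [Countable Γ] [Countable ι] in
lemma Dim_orth_cl {K : Sub ι} {f : L2 ι} (h : f ∈ Kᗮ) : f ∈ (cl K)ᗮ := by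
  rwa [← proj_eq_zero_iff, proj_cl, proj_eq_zero_iff]

omit [Countable Γ] [Countable ι] in
lemma Dim_eq_zero {K : Sub ι} {f : L2 ι} (h : f ∈ K) (h' : f ∈ Kᗮ) : f = 0 :=
  inner_self_eq_zero.1 (Submodule.inner_right_of_mem_orthogonal h h')

omit [Countable Γ] [Countable ι] in
lemma Dim_kap_a (D Q : Sub ι) : ∀ w ∈ cl (cl (D ⊔ Q) ⊓ Qᗮ),
    w ∈ (cl D ⊓ (cl D ⊓ cl Q)ᗮ)ᗮ → w = 0 := by
  intro w hw hw'
  rw [Dim_cl_inf_orth] at hw
  have hQ : w ∈ (cl Q)ᗮ := Dim_orth_cl hw.2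
  have hD : w ∈ Dᗮ := by
    rw [Submodule.mem_orthogonal]
    intro d hd
    have h1 : proj (cl D ⊓ cl Q) d ∈ cl D ⊓ cl Q := by
      have := proj_mem_cl (cl D ⊓ cl Q) d
      rwa [cl_inf_cl] at this
    have h2 : d - proj (cl D ⊓ cl Q) d ∈ cl D ⊓ (cl D ⊓ cl Q)ᗮ :=
      ⟨Submodule.sub_mem _ (le_cl D hd) h1.1, Dim_sub_proj _ d⟩
    have h3 := Submodule.inner_right_of_mem_orthogonal h1.2 hQ
    have h4 := Submodule.inner_right_of_mem_orthogonal h2 hw'
    rw [inner_sub_left, h3, sub_zero] at h4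
    exact h4
  refine Dim_eq_zero hw.1 (Dim_orth_cl ?_)
  rw [← Submodule.inf_orthogonal]
  exact ⟨hD, hw.2⟩

omit [Countable Γ] [Countable ι] in
lemma Dim_kap_b (D Q : Sub ι) : ∀ w ∈ cl (cl D ⊓ (cl D ⊓ cl Q)ᗮ),
    w ∈ (cl (D ⊔ Q) ⊓ Qᗮ)ᗮ → w = 0 := by
  intro w hw hw'
  rw [Dim_cl_inf_orth] at hw
  have h1 : proj Q w ∈ cl Q := proj_mem_cl Q w
  have h2 : w - proj Q w ∈ cl (D ⊔ Q) ⊓ Qᗮ :=
    ⟨Submodule.sub_mem _ (cl_mono le_sup_left hw.1) (cl_mono le_sup_right h1), Dim_sub_proj _ w⟩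
  have h3 := Submodule.inner_left_of_mem_orthogonal h2 hw'
  have h4 := Submodule.inner_right_of_mem_orthogonal h1 (Dim_orth_cl h2.2)
  have h5 : w - proj Q w = 0 := by
    refine inner_self_eq_zero.1 (?_ : inner ℝ (w - proj Q w) (w - proj Q w) = 0)
    rw [inner_sub_left, h3, h4, sub_zero]
  have h6 : w ∈ cl Q := by
    rw [sub_eq_zero.1 h5]
    exact h1
  exact Dim_eq_zero (K := cl D ⊓ cl Q) ⟨hw.1, h6⟩ hw.2

/-- Kaplansky's formula. -/
theorem fdim_kap (ha : ∀ g, MeasurePreserving (a g) P P) (hβ : IsBase β) (hD : RFam a D)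
    (hQ : RFam a Q) : fdim P β (fun ω j => D ω j ⊔ Q ω j) +
      fdim P β (fun ω j => cl (D ω j) ⊓ cl (Q ω j)) = fdim P β D + fdim P β Q := by
  have hS := hD.sup hQ
  have hI := hD.inf hQ
  have hA := hS.inf_orth hQ
  have hB := hD.inf_orth hI
  have h1 := fdim_add_orth (P := P) (β := β) (L := fun ω j => D ω j ⊔ Q ω j) hQ.meas
    fun ω j => le_sup_right.trans (le_cl _)
  have h2 := fdim_add_orth (P := P) (β := β) (L := D) hI.meas fun ω j => inf_le_left
  have h3 := fdim_le_of_inj ha hβ hA hB (Eventually.of_forall fun ω j => Dim_kap_a _ _)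
  have h4 := fdim_le_of_inj ha hβ hB hA (Eventually.of_forall fun ω j => Dim_kap_b _ _)
  rw [h1, h2, le_antisymm h3 h4]
  ring

/-- Faithfulness. -/
theorem ae_le_of_fdim_le (ha : ∀ g, MeasurePreserving (a g) P P) (hβ : IsBase β) (hK : RFam a K)
    (hL : RFam a L) (h : ∀ ω j, K ω j ≤ cl (L ω j)) (hle : fdim P β L ≤ fdim P β K)
    (hfin : fdim P β K ≠ ⊤) : ∀ᵐ ω ∂P, ∀ j, L ω j ≤ cl (K ω j) := by
  classical
  have hC := hL.inf_orth hK
  have h1 := fdim_add_orth (P := P) (β := β) hK.meas h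
  have h2 : fdim P β (fun ω j => cl (L ω j) ⊓ (K ω j)ᗮ) = 0 := by
    rw [h1] at hle
    exact le_antisymm (ENNReal.le_of_add_le_add_left hfin (by simpa using hle)) zero_le
  have h3 : ∀ᵐ ω ∂P, ∀ j i, β i = 1 → proj (cl (L ω j) ⊓ (K ω j)ᗮ) (dl i) = 0 := by
    unfold fdim at h2
    rw [lintegral_eq_zero_iff (measurable_fdim β hC.meas)] at h2
    refine h2.mono fun ω hω j i hi => ?_
    have h4 := ENNReal.tsum_eq_zero.1 (ENNReal.tsum_eq_zero.1 hω j) i
    rw [if_pos hi] at h4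
    simpa using h4
  have h4 : ∀ᵐ ω ∂P, ∀ g : Γ, ∀ j i, β i = 1 →
      proj (cl (L (a g ω) j) ⊓ (K (a g ω) j)ᗮ) (dl i) = 0 :=
    ae_all_iff.2 fun g => (ha g).quasiMeasurePreserving.ae h3
  refine h4.mono fun ω hω j f hf => ?_
  have h5 : ∀ i, proj (cl (L ω j) ⊓ (K ω j)ᗮ) (dl i) = 0 := by
    intro i
    have h6 := hω (β i)⁻¹ ((β i)⁻¹ • j) ((β i)⁻¹ • i) (by rw [hβ, inv_mul_cancel])
    have h7 := hC.eqv (β i)⁻¹ ω j
    rw [h7, ← tr_dl, proj_trS] at h6
    exact (tr (β i)⁻¹).map_eq_zero_iff.1 h6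
  have h6 : f - proj (K ω j) f ∈ cl (L ω j) ⊓ (K ω j)ᗮ :=
    ⟨Submodule.sub_mem _ (le_cl _ hf) (cl_le_cl (h ω j) (proj_mem_cl _ f)), Dim_sub_proj _ f⟩
  have h7 : f - proj (K ω j) f = 0 := by
    ext i
    have h8 := Submodule.inner_left_of_mem_orthogonal h6 (proj_eq_zero_iff.1 (h5 i))
    rw [inner_dl'] at h8
    exact h8
  rw [sub_eq_zero.1 h7]
  exact proj_mem_cl _ f

end Pool.Agent.FusfFlat
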