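import Pool.Agent.P.MP_8fb1ed_pr.Fl.Fam

/-! Operations on measurable equivariant families. -/

open MeasureTheory Filter Topology Relation
open scoped ENNReal

namespace Pool.Agent.FusfFlat

open Pool.Agent.FusfTree

variable {Γ Ω ι J : Type*} [Group Γ] [MeasurableSpace Ω] [MulAction Γ ι]
  [MulAction Γ J] [Countable ι] [Countable J] {a : Γ → Ω → Ω}
  {P : Measure Ω} {β : ι → Γ} {K L D Q : Ω → J → Sub ι}

theorem AFam.rfam (h : AFam a K) : RFam a K := ⟨fun j => (h.meas j).pmeas, h.eqv⟩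

theorem RFam.clos (h : RFam a K) : RFam a fun ω j => cl (K ω j) :=
  ⟨fun j => (h.meas j).clos, fun g ω j => by
    change cl _ = trS g (cl _)
    rw [trS_cl, h.eqv]⟩

omit [MeasurableSpace Ω] [Countable ι] [Countable J] in
theorem DimA_sup (hK : Eqv a K) (hL : Eqv a L) : Eqv a fun ω j => K ω j ⊔ L ω j := fun g ω j => by
  change _ ⊔ _ = trS g (_ ⊔ _)
  rw [trS_sup, hK, hL]

omit [MeasurableSpace Ω] [Countable ι] [Countable J] in
theorem DimA_inf (hK : Eqv a K) (hL : Eqv a L) : Eqv a fun ω j => K ω j ⊓ L ω j := fun g ω j => by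
  change _ ⊓ _ = trS g (_ ⊓ _)
  rw [trS_inf, hK, hL]

omit [MeasurableSpace Ω] [Countable ι] [Countable J] in
theorem DimA_orth (hK : Eqv a K) : Eqv a fun ω j => (K ω j)ᗮ := fun g ω j => by
  change (K (a g ω) (g • j))ᗮ = trS g (K ω j)ᗮ
  rw [trS_orth, hK]

omit [Countable ι] [Countable J] in
theorem DimA_coord {U : Ω → J → ι → Prop} (hU : RRel a U) : Eqv a fun ω j => coord (U ω j) :=
  fun g ω j => (trS_coord g fun i => hU.eqv g ω j i).symm

omit [Countable ι] [Countable J] in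
theorem DimA_cond {c : Ω → J → Prop} (hc : RSet a c) (h : Eqv a K) :
    Eqv a fun ω j => onIf (c ω j) (K ω j) := fun g ω j => by
  change onIf _ _ = trS g (onIf _ _)
  rw [trS_onIf g (hc.eqv g ω j), h]

omit [MeasurableSpace Ω] [Countable ι] [Countable J] in
theorem DimA_total (h : Eqv a K) : Eqv a (one fun ω => ⨆ j, K ω j) := fun g ω _ => by
  change ⨆ j, K (a g ω) j = trS g (⨆ j, K ω j)
  rw [trS_iSup, ← (MulAction.toPerm g).iSup_comp]
  exact iSup_congr fun j => h g ω j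

theorem RFam.sup (hK : RFam a K) (hL : RFam a L) : RFam a fun ω j => K ω j ⊔ L ω j :=
  ⟨fun j => (hK.meas j).sup (hL.meas j), DimA_sup hK.eqv hL.eqv⟩

theorem RFam.inf (hK : RFam a K) (hL : RFam a L) :
    RFam a fun ω j => cl (K ω j) ⊓ cl (L ω j) :=
  ⟨fun j => (hK.meas j).inf (hL.meas j), DimA_inf hK.clos.eqv hL.clos.eqv⟩

theorem RFam.inf_orth (hK : RFam a K) (hL : RFam a L) :
    RFam a fun ω j => cl (K ω j) ⊓ (L ω j)ᗮ :=
  ⟨fun j => (hK.meas j).inf_orth (hL.meas j), DimA_inf hK.clos.eqv (DimA_orth hL.eqv)⟩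

theorem RFam.crd {U : Ω → J → ι → Prop} (hU : RRel a U) : RFam a fun ω j => coord (U ω j) :=
  ⟨fun j => PMeas.crd (hU.meas j), DimA_coord hU⟩

theorem RFam.inf_coord (hK : RFam a K) {U : Ω → J → ι → Prop} (hU : RRel a U) :
    RFam a fun ω j => cl (K ω j) ⊓ coord (U ω j) :=
  ⟨fun j => (hK.meas j).inf_coord (hU.meas j), DimA_inf hK.clos.eqv (DimA_coord hU)⟩

theorem RFam.cond {c : Ω → J → Prop} (hc : RSet a c) (h : RFam a K) :
    RFam a fun ω j => onIf (c ω j) (K ω j) :=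
  ⟨fun j => (h.meas j).cond (hc.meas j), DimA_cond hc h.eqv⟩

theorem RFam.factor {Ω' : Type*} [MeasurableSpace Ω'] {a' : Γ → Ω' → Ω'} (h : RFam a K)
    {π : Ω' → Ω} (hπ : Measurable π) (he : ∀ g ω, π (a' g ω) = a g (π ω)) :
    RFam a' fun ω => K (π ω) :=
  ⟨fun j => (h.meas j).comp hπ, fun g ω j => by
    change K (π (a' g ω)) _ = _
    rw [he]
    exact h.eqv g _ j⟩

theorem AFam.factor {Ω' : Type*} [MeasurableSpace Ω'] {a' : Γ → Ω' → Ω'} (h : AFam a K)
    {π : Ω' → Ω} (hπ : Measurable π) (he : ∀ g ω, π (a' g ω) = a g (π ω)) :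
    AFam a' fun ω => K (π ω) :=
  ⟨fun j => (h.meas j).comp hπ, (h.rfam.factor hπ he).eqv⟩

theorem AFam.sup (hK : AFam a K) (hL : AFam a L) : AFam a fun ω j => K ω j ⊔ L ω j :=
  ⟨fun j => (hK.meas j).sup (hL.meas j), DimA_sup hK.eqv hL.eqv⟩

theorem AFam.unit {U : Ω → J → ι → Prop} (hU : RRel a U) : AFam a fun ω j => units (U ω j) :=
  ⟨fun j => AMeas.unit (hU.meas j), fun g ω j => (trS_units g fun i => hU.eqv g ω j i).symm⟩

theorem AFam.inf_coord (hK : AFam a K) {U : Ω → J → ι → Prop} (hU : RRel a U) :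
    AFam a fun ω j => K ω j ⊓ coord (U ω j) :=
  ⟨fun j => (hK.meas j).inf_coord (hU.meas j), DimA_inf hK.eqv (DimA_coord hU)⟩

theorem AFam.cond {c : Ω → J → Prop} (hc : RSet a c) (h : AFam a K) :
    AFam a fun ω j => onIf (c ω j) (K ω j) :=
  ⟨fun j => (h.meas j).cond (hc.meas j), DimA_cond hc h.eqv⟩

/-- Sum of a family over all indices. -/
theorem AFam.total (h : AFam a K) : AFam a (one fun ω => ⨆ j, K ω j) :=
  ⟨fun _ => AMeas.isup (M := fun j ω => K ω j) h.meas, DimA_total h.eqv⟩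

theorem RFam.total (h : RFam a K) : RFam a (one fun ω => ⨆ j, K ω j) :=
  ⟨fun _ => PMeas.isup (K := fun j ω => K ω j) h.meas, DimA_total h.eqv⟩

/-- A random set as a relation with trivial index. -/
theorem rrel_one {Y : Ω → ι → Prop} (hY : RSet a Y) : RRel a fun ω (_ : Unit) i => Y ω i :=
  ⟨fun _ i => hY.meas i, fun g ω _ i => hY.eqv g ω i⟩

end Pool.Agent.FusfFlat
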