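import Pool.Agent.P.MP_8fb1ed_pr.Fl.Resamp

/-! Lemma A of the paper: approximate flatness for all parameters gives flatness. -/

open MeasureTheory Filter Topology Relation
open scoped ENNReal

namespace Pool.Agent.FusfFlat

open Pool.Agent.FusfTree

universe u

section aux
variable {Γ Ω ι : Type*} [Group Γ] [MeasurableSpace Ω] [MulAction Γ ι]
  {a : Γ → Ω → Ω} {P : Measure Ω} {β : ι → Γ} {Xh : ι → Prop} {k : ℕ} {M : Ω → Sub ι}
  {Y : Ω → ι → Prop}

theorem Exact_measurable_lsh (g : Γ) : Measurable (lsh g : (Γ → Prop) → Γ → Prop) :=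
  measurable_pi_lambda _ fun _ => measurable_pi_apply _

omit [Group Γ] [MulAction Γ ι] in
theorem Exact_addU_le {N : Sub ι} (h : N ≤ coord Xh) (w : Γ → Prop) :
    addU β Xh N w ≤ coord Xh :=
  sup_le h ((units_le_coord _).trans (coord_mono fun _ hi => hi.1))

omit [Group Γ] [MulAction Γ ι] in
theorem Exact_addU_mono (N : Sub ι) {w w' : Γ → Prop} (h : ∀ x, w x → w' x) :
    addU β Xh N w ≤ addU β Xh N w' :=
  sup_le_sup_left (units_mono fun _ hi => ⟨hi.1, h _ hi.2⟩) _

omit [MulAction Γ ι] in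
theorem Exact_trunc_le (A : Finset Γ) (N : Sub ι) : trunc β A N ≤ N :=
  iSup_le fun _ => inf_le_left

omit [MulAction Γ ι] in
theorem Exact_trunc_mono {A A' : Finset Γ} {N N' : Sub ι} (hA : A ⊆ A') (hN : N ≤ N') :
    trunc β A N ≤ trunc β A' N' :=
  iSup_mono fun _ => inf_le_inf hN (coord_mono fun _ hi => hA hi)

theorem Exact_card (h : IsInp β Xh k P a M Y) {U : ι → Prop} (hU : ∀ i, U i → Xh i) :
    {p : Unit × ι | β p.2 = 1 ∧ U p.2}.encard ≤ k := by
  refine le_trans ?_ h.card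
  have hinj : Set.InjOn (Prod.snd : Unit × ι → ι) {p : Unit × ι | β p.2 = 1 ∧ U p.2} :=
    fun p _ q _ hpq => Prod.ext rfl hpq
  rw [← hinj.encard_image]
  refine Set.encard_le_encard ?_
  rintro _ ⟨p, hp, rfl⟩
  exact ⟨hp.1, hU _ hp.2⟩

variable [Countable ι]

theorem Exact_fin [IsProbabilityMeasure P] (h : IsInp β Xh k P a M Y) {K : Ω → Sub ι}
    (hK : ∀ ω, K ω ≤ coord Xh) : fdim P β (one K) ≠ ⊤ := by
  have h1 : fdim P β (one K) ≤ k :=
    fdim_le_card (U := fun _ _ => Xh) (fun ω _ => hK ω) fun _ => Exact_card h fun _ hi => hi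
  exact ne_top_of_le_ne_top (ENNReal.natCast_ne_top k) h1

theorem Exact_inp_addU (h : IsInp β Xh k P a M Y) {w : Ω → Γ → Prop} (hw : RSet a w) :
    IsInp β Xh k P a (fun ω => addU β Xh (M ω) (w ω)) Y := by
  have hU : RSet a fun ω i => Xh i ∧ w ω (β i) := by
    refine ⟨fun i => measurable_const.and (hw.meas _), fun g ω i => ?_⟩
    rw [h.inv, h.base]
    exact and_congr_right fun _ => hw.eqv g ω (β i)
  exact ⟨h.base, h.inv, h.card, h.mp, h.hM.sup (AFam.unit (rrel_one hU)),
    fun ω => Exact_addU_le (h.le ω) _, h.hY⟩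

theorem Exact_inp_factor (h : IsInp β Xh k P a M Y) {Ω' : Type*} [MeasurableSpace Ω']
    {P' : Measure Ω'} {a' : Γ → Ω' → Ω'} (ha' : ∀ g, MeasurePreserving (a' g) P' P')
    {π : Ω' → Ω} (hπ : Measurable π) (he : ∀ g ω, π (a' g ω) = a g (π ω)) {k' : ℕ}
    (hk : k ≤ k') : IsInp β Xh k' P' a' (fun ω => M (π ω)) (fun ω => Y (π ω)) :=
  ⟨h.base, h.inv, h.card.trans (by exact_mod_cast hk), ha', h.hM.factor hπ he,
    fun _ => h.le _, ⟨fun i => (h.hY.meas i).comp hπ, fun g ω i => by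
      rw [he]; exact h.hY.eqv g _ i⟩⟩

theorem Exact_afam_trunc [Countable Γ] (h : IsInp β Xh k P a M Y) (A : Finset Γ) :
    AFam a (one fun ω => trunc β A (M ω)) := by
  have h1 : AFam a fun ω (_ : Γ) => M ω :=
    ⟨fun _ => h.hM.meas (), fun g ω _ => h.hM.eqv g ω ()⟩
  have h2 : RRel a fun (_ : Ω) (x : Γ) (i : ι) => x⁻¹ * β i ∈ A := by
    refine ⟨fun _ _ => measurable_const, fun g ω x i => ?_⟩
    rw [h.base, smul_eq_mul, mul_inv_rev, mul_assoc, inv_mul_cancel_left]
  exact (h1.inf_coord h2).total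

/-- The limit step: an increasing sequence of approximations. -/
theorem Exact_limit [Countable Γ] [IsProbabilityMeasure P] (h : IsInp β Xh k P a M Y)
    {V : ℕ → Ω → Sub ι} (hV : ∀ n, RFam a (one (V n))) (hmono : ∀ ω, Monotone fun n => V n ω)
    (hsup : ∀ ω, ⨆ n, V n ω = M ω)
    (happ : ∀ j, k ≤ j → fdim P β (one fun ω => cl (V j ω) ⊓ coord (Y ω)) ≤
      fdim P β (one fun ω => M ω ⊓ coord (Y ω)) + ((j : ℝ≥0∞) + 1)⁻¹) :
    ∀ᵐ ω ∂P, ExactAt (M ω) (Y ω) := by
  have hYX : RSet a fun ω i => Y ω i ∧ Xh i :=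
    ⟨fun i => (h.hY.meas i).and measurable_const, fun g ω i => by rw [h.inv, h.hY.eqv]⟩
  have hQ : RFam a (one fun ω => coord fun i => Y ω i ∧ Xh i) := RFam.crd (rrel_one hYX)
  have hM : RFam a (one M) := h.hM.rfam
  have hVM : ∀ n ω, V n ω ≤ M ω := fun n ω => hsup ω ▸ le_iSup (fun n => V n ω) n
  have hcl : ∀ {K : Sub ι} (S : ι → Prop), K ≤ coord Xh →
      cl K ⊓ cl (coord fun i => S i ∧ Xh i) = cl K ⊓ coord S := by
    intro K S hK
    have h1 : cl K ≤ coord Xh := (cl_mono hK).trans (cl_coord _).le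
    rw [cl_coord, ← coord_inf_coord, inf_comm (coord S), ← inf_assoc, inf_eq_left.mpr h1]
  set q := fdim P β (one fun ω => coord fun i => Y ω i ∧ Xh i) with hq
  set s := fdim P β (one fun ω => M ω ⊔ coord fun i => Y ω i ∧ Xh i) with hs
  set κ := fdim P β (one fun ω => M ω ⊓ coord (Y ω)) with hκ
  have hsfin : s ≠ ⊤ :=
    Exact_fin h fun ω => sup_le (h.le ω) (coord_mono fun _ hi => hi.2)
  have hκfin : κ ≠ ⊤ := Exact_fin h fun ω => inf_le_left.trans (h.le ω)
  have kM : s + fdim P β (one fun ω => cl (M ω) ⊓ coord (Y ω)) = fdim P β (one M) + q := by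
    have := fdim_kap h.mp h.base hM hQ
    simp only [one, hcl _ (h.le _)] at this
    exact this
  have kV : ∀ j, k ≤ j → fdim P β (one (V j)) + q ≤ s + κ + ((j : ℝ≥0∞) + 1)⁻¹ := by
    intro j hj
    have h1 := fdim_kap h.mp h.base (hV j) hQ
    simp only [one, hcl _ ((hVM j _).trans (h.le _))] at h1
    refine h1.symm.le.trans ?_
    rw [add_assoc]
    exact add_le_add (fdim_mono' fun ω _ => sup_le_sup_right (hVM j ω) _) (happ j hj)
  have kV' : ∀ n, fdim P β (one (V n)) + q ≤ s + κ := by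
    intro n
    refine ENNReal.le_of_forall_pos_le_add fun ε hε _ => ?_
    obtain ⟨m, hm⟩ := ENNReal.exists_inv_nat_lt (a := (ε : ℝ≥0∞)) (by exact_mod_cast hε.ne')
    have h1 := kV (n + k + m) (by omega)
    have h2 : fdim P β (one (V n)) ≤ fdim P β (one (V (n + k + m))) :=
      fdim_mono' fun ω _ => hmono ω (by omega)
    have h3 : (((n + k + m : ℕ) : ℝ≥0∞) + 1)⁻¹ ≤ ε := by
      refine le_trans (ENNReal.inv_le_inv.mpr ?_) hm.le
      exact le_add_right (by exact_mod_cast (by omega : m ≤ n + k + m))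
    exact (add_le_add h2 le_rfl).trans (h1.trans (add_le_add le_rfl h3))
  have hlim : fdim P β (one M) = ⨆ n, fdim P β (one (V n)) := by
    rw [← fdim_iSup (K := fun n => one (V n)) (fun n => (hV n).meas) fun ω _ => hmono ω]
    congr 1
    funext ω _
    exact (hsup ω).symm
  have hle : fdim P β (one fun ω => cl (M ω) ⊓ coord (Y ω)) ≤ κ := by
    refine (ENNReal.add_le_add_iff_left hsfin).mp ?_
    rw [kM, hlim, ENNReal.iSup_add]
    exact iSup_le kV'
  have hK : RFam a (one fun ω => M ω ⊓ coord (Y ω)) := (h.hM.inf_coord (rrel_one h.hY)).rfam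
  have hL : RFam a (one fun ω => cl (M ω) ⊓ coord (Y ω)) := hM.inf_coord (rrel_one h.hY)
  filter_upwards [ae_le_of_fdim_le h.mp h.base hK hL
    (fun ω _ => (inf_le_inf_right _ (le_cl _)).trans (le_cl _)) hle hκfin] with ω hω
  exact hω ()

end aux

/-- Finite subsets increasing to a countable type. -/
theorem Exact_exhaust (Γ : Type*) [Countable Γ] : ∃ A : ℕ → Finset Γ, Monotone A ∧
    ∀ S : Set Γ, S.Finite → ∃ n, ∀ x ∈ S, x ∈ A n := by
  classical
  obtain ⟨e, he⟩ := Countable.exists_injective_nat Γ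
  have hf : ∀ n : ℕ, {x | e x < n}.Finite := fun n =>
    (Set.finite_lt_nat n).preimage he.injOn
  refine ⟨fun n => (hf n).toFinset, fun m n hmn x hx => ?_, fun S hS => ?_⟩
  · simp only [Set.Finite.mem_toFinset, Set.mem_ofPred_eq] at hx ⊢
    omega
  · obtain ⟨n, hn⟩ := (hS.image e).bddAbove
    refine ⟨n + 1, fun x hx => ?_⟩
    simp only [Set.Finite.mem_toFinset, Set.mem_ofPred_eq]
    exact Nat.lt_succ_of_le (hn ⟨x, hx, rfl⟩)

theorem flat_of_subsingleton (Γ : Type u) [Group Γ] [Subsingleton Γ] : Flat Γ := by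
  intro δ _
  refine ⟨Measure.dirac fun _ => False, ⟨inferInstance, fun g => ?_, ?_⟩, ?_⟩
  · rw [Measure.map_dirac' (Exact_measurable_lsh g)]
    rfl
  · rw [Measure.dirac_apply' _ (measurable_pi_apply (1 : Γ)).setOf]
    simp
  · intro ι Ω _ _ _ β Xh k P _ a M Y h
    refine Eventually.of_forall fun p => ?_
    have hfin : {i | Xh i}.Finite := by
      refine (Set.finite_of_encard_le_coe h.card).subset fun i hi => ?_
      exact ⟨Subsingleton.elim _ _, hi⟩
    unfold ExactAt
    rw [cl_of_finite hfin (Exact_addU_le (h.le _) _)]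
    exact le_cl _

theorem flat_of_flatE {Γ : Type u} [Group Γ] [Countable Γ]
    (h : ∀ δ ε : ℝ≥0∞, 0 < δ → 0 < ε → ∀ (k : ℕ) (A : Finset Γ),
      ∃ μ : Measure (Γ → Prop), InvSet δ μ ∧ FlatE ε k A μ) : Flat Γ := by
  intro δ hδ
  obtain ⟨d, hd, hsum⟩ := ENNReal.exists_pos_sum_of_countable hδ.ne' ℕ
  obtain ⟨A, hA, hAS⟩ := Exact_exhaust Γ
  choose ν hν hE using fun j : ℕ => h (d j) ((j : ℝ≥0∞) + 1)⁻¹ (by exact_mod_cast hd j)
    (ENNReal.inv_pos.mpr (by simp)) j (A j)
  have := fun j => (hν j).prob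
  set Q : Measure (ℕ → Γ → Prop) := Measure.infinitePi ν with hQ
  let un : (ℕ → Γ → Prop) → Γ → Prop := fun z x => ∃ j, z j x
  let sh : Γ → (ℕ → Γ → Prop) → ℕ → Γ → Prop := fun g z j => lsh g (z j)
  have hev : ∀ j x, Measurable fun z : ℕ → Γ → Prop => z j x := fun j x =>
    (measurable_pi_apply x).comp (measurable_pi_apply j)
  have hun : Measurable un :=
    measurable_pi_lambda _ fun x => Measurable.exists fun j => hev j x
  have hsh : ∀ g, MeasurePreserving (sh g) Q Q := by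
    intro g
    refine ⟨measurable_pi_lambda _ fun j =>
      (Exact_measurable_lsh g).comp (measurable_pi_apply j), ?_⟩
    have h1 := Measure.infinitePi_map_pi ν (f := fun _ => lsh g) fun _ => Exact_measurable_lsh g
    simp only [(hν _).inv g] at h1
    exact h1
  have hμ : IsProbabilityMeasure (Q.map un) := Measure.isProbabilityMeasure_map hun.aemeasurable
  refine ⟨Q.map un, ⟨hμ, fun g => ?_, ?_⟩, ?_⟩
  · rw [Measure.map_map (Exact_measurable_lsh g) hun]
    conv_rhs => rw [← (hsh g).map_eq]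
    rw [Measure.map_map hun (hsh g).measurable]
    rfl
  · rw [Measure.map_apply hun (measurable_pi_apply (1 : Γ)).setOf]
    have e : un ⁻¹' {w | w 1} = ⋃ j, (fun z : ℕ → Γ → Prop => z j) ⁻¹' {w | w 1} := by
      ext z
      simp [un]
    rw [e]
    refine (measure_iUnion_le _).trans (le_trans (ENNReal.tsum_le_tsum fun j => ?_) hsum.le)
    rw [(measurePreserving_eval_infinitePi ν j).measure_preimage
      (measurable_pi_apply (1 : Γ)).setOf.nullMeasurableSet]
    exact (hν j).dens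
  intro ι Ω _ _ _ β Xh k P _ a M Y hI
  let a' : Γ → (ℕ → Γ → Prop) × Ω → (ℕ → Γ → Prop) × Ω := fun g => Prod.map (sh g) (a g)
  have ha' : ∀ g, MeasurePreserving (a' g) (Q.prod P) (Q.prod P) := fun g =>
    (hsh g).prod (hI.mp g)
  have hI' : ∀ j, k ≤ j → IsInp β Xh j (Q.prod P) a' (fun p => M p.2) (fun p => Y p.2) :=
    fun j hj => Exact_inp_factor hI ha' measurable_snd (fun _ _ => rfl) hj
  have hR : ∀ c : ℕ → Prop, RSet a' fun p x => ∃ j, c j ∧ p.1 j x := by
    intro c
    refine ⟨fun x => Measurable.exists fun j =>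
      measurable_const.and ((hev j x).comp measurable_fst), fun g p x => ?_⟩
    simp [a', sh, lsh]
  have hRun : RSet a' fun p x => un p.1 x := by
    simpa [un] using hR fun _ => True
  have hN := Exact_inp_addU (hI' k le_rfl) hRun
  have hNj := fun j i (hi : k ≤ i) => Exact_inp_addU (hI' i hi) (hR fun i => i < j)
  have hmain : ∀ᵐ p ∂(Q.prod P), ExactAt (addU β Xh (M p.2) (un p.1)) (Y p.2) := by
    refine Exact_limit hN
      (V := fun j p => trunc β (A j) (addU β Xh (M p.2) fun x => ∃ i, i < j ∧ p.1 i x))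
      (fun j => (Exact_afam_trunc (hNj j k le_rfl) (A j)).rfam) (fun p m n hmn => ?_)
      (fun p => ?_) fun j hj => ?_
    · exact Exact_trunc_mono (hA hmn) (Exact_addU_mono _ fun x ⟨i, hi, hx⟩ => ⟨i, by omega, hx⟩)
    · refine le_antisymm (iSup_le fun j => (Exact_trunc_le _ _).trans
        (Exact_addU_mono _ fun x ⟨i, _, hx⟩ => ⟨i, hx⟩)) ?_
      have key : ∀ (j : ℕ) (f : L2 ι), {i | f i ≠ 0}.Finite →
          f ∈ addU β Xh (M p.2) (fun x => ∃ i, i < j ∧ p.1 i x) →
          f ∈ ⨆ j, trunc β (A j) (addU β Xh (M p.2) fun x => ∃ i, i < j ∧ p.1 i x) := by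
        intro j f hf hm
        obtain ⟨n, hn⟩ := hAS _ (hf.image β)
        refine Submodule.mem_iSup_of_mem (n + j) (Submodule.mem_iSup_of_mem (1 : Γ) ⟨?_, ?_⟩)
        · exact Exact_addU_mono _ (fun x ⟨i, hi, hx⟩ => ⟨i, by omega, hx⟩) hm
        · intro i hi
          by_contra h0
          simp only [inv_one, one_mul] at hi
          exact hi (hA (Nat.le_add_right n j) (hn _ ⟨i, h0, rfl⟩))
      refine sup_le (fun f hf => key 0 f (mem_units.mp ((hI.hM.meas ()).fin p.2 hf)).1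
        (Submodule.mem_sup_left hf)) (Submodule.span_le.mpr ?_)
      rintro _ ⟨i, ⟨hi, j, hj⟩, rfl⟩
      exact key (j + 1) _ (mem_units.mp (dl_mem_units (S := fun _ => True) trivial)).1
        (Submodule.mem_sup_right (dl_mem_units ⟨hi, j, Nat.lt_succ_self j, hj⟩))
    · refine (hE j ι _ β Xh (Q.prod P) a' _ _ (hNj j j hj)).trans (add_le_add ?_ le_rfl)
      have hres := (resample_pi ν j).prod_right P
      have hK : RFam a' (one fun p => addU β Xh (M p.2) (un p.1) ⊓ coord (Y p.2)) :=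
        (hN.hM.inf_coord (rrel_one hN.hY)).rfam
      rw [← fdim_factor (β := β) hres hK.meas]
      refine fdim_mono' fun q _ => inf_le_inf_right _ (sup_le ?_ ?_)
      · refine Exact_addU_mono _ fun x ⟨i, hi, hx⟩ => ⟨i, ?_⟩
        simpa [Function.update_of_ne hi.ne] using hx
      · refine le_sup_of_le_right (units_mono fun i hi => ⟨hi.1, j, ?_⟩)
        simpa using hi.2
  have hmp : MeasurePreserving (Prod.map un (id : Ω → Ω)) (Q.prod P) ((Q.map un).prod P) :=
    (hun.measurePreserving Q).prod (MeasurePreserving.id P)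
  have hms : Measurable fun p : (Γ → Prop) × Ω => ExactAt (addU β Xh (M p.2) p.1) (Y p.2) := by
    refine AMeas.exactAt (((hI.hM.meas ()).comp measurable_snd).sup (AMeas.unit fun i => ?_))
      fun i => (hI.hY.meas i).comp measurable_snd
    exact measurable_const.and ((measurable_pi_apply (β i)).comp measurable_fst)
  rw [← hmp.map_eq, ae_map_iff hmp.aemeasurable hms.setOf]
  exact hmain

end Pool.Agent.FusfFlat
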