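import Pool.Agent.P.MP_8fb1ed_pr.Fl.Meas

/-! Direct sums of families of subspaces and the basic rank inequality. -/

open MeasureTheory Filter Topology Relation
open scoped ENNReal

namespace Pool.Agent.FusfFlat

open Pool.Agent.FusfTree

section det
variable {ι J : Type*}

lemma memℓp_slice (j : J) (f : L2 (J × ι)) : Memℓp (fun i => f (j, i)) 2 := by
  have h := (lp.memℓp f).summable (by simp)
  exact memℓp_gen (h.comp_injective (i := fun i => (j, i)) (Prod.mk_right_injective j))

/-- The slice of a vector at `j`. -/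
noncomputable def slice (j : J) : L2 (J × ι) →ₗ[ℝ] L2 ι where
  toFun f := ⟨fun i => f (j, i), memℓp_slice j f⟩
  map_add' f g := by ext i; rfl
  map_smul' c f := by ext i; rfl

theorem slice_apply (j : J) (f : L2 (J × ι)) (i : ι) : slice j f i = f (j, i) := rfl

theorem Fam_norm_slice_le (j : J) (f : L2 (J × ι)) : ‖slice j f‖ ≤ ‖f‖ := by
  have h : ‖slice j f‖ ^ 2 ≤ ‖f‖ ^ 2 :=
    hasSum_le_inj (fun i => (j, i)) (Prod.mk_right_injective j) (fun c _ => sq_nonneg (f c))
      (fun i => le_rfl) (OpAlgAux.hasSum_sq (slice j f)) (OpAlgAux.hasSum_sq f)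
  exact (pow_le_pow_iff_left₀ (norm_nonneg _) (norm_nonneg _) two_ne_zero).1 h

theorem continuous_slice (j : J) : Continuous (slice j : L2 (J × ι) → L2 ι) :=
  AddMonoidHomClass.continuous_of_bound (slice j : L2 (J × ι) →ₗ[ℝ] L2 ι) 1
    fun f => by rw [one_mul]; exact Fam_norm_slice_le j f

/-- The slice as a continuous linear map. -/
noncomputable def Fam_sliceL (j : J) : L2 (J × ι) →L[ℝ] L2 ι := ⟨slice j, continuous_slice j⟩

theorem Fam_sliceL_apply (j : J) (f : L2 (J × ι)) : Fam_sliceL j f = slice j f := rfl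

open Classical in
theorem Fam_slice_dl (j j' : J) (i : ι) :
    slice j' (dl (j, i) : L2 (J × ι)) = if j' = j then dl i else 0 := by
  ext i'
  rw [slice_apply, OpAlgAux.dl_apply]
  by_cases h : j' = j
  · subst h
    rw [if_pos rfl, OpAlgAux.dl_apply]
    simp
  · rw [if_neg h, if_neg fun e => h (Prod.mk.inj e).1]
    rfl

open Classical in
theorem Fam_slice_adjoint (j j' : J) (w : L2 ι) :
    slice j' (ContinuousLinearMap.adjoint (Fam_sliceL j) w) = if j' = j then w else 0 := by
  ext i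
  rw [slice_apply, ← OpAlgAux.inner_dl, ContinuousLinearMap.adjoint_inner_right, Fam_sliceL_apply,
    Fam_slice_dl]
  by_cases h : j' = j
  · subst h
    rw [if_pos rfl, if_pos rfl, OpAlgAux.inner_dl]
  · rw [if_neg h, if_neg (Ne.symm h), inner_zero_left]
    rfl

/-- The closed direct sum of the closures. -/
noncomputable def fam (K : J → Sub ι) : Sub (J × ι) := ⨅ j, (cl (K j)).comap (slice j)

theorem mem_fam {K : J → Sub ι} {f : L2 (J × ι)} : f ∈ fam K ↔ ∀ j, slice j f ∈ cl (K j) := by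
  simp [fam]

theorem isClosed_fam (K : J → Sub ι) : IsClosed (fam K : Set (L2 (J × ι))) := by
  have h : (fam K : Set (L2 (J × ι))) = ⋂ j, slice j ⁻¹' (cl (K j) : Set (L2 ι)) := by
    ext f
    simp only [SetLike.mem_coe, mem_fam, Set.mem_iInter, Set.mem_preimage]
  rw [h]
  exact isClosed_iInter fun j =>
    (Submodule.isClosed_topologicalClosure (K j)).preimage (continuous_slice j)

theorem Fam_adjoint_mem (K : J → Sub ι) (j : J) {w : L2 ι} (hw : w ∈ cl (K j)) :
    ContinuousLinearMap.adjoint (Fam_sliceL j) w ∈ fam K := by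
  refine mem_fam.2 fun j' => ?_
  rw [Fam_slice_adjoint]
  split_ifs with h
  · subst h
    exact hw
  · exact zero_mem _

theorem slice_proj_fam (K : J → Sub ι) (f : L2 (J × ι)) (j : J) :
    slice j (proj (fam K) f) = proj (K j) (slice j f) := by
  symm
  refine Submodule.eq_starProjection_of_mem_orthogonal (K := (K j).topologicalClosure)
    (mem_fam.1 (PowAux.proj_mem (isClosed_fam K) f) j) ?_
  rw [Submodule.mem_orthogonal]
  intro w hw
  rw [← map_sub, ← Fam_sliceL_apply, ← ContinuousLinearMap.adjoint_inner_left]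
  exact (Submodule.mem_orthogonal _ _).1 (PowAux.sub_proj_mem (fam K) f) _ (Fam_adjoint_mem K j hw)

open Classical in
theorem proj_fam_dl (K : J → Sub ι) (j j' : J) (i i' : ι) :
    proj (fam K) (dl (j, i)) (j', i') = if j' = j then proj (K j) (dl i) i' else 0 := by
  rw [← slice_apply, slice_proj_fam, Fam_slice_dl]
  by_cases h : j' = j
  · subst h
    rw [if_pos rfl, if_pos rfl]
  · rw [if_neg h, if_neg h, map_zero]
    rfl

theorem enorm_proj_fam_dl (K : J → Sub ι) (j : J) (i : ι) :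
    ‖proj (fam K) (dl (j, i))‖ₑ ^ 2 = ‖proj (K j) (dl i)‖ₑ ^ 2 := by
  rw [OpAlgAux.enorm_sq, OpAlgAux.enorm_sq, ENNReal.tsum_prod', tsum_eq_single j]
  · refine tsum_congr fun i' => ?_
    rw [proj_fam_dl, if_pos rfl]
  · intro j' h
    simp [proj_fam_dl, h]

end det

variable {Γ Ω ι J J' : Type*} [Group Γ] [Countable Γ] [MeasurableSpace Ω] [MulAction Γ ι]
  [MulAction Γ J] [MulAction Γ J'] [Countable ι] [Countable J] [Countable J'] {a : Γ → Ω → Ω}
  {P : Measure Ω} {β : ι → Γ}

theorem isBase_snd (hβ : IsBase β) : IsBase fun p : J × ι => β p.2 := fun g p => hβ g p.2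

omit [Countable Γ] [Countable ι] [Countable J] in
theorem Fam_rsub {K : Ω → J → Sub ι} (hK : RFam a K) : RSub a fun ω => fam (K ω) := by
  refine ⟨fun ω => isClosed_fam _, ⟨1, fun ω => PowAux.proj_norm_le _⟩, ?_, ?_⟩
  · rintro ⟨j, i⟩ ⟨j', i'⟩
    simp only [proj_fam_dl]
    by_cases h : j' = j
    · simp only [if_pos h]
      exact hK.meas j i i'
    · simp only [if_neg h]
      exact measurable_const
  · rintro g ω ⟨j, i⟩ ⟨j', i'⟩
    simp only [Prod.smul_mk, proj_fam_dl]
    by_cases h : j' = j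
    · subst h
      rw [if_pos rfl, if_pos rfl, hK.eqv g ω j', proj_trS_dl]
    · rw [if_neg h, if_neg fun e => h (smul_left_cancel g e)]

theorem RFam.rsub {K : Ω → J → Sub ι} (hK : RFam a K) : RSub a fun ω => fam (K ω) :=
  Fam_rsub hK

theorem dim_fam (K : Ω → J → Sub ι) :
    dim P (fun p : J × ι => β p.2) (fun ω => fam (K ω)) = fdim P β K := by
  unfold dim hs fdim
  refine lintegral_congr fun ω => ?_
  rw [ENNReal.tsum_prod']
  refine tsum_congr fun j => tsum_congr fun i => ?_
  rw [enorm_proj_fam_dl]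

/-- If no nonzero vector of `cl (K j)` is orthogonal to `L j`, then `dim K ≤ dim L`. -/
theorem fdim_le_of_inj (ha : ∀ g, MeasurePreserving (a g) P P) (hβ : IsBase β)
    {K L : Ω → J → Sub ι} (hK : RFam a K) (hL : RFam a L)
    (h : ∀ᵐ ω ∂P, ∀ j, ∀ w ∈ cl (K ω j), w ∈ (L ω j)ᗮ → w = 0) :
    fdim P β K ≤ fdim P β L := by
  have h1 := dim_le ha (isBase_snd (J := J) hβ) (isBase_snd (J := J) hβ) hK.rsub hL.rsub
    hL.rsub.rop fun ω v _ => PowAux.proj_mem (isClosed_fam _) v
  have h2 : dim P (fun p : J × ι => β p.2) (fun ω => fam (K ω) ⊓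
      LinearMap.ker (proj (fam (L ω)) : L2 (J × ι) →ₗ[ℝ] L2 (J × ι))) = 0 := by
    rw [← dim_bot (P := P) (fun p : J × ι => β p.2) (K := fun _ => ⊥) fun _ => rfl]
    unfold dim hs
    refine lintegral_congr_ae ?_
    filter_upwards [h] with ω hω
    have e : fam (K ω) ⊓ LinearMap.ker (proj (fam (L ω)) : L2 (J × ι) →ₗ[ℝ] L2 (J × ι)) = ⊥ := by
      rw [eq_bot_iff]
      rintro v ⟨hv, hv'⟩
      have hv0 : proj (fam (L ω)) v = 0 := hv'
      rw [Submodule.mem_bot]
      ext ⟨j, i⟩
      have h3 : slice j v ∈ (L ω j)ᗮ := by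
        have h4 := PowAux.sub_proj_mem (L ω j) (slice j v)
        rwa [← slice_proj_fam, hv0, map_zero, sub_zero] at h4
      rw [← slice_apply, hω j _ (mem_fam.1 hv j) h3]
      rfl
    rw [e]
  rwa [h2, add_zero, dim_fam, dim_fam] at h1

end Pool.Agent.FusfFlat
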