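import Pool.Agent.P.MP_8fb1ed_pr.Fl.Dim

/-! The gluing inequality (paper 5.5). -/

open MeasureTheory Filter Topology Relation
open scoped ENNReal

namespace Pool.Agent.FusfFlat

open Pool.Agent.FusfTree

variable {Γ Ω ι V : Type*} [Group Γ] [Countable Γ] [MeasurableSpace Ω] [MulAction Γ ι]
  [MulAction Γ V] [Countable ι] [Countable V] {a : Γ → Ω → Ω} {P : Measure Ω} {β : ι → Γ}

/-- Vectors `g v ∈ cl (K v)` on the bags `X v`: their differences along the edges `E` lie in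
`cl (L e)`; if all differences vanish they glue to one vector, which lies in `cl N`. -/
theorem glue_le (ha : ∀ g, MeasurePreserving (a g) P P) (hβ : IsBase β) (o : ι → V)
    (ho : ∀ (g : Γ) i, o (g • i) = g • o i) {X : Ω → V → ι → Prop} (hX : RRel a X) (C : ℕ)
    (hC : ∀ ω i, {v | X ω v i}.encard ≤ C) {E : Ω → V × V → Prop} (hE : RSet a E)
    {K : Ω → V → Sub ι} {L : Ω → V × V → Sub ι} {N : Ω → Sub ι}
    (hK : RFam a K) (hL : RFam a L) (hN : RFam a (one N))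
    (hKX : ∀ ω v, K ω v ≤ coord (X ω v))
    (hwalk : ∀ ω v i, X ω v i → X ω (o i) i ∧
      ReflTransGen (fun p q => (E ω (p, q) ∨ E ω (q, p)) ∧ X ω q i) (o i) v)
    (hdiff : ∀ ω e, E ω e → ∀ g₁ ∈ cl (K ω e.1), ∀ g₂ ∈ cl (K ω e.2),
      proj (coord fun i => X ω e.1 i ∧ X ω e.2 i) (g₁ - g₂) ∈ cl (L ω e))
    (hglue : ∀ ω (G : L2 ι), (∀ i, ¬ X ω (o i) i → G i = 0) →
      (∀ v, proj (coord (X ω v)) G ∈ cl (K ω v)) → G ∈ cl (N ω)) :
    fdim P β K ≤ fdim P β L + fdim P β (one N) := by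
  classical
  have hV : RSet a fun ω (j : (V × V) × ι) => E ω j.1 ∧ X ω j.1.1 j.2 ∧ X ω j.1.2 j.2 :=
    ⟨fun j => (hE.meas _).and ((hX.meas _ _).and (hX.meas _ _)),
      fun g ω j => and_congr (hE.eqv g ω j.1) (and_congr (hX.eqv g ω _ _) (hX.eqv g ω _ _))⟩
  obtain ⟨A1, hA1, hA1a, hA1b⟩ := exists_pull (a := a)
    (R := fun ω (j : (V × V) × ι) (p : V × ι) =>
      (E ω j.1 ∧ X ω j.1.1 j.2 ∧ X ω j.1.2 j.2) ∧ p.1 = j.1.1 ∧ p.2 = j.2)
    ⟨fun j i => (hV.meas j).and measurable_const,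
      fun g ω j i => and_congr (hV.eqv g ω j) (by simp)⟩
    (fun ω j i i' h h' => Prod.ext (h.2.1.trans h'.2.1.symm) (h.2.2.trans h'.2.2.symm)) C
    fun ω p => (Set.encard_le_encard_of_injOn (f := fun j : (V × V) × ι => j.1.2)
      (t := {v | X ω v p.2})
      (fun j hj => by have := hj.1.2.2; rwa [← hj.2.2] at this)
      fun j hj j' hj' h => Prod.ext (Prod.ext (hj.2.1.symm.trans hj'.2.1) h)
        (hj.2.2.symm.trans hj'.2.2)).trans (hC ω p.2)
  obtain ⟨A2, hA2, hA2a, hA2b⟩ := exists_pull (a := a)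
    (R := fun ω (j : (V × V) × ι) (p : V × ι) =>
      (E ω j.1 ∧ X ω j.1.1 j.2 ∧ X ω j.1.2 j.2) ∧ p.1 = j.1.2 ∧ p.2 = j.2)
    ⟨fun j i => (hV.meas j).and measurable_const,
      fun g ω j i => and_congr (hV.eqv g ω j) (by simp)⟩
    (fun ω j i i' h h' => Prod.ext (h.2.1.trans h'.2.1.symm) (h.2.2.trans h'.2.2.symm)) C
    fun ω p => (Set.encard_le_encard_of_injOn (f := fun j : (V × V) × ι => j.1.1)
      (t := {v | X ω v p.2})
      (fun j hj => by have := hj.1.2.1; rwa [← hj.2.2] at this)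
      fun j hj j' hj' h => Prod.ext (Prod.ext h (hj.2.1.symm.trans hj'.2.1))
        (hj.2.2.symm.trans hj'.2.2)).trans (hC ω p.2)
  obtain ⟨Y, hY, hYa, hYb⟩ := exists_pull (a := a)
    (R := fun ω (j : Unit × ι) (p : V × ι) => X ω (o j.2) j.2 ∧ p.1 = o j.2 ∧ p.2 = j.2)
    ⟨fun j i => (hX.meas _ _).and measurable_const,
      fun g ω j i => and_congr (by
        rw [Prod.smul_snd, ho]
        exact hX.eqv g ω _ _) (by simp [ho])⟩
    (fun ω j i i' h h' => Prod.ext (h.2.1.trans h'.2.1.symm) (h.2.2.trans h'.2.2.symm)) 1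
    fun ω p => Set.encard_le_one_iff.2 fun j j' hj hj' =>
      Prod.ext rfl (hj.2.2.symm.trans hj'.2.2)
  let D : Ω → L2 (V × ι) →L[ℝ] L2 ((V × V) × ι) := fun ω => A1 ω - A2 ω
  have hD : ROp a D := hA1.sub hA2
  have hD1 : ∀ ω (f : L2 (V × ι)) (e : V × V) i, E ω e → X ω e.1 i → X ω e.2 i →
      D ω f (e, i) = f (e.1, i) - f (e.2, i) := by
    intro ω f e i h1 h2 h3
    have e1 := hA1a ω f (e, i) (e.1, i) ⟨⟨h1, h2, h3⟩, rfl, rfl⟩
    have e2 := hA2a ω f (e, i) (e.2, i) ⟨⟨h1, h2, h3⟩, rfl, rfl⟩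
    rw [← e1, ← e2]
    rfl
  have hD2 : ∀ ω (f : L2 (V × ι)) (e : V × V) i, ¬ (E ω e ∧ X ω e.1 i ∧ X ω e.2 i) →
      D ω f (e, i) = 0 := by
    intro ω f e i h
    have e1 := hA1b ω f (e, i) fun p hp => h hp.1
    have e2 := hA2b ω f (e, i) fun p hp => h hp.1
    have e3 : D ω f (e, i) = A1 ω f (e, i) - A2 ω f (e, i) := rfl
    rw [e3, e1, e2, sub_zero]
  have hDK : ∀ ω, ∀ f ∈ fam (K ω), D ω f ∈ fam (L ω) := by
    intro ω f hf
    rw [mem_fam] at hf ⊢
    intro e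
    by_cases he : E ω e
    · have h := hdiff ω e he _ (hf e.1) _ (hf e.2)
      convert h using 1
      ext i
      rw [proj_coord_apply, slice_apply]
      by_cases hi : X ω e.1 i ∧ X ω e.2 i
      · rw [if_pos hi, hD1 ω f e i he hi.1 hi.2]
        rfl
      · rw [if_neg hi, hD2 ω f e i fun h => hi h.2]
    · have h : slice e (D ω f) = 0 := by
        ext i
        rw [slice_apply, hD2 ω f e i fun h => he h.1]
        rfl
      rw [h]
      exact zero_mem _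
  have hoff : ∀ ω, ∀ f ∈ fam (K ω), ∀ v i, ¬ X ω v i → f (v, i) = 0 := by
    intro ω f hf v i hi
    have h := cl_mono (hKX ω v) (mem_fam.1 hf v)
    rw [cl_coord] at h
    exact mem_coord.1 h i hi
  have hconst : ∀ ω (f : L2 (V × ι)), D ω f = 0 → ∀ v i, X ω v i → f (v, i) = f (o i, i) := by
    intro ω f hf v i hv
    obtain ⟨h0, hw⟩ := hwalk ω v i hv
    have key : ∀ q, ReflTransGen (fun p q => (E ω (p, q) ∨ E ω (q, p)) ∧ X ω q i) (o i) q →
        X ω q i ∧ f (q, i) = f (o i, i) := by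
      intro q hq
      induction hq with
      | refl => exact ⟨h0, rfl⟩
      | @tail p q _ hpq ih =>
        refine ⟨hpq.2, ?_⟩
        rw [← ih.2]
        rcases hpq.1 with h | h
        · have h1 := hD1 ω f (p, q) i h ih.1 hpq.2
          rw [hf] at h1
          exact (sub_eq_zero.1 h1.symm).symm
        · have h1 := hD1 ω f (q, p) i h hpq.2 ih.1
          rw [hf] at h1
          exact sub_eq_zero.1 h1.symm
    exact (key v hw).2
  have hYv : ∀ ω (f : L2 (V × ι)) i, X ω (o i) i → Y ω f ((), i) = f (o i, i) :=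
    fun ω f i h => hYa ω f ((), i) (o i, i) ⟨h, rfl, rfl⟩
  have hYK : ∀ ω, ∀ f ∈ fam (K ω) ⊓ LinearMap.ker (D ω : L2 (V × ι) →ₗ[ℝ] L2 ((V × V) × ι)),
      Y ω f ∈ fam (one N ω) := by
    intro ω f hf
    have hf1 : f ∈ fam (K ω) := hf.1
    have hf2 : D ω f = 0 := hf.2
    rw [mem_fam]
    rintro ⟨⟩
    refine hglue ω _ (fun i hi => ?_) fun v => ?_
    · rw [slice_apply]
      exact hYb ω f _ fun p hp => hi hp.1
    · have h := mem_fam.1 hf1 v
      convert h using 1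
      ext i
      rw [proj_coord_apply, slice_apply, slice_apply]
      by_cases hi : X ω v i
      · rw [if_pos hi, hYv ω f i (hwalk ω v i hi).1, hconst ω f hf2 v i hi]
      · rw [if_neg hi, hoff ω f hf1 v i hi]
  have h1 := dim_le ha (isBase_snd hβ) (isBase_snd hβ) hK.rsub hL.rsub hD hDK
  have h2 := dim_le ha (isBase_snd hβ) (isBase_snd hβ) (hK.rsub.inf_ker hD) hN.rsub hY hYK
  have h3 := dim_bot (P := P) (fun p : V × ι => β p.2) (K := fun ω =>
      (fam (K ω) ⊓ LinearMap.ker (D ω : L2 (V × ι) →ₗ[ℝ] L2 ((V × V) × ι))) ⊓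
        LinearMap.ker (Y ω : L2 (V × ι) →ₗ[ℝ] L2 (Unit × ι))) fun ω => by
    rw [eq_bot_iff]
    intro f hf
    have hf1 : f ∈ fam (K ω) := hf.1.1
    have hf2 : D ω f = 0 := hf.1.2
    have hf3 : Y ω f = 0 := hf.2
    rw [Submodule.mem_bot]
    ext ⟨v, i⟩
    by_cases hi : X ω v i
    · rw [hconst ω f hf2 v i hi, ← hYv ω f i (hwalk ω v i hi).1, hf3]
      rfl
    · rw [hoff ω f hf1 v i hi]
      rfl
  rw [h3, add_zero, dim_fam] at h2
  rw [dim_fam, dim_fam] at h1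
  exact h1.trans (add_le_add_right h2 _)

end Pool.Agent.FusfFlat
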