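import Pool.Agent.P.MP_8fb1ed_pr.Fl.Stmt

/-! Definitions used in the statement: the tree hierarchy, with its closure operations listed. -/

namespace Pool.Agent.FusfFlat

open Pool.Agent.FusfTree

universe u

/-- Closure conditions on a class `C` of groups. -/
structure HierClosed (C : ∀ (G : Type u) [Group G], Prop) : Prop where
  /-- countable approximately treeable groups and countable amenable groups -/
  base : ∀ (G : Type u) [Group G], Countable G → ApproxTreeable G ∨ Folner G → C G
  /-- groups acting on a countable tree with vertex stabilisers in the class -/
  tree : ∀ (G V : Type u) [Group G] [MulAction G V] (T : SimpleGraph V), Countable V → T.IsTree →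
    (∀ (g : G) v w, T.Adj v w → T.Adj (g • v) (g • w)) →
    (∀ v : V, C (MulAction.stabilizer G v)) → C G
  /-- groups that are approximately treeable relative to the class -/
  rel : ∀ (G : Type u) [Group G], RelTreeable C G → C G
  /-- extensions -/
  ext : ∀ (G Q : Type u) [Group G] [Group Q] (f : G →* Q), C Q → C f.ker → C G
  /-- subgroups -/
  sub : ∀ (G : Type u) [Group G] (H : Subgroup G), C G → C H
  /-- finite index overgroups -/
  fin : ∀ (G : Type u) [Group G] (H : Subgroup G), H.FiniteIndex → C H → C G
  /-- countable groups all of whose finitely generated subgroups lie in the class -/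
  loc : ∀ (G : Type u) [Group G], Countable G → (∀ H : Subgroup G, H.FG → C H) → C G

/-- The tree hierarchy: the smallest class of groups satisfying `HierClosed`. -/
def Hier (Γ : Type u) [Group Γ] : Prop :=
  ∀ C : ∀ (G : Type u) [Group G], Prop, HierClosed C → C Γ

end Pool.Agent.FusfFlat
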