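import Pool.Agent.P.MP_8fb1ed_pr.Fl.Hilb2

/-! Translation of vectors and subspaces. -/

open MeasureTheory Filter Topology Relation
open scoped ENNReal

namespace Pool.Agent.FusfFlat

open Pool.Agent.FusfTree

variable {ι : Type*}

section tr
variable {Γ : Type*} [Group Γ] [MulAction Γ ι]

theorem tr_apply (g : Γ) (f : L2 ι) (i : ι) : tr g f i = f (g⁻¹ • i) := rfl

theorem tr_dl (g : Γ) (i : ι) : tr g (dl i : L2 ι) = dl (g • i) := by
  classical
  ext j
  rw [tr_apply]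
  unfold dl
  simp only [lp.single_apply, Pi.single_apply, inv_smul_eq_iff]

theorem mem_trS {g : Γ} {K : Sub ι} {f : L2 ι} : tr g f ∈ trS g K ↔ f ∈ K :=
  ⟨fun ⟨_, h, e⟩ => (tr g).injective e ▸ h, fun h => ⟨f, h, rfl⟩⟩

theorem Hilb_ext {g : Γ} {K L : Sub ι} (h : ∀ f, tr g f ∈ K ↔ tr g f ∈ L) : K = L := by
  ext f
  obtain ⟨f, rfl⟩ := (tr g).surjective f
  exact h f

theorem trS_mono (g : Γ) {K L : Sub ι} : trS g K ≤ trS g L ↔ K ≤ L :=
  ⟨fun h _ hf => mem_trS.1 (h (mem_trS.2 hf)), fun h => Submodule.map_mono h⟩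

theorem trS_bot (g : Γ) : trS g (⊥ : Sub ι) = ⊥ := Submodule.map_bot _

theorem trS_sup (g : Γ) (K L : Sub ι) : trS g (K ⊔ L) = trS g K ⊔ trS g L :=
  Submodule.map_sup _ _ _

theorem trS_inf (g : Γ) (K L : Sub ι) : trS g (K ⊓ L) = trS g K ⊓ trS g L :=
  Hilb_ext (g := g) fun f => by simp only [mem_trS, Submodule.mem_inf]

theorem trS_iSup (g : Γ) {J : Sort*} (K : J → Sub ι) :
    trS g (⨆ j, K j) = ⨆ j, trS g (K j) := Submodule.map_iSup _ _

theorem trS_cl (g : Γ) (K : Sub ι) : trS g (cl K) = cl (trS g K) :=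
  SetLike.coe_injective ((tr g : L2 ι ≃ₗᵢ[ℝ] L2 ι).toHomeomorph.image_closure (K : Set (L2 ι)))

theorem trS_orth (g : Γ) (K : Sub ι) : trS g Kᗮ = (trS g K)ᗮ := by
  refine Hilb_ext (g := g) fun f => ?_
  rw [mem_trS, Submodule.mem_orthogonal, Submodule.mem_orthogonal]
  constructor
  · rintro h _ ⟨u, hu, rfl⟩
    exact ((tr g).inner_map_map u f).trans (h u hu)
  · intro h u hu
    exact ((tr g).inner_map_map u f).symm.trans (h _ (mem_trS.2 hu))

theorem trS_onIf (g : Γ) {c c' : Prop} (h : c' ↔ c) (K : Sub ι) :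
    trS g (onIf c K) = onIf c' (trS g K) := by
  by_cases hc : c
  · rw [onIf_pos hc, onIf_pos (h.2 hc)]
  · rw [onIf_neg hc, onIf_neg fun h' => hc (h.1 h'), trS_bot]

theorem trS_units (g : Γ) {S S' : ι → Prop} (h : ∀ i, S' (g • i) ↔ S i) :
    trS g (units S) = units S' := by
  unfold trS units
  rw [Submodule.map_span]
  congr 1
  ext f
  constructor
  · rintro ⟨_, ⟨i, hi, rfl⟩, rfl⟩
    exact ⟨g • i, (h i).2 hi, (tr_dl g i).symm⟩
  · rintro ⟨i, hi, rfl⟩
    refine ⟨_, ⟨g⁻¹ • i, (h _).1 (by rwa [smul_inv_smul]), rfl⟩, ?_⟩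
    exact (tr_dl g _).trans (by rw [smul_inv_smul])

theorem trS_coord (g : Γ) {S S' : ι → Prop} (h : ∀ i, S' (g • i) ↔ S i) :
    trS g (coord S) = coord S' := by
  refine Hilb_ext (g := g) fun f => ?_
  rw [mem_trS, mem_coord, mem_coord]
  constructor
  · intro hf i hi
    exact hf _ fun h' => hi (by simpa using (h _).2 h')
  · intro hf i hi
    have h2 := hf (g • i) fun h' => hi ((h i).1 h')
    rwa [tr_apply, inv_smul_smul] at h2

theorem proj_trS (g : Γ) (K : Sub ι) (f : L2 ι) :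
    proj (trS g K) (tr g f) = tr g (proj K f) := by
  refine Submodule.eq_starProjection_of_mem_orthogonal (K := cl (trS g K)) ?_ ?_
  · rw [← trS_cl, mem_trS]
    exact Submodule.starProjection_apply_mem _ f
  · rw [← trS_cl, ← trS_orth, ← map_sub, mem_trS]
    exact Submodule.sub_starProjection_mem_orthogonal f

theorem proj_trS_dl (g : Γ) (K : Sub ι) (i j : ι) :
    proj (trS g K) (dl (g • i)) (g • j) = proj K (dl i) j := by
  rw [← tr_dl, proj_trS, tr_apply, inv_smul_smul]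

theorem exactAt_trS (g : Γ) {N : Sub ι} {Y Y' : ι → Prop} (h : ∀ i, Y' (g • i) ↔ Y i) :
    ExactAt (trS g N) Y' ↔ ExactAt N Y := by
  unfold ExactAt
  rw [← trS_coord g h, ← trS_cl, ← trS_inf, ← trS_inf, ← trS_cl, trS_mono]

end tr

end Pool.Agent.FusfFlat
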