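import Pool.Agent.P.MP_8fb1ed_pr.Fl.Defs

/-! Units, coordinates and closures. -/

open MeasureTheory Filter Topology Relation
open scoped ENNReal

namespace Pool.Agent.FusfFlat

open Pool.Agent.FusfTree

variable {ι : Type*}

theorem mem_coord {S : ι → Prop} {f : L2 ι} : f ∈ coord S ↔ ∀ i, ¬ S i → f i = 0 := Iff.rfl

theorem Hilb1_eq_sum {f : L2 ι} (h : {i | f i ≠ 0}.Finite) :
    f = ∑ i ∈ h.toFinset, f i • (dl i : L2 ι) :=
  (OpAlgAux.hasSum_dl f).unique (hasSum_sum_of_ne_finset_zero fun i hi => by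
    have : f i = 0 := by simpa using hi
    rw [this, zero_smul])

theorem mem_units {S : ι → Prop} {f : L2 ι} :
    f ∈ units S ↔ {i | f i ≠ 0}.Finite ∧ ∀ i, ¬ S i → f i = 0 := by
  classical
  constructor
  · intro h
    induction h using Submodule.span_induction with
    | mem x hx =>
      obtain ⟨j, hj, rfl⟩ := hx
      refine ⟨(Set.finite_singleton j).subset fun i hi => ?_, fun i hi => ?_⟩
      · by_contra h
        exact hi (by rw [dl_apply', if_neg (show ¬ i = j from h)])
      · rw [dl_apply', if_neg]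
        rintro rfl
        exact hi hj
    | zero => exact ⟨by simp, fun i _ => by simp⟩
    | add x y _ _ hx hy =>
      refine ⟨(hx.1.union hy.1).subset fun i hi => ?_, fun i hi => by simp [hx.2 i hi, hy.2 i hi]⟩
      by_contra h
      simp only [Set.mem_union, Set.mem_setOf_eq, not_or, not_not] at h
      exact hi (by simp [h.1, h.2])
    | smul c x _ hx =>
      refine ⟨hx.1.subset fun i hi => ?_, fun i hi => by simp [hx.2 i hi]⟩
      intro h
      exact hi (by simp [h])
  · rintro ⟨h, h'⟩
    rw [Hilb1_eq_sum h]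
    refine Submodule.sum_mem _ fun i hi => Submodule.smul_mem _ _ (Submodule.subset_span ?_)
    refine ⟨i, ?_, rfl⟩
    by_contra hS
    exact (h.mem_toFinset.1 hi) (h' i hS)

theorem dl_mem_units {S : ι → Prop} {i : ι} (h : S i) : dl i ∈ units S :=
  Submodule.subset_span ⟨i, h, rfl⟩

theorem units_mono {S T : ι → Prop} (h : ∀ i, S i → T i) : units S ≤ units T :=
  Submodule.span_mono (Set.image_mono fun i hi => h i hi)

theorem coord_mono {S T : ι → Prop} (h : ∀ i, S i → T i) : coord S ≤ coord T :=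
  fun _ hf i hi => hf i fun hS => hi (h i hS)

theorem units_le_coord (S : ι → Prop) : units S ≤ coord S := fun _ hf => (mem_units.1 hf).2

theorem units_inf_coord (S T : ι → Prop) : units S ⊓ coord T = units fun i => S i ∧ T i := by
  ext f
  rw [Submodule.mem_inf, mem_units, mem_units, mem_coord]
  refine ⟨fun h => ⟨h.1.1, fun i hi => ?_⟩,
    fun h => ⟨⟨h.1, fun i hi => h.2 i fun p => hi p.1⟩, fun i hi => h.2 i fun p => hi p.2⟩⟩
  by_cases hS : S i
  · exact h.2 i fun hT => hi ⟨hS, hT⟩
  · exact h.1.2 i hS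

theorem coord_inf_coord (S T : ι → Prop) : coord S ⊓ coord T = coord fun i => S i ∧ T i := by
  ext f
  rw [Submodule.mem_inf, mem_coord, mem_coord, mem_coord]
  refine ⟨fun h i hi => ?_,
    fun h => ⟨fun i hi => h i fun p => hi p.1, fun i hi => h i fun p => hi p.2⟩⟩
  by_cases hS : S i
  · exact h.2 i fun hT => hi ⟨hS, hT⟩
  · exact h.1 i hS

theorem units_sup_units (S T : ι → Prop) : units S ⊔ units T = units fun i => S i ∨ T i := by
  rw [units, units, ← Submodule.span_union, ← Set.image_union]; rfl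

theorem iSup_units {J : Sort*} (S : J → ι → Prop) :
    ⨆ j, units (S j) = units fun i => ∃ j, S j i := by
  refine le_antisymm (iSup_le fun j => units_mono fun i hi => ⟨j, hi⟩) ?_
  refine Submodule.span_le.2 ?_
  rintro _ ⟨i, ⟨j, hj⟩, rfl⟩
  exact Submodule.mem_iSup_of_mem j (dl_mem_units hj)

theorem le_units {M : Sub ι} {S : ι → Prop} (h : M ≤ units fun _ => True) (h' : M ≤ coord S) :
    M ≤ units S := fun _ hf => mem_units.2 ⟨(mem_units.1 (h hf)).1, h' hf⟩

theorem cl_units (S : ι → Prop) : cl (units S) = coord S := by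
  refine le_antisymm
    (Submodule.topologicalClosure_minimal _ (units_le_coord S) (isClosed_coord S)) fun f hf => ?_
  refine mem_closure_of_tendsto (OpAlgAux.hasSum_dl f) (Eventually.of_forall fun F => ?_)
  refine Submodule.sum_mem _ fun i _ => ?_
  by_cases h : S i
  · exact Submodule.smul_mem _ _ (dl_mem_units h)
  · rw [hf i h, zero_smul]; exact zero_mem _

theorem cl_coord (S : ι → Prop) : cl (coord S) = coord S :=
  (isClosed_coord S).submodule_topologicalClosure_eq

theorem coord_orth (S : ι → Prop) : (coord S)ᗮ = coord fun i => ¬ S i := by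
  ext f
  rw [Submodule.mem_orthogonal, mem_coord]
  refine ⟨fun h i hi => ?_, fun h g hg => ?_⟩
  · rw [← inner_dl']
    exact h _ (units_le_coord S (dl_mem_units (not_not.1 hi)))
  · rw [lp.inner_eq_tsum]
    refine (tsum_congr fun i => ?_).trans tsum_zero
    by_cases hS : S i
    · rw [h i (not_not.2 hS), inner_zero_right]
    · rw [hg i hS, inner_zero_left]

theorem le_cl (K : Sub ι) : K ≤ cl K := K.le_topologicalClosure

theorem cl_mono {K L : Sub ι} (h : K ≤ L) : cl K ≤ cl L := Submodule.topologicalClosure_mono h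

theorem cl_le_cl {K L : Sub ι} (h : K ≤ cl L) : cl K ≤ cl L :=
  Submodule.topologicalClosure_minimal _ h L.isClosed_topologicalClosure

theorem cl_cl (K : Sub ι) : cl (cl K) = cl K :=
  K.isClosed_topologicalClosure.submodule_topologicalClosure_eq

theorem cl_orth (K : Sub ι) : cl Kᗮ = Kᗮ := K.isClosed_orthogonal.submodule_topologicalClosure_eq

theorem cl_inf_cl (K L : Sub ι) : cl (cl K ⊓ cl L) = cl K ⊓ cl L :=
  le_antisymm (le_inf (cl_le_cl inf_le_left) (cl_le_cl inf_le_right)) (le_cl _)

theorem cl_sup_cl (K L : Sub ι) : cl (cl K ⊔ cl L) = cl (K ⊔ L) :=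
  le_antisymm (cl_le_cl (sup_le (cl_mono le_sup_left) (cl_mono le_sup_right)))
    (cl_mono (sup_le_sup (le_cl K) (le_cl L)))

/-- A subspace supported on a finite set is closed. -/
theorem cl_of_finite {K : Sub ι} {S : ι → Prop} (hS : {i | S i}.Finite) (h : K ≤ coord S) :
    cl K = K := by
  have h1 : K ≤ units S := fun f hf =>
    mem_units.2 ⟨hS.subset fun i hi => by_contra fun hs => hi (h hf i hs), h hf⟩
  haveI : FiniteDimensional ℝ (units S : Sub ι) :=
    FiniteDimensional.span_of_finite ℝ (hS.image _)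
  haveI : FiniteDimensional ℝ K := Submodule.finiteDimensional_of_le h1
  exact K.closed_of_finiteDimensional.submodule_topologicalClosure_eq

theorem onIf_pos {c : Prop} (h : c) (K : Sub ι) : onIf c K = K := iSup_pos h

theorem onIf_neg {c : Prop} (h : ¬ c) (K : Sub ι) : onIf c K = ⊥ := iSup_neg h

theorem onIf_le {c : Prop} {K L : Sub ι} (h : c → K ≤ L) : onIf c K ≤ L := iSup_le h

theorem onIf_mono {c c' : Prop} {K L : Sub ι} (h : c → c') (h' : c → K ≤ L) :
    onIf c K ≤ onIf c' L := iSup_le fun hc => (h' hc).trans (le_iSup_of_le (h hc) le_rfl)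

theorem iSup_inf_of_mono {K : ℕ → Sub ι} (h : Monotone K) (L : Sub ι) :
    (⨆ n, K n) ⊓ L = ⨆ n, K n ⊓ L := by
  refine le_antisymm (fun f hf => ?_) (iSup_le fun n => inf_le_inf_right _ (le_iSup K n))
  obtain ⟨n, hn⟩ := (Submodule.mem_iSup_of_directed K h.directed_le).1 hf.1
  exact Submodule.mem_iSup_of_mem n ⟨hn, hf.2⟩

end Pool.Agent.FusfFlat
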