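import Pool.Agent.P.MP_8fb1ed_pr.Fl.Hilb1

/-! Projections; Lemma P. -/

open MeasureTheory Filter Topology Relation
open scoped ENNReal

namespace Pool.Agent.FusfFlat

open Pool.Agent.FusfTree

variable {ι : Type*}

theorem Hilb2_mem (K : Sub ι) (f : L2 ι) : proj K f ∈ cl K :=
  Submodule.starProjection_apply_mem _ f

theorem Hilb2_eq_of {K : Sub ι} {u v : L2 ι} (hv : v ∈ cl K) (hu : u - v ∈ Kᗮ) :
    proj K u = v := by
  refine Submodule.eq_starProjection_of_mem_orthogonal (K := K.topologicalClosure) hv ?_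
  rwa [Submodule.orthogonal_closure]

theorem Hilb2_cl_le (K : Sub ι) : cl K ≤ Kᗮᗮ := K.orthogonal_orthogonal_eq_closure.ge

theorem Hilb2_orth_le {K L : Sub ι} (h : K ≤ cl L) : Lᗮ ≤ Kᗮ := by
  rw [← Submodule.orthogonal_closure L]
  exact Submodule.orthogonal_le h

theorem Hilb2_apply (K : Sub ι) (f : L2 ι) (j : ι) :
    proj K f j = inner ℝ (proj K (dl j)) f := by
  rw [PowAux.proj_inner, inner_dl']

theorem Hilb2_enorm (f : L2 ι) : ‖f‖ₑ ^ 2 = ENNReal.ofReal (‖f‖ ^ 2) := by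
  rw [ENNReal.ofReal_pow (norm_nonneg _), ofReal_norm]

theorem proj_cl (K : Sub ι) : proj (cl K) = proj K := by
  ext1 f
  refine PowAux.proj_eq_of (Hilb2_mem K f) ?_
  rw [Submodule.orthogonal_closure]
  exact PowAux.sub_proj_mem K f

theorem proj_mem_cl (K : Sub ι) (f : L2 ι) : proj K f ∈ cl K := Hilb2_mem K f

theorem proj_eq_zero_iff {K : Sub ι} {f : L2 ι} : proj K f = 0 ↔ f ∈ Kᗮ := by
  refine ⟨fun h => ?_, fun h => PowAux.proj_eq_of (zero_mem _) (by rwa [sub_zero])⟩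
  have h1 := PowAux.sub_proj_mem K f
  rwa [h, sub_zero] at h1

theorem proj_orth (K : Sub ι) (f : L2 ι) : proj Kᗮ f = f - proj K f := by
  refine PowAux.proj_eq_of (PowAux.sub_proj_mem K f) ?_
  rw [sub_sub_cancel]
  exact Hilb2_cl_le K (proj_mem_cl K f)

theorem proj_bot (f : L2 ι) : proj (⊥ : Sub ι) f = 0 := proj_eq_zero_iff.2 (by simp)

open Classical in
theorem proj_coord_apply (S : ι → Prop) (f : L2 ι) (i : ι) :
    proj (coord S) f i = if S i then f i else 0 := by
  rw [Hilb2_apply, proj_coord_dl]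
  split_ifs
  · exact inner_dl' i f
  · exact inner_zero_left f

/-- Two subspaces with the same matrix of the projection have the same closure. -/
theorem cl_eq_of_entries {K L : Sub ι} (h : ∀ i j, proj K (dl i) j = proj L (dl i) j) :
    cl K = cl L := by
  have h1 : ∀ f, proj K f = proj L f := fun f => by
    ext j
    rw [Hilb2_apply, Hilb2_apply, lp.ext (funext (h j))]
  refine le_antisymm (fun f hf => ?_) fun f hf => ?_
  · rw [← Hilb2_eq_of (u := f) hf (by simp), h1]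
    exact proj_mem_cl L f
  · rw [← Hilb2_eq_of (u := f) hf (by simp), ← h1]
    exact proj_mem_cl K f

theorem le_cl_iff_entries {K L : Sub ι} :
    K ≤ cl L ↔ ∀ i j, proj (K ⊔ L) (dl i) j = proj L (dl i) j := by
  refine ⟨fun h i j => ?_, fun h => ?_⟩
  · have h1 : cl (K ⊔ L) = cl L :=
      le_antisymm (cl_le_cl (sup_le h (le_cl L))) (cl_mono le_sup_right)
    rw [← proj_cl (K ⊔ L), h1, proj_cl]
  · rw [← cl_eq_of_entries h]
    exact le_sup_left.trans (le_cl _)

theorem enorm_proj_le_one (K : Sub ι) (i : ι) : ‖proj K (dl i)‖ₑ ^ 2 ≤ 1 := by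
  rw [Hilb2_enorm, ENNReal.ofReal_le_one]
  have h1 := (proj K).le_opNorm (dl i)
  rw [norm_dl', mul_one] at h1
  exact pow_le_one₀ (norm_nonneg _) (h1.trans (PowAux.proj_norm_le K))

theorem enorm_proj_mono {K L : Sub ι} (h : K ≤ cl L) (f : L2 ι) :
    ‖proj K f‖ₑ ^ 2 ≤ ‖proj L f‖ₑ ^ 2 := by
  rw [Hilb2_enorm, Hilb2_enorm]
  have h1 := norm_proj_anti' h f
  rw [proj_cl] at h1
  exact ENNReal.ofReal_le_ofReal (pow_le_pow_left₀ (norm_nonneg _) h1 2)

theorem enorm_proj_eq (K : Sub ι) (i : ι) :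
    ‖proj K (dl i)‖ₑ ^ 2 = ENNReal.ofReal (proj K (dl i) i) := by
  rw [Hilb2_enorm, ← real_inner_self_eq_norm_sq, PowAux.proj_inner,
    Hilb2_eq_of (proj_mem_cl K (dl i)) (by simp), inner_dl']

/-- Pythagoras. -/
theorem enorm_proj_add {K L : Sub ι} (h : K ≤ cl L) (f : L2 ι) :
    ‖proj L f‖ₑ ^ 2 = ‖proj K f‖ₑ ^ 2 + ‖proj (cl L ⊓ Kᗮ) f‖ₑ ^ 2 := by
  have h1 : proj (cl L ⊓ Kᗮ) f = proj L f - proj K f := by
    refine PowAux.proj_eq_of ⟨sub_mem (proj_mem_cl L f) (cl_le_cl h (proj_mem_cl K f)), ?_⟩ ?_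
    · have e : proj L f - proj K f = (f - proj K f) - (f - proj L f) := by abel
      rw [e]
      exact sub_mem (PowAux.sub_proj_mem K f) (Hilb2_orth_le h (PowAux.sub_proj_mem L f))
    · have e : f - (proj L f - proj K f) = (f - proj L f) + proj K f := by abel
      rw [e]
      exact add_mem (Hilb2_orth_le inf_le_left (PowAux.sub_proj_mem L f))
        (Submodule.orthogonal_le inf_le_right (Hilb2_cl_le K (proj_mem_cl K f)))
  have h2 : proj (cl L ⊓ Kᗮ) f ∈ Kᗮ := by
    have h3 := cl_mono (inf_le_right : cl L ⊓ Kᗮ ≤ Kᗮ) (proj_mem_cl _ f)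
    rwa [cl_orth] at h3
  have h3 : inner ℝ (proj K f) (proj (cl L ⊓ Kᗮ) f) = 0 :=
    Submodule.inner_left_of_mem_orthogonal h2 (Hilb2_cl_le K (proj_mem_cl K f))
  have h4 : proj L f = proj K f + proj (cl L ⊓ Kᗮ) f := by rw [h1]; abel
  rw [Hilb2_enorm, Hilb2_enorm, Hilb2_enorm, ← ENNReal.ofReal_add (sq_nonneg _) (sq_nonneg _), h4,
    norm_add_sq_real, h3, mul_zero, add_zero]

theorem proj_dl_of_not {K : Sub ι} {S : ι → Prop} (h : K ≤ coord S) {i : ι} (hi : ¬ S i) :
    proj K (dl i) = 0 := by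
  rw [proj_eq_zero_iff, Submodule.mem_orthogonal']
  intro u hu
  rw [inner_dl']
  exact h hu i hi

/-- Projections onto an increasing sequence converge strongly. -/
theorem proj_tendsto_iSup {K : ℕ → Sub ι} (h : Monotone K) (f : L2 ι) :
    Tendsto (fun n => proj (K n) f) atTop (𝓝 (proj (⨆ n, K n) f)) := by
  have h1 := Submodule.starProjection_tendsto_closure_iSup (fun n => cl (K n))
    (fun _ _ hmn => cl_mono (h hmn)) f
  have h2 : cl (⨆ n, cl (K n)) = cl (⨆ n, K n) :=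
    le_antisymm (cl_le_cl (iSup_le fun n => cl_mono (le_iSup K n)))
      (cl_mono (iSup_mono fun n => le_cl (K n)))
  have h3 : proj (⨆ n, cl (K n)) = proj (⨆ n, K n) := by
    rw [← proj_cl, h2, proj_cl]
  rw [← h3]
  exact h1

/-- Subspaces with disjoint supports. -/
theorem proj_iSup_disj {V : Type*} {K : V → Sub ι} (o : ι → V)
    (h : ∀ v, K v ≤ coord fun i => o i = v) (i : ι) :
    proj (⨆ v, K v) (dl i) = proj (K (o i)) (dl i) := by
  refine Hilb2_eq_of (cl_mono (le_iSup K (o i)) (proj_mem_cl _ _)) ?_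
  rw [← Submodule.iInf_orthogonal, Submodule.mem_iInf]
  intro v
  by_cases hv : v = o i
  · rw [hv]
    exact PowAux.sub_proj_mem _ _
  · refine Submodule.orthogonal_le (h v) ?_
    rw [coord_orth]
    refine coord_mono (S := fun j => o j = o i) (fun j hj (e : o j = v) => hv (e.symm.trans hj)) ?_
    refine sub_mem (units_le_coord _ (dl_mem_units rfl)) ?_
    have h1 := cl_mono (h (o i)) (proj_mem_cl (K (o i)) (dl i))
    rwa [cl_coord] at h1

/-- Lemma P of the paper. -/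
theorem exact_part {J : Type*} {N : Sub ι} (hN : N ≤ units fun _ => True) (Y : J → ι → Prop)
    (I : J → Prop) (h : ExactAt N fun i => ∃ j, I j ∧ Y j i) {j : J} (hj : I j) :
    cl N ⊓ coord (Y j) ≤
      cl ((N ⊔ units fun i => ∃ j', j' ≠ j ∧ I j' ∧ Y j' i) ⊓ coord (Y j)) := by
  classical
  intro w hw
  have h1 := h ⟨hw.1, coord_mono (fun i hi => ⟨j, hj, hi⟩) hw.2⟩
  rw [← PowAux.proj_of_mem (K := coord (Y j)) hw.2]
  refine map_mem_closure (proj (coord (Y j))).continuous h1 fun z hz => ?_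
  refine ⟨?_, PowAux.proj_mem (isClosed_coord _) z⟩
  have e : proj (coord (Y j)) z = z - (z - proj (coord (Y j)) z) := by abel
  have h2 : ∀ i, (z - proj (coord (Y j)) z) i = if Y j i then 0 else z i := fun i => by
    rw [lp.coeFn_sub, Pi.sub_apply, proj_coord_apply]
    split_ifs
    · exact sub_self _
    · exact sub_zero _
  rw [e]
  refine sub_mem (Submodule.mem_sup_left hz.1) (Submodule.mem_sup_right (mem_units.2 ⟨?_, ?_⟩))
  · refine (mem_units.1 (hN hz.1)).1.subset fun i hi h0 => hi ?_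
    rw [h2, h0, ite_self]
  · intro i hi
    rw [h2]
    split_ifs with hy
    · rfl
    · refine hz.2 i fun ⟨j', h3, h4⟩ => hi ⟨j', ?_, h3, h4⟩
      rintro rfl
      exact hy h4

/-- Units outside the support do not matter for exactness. -/
theorem exactAt_restrict {M : Sub ι} {S X Y : ι → Prop} (hM : M ≤ units X)
    (hY : ∀ i, Y i → X i) (h : ExactAt (M ⊔ units S) Y) :
    ExactAt (M ⊔ units fun i => X i ∧ S i) Y := by
  intro w hw
  have h1 := h ⟨cl_mono (sup_le_sup_left (units_mono fun _ hi => hi.2) M) hw.1, hw.2⟩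
  refine cl_mono (le_inf ?_ inf_le_right) h1
  intro z hz
  obtain ⟨m, hm, u, hu, e⟩ := Submodule.mem_sup.1 hz.1
  refine Submodule.mem_sup.2 ⟨m, hm, u, ?_, e⟩
  have h2 : u ∈ units S ⊓ coord X := by
    refine ⟨hu, ?_⟩
    rw [← sub_eq_iff_eq_add'.2 e.symm]
    exact sub_mem (coord_mono hY hz.2) (units_le_coord X (hM hm))
  rw [units_inf_coord] at h2
  exact units_mono (fun _ hi => hi.symm) h2

end Pool.Agent.FusfFlat
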