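import Pool.Agent.P.MP_8fb1ed_pr.Fl.Msg

/-! Levels, soundness of the messages and truncation by windows (paper 5.7). -/

open MeasureTheory Filter Topology Relation
open scoped ENNReal

namespace Pool.Agent.FusfFlat

open Pool.Agent.FusfTree

namespace Dat

variable {V ι : Type*} {p : Par V ι} {d : Dat V ι}

theorem Lev.refl (d : Dat V ι) (u : V) : d.Lev u u 0 := ReflTransGen.refl

theorem Sound_shift {x y : V × ℤ} (s : ℤ)
    (h : ReflTransGen (fun x y : V × ℤ => d.t x.1 y.1 ∧ y.2 = x.2 + d.dz x.1 y.1) x y) :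
    ReflTransGen (fun x y : V × ℤ => d.t x.1 y.1 ∧ y.2 = x.2 + d.dz x.1 y.1)
      (x.1, x.2 + s) (y.1, y.2 + s) :=
  rtg_lift (fun x : V × ℤ => (x.1, x.2 + s))
    (fun _ _ h => ⟨h.1, by rw [h.2]; ring⟩) h

theorem Sound_dz (d : Dat V ι) (u v : V) : d.dz v u = -d.dz u v := by
  simp [dz]

theorem Sound_lev_pot {c : V → ℤ} (hc : ∀ u v, d.t u v → c v - c u = d.dz u v) {u v : V} {k : ℤ}
    (h : d.Lev u v k) : k = c v - c u := by
  have key : ∀ {x y : V × ℤ},
      ReflTransGen (fun x y : V × ℤ => d.t x.1 y.1 ∧ y.2 = x.2 + d.dz x.1 y.1) x y →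
      y.2 - x.2 = c y.1 - c x.1 := by
    intro x y h
    induction h with
    | refl => simp
    | tail _ h2 ih =>
      have := hc _ _ h2.1
      have := h2.2
      omega
  simpa using key h

theorem Lev.trans {u v w : V} {k l : ℤ} (h : d.Lev u v k) (h' : d.Lev v w l) :
    d.Lev u w (k + l) := by
  have h1 := Sound_shift k h'
  rw [zero_add, add_comm l k] at h1
  exact ReflTransGen.trans h h1

theorem Lev.symm (hs : ∀ u v, d.t u v → d.t v u) {u v : V} {k : ℤ} (h : d.Lev u v k) :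
    d.Lev v u (-k) := by
  have h1 := Sound_shift (-k) (rtg_symm (fun x y hxy => ⟨hs _ _ hxy.1, by
    rw [hxy.2, Sound_dz d x.1 y.1]; ring⟩) h)
  rw [zero_add, add_neg_cancel] at h1
  exact h1

theorem Lev.unique (hs : ∀ u v, d.t u v → d.t v u) (hac : ∀ u v, d.t u v → ¬ side d.t u v u)
    {u v : V} {k l : ℤ} (h : d.Lev u v k) (h' : d.Lev u v l) : k = l := by
  obtain ⟨c, hc⟩ := exists_potential hs hac d.dz fun u w _ => Sound_dz d u w
  rw [Sound_lev_pot hc h, Sound_lev_pot hc h']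

theorem lev_iff_rtg {u v : V} : (∃ k, d.Lev u v k) ↔ ReflTransGen d.t u v := by
  constructor
  · rintro ⟨k, h⟩
    exact rtg_lift Prod.fst (fun _ _ h => h.1) h
  · intro h
    induction h with
    | refl => exact ⟨0, Lev.refl d u⟩
    | @tail x y _ h2 ih =>
      obtain ⟨k, hk⟩ := ih
      exact ⟨k + d.dz x y, ReflTransGen.tail hk ⟨h2, rfl⟩⟩

/-- Residues of the levels and the set `om` of paid coordinates. -/
structure Win (p : Par V ι) (d : Dat V ι) (K : ℕ) (val : ι → ℕ) (om : ι → Prop) : Prop where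
  K_le : K ≤ p.D
  D0_le : p.D0 ≤ K
  val_lt : ∀ i, val i < K
  co : ∀ i j k, d.Lev (p.o i) (p.o j) k → (val j : ZMod K) = val i + (k : ZMod K)
  win : ∀ i, val i < p.D0 ∨ K ≤ val i + p.D0 → om i
  w : ∀ v i, d.X v i → d.w v i → om i
  sac : ∀ u v i, d.t u v → d.lam u v < p.J → d.sp u v i → om i

theorem Win.val_eq {K : ℕ} {val : ι → ℕ} {om : ι → Prop} (h : Win p d K val om) {i j : ι}
    (hij : p.o i = p.o j) : val i = val j := by
  have h1 := h.co i j 0 (by rw [hij]; exact Lev.refl d _)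
  rw [Int.cast_zero, add_zero, ZMod.natCast_eq_natCast_iff', Nat.mod_eq_of_lt (h.val_lt j),
    Nat.mod_eq_of_lt (h.val_lt i)] at h1
  exact h1.symm

/-- Soundness of the messages: times are read on the global clock `c`. -/
theorem Sound_Mv {Cn : V → Prop} {c : V → ℤ} {S : ℤ → Sub ι}
    (hCn : ∀ u v, d.t u v → Cn v → Cn u) (hc : ∀ u v, d.t u v → c v - c u = d.dz u v)
    (h1 : ∀ v a, Cn v → d.L0 p v a ≤ S (c v + a)) (h1' : ∀ v a, Cn v → d.Wv v ≤ S a)
    (h2 : ∀ u v a, Cn v → d.t u v → d.lam u v < d.th v → units (d.sp u v) ≤ S a)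
    (v : V) (a : ℤ) (hv : Cn v) : d.Mv p v a ≤ S (c v + a) := by
  have hinc : ∀ m : V → V → ℤ → Sub ι, (∀ v w a, Cn v → m v w a ≤ S (c v + a)) →
      ∀ u v a, Cn v → d.inc p m (d.th v) u v a ≤ S (c v + a) := by
    intro m hm u v a hv
    refine sup_le (onIf_le fun h => h2 u v _ hv h.1 h.2) (onIf_le fun h => ?_)
    have e : c v + a = c u + (a + d.dz u v) := by
      have := hc u v h.1
      omega
    rw [e]
    exact hm u v _ (hCn u v h.1 hv)
  have hN : ∀ n v w a, Cn v → d.msgN p n v w a ≤ S (c v + a) := by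
    intro n
    induction n with
    | zero => exact fun _ _ _ _ => bot_le
    | succ n ih =>
      intro v w a hv
      exact inf_le_left.trans (sup_le (sup_le (h1 v a hv) (h1' v _ hv))
        (iSup_le fun u => onIf_le fun _ => hinc _ ih u v a hv))
  exact sup_le (sup_le (h1 v a hv) (iSup_le fun u =>
    hinc _ (fun v w a hv => iSup_le fun n => hN n v w a hv) u v a hv)) (h1' v _ hv)

theorem Sound_mod {K x y : ℤ} (h : K ∣ x - y) (hx : 0 ≤ x) (hx' : x < K) (hy : 0 ≤ y)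
    (hy' : y < K) : x = y :=
  sub_eq_zero.mp (Int.eq_zero_of_abs_lt_dvd h (abs_lt.mpr ⟨by omega, by omega⟩))

/-- Truncation. -/
theorem Good.trunc (h : d.Good p) {K : ℕ} {val : ι → ℕ} {om : ι → Prop} (hw : Win p d K val om)
    (i₀ : ι) (a : ℤ) (ha : a ≤ p.D) {f : L2 ι} (hf : f ∈ d.Mv p (p.o i₀) a)
    (hown : f ∈ coord fun i => p.o i = p.o i₀) :
    ∃ g ∈ d.BB, f - g ∈ units fun i => p.Xh i ∧
      (om i ∨ (d.Y i ∧ (val i : ℤ) < val i₀ + a) ∨ (val i : ℤ) + p.D < val i₀ + a) := by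
  obtain ⟨c, hc⟩ := exists_potential h.symm h.acyc d.dz fun u w _ => Sound_dz d u w
  obtain ⟨v₀, hv₀⟩ : ∃ v₀, v₀ = p.o i₀ := ⟨_, rfl⟩
  let Cn : V → Prop := ReflTransGen d.t v₀
  let Sl : V → Prop := fun x => 0 ≤ val i₀ + (c x - c v₀) ∧ val i₀ + (c x - c v₀) < K
  let Gin : Sub ι := ⨆ x, onIf (Cn x ∧ Sl x) (d.G x)
  let Q : ℤ → ι → Prop := fun T i => p.Xh i ∧ (om i ∨ (Cn (p.o i) ∧
    ((∃ x, ¬ Sl x ∧ d.X x i) ∨ (d.Y i ∧ c (p.o i) < T) ∨ c (p.o i) + p.D < T)))
  have hX : ∀ x i, d.X x i → (Cn x → Cn (p.o i)) ∧ |c x - c (p.o i)| ≤ p.D0 := by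
    intro x i hx
    obtain ⟨k, hk, hk'⟩ := h.lev x i hx
    refine ⟨fun hCx => hCx.trans (rtg_symm h.symm (lev_iff_rtg.mp ⟨k, hk⟩)), ?_⟩
    rwa [← Sound_lev_pot hc hk]
  have hsound : d.Mv p v₀ a ≤ Gin ⊔ units (Q (c v₀ + a)) := by
    refine Sound_Mv (Cn := Cn) (c := c) (S := fun T => Gin ⊔ units (Q T))
      (fun u v huv hv => ReflTransGen.tail hv (h.symm u v huv)) hc ?_ ?_ ?_ v₀ a ReflTransGen.refl
    · intro v a hv
      refine sup_le ?_ (le_sup_of_le_right (units_mono ?_))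
      · by_cases hs : Sl v
        · exact le_sup_of_le_left (le_iSup_of_le v (onIf_pos ⟨hv, hs⟩ _).ge)
        · exact le_sup_of_le_right ((h.G_le v).trans (units_mono fun i hi =>
            ⟨h.sub v i hi, .inr ⟨(hX v i hi).1 hv, .inl ⟨v, hs, hi⟩⟩⟩))
      · rintro i ⟨hi, hi'⟩
        refine ⟨h.sub v i hi, .inr ⟨(hX v i hi).1 hv, .inr ?_⟩⟩
        rcases hi' with ⟨e, hY, h0⟩ | ⟨e, h0⟩ | h0
        · exact .inl ⟨hY, by rw [e]; omega⟩
        · exact .inr (by rw [e]; omega)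
        · have := abs_le.mp (hX v i hi).2
          exact .inr (by omega)
    · intro v a _
      exact le_sup_of_le_right (units_mono fun i hi =>
        ⟨h.sub v i hi.1, .inl (hw.w v i hi.1 hi.2)⟩)
    · intro u v a _ huv hl
      exact le_sup_of_le_right (units_mono fun i hi =>
        ⟨h.sub u i hi.1, .inl (hw.sac u v i huv (hl.trans_le (h.th_le v)) hi)⟩)
  obtain ⟨g, hg, r, hr, hgr⟩ := Submodule.mem_sup.mp (hsound (hv₀ ▸ hf))
  have hG : Gin ≤ d.BB := iSup_le fun x => onIf_le fun _ => le_iSup d.G x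
  have hG' : Gin ≤ coord fun i => ∃ x, Cn x ∧ Sl x ∧ d.X x i :=
    iSup_le fun x => onIf_le fun hx => (h.G_le x).trans ((units_le_coord _).trans
      (coord_mono fun i hi => ⟨x, hx.1, hx.2, hi⟩))
  have hfg : f - g = r := by rw [← hgr, add_sub_cancel_left]
  have hdvd : ∀ i, Cn (p.o i) → (K : ℤ) ∣ val i₀ + (c (p.o i) - c v₀) - val i := by
    intro i hi
    obtain ⟨k, hk⟩ := lev_iff_rtg.mpr hi
    have h1 := hw.co i₀ i k (hv₀ ▸ hk)
    rw [← Sound_lev_pot hc hk, ← ZMod.intCast_eq_intCast_iff_dvd_sub]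
    push_cast
    exact h1
  refine ⟨g, hG hg, ?_⟩
  rw [hfg, mem_units]
  obtain ⟨hfin, hr0⟩ := mem_units.mp hr
  refine ⟨hfin, fun i hi => ?_⟩
  by_contra hne
  obtain ⟨hXh, hQ⟩ : Q (c v₀ + a) i := by
    by_contra hQ
    exact hne (hr0 i hQ)
  have hom : ¬ om i := fun ho => hi ⟨hXh, .inl ho⟩
  obtain ⟨hCi, hQ⟩ := hQ.resolve_left hom
  have hwin : ¬ (val i < p.D0 ∨ K ≤ val i + p.D0) := fun hh => hom (hw.win i hh)
  have hlt := hw.val_lt i
  have hD0 := hw.D0_le
  by_cases hs : Sl (p.o i)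
  · have hval := Sound_mod (hdvd i hCi) hs.1 hs.2 (by omega) (by omega)
    rcases hQ with ⟨x, hx, hxi⟩ | ⟨hY, hT⟩ | hT
    · have := abs_le.mp (hX x i hxi).2
      exact hx ⟨by omega, by omega⟩
    · exact hi ⟨hXh, .inr (.inl ⟨hY, by omega⟩)⟩
    · exact hi ⟨hXh, .inr (.inr (by omega))⟩
  · have hf0 : f i = 0 := by
      refine hown i fun e => hs ?_
      have := hw.val_lt i₀
      rw [e, ← hv₀]
      exact ⟨by omega, by omega⟩
    have hg0 : g i = 0 := by
      refine hG' hg i ?_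
      rintro ⟨x, -, ⟨hx, hx'⟩, hxi⟩
      have hb := abs_le.mp (hX x i hxi).2
      have hd := hdvd i hCi
      by_cases hneg : val i₀ + (c (p.o i) - c v₀) < 0
      · have h1 : (K : ℤ) ∣ val i₀ + (c (p.o i) - c v₀) + K - val i := by
          rw [add_sub_right_comm]
          exact dvd_add hd dvd_rfl
        have := Sound_mod h1 (by omega) (by omega) (by omega) (by omega)
        omega
      · have hge : (K : ℤ) ≤ val i₀ + (c (p.o i) - c v₀) := by
          by_contra hlt'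
          exact hs ⟨by omega, by omega⟩
        have h1 : (K : ℤ) ∣ val i₀ + (c (p.o i) - c v₀) - K - val i := by
          rw [sub_right_comm]
          exact dvd_sub hd dvd_rfl
        have := Sound_mod h1 (by omega) (by omega) (by omega) (by omega)
        omega
    apply hne
    rw [← hfg, lp.coeFn_sub, Pi.sub_apply, hf0, hg0, sub_zero]

end Dat

end Pool.Agent.FusfFlat
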