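import Pool.Agent.P.MP_8fb1ed_pr.Fl.MsgRel

/-! Measurability and equivariance of the families built from a random configuration. -/

open MeasureTheory Filter Topology Relation
open scoped ENNReal

namespace Pool.Agent.FusfFlat

open Pool.Agent.FusfTree

variable {Γ Ω V ι : Type*} [Group Γ] [Countable Γ] [MeasurableSpace Ω] [MulAction Γ V]
  [MulAction Γ ι] [Countable V] [Countable ι] {p : Par V ι} {β : ι → Γ} {k : ℕ} {P : Measure Ω}
  [IsProbabilityMeasure P] {a : Γ → Ω → Ω} {d : Ω → Dat V ι}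

theorem SysMeas_card_fin {J ι : Type*} (R : J → ι → Prop) {C : ℕ}
    (hC : ∀ i, {j | R j i}.encard ≤ C) (S : Finset ι) :
    {q : J × ι | q.2 ∈ S ∧ R q.1 q.2}.encard ≤ (S.card * C : ℕ) := by
  classical
  induction S using Finset.induction_on with
  | empty => simp
  | insert i S hi ih =>
    have e : {q : J × ι | q.2 ∈ insert i S ∧ R q.1 q.2}
        ⊆ (fun j => (j, i)) '' {j | R j i} ∪ {q : J × ι | q.2 ∈ S ∧ R q.1 q.2} := by
      rintro ⟨j, i'⟩ ⟨h1, h2⟩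
      rcases Finset.mem_insert.1 h1 with h3 | h3
      · left
        have h4 : i' = i := h3
        subst h4
        exact ⟨j, h2, rfl⟩
      · exact Or.inr ⟨h3, h2⟩
    refine (Set.encard_le_encard e).trans ((Set.encard_union_le _ _).trans ?_)
    refine (add_le_add ((Set.encard_image_le _ _).trans (hC i)) ih).trans (le_of_eq ?_)
    rw [Finset.card_insert_of_notMem hi]
    push_cast
    ring

theorem SysMeas_card {J ι : Type*} (R : J → ι → Prop) (A X : ι → Prop) {C k : ℕ}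
    (hk : {i | A i ∧ X i}.encard ≤ k) (hC : ∀ i, {j | R j i}.encard ≤ C)
    (hX : ∀ j i, R j i → X i) : {q : J × ι | A q.2 ∧ R q.1 q.2}.encard ≤ (k * C : ℕ) := by
  have hf : {i | A i ∧ X i}.Finite := Set.finite_of_encard_le_coe hk
  have h1 : hf.toFinset.card ≤ k := by
    rw [hf.encard_eq_coe_toFinset_card] at hk
    exact_mod_cast hk
  have e : {q : J × ι | A q.2 ∧ R q.1 q.2} ⊆ {q : J × ι | q.2 ∈ hf.toFinset ∧ R q.1 q.2} :=
    fun q hq => ⟨hf.mem_toFinset.2 ⟨hq.1, hX _ _ hq.2⟩, hq.2⟩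
  refine (Set.encard_le_encard e).trans ((SysMeas_card_fin R hC _).trans ?_)
  exact_mod_cast Nat.mul_le_mul_right C h1

theorem SysMeas_lt {Ω : Type*} [MeasurableSpace Ω] {f g : Ω → ℕ} (hf : Measurable f)
    (hg : Measurable g) : Measurable fun ω => f ω < g ω :=
  measurableSet_setOfPred.1 (measurableSet_lt hf hg)

theorem SysMeas_le {Ω : Type*} [MeasurableSpace Ω] {f g : Ω → ℕ} (hf : Measurable f)
    (hg : Measurable g) : Measurable fun ω => f ω ≤ g ω :=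
  measurableSet_setOfPred.1 (measurableSet_le hf hg)

theorem SysMeas_eq {Ω : Type*} [MeasurableSpace Ω] {f g : Ω → ℕ} (hf : Measurable f)
    (hg : Measurable g) : Measurable fun ω => f ω = g ω :=
  measurableSet_setOfPred.1 (measurableSet_eq_fun hf hg)

namespace Sys
variable (h : Sys p β k P a d)
include h

theorem SysMeas_nrm (u v : V) : Measurable fun ω => (d ω).nrm p u v :=
  (h.mt u v).and ((SysMeas_le measurable_const (h.mlam u v)).and
    ((SysMeas_le measurable_const (h.mlam v u)).and (SysMeas_eq (h.mlam u v) (h.mlam v u)).not))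

theorem SysMeas_sp (u v : V) (i : ι) : Measurable fun ω => (d ω).sp u v i :=
  (h.mX u i).and (h.mX v i)

theorem SysMeas_dz (u v : V) : Measurable fun ω => (d ω).dz u v :=
  ((measurable_from_top (f := fun n : ℕ => (n : ℤ))).comp (h.mz u v)).sub
    ((measurable_from_top (f := fun n : ℕ => (n : ℤ))).comp (h.mz v u))

theorem SysMeas_cls (u v : V) :
    Measurable fun ω => (d ω).t u v ∧ (d ω).lam u v + 1 = (d ω).th v :=
  (h.mt u v).and (SysMeas_eq ((h.mlam u v).add_const 1) (h.mth v))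

theorem SysMeas_Ut (v : V) (s : ℤ) : AMeas fun ω => (d ω).Ut p v s :=
  AMeas.unit fun i => (h.mX v i).and ((measurable_const.and ((h.mY i).and measurable_const)).or
    measurable_const)

theorem SysMeas_L0 (v : V) (s : ℤ) : AMeas fun ω => (d ω).L0 p v s :=
  (h.mG v).sup (h.SysMeas_Ut v s)

theorem SysMeas_Wv (v : V) : AMeas fun ω => (d ω).Wv v :=
  AMeas.unit fun i => (h.mX v i).and (h.mw v i)

theorem SysMeas_shift {m : Ω → V → V → ℤ → Sub ι} (hm : ∀ u v s, AMeas fun ω => m ω u v s)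
    (u v : V) (s : ℤ) : AMeas fun ω => m ω u v (s + (d ω).dz u v) :=
  AMeas.index (M := fun (t : ℤ) ω => m ω u v t) (fun t => hm u v t)
    (n := fun ω => s + (d ω).dz u v) ((h.SysMeas_dz u v).const_add s)

theorem SysMeas_inc {m : Ω → V → V → ℤ → Sub ι} (hm : ∀ u v s, AMeas fun ω => m ω u v s)
    {n : Ω → ℕ} (hn : Measurable n) (u v : V) (s : ℤ) :
    AMeas fun ω => (d ω).inc p (m ω) (n ω) u v s :=
  (AMeas.cond ((h.mt u v).and (SysMeas_lt (h.mlam u v) hn))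
    (AMeas.unit fun i => h.SysMeas_sp u v i)).sup
    (AMeas.cond (h.SysMeas_nrm u v) (h.SysMeas_shift hm u v s))

theorem SysMeas_oth {m : Ω → V → V → ℤ → Sub ι} (hm : ∀ u v s, AMeas fun ω => m ω u v s)
    {n : Ω → ℕ} (hn : Measurable n) (v w : V) (s : ℤ) :
    AMeas fun ω => (d ω).oth p (m ω) (n ω) v w s :=
  ((h.SysMeas_L0 v s).sup (h.SysMeas_Wv v)).sup
    (AMeas.isup fun u => AMeas.cond measurable_const (h.SysMeas_inc hm hn u v s))

theorem SysMeas_msgN (n : ℕ) : ∀ v w s, AMeas fun ω => (d ω).msgN p n v w s := by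
  induction n with
  | zero => exact fun _ _ _ => AMeas.bot
  | succ n ih =>
    exact fun v w s => (h.SysMeas_oth (m := fun ω => (d ω).msgN p n) ih (h.mth v) v w s).inf_coord
      fun i => h.SysMeas_sp v w i

theorem SysMeas_msg (v w : V) (s : ℤ) : AMeas fun ω => (d ω).msg p v w s :=
  AMeas.isup fun n => h.SysMeas_msgN n v w s

theorem SysMeas_Oth {n : Ω → ℕ} (hn : Measurable n) (v w : V) (s : ℤ) :
    AMeas fun ω => (d ω).Oth p (n ω) v w s :=
  h.SysMeas_oth (m := fun ω => (d ω).msg p) h.SysMeas_msg hn v w s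

theorem SysMeas_M0 (v : V) (s : ℤ) : AMeas fun ω => (d ω).M0 p v s :=
  (h.SysMeas_L0 v s).sup
    (AMeas.isup fun u => h.SysMeas_inc (m := fun ω => (d ω).msg p) h.SysMeas_msg (h.mth v) u v s)

theorem SysMeas_Qp {n : Ω → ℕ} (hn : Measurable n) (u v : V) (s : ℤ) :
    PMeas fun ω => (d ω).Qp p (n ω) u v s :=
  ((h.SysMeas_shift (m := fun ω => (d ω).msg p) h.SysMeas_msg u v s).sup
    (h.SysMeas_Oth hn v u (s + 1))).pmeas.inf_coord fun i => h.SysMeas_sp u v i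

theorem rt : RSet a fun ω (e : V × V) => (d ω).t e.1 e.2 :=
  ⟨fun e => h.mt e.1 e.2, fun g ω e => (h.rel g ω).t e.1 e.2⟩

theorem rnrm : RSet a fun ω (e : V × V) => (d ω).nrm p e.1 e.2 :=
  ⟨fun e => h.SysMeas_nrm e.1 e.2, fun g ω e => (h.rel g ω).nrm e.1 e.2⟩

theorem rori : RSet a fun ω (e : V × V) => (d ω).ori p e.1 e.2 :=
  ⟨fun e => (h.SysMeas_nrm e.1 e.2).and (SysMeas_lt (h.mlam e.1 e.2) (h.mlam e.2 e.1)),
    fun g ω e => (h.rel g ω).ori e.1 e.2⟩

theorem rX : RRel a fun ω => (d ω).X := ⟨h.mX, fun g ω => (h.rel g ω).X⟩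

theorem rY : RSet a fun ω => (d ω).Y := ⟨h.mY, fun g ω => (h.rel g ω).Y⟩

theorem rsp : RRel a fun ω (e : V × V) => (d ω).sp e.1 e.2 :=
  ⟨fun e => h.SysMeas_sp e.1 e.2, fun g ω e => (h.rel g ω).sp e.1 e.2⟩

theorem rYI : RRel a fun ω => (d ω).YI :=
  ⟨fun v i => Measurable.exists fun u => (h.SysMeas_cls u v).and (h.SysMeas_sp u v i),
    fun g ω => (h.rel g ω).YI⟩

theorem mdz (u v : V) : Measurable fun ω => (d ω).dz u v := h.SysMeas_dz u v

theorem aG : AFam a fun ω => (d ω).G := ⟨h.mG, fun g ω => (h.rel g ω).G⟩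

theorem aBB : AFam a (one fun ω => (d ω).BB) := h.aG.total

theorem aUt (s : ℤ) : AFam a fun ω v => (d ω).Ut p v s :=
  ⟨fun v => h.SysMeas_Ut v s, fun g ω v => (h.rel g ω).Ut (h.o_eqv g) v s⟩

theorem aWv : AFam a fun ω v => (d ω).Wv v := ⟨h.SysMeas_Wv, fun g ω => (h.rel g ω).Wv⟩

theorem amsg (s : ℤ) : AFam a fun ω (e : V × V) => (d ω).msg p e.1 e.2 s :=
  ⟨fun e => h.SysMeas_msg e.1 e.2 s, fun g ω e => (h.rel g ω).msg (h.o_eqv g) e.1 e.2 s⟩

theorem amsg' (s : ℤ) : AFam a fun ω (e : V × V) => (d ω).msg p e.2 e.1 s :=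
  ⟨fun e => h.SysMeas_msg e.2 e.1 s, fun g ω e => (h.rel g ω).msg (h.o_eqv g) e.2 e.1 s⟩

theorem amsgz (s : ℤ) :
    AFam a fun ω (e : V × V) => (d ω).msg p e.1 e.2 (s + (d ω).dz e.1 e.2) := by
  refine ⟨fun e => h.SysMeas_shift (m := fun ω => (d ω).msg p) h.SysMeas_msg e.1 e.2 s,
    fun g ω e => ?_⟩
  have h1 := (h.rel g ω).msg (h.o_eqv g) e.1 e.2 (s + (d ω).dz e.1 e.2)
  rw [← (h.rel g ω).dz e.1 e.2] at h1 ⊢
  exact h1

theorem aOth (j : ℕ) (s : ℤ) : AFam a fun ω (e : V × V) => (d ω).Oth p j e.2 e.1 s :=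
  ⟨fun e => h.SysMeas_Oth measurable_const e.2 e.1 s,
    fun g ω e => (h.rel g ω).Oth (h.o_eqv g) j e.2 e.1 s⟩

theorem aOthTh (s : ℤ) :
    AFam a fun ω (e : V × V) => (d ω).Oth p ((d ω).th e.2) e.2 e.1 s := by
  refine ⟨fun e => h.SysMeas_Oth (h.mth e.2) e.2 e.1 s, fun g ω e => ?_⟩
  have h1 := (h.rel g ω).Oth (h.o_eqv g) ((d ω).th e.2) e.2 e.1 s
  rw [← (h.rel g ω).th e.2] at h1 ⊢
  exact h1

theorem aM0 (s : ℤ) : AFam a fun ω v => (d ω).M0 p v s :=
  ⟨fun v => h.SysMeas_M0 v s, fun g ω v => (h.rel g ω).M0 (h.o_eqv g) v s⟩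

theorem aMv (s : ℤ) : AFam a fun ω v => (d ω).Mv p v s :=
  ⟨fun v => (h.SysMeas_M0 v s).sup (h.SysMeas_Wv v),
    fun g ω v => (h.rel g ω).Mv (h.o_eqv g) v s⟩

theorem aMt (s : ℤ) : AFam a fun ω v => (d ω).Mt p v s :=
  ⟨fun v => (h.SysMeas_L0 v (s + 1)).sup (AMeas.isup fun u =>
      (h.SysMeas_inc (m := fun ω => (d ω).msg p) h.SysMeas_msg ((h.mth v).sub_const 1) u v
        (s + 1)).sup (AMeas.cond (h.SysMeas_cls u v)
          (h.SysMeas_shift (m := fun ω => (d ω).msg p) h.SysMeas_msg u v s))),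
    fun g ω v => (h.rel g ω).Mt (h.o_eqv g) v s⟩

theorem rQp (j : ℕ) (s : ℤ) : RFam a fun ω (e : V × V) => (d ω).Qp p j e.1 e.2 s :=
  ⟨fun e => h.SysMeas_Qp measurable_const e.1 e.2 s,
    fun g ω e => (h.rel g ω).Qp (h.o_eqv g) j e.1 e.2 s⟩

theorem rQpTh (c : ℕ) (s : ℤ) :
    RFam a fun ω (e : V × V) => (d ω).Qp p ((d ω).th e.2 - c) e.1 e.2 s := by
  refine ⟨fun e => h.SysMeas_Qp ((h.mth e.2).sub_const c) e.1 e.2 s, fun g ω e => ?_⟩
  have h1 := (h.rel g ω).Qp (h.o_eqv g) ((d ω).th e.2 - c) e.1 e.2 s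
  rw [← (h.rel g ω).th e.2] at h1 ⊢
  exact h1

theorem card_X (ω : Ω) :
    {q : V × ι | β q.2 = 1 ∧ (d ω).X q.1 q.2}.encard ≤ (k * p.C : ℕ) :=
  SysMeas_card (d ω).X (fun i => β i = 1) p.Xh h.card (h.good ω).card (h.good ω).sub

theorem card_sp (ω : Ω) :
    {q : (V × V) × ι | β q.2 = 1 ∧ (d ω).sp q.1.1 q.1.2 q.2}.encard ≤ (k * p.C ^ 2 : ℕ) :=
  SysMeas_card (fun e : V × V => (d ω).sp e.1 e.2) (fun i => β i = 1) p.Xh h.card
    (h.good ω).card_sp fun e i hi => (h.good ω).sub e.1 i hi.1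

/-- Vertex families supported on the bags have dimension at most `k C`. -/
theorem fdim_V_le {K : Ω → V → Sub ι} (hK : ∀ ω v, K ω v ≤ coord ((d ω).X v)) :
    fdim P β K ≤ (k * p.C : ℕ) :=
  fdim_le_card (U := fun ω => (d ω).X) hK h.card_X

/-- Edge families supported on the separators have dimension at most `k C²`. -/
theorem fdim_E_le {K : Ω → V × V → Sub ι} (hK : ∀ ω e, K ω e ≤ coord ((d ω).sp e.1 e.2)) :
    fdim P β K ≤ (k * p.C ^ 2 : ℕ) :=
  fdim_le_card (U := fun ω (e : V × V) => (d ω).sp e.1 e.2) hK h.card_sp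

theorem fdim_one_le {K : Ω → Sub ι} (hK : ∀ ω, K ω ≤ coord p.Xh) : fdim P β (one K) ≤ k := by
  refine fdim_le_card (U := fun _ (_ : Unit) => p.Xh) (fun ω _ => hK ω) fun _ => ?_
  have h1 := SysMeas_card (fun _ : Unit => p.Xh) (fun i => β i = 1) p.Xh (C := 1) h.card
    (fun i => (Set.encard_le_encard (Set.subset_univ _)).trans (by simp)) fun _ _ hi => hi
  simpa using h1

/-- Pull back along an equivariant measure preserving map. -/
theorem factor {Ω' : Type*} [MeasurableSpace Ω'] {P' : Measure Ω'} {a' : Γ → Ω' → Ω'}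
    (ha' : ∀ g, MeasurePreserving (a' g) P' P') {π : Ω' → Ω} (hπ : Measurable π)
    (he : ∀ g ω, π (a' g ω) = a g (π ω)) : Sys p β k P' a' fun ω => d (π ω) where
  base := h.base
  mp := ha'
  o_eqv := h.o_eqv
  Xh_inv := h.Xh_inv
  card := h.card
  good ω := h.good (π ω)
  rel g ω := by rw [he]; exact h.rel g (π ω)
  mt u v := (h.mt u v).comp hπ
  mX v i := (h.mX v i).comp hπ
  mG v := (h.mG v).comp hπ
  mY i := (h.mY i).comp hπ
  mw v i := (h.mw v i).comp hπ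
  mz u v := (h.mz u v).comp hπ
  mlam u v := (h.mlam u v).comp hπ
  mth v := (h.mth v).comp hπ

end Sys

end Pool.Agent.FusfFlat
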