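import Pool.Agent.P.MP_8fb1ed_pr.Fl.UniDefs
import Pool.Agent.P.MP_8fb1ed_pr.Fl.SysMeas
import Pool.Agent.P.MP_8fb1ed_pr.Fl.Sound

/-! Residues of the levels and the universal sparse set. -/

open MeasureTheory Filter Topology Relation
open scoped ENNReal

namespace Pool.Agent.FusfFlat

open Pool.Agent.FusfTree

universe u

/-- A measurable equivariant choice of the unique integer satisfying `L`. -/
theorem Levels_choice {Γ Θ : Type*} [Group Γ] [MeasurableSpace Θ] {b : Γ → Θ → Θ}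
    {L : Θ → Γ → Γ → ℤ → Prop} (hm : ∀ x y k, Measurable fun θ => L θ x y k)
    (he : ∀ g θ x y k, L (b g θ) (g * x) (g * y) k ↔ L θ x y k)
    (hu : ∀ θ x y k l, L θ x y k → L θ x y l → k = l) :
    ∃ lev : Θ → Γ → Γ → ℤ, (∀ x y, Measurable fun θ => lev θ x y) ∧
      (∀ g θ x y, lev (b g θ) (g * x) (g * y) = lev θ x y) ∧
      ∀ θ x y k, L θ x y k → lev θ x y = k := by
  have ex : ∀ θ x y, ∃ k : ℤ, L θ x y k ∨ ((¬ ∃ l, L θ x y l) ∧ k = 0) := fun θ x y => by
    by_cases h : ∃ l, L θ x y l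
    · obtain ⟨l, hl⟩ := h
      exact ⟨l, .inl hl⟩
    · exact ⟨0, .inr ⟨h, rfl⟩⟩
  choose lev hlev using ex
  have ch : ∀ θ x y k, lev θ x y = k ↔ L θ x y k ∨ ((¬ ∃ l, L θ x y l) ∧ k = 0) := by
    intro θ x y k
    refine ⟨fun e => e ▸ hlev θ x y, fun h => ?_⟩
    rcases hlev θ x y with h1 | h1 <;> rcases h with h | h
    · exact hu _ _ _ _ _ h1 h
    · exact absurd ⟨_, h1⟩ h.1
    · exact absurd ⟨_, h⟩ h1.1
    · rw [h1.2, h.2]
  refine ⟨lev, fun x y => measurable_to_countable' fun k => ?_, fun g θ x y => ?_,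
    fun θ x y k hk => (ch θ x y k).2 (.inl hk)⟩
  · have : (fun θ => lev θ x y) ⁻¹' {k} =
        {θ | L θ x y k ∨ ((¬ ∃ l, L θ x y l) ∧ k = 0)} := by
      ext θ
      exact ch θ x y k
    rw [this]
    exact ((hm x y k).or ((Measurable.exists fun l => hm x y l).not.and measurable_const)).setOf
  · rw [ch]
    simp only [he]
    exact hlev θ x y

/-- Union bound over a finite set. -/
theorem Levels_union {Θ I : Type*} [MeasurableSpace Θ] (Q : Measure Θ) (S : Finset I)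
    {E : I → Θ → Prop} {ε : ℝ≥0∞} (h : ∀ i ∈ S, Q {θ | E i θ} ≤ ε) {F : Set Θ}
    (hF : ∀ θ ∈ F, ∃ i ∈ S, E i θ) : Q F ≤ S.card * ε := by
  have h1 : F ⊆ ⋃ i ∈ S, {θ | E i θ} := fun θ hθ => by
    obtain ⟨i, hi, hE⟩ := hF θ hθ
    exact Set.mem_biUnion hi hE
  refine (measure_mono h1).trans ((measure_biUnion_finset_le S _).trans ?_)
  simpa [nsmul_eq_mul] using Finset.sum_le_card_nsmul S _ ε h

/-- A resampled label is small with probability at most `J / N`. -/
theorem Levels_lam {Θ : Type*} [MeasurableSpace Θ] {Q : Measure Θ} [IsProbabilityMeasure Q]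
    {N J : ℕ} (hN : 0 < N) {up : Fin N → Θ → Θ} (h : Resample Q (unf N) up) {l : Θ → ℕ}
    (hl : Measurable l) (hup : ∀ j θ, l (up j θ) = j) : Q {θ | l θ < J} ≤ J / N := by
  have : NeZero N := ⟨hN.ne'⟩
  have hS : MeasurableSet {θ | l θ < J} := hl (MeasurableSet.of_discrete (s := {n | n < J}))
  have h1 := h.lintegral_unf (f := {θ | l θ < J}.indicator 1) (measurable_one.indicator hS)
  rw [lintegral_indicator_one hS] at h1
  have h2 : ∀ j : Fin N, ∫⁻ θ, {θ | l θ < J}.indicator (1 : Θ → ℝ≥0∞) (up j θ) ∂Q =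
      if (j : ℕ) < J then 1 else 0 := fun j => by
    simp only [Set.indicator_apply, Set.mem_ofPred_eq, hup, Pi.one_apply]
    rw [lintegral_const, measure_univ, mul_one]
  simp only [h2] at h1
  have h3 : (∑ j : Fin N, if (j : ℕ) < J then (1 : ℝ≥0∞) else 0) ≤ J := by
    rw [Finset.sum_boole]
    have : (Finset.univ.filter fun j : Fin N => (j : ℕ) < J).card ≤ (Finset.range J).card :=
      Finset.card_le_card_of_injOn (fun j => (j : ℕ)) (fun j hj => by simpa using hj)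
        fun i _ j _ e => Fin.ext e
    rw [Finset.card_range] at this
    exact_mod_cast this
  rw [ENNReal.le_div_iff_mul_le (.inl (by exact_mod_cast hN.ne')) (.inl (by simp)), mul_comm, h1]
  exact h3

theorem exists_om {Γ V Θ : Type u} [Group Γ] [Countable Γ] [MulAction Γ V] [Countable V]
    [MeasurableSpace Θ] {Q : Measure Θ} [IsProbabilityMeasure Q] {b : Γ → Θ → Θ} {v₀ : V}
    {U : Θ → Dat V Γ} {W N J K D0 : ℕ} {B : Finset V}
    (h : Sys (mkPar v₀ id (fun _ => True) W N J K D0 B.card) id 1 Q b U)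
    (h0 : Res0 (mkPar v₀ id (fun _ => True) W N J K D0 B.card) Q U)
    (hB : ∀ θ v y, (U θ).X v y → y⁻¹ • v ∈ B) (hK : 0 < K) (hD : D0 ≤ K) (A : Finset Γ)
    {ε δ : ℝ≥0∞} (hA : ∀ c ∈ A, Q {θ | ¬ (U θ).X v₀ c} ≤ ε)
    (hw : ∀ v y, Q {θ | (U θ).w v y} ≤ δ) :
    ∃ (Θ' : Type u) (_ : MeasurableSpace Θ') (Q' : Measure Θ') (_ : IsProbabilityMeasure Q')
      (b' : Γ → Θ' → Θ') (π : Θ' → Θ) (val : Θ' → Γ → ℕ) (om : Θ' → Γ → Prop),
      (∀ g, MeasurePreserving (b' g) Q' Q') ∧ MeasurePreserving π Q' Q ∧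
      (∀ g θ, π (b' g θ) = b g (π θ)) ∧ (∀ y, Measurable fun θ => val θ y) ∧
      (∀ g θ y, val (b' g θ) (g * y) = val θ y) ∧ (∀ θ y, val θ y < K) ∧ RSet b' om ∧
      (∀ᵐ θ ∂Q', Dat.Win (mkPar v₀ id (fun _ => True) W N J K D0 B.card) (U (π θ)) K (val θ)
        (om θ)) ∧
      (∀ θ y, (U (π θ)).bad v₀ A y → om θ y) ∧
      Q' {θ | om θ 1} ≤ (A.card : ℝ≥0∞) ^ 2 * ε + 2 * D0 / K + B.card * δ +
        (B.card : ℝ≥0∞) ^ 2 * (J / N) := by
  have : NeZero K := ⟨hK.ne'⟩
  -- levels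
  have mLev : ∀ u v k, Measurable fun θ => (U θ).Lev u v k := fun u v k =>
    measurable_rtg (R := fun θ (x y : V × ℤ) =>
      (U θ).t x.1 y.1 ∧ y.2 = x.2 + (U θ).dz x.1 y.1)
      (fun x y => (h.mt x.1 y.1).and
        ((Measurable.of_discrete (f := fun n : ℤ => y.2 = x.2 + n)).comp (h.mdz x.1 y.1))) _ _
  have uLev : ∀ θ u v k l, (U θ).Lev u v k → (U θ).Lev u v l → k = l := fun θ u v k l h1 h2 =>
    Dat.Lev.unique (h.good θ).symm (h.good θ).acyc h1 h2
  obtain ⟨lev, lm, le, lc⟩ := Levels_choice (b := b)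
    (L := fun θ (x y : Γ) k => (U θ).Lev (x • v₀) (y • v₀) k) (fun x y k => mLev _ _ _)
    (fun g θ x y k => by
      simp only [mul_smul]
      exact (h.rel g θ).Lev _ _ k)
    (fun θ x y k l => uLev θ _ _ k l)
  have hcn : RRel b fun θ (x y : Γ) => ∃ k, (U θ).Lev (x • v₀) (y • v₀) k :=
    ⟨fun x y => Measurable.exists fun k => mLev _ _ _, fun g θ x y => by
      simp only [smul_eq_mul, mul_smul]
      exact exists_congr fun k => (h.rel g θ).Lev _ _ k⟩
  have heq : ∀ θ, Equivalence fun x y : Γ => ∃ k, (U θ).Lev (x • v₀) (y • v₀) k := fun θ =>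
    ⟨fun x => ⟨0, Dat.Lev.refl _ _⟩, fun ⟨k, hk⟩ => ⟨-k, hk.symm (h.good θ).symm⟩,
      fun ⟨k, hk⟩ ⟨l, hl⟩ => ⟨k + l, hk.trans hl⟩⟩
  obtain ⟨P', hP', ha', hf, hco, hu⟩ := GroundAux.exists_levels h.mp hcn heq lm le
    (fun θ x y z ⟨k, hk⟩ ⟨l, hl⟩ => by
      rw [lc θ x y k hk, lc θ y z l hl, lc θ x z _ (hk.trans hl)]) K
  have hπ : MeasurePreserving (Prod.fst : Θ × (Γ → ZMod K) → Θ) P' Q := ⟨measurable_fst, hf⟩
  have mval : ∀ y, Measurable fun q : Θ × (Γ → ZMod K) => (q.2 y).val := fun y =>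
    (Measurable.of_discrete (f := fun c : ZMod K => c.val)).comp
      ((measurable_pi_apply y).comp measurable_snd)
  -- the three universal events
  have rbad : RSet b fun θ y => (U θ).bad v₀ A y := by
    refine ⟨fun y => ?_, fun g θ y => ?_⟩
    · exact Measurable.exists fun c => measurable_const.and
        (Measurable.forall fun c' => measurable_const.imp (h.mX _ _)).not
    · refine exists_congr fun c => and_congr_right fun _ => not_congr
        (forall_congr' fun c' => imp_congr_right fun _ => ?_)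
      have := (h.rel g θ).X ((y * c⁻¹) • v₀) (y * c⁻¹ * c')
      simpa only [smul_eq_mul, mul_smul, mul_assoc] using this
  have rw' : RSet b fun θ y => ∃ v, (U θ).X v y ∧ (U θ).w v y := by
    refine ⟨fun y => Measurable.exists fun v => (h.mX v y).and (h.mw v y), fun g θ y => ?_⟩
    rw [exists_smul g]
    exact exists_congr fun v => and_congr ((h.rel g θ).X v y) ((h.rel g θ).w v y)
  have mlam : ∀ u v, Measurable fun θ => (U θ).lam u v < J := fun u v =>
    (Measurable.of_discrete (f := fun n : ℕ => n < J)).comp (h.mlam u v)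
  have rsac : RSet b fun θ y => ∃ u v, (U θ).t u v ∧ (U θ).lam u v < J ∧ (U θ).sp u v y := by
    refine ⟨fun y => Measurable.exists fun u => Measurable.exists fun v =>
      (h.mt u v).and ((mlam u v).and ((h.mX u y).and (h.mX v y))), fun g θ y => ?_⟩
    rw [exists_smul g]
    refine exists_congr fun u => ?_
    rw [exists_smul g]
    refine exists_congr fun v => ?_
    rw [(h.rel g θ).t, (h.rel g θ).lam, (h.rel g θ).sp]
  refine ⟨Θ × (Γ → ZMod K), inferInstance, P', hP', fun g q => (b g q.1, fun x => q.2 (g⁻¹ * x)),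
    Prod.fst, fun q y => (q.2 y).val, fun q y => (U q.1).bad v₀ A y ∨
      ((q.2 y).val < D0 ∨ K ≤ (q.2 y).val + D0) ∨ (∃ v, (U q.1).X v y ∧ (U q.1).w v y) ∨
      ∃ u v, (U q.1).t u v ∧ (U q.1).lam u v < J ∧ (U q.1).sp u v y,
    ha', hπ, fun g q => rfl, mval, fun g q y => by simp, fun q y => ZMod.val_lt _,
    ⟨fun y => ?_, fun g q y => ?_⟩, ?_, fun q y hy => .inl hy, ?_⟩
  · exact ((rbad.meas y).comp measurable_fst).or
      (((Measurable.of_discrete (f := fun n : ℕ => n < D0 ∨ K ≤ n + D0)).comp (mval y)).or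
        (((rw'.meas y).comp measurable_fst).or ((rsac.meas y).comp measurable_fst)))
  · refine or_congr (rbad.eqv g q.1 y) (or_congr ?_ (or_congr (rw'.eqv g q.1 y) (rsac.eqv g q.1 y)))
    simp
  · filter_upwards [hco] with q hq
    refine ⟨le_rfl, hD, fun i => ZMod.val_lt _, fun i j k hk => ?_, fun i hi => .inr (.inl hi),
      fun v i h1 h2 => .inr (.inr (.inl ⟨v, h1, h2⟩)),
      fun u v i h1 h2 h3 => .inr (.inr (.inr ⟨u, v, h1, h2, h3⟩))⟩
    rw [ZMod.natCast_zmod_val, ZMod.natCast_zmod_val, hq i j ⟨k, hk⟩, lc q.1 i j k hk]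
  · have pull : ∀ {E : Θ → Γ → Prop}, RSet b E →
        P' {q : Θ × (Γ → ZMod K) | E q.1 1} = Q {θ | E θ 1} := fun {E} hE =>
      hπ.measure_preimage (hE.meas 1).setOf.nullMeasurableSet
    have b1 : Q {θ | (U θ).bad v₀ A 1} ≤ (A.card : ℝ≥0∞) ^ 2 * ε := by
      have := Levels_union Q (A ×ˢ A) (ε := ε)
        (E := fun e θ => ¬ (U θ).X (e.1⁻¹ • v₀) (e.1⁻¹ * e.2)) (F := {θ | (U θ).bad v₀ A 1})
        (fun e he => ?_) fun θ hθ => ?_
      · simpa [sq] using this
      · refine le_trans (le_of_eq ?_) (hA e.2 (Finset.mem_product.1 he).2)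
        rw [← (h.mp e.1⁻¹).measure_preimage (h.mX _ _).not.setOf.nullMeasurableSet]
        congr 1
        ext θ
        exact not_congr ((h.rel e.1⁻¹ θ).X v₀ e.2)
      · obtain ⟨c, hc, hg⟩ := hθ
        simp only [Dat.good, not_forall] at hg
        obtain ⟨c', hc', hg⟩ := hg
        exact ⟨(c, c'), Finset.mem_product.2 ⟨hc, hc'⟩, by simpa using hg⟩
    have b2 : P' {q : Θ × (Γ → ZMod K) | (q.2 1).val < D0 ∨ K ≤ (q.2 1).val + D0} ≤
        2 * D0 / K := by
      have := Levels_union P' (Finset.range D0 ∪ Finset.Ico (K - D0) K) (ε := (K : ℝ≥0∞)⁻¹)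
        (E := fun n q => q.2 1 = (n : ZMod K))
        (F := {q : Θ × (Γ → ZMod K) | (q.2 1).val < D0 ∨ K ≤ (q.2 1).val + D0})
        (fun n _ => (hu _).le) fun q hq => ⟨(q.2 1).val, ?_, (ZMod.natCast_zmod_val _).symm⟩
      · refine this.trans ?_
        rw [div_eq_mul_inv]
        refine mul_le_mul_left ?_ _
        have hc : (Finset.range D0 ∪ Finset.Ico (K - D0) K).card ≤ 2 * D0 := by
          refine (Finset.card_union_le _ _).trans ?_
          rw [Finset.card_range, Nat.card_Ico]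
          omega
        exact_mod_cast hc
      · have := ZMod.val_lt (q.2 1)
        have hq' : (q.2 1).val < D0 ∨ K ≤ (q.2 1).val + D0 := hq
        simp only [Finset.mem_union, Finset.mem_range, Finset.mem_Ico]
        omega
    have b3 : Q {θ | ∃ v, (U θ).X v 1 ∧ (U θ).w v 1} ≤ B.card * δ :=
      Levels_union Q B (E := fun v θ => (U θ).w v 1) (fun v _ => hw v 1)
        fun θ ⟨v, h1, h2⟩ => ⟨v, by simpa using hB θ v 1 h1, h2⟩
    have b4 : Q {θ | ∃ u v, (U θ).t u v ∧ (U θ).lam u v < J ∧ (U θ).sp u v 1} ≤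
        (B.card : ℝ≥0∞) ^ 2 * (J / N) := by
      have := Levels_union Q (B ×ˢ B) (ε := J / N)
        (E := fun e θ => (U θ).lam e.1 e.2 < J)
        (F := {θ | ∃ u v, (U θ).t u v ∧ (U θ).lam u v < J ∧ (U θ).sp u v 1})
        (fun e _ => ?_) fun θ ⟨u, v, _, h2, h3⟩ => ⟨(u, v), Finset.mem_product.2
          ⟨by simpa using hB θ u 1 h3.1, by simpa using hB θ v 1 h3.2⟩, h2⟩
      · simpa [sq] using this
      · obtain ⟨up, hup, hd⟩ := h0.rlam e.1 e.2
        refine Levels_lam (N := N) (h0.J_pos.trans_le h0.J_le) hup (h.mlam e.1 e.2) fun j θ => ?_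
        have hj : U (up j θ) = (U θ).setLam e.1 e.2 j := hd j θ
        rw [hj]
        simp [Dat.setLam]
    rw [← pull rbad] at b1
    rw [← pull rw'] at b3
    rw [← pull rsac] at b4
    simp only [Set.ofPred_or (q := fun q : Θ × (Γ → ZMod K) =>
      ((q.2 1).val < D0 ∨ K ≤ (q.2 1).val + D0) ∨ (∃ v, (U q.1).X v 1 ∧ (U q.1).w v 1) ∨
      ∃ u v, (U q.1).t u v ∧ (U q.1).lam u v < J ∧ (U q.1).sp u v 1)]
    refine (measure_union_le _ _).trans ?_
    rw [add_assoc, add_assoc]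
    refine add_le_add b1 ?_
    rw [Set.ofPred_or]
    refine (measure_union_le _ _).trans (add_le_add b2 ?_)
    rw [Set.ofPred_or]
    exact (measure_union_le _ _).trans (add_le_add b3 b4)

end Pool.Agent.FusfFlat
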