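import Pool.Agent.P.MP_8fb1ed_pr.Fl.UniDefs
import Pool.Agent.P.MP_8fb1ed_pr.Fl.SysMeas
import Pool.Agent.P.MP_8fb1ed_pr.Fl.Sound

/-! The product of the universal system with independent data. -/

open MeasureTheory Filter Topology Relation
open scoped ENNReal

namespace Pool.Agent.FusfFlat

open Pool.Agent.FusfTree

universe u

section det
variable {Γ V ι : Type*} [Group Γ] [MulAction Γ V] {u : Dat V Γ} {v₀ : V} {A : Finset Γ}
  {β : ι → Γ} {Xh : ι → Prop} {M : Sub ι} {Y : ι → Prop} {W N J D D0 C : ℕ}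

theorem Lift_piece_le (x : Γ) :
    onIf (u.good v₀ A x) (M ⊓ coord fun i => x⁻¹ * β i ∈ A) ⊔
      onIf (u.bad v₀ A x) (units fun i => Xh i ∧ β i = x) ≤ (u.lift v₀ A β Xh M Y).BB :=
  le_iSup_of_le (x • v₀) (le_iSup_of_le x (le_iSup_of_le rfl le_rfl))

theorem Lift_inf_le (hM : M ≤ units Xh) (S : ι → Prop) :
    M ⊓ coord S ≤ units fun i => Xh i ∧ S i :=
  (inf_le_inf_right _ hM).trans (units_inf_coord _ _).le

theorem trunc_le_BB (hM : M ≤ units Xh) : trunc β A M ≤ (u.lift v₀ A β Xh M Y).BB := by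
  refine iSup_le fun x => ?_
  by_cases hx : u.good v₀ A x
  · refine le_trans ?_ (Lift_piece_le x)
    rw [onIf_pos hx]
    exact le_sup_left
  · refine (Lift_inf_le hM _).trans (Submodule.span_le.2 ?_)
    rintro _ ⟨i, hi, rfl⟩
    have hb : u.bad v₀ A (β i) := ⟨x⁻¹ * β i, hi.2, by simpa using hx⟩
    refine Lift_piece_le (β i) (Submodule.mem_sup_right ?_)
    rw [onIf_pos hb]
    exact dl_mem_units ⟨hi.1, rfl⟩

theorem BB_le_addU {om : Γ → Prop} (h : ∀ y, u.bad v₀ A y → om y) :
    (u.lift v₀ A β Xh M Y).BB ≤ addU β Xh M om := by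
  refine iSup_le fun v => iSup_le fun x => onIf_le fun _ => sup_le (onIf_le fun _ => ?_)
    (onIf_le fun hb => ?_)
  · exact inf_le_left.trans le_sup_left
  · refine le_trans (units_mono fun i hi => ?_) le_sup_right
    exact ⟨hi.1, by rw [hi.2]; exact h x hb⟩

theorem lift_good (h : u.Good (mkPar v₀ id (fun _ => True) W N J D D0 C)) (hM : M ≤ units Xh) :
    (u.lift v₀ A β Xh M Y).Good (mkPar v₀ β Xh W N J D D0 C) where
  symm := h.symm
  acyc := h.acyc
  z_lt := h.z_lt
  th_pos := h.th_pos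
  th_le := h.th_le
  G_le v := by
    refine iSup_le fun x => onIf_le fun hx => sup_le (onIf_le fun hg => ?_) (onIf_le fun _ => ?_)
    · refine (Lift_inf_le hM _).trans (units_mono fun i hi => ⟨hi.1, ?_⟩)
      have := hg _ hi.2
      rwa [hx, mul_inv_cancel_left] at this
    · refine units_mono fun i hi => ⟨hi.1, ?_⟩
      rw [hi.2, ← hx]
      exact (h.own x).2 trivial
  own i := ⟨fun hi => hi.1, fun hi => ⟨hi, (h.own (β i)).2 trivial⟩⟩
  sub _ _ hi := hi.1
  card i := (Set.encard_le_encard fun _ hv => hv.2).trans (h.card (β i))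
  walk v i hi := by
    have h1 := h.walk v (β i) hi.2
    have h2 := hi.1
    clear hi
    induction h1 with
    | refl => exact ReflTransGen.refl
    | tail _ hxy ih => exact ih.tail ⟨hxy.1, h2, hxy.2⟩
  lev v i hi := h.lev v (β i) hi.2

theorem lift_win {K : ℕ} {val : Γ → ℕ} {om : Γ → Prop}
    (h : Dat.Win (mkPar v₀ id (fun _ => True) W N J D D0 C) u K val om) :
    Dat.Win (mkPar v₀ β Xh W N J D D0 C) (u.lift v₀ A β Xh M Y) K (fun i => val (β i))
      fun i => om (β i) where
  K_le := h.K_le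
  D0_le := h.D0_le
  val_lt i := h.val_lt (β i)
  co i j k hk := h.co (β i) (β j) k hk
  win i hi := h.win (β i) hi
  w v i hi hw := h.w v (β i) hi.2 hw
  sac x y i ht hl hs := h.sac x y (β i) ht hl ⟨hs.1.2, hs.2.2⟩

end det

variable {Γ Θ Ω ι : Type u} {V : Type*} [Group Γ] [Countable Γ] [MulAction Γ V] [Countable V]
  [MulAction Γ ι] [Countable ι] [MeasurableSpace Θ] [MeasurableSpace Ω] {Q : Measure Θ}
  [IsProbabilityMeasure Q] {P : Measure Ω} [IsProbabilityMeasure P] {b : Γ → Θ → Θ}
  {a : Γ → Ω → Ω} {U : Θ → Dat V Γ} {v₀ : V} {A : Finset Γ} {β : ι → Γ} {Xh : ι → Prop} {k : ℕ}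
  {M : Ω → Sub ι} {Y : Ω → ι → Prop} {W N J D D0 C : ℕ}

theorem lift_sys (h : Sys (mkPar v₀ id (fun _ => True) W N J D D0 C) id 1 Q b U)
    (hI : IsInp β Xh k P a M Y) :
    Sys (mkPar v₀ β Xh W N J D D0 C) β k (Q.prod P) (fun g q => (b g q.1, a g q.2))
      fun q => (U q.1).lift v₀ A β Xh (M q.2) (Y q.2) := by
  have hM : ∀ ω, M ω ≤ units Xh := fun ω => le_units ((hI.hM.meas ()).fin ω) (hI.le ω)
  have hgood : ∀ g θ x, (U (b g θ)).good v₀ A (g * x) ↔ (U θ).good v₀ A x := by
    intro g θ x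
    refine forall₂_congr fun c _ => ?_
    rw [mul_smul, mul_assoc]
    exact (h.rel g θ).X (x • v₀) (x * c)
  have hbad : ∀ g θ x, (U (b g θ)).bad v₀ A (g * x) ↔ (U θ).bad v₀ A x := by
    intro g θ x
    refine exists_congr fun c => and_congr_right fun _ => not_congr ?_
    rw [mul_assoc]
    exact hgood g θ _
  have mgood : ∀ x, Measurable fun q : Θ × Ω => (U q.1).good v₀ A x := fun x =>
    Measurable.forall fun c => measurable_const.imp ((h.mX _ _).comp measurable_fst)
  have mbad : ∀ x, Measurable fun q : Θ × Ω => (U q.1).bad v₀ A x := fun x =>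
    Measurable.exists fun c => measurable_const.and (mgood _).not
  refine
    { base := hI.base
      mp := fun g => (h.mp g).prod (hI.mp g)
      o_eqv := fun g i => ?_
      Xh_inv := hI.inv
      card := hI.card
      good := fun q => lift_good (h.good q.1) (hM q.2)
      rel := fun g q =>
        { t := (h.rel g q.1).t
          X := fun v i => and_congr (hI.inv g i) ?_
          G := fun v => ?_
          Y := hI.hY.eqv g q.2
          w := fun v i => ?_
          z := (h.rel g q.1).z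
          lam := (h.rel g q.1).lam
          th := (h.rel g q.1).th }
      mt := fun x y => (h.mt x y).comp measurable_fst
      mX := fun v i => measurable_const.and ((h.mX v (β i)).comp measurable_fst)
      mG := fun v => ?_
      mY := fun i => (hI.hY.meas i).comp measurable_snd
      mw := fun v i => (h.mw v (β i)).comp measurable_fst
      mz := fun x y => (h.mz x y).comp measurable_fst
      mlam := fun x y => (h.mlam x y).comp measurable_fst
      mth := fun v => (h.mth v).comp measurable_fst }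
  · change β (g • i) • v₀ = g • β i • v₀
    rw [hI.base, mul_smul]
  · rw [hI.base]
    exact (h.rel g q.1).X v (β i)
  · have hMe : M (a g q.2) = trS g (M q.2) := hI.hM.eqv g q.2 ()
    change (⨆ x : Γ, _) = trS g (⨆ x : Γ, _)
    rw [trS_iSup]
    refine ((Equiv.mulLeft g).iSup_congr fun x => ?_).symm
    rw [trS_onIf g (c' := (g * x) • v₀ = g • v) (by rw [mul_smul, smul_left_cancel_iff]),
      trS_sup, trS_onIf g (hgood g q.1 x), trS_onIf g (hbad g q.1 x), trS_inf, ← hMe,
      trS_coord g (S' := fun i => (g * x)⁻¹ * β i ∈ A) (fun i => by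
        rw [hI.base, mul_inv_rev, mul_assoc, inv_mul_cancel_left]),
      trS_units g (S' := fun i => Xh i ∧ β i = g * x) (fun i => by
        rw [hI.inv, hI.base, mul_right_inj])]
    rfl
  · change (U (b g q.1)).w (g • v) (β (g • i)) ↔ (U q.1).w v (β i)
    rw [hI.base]
    exact (h.rel g q.1).w v (β i)
  · refine AMeas.isup fun x => AMeas.cond measurable_const (AMeas.sup ?_ ?_)
    · exact AMeas.cond (mgood x)
        (((hI.hM.meas ()).comp measurable_snd).inf_coord fun _ => measurable_const)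
    · exact AMeas.cond (mbad x) (AMeas.const (units_mono fun _ _ => trivial))

theorem lift_res0 (h : Res0 (mkPar v₀ id (fun _ => True) W N J D D0 C) Q U) :
    Res0 (mkPar v₀ β Xh W N J D D0 C) (Q.prod P)
      fun q => (U q.1).lift v₀ A β Xh (M q.2) (Y q.2) where
  W_pos := h.W_pos
  J_pos := h.J_pos
  J_le := h.J_le
  rz x y := by
    obtain ⟨up, h1, h2⟩ := h.rz x y
    haveI : NeZero W := ⟨h.W_pos.ne'⟩
    refine ⟨fun j q => (up j q.1, q.2), Resample.prod_right (ν := unf W) h1 P, fun j q => ?_⟩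
    change (U (up j q.1)).lift _ _ _ _ _ _ = _
    rw [h2]
    rfl
  rlam x y := by
    obtain ⟨up, h1, h2⟩ := h.rlam x y
    haveI : NeZero N := ⟨(h.J_pos.trans_le h.J_le).ne'⟩
    refine ⟨fun j q => (up j q.1, q.2), Resample.prod_right (ν := unf N) h1 P, fun j q => ?_⟩
    change (U (up j q.1)).lift _ _ _ _ _ _ = _
    rw [h2]
    rfl
  rth v := by
    obtain ⟨up, h1, h2⟩ := h.rth v
    haveI : NeZero J := ⟨h.J_pos.ne'⟩
    refine ⟨fun j q => (up j q.1, q.2), Resample.prod_right (ν := unf J) h1 P, fun j q => ?_⟩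
    change (U (up j q.1)).lift _ _ _ _ _ _ = _
    rw [h2]
    rfl

theorem lift_resW (h : ResW id Q U) :
    ResW β (Q.prod P) fun q => (U q.1).lift v₀ A β Xh (M q.2) (Y q.2) := by
  intro v
  obtain ⟨g, v₁, hv, γ, μ, δ, up, h1, h2, h3, h4, h5⟩ := h v
  haveI := h2.prob
  refine ⟨g, v₁, hv, γ, μ, δ, fun w q => (up w q.1, q.2), h1, h2, h3, h4.prod_right P,
    fun w q => ?_⟩
  change (U (up w q.1)).lift _ _ _ _ _ _ = _
  rw [h5]
  unfold Dat.lift Dat.setW
  congr 1
  funext x i
  dsimp only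
  split_ifs <;> rfl

end Pool.Agent.FusfFlat
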