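import Pool.Agent.P.MP_8fb1ed_pr.Fl.MeasP

/-! Measurability of random algebraic subspaces. -/

open MeasureTheory Filter Topology Relation
open scoped ENNReal

namespace Pool.Agent.FusfFlat

open Pool.Agent.FusfTree

variable {Ω ι : Type*} [MeasurableSpace Ω] [Countable ι] {K L M N : Ω → Sub ι}

omit [Countable ι] in
theorem Meas_fin {M : Sub ι} (h : M ≤ units fun _ => True) {f : L2 ι} (hf : f ∈ M) :
    ∃ F : Finset ι, f ∈ M ⊓ coord fun i => i ∈ F :=
  ⟨(mem_units.1 (h hf)).1.toFinset, hf, fun i hi => by_contra fun h0 => hi (by simpa using h0)⟩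

omit [Countable ι] in
theorem Meas_cl (M : Sub ι) (F : Finset ι) :
    cl (M ⊓ coord fun i => i ∈ F) = M ⊓ coord fun i => i ∈ F :=
  cl_of_finite (S := fun i => i ∈ F) F.finite_toSet inf_le_right

theorem Meas_build {K : Finset ι → Ω → Sub ι} (h1 : ∀ F, PMeas (K F))
    (h2 : ∀ F ω, K F ω ≤ coord fun i => i ∈ F) (h3 : ∀ F ω, K F ω ≤ N ω)
    (h4 : ∀ ω, ∀ f ∈ N ω, ∃ F, f ∈ K F ω) : AMeas N := by
  refine ⟨fun ω f hf => ?_, fun F => ?_⟩
  · obtain ⟨G, hG⟩ := h4 ω f hf
    exact mem_units.2 ⟨G.finite_toSet.subset fun i hi => by_contra fun hs => hi (h2 G ω hG i hs),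
      fun i hi => (hi trivial).elim⟩
  · have e : (fun ω => N ω ⊓ coord fun i => i ∈ F) =
        fun ω => ⨆ G, cl (K G ω) ⊓ coord fun i => i ∈ F := by
      funext ω
      refine le_antisymm (fun f hf => ?_) (iSup_le fun G => inf_le_inf_right _ ?_)
      · obtain ⟨G, hG⟩ := h4 ω f hf.1
        exact Submodule.mem_iSup_of_mem G ⟨le_cl _ hG, hf.2⟩
      · rw [cl_of_finite (S := fun i => i ∈ G) G.finite_toSet (h2 G ω)]
        exact h3 G ω
    rw [e]
    exact PMeas.isup fun G => (h1 G).inf_coord fun _ => measurable_const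

theorem AMeas.pmeas (h : AMeas M) : PMeas M := by
  have e : M = fun ω => ⨆ F : Finset ι, M ω ⊓ coord fun i => i ∈ F := by
    funext ω
    refine le_antisymm (fun f hf => ?_) (iSup_le fun F => inf_le_left)
    obtain ⟨F, hF⟩ := Meas_fin (h.fin ω) hf
    exact Submodule.mem_iSup_of_mem F hF
  rw [e]
  exact PMeas.isup h.meas

theorem AMeas.const {M : Sub ι} (h : M ≤ units fun _ => True) : AMeas fun _ : Ω => M :=
  ⟨fun _ => h, fun _ => PMeas.const _⟩

theorem AMeas.comp {Ω' : Type*} [MeasurableSpace Ω'] (h : AMeas M) {π : Ω' → Ω}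
    (hπ : Measurable π) : AMeas fun ω => M (π ω) :=
  ⟨fun _ => h.fin _, fun F => (h.meas F).comp hπ⟩

theorem AMeas.bot : AMeas fun _ : Ω => (⊥ : Sub ι) := AMeas.const bot_le

theorem AMeas.unit {S : Ω → ι → Prop} (h : ∀ i, Measurable fun ω => S ω i) :
    AMeas fun ω => units (S ω) := by
  refine ⟨fun ω => units_mono fun _ _ => trivial, fun F i j => ?_⟩
  have h1 := PMeas.crd (S := fun ω i => S ω i ∧ i ∈ F) (fun i => (h i).and measurable_const) i j
  simp only [← cl_units, proj_cl] at h1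
  simp only [units_inf_coord]
  exact h1

theorem AMeas.inf_coord (hM : AMeas M) {S : Ω → ι → Prop} (h : ∀ i, Measurable fun ω => S ω i) :
    AMeas fun ω => M ω ⊓ coord (S ω) := by
  refine ⟨fun ω => inf_le_left.trans (hM.fin ω), fun F => ?_⟩
  have h1 := (hM.meas F).inf_coord h
  simp only [Meas_cl] at h1
  simp only [inf_right_comm _ (coord (S _))]
  exact h1

theorem AMeas.isup {J : Type*} [Countable J] {M : J → Ω → Sub ι} (h : ∀ j, AMeas (M j)) :
    AMeas fun ω => ⨆ j, M j ω := by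
  classical
  refine Meas_build (K := fun F ω => ⨆ j, M j ω ⊓ coord fun i => i ∈ F)
    (fun F => PMeas.isup fun j => (h j).meas F) (fun F ω => iSup_le fun j => inf_le_right)
    (fun F ω => iSup_mono fun j => inf_le_left) fun ω f hf => ?_
  have hm : ∀ F G : Finset ι, F ⊆ G → (⨆ j, M j ω ⊓ coord fun i => i ∈ F) ≤
      ⨆ j, M j ω ⊓ coord fun i => i ∈ G := fun F G hFG =>
    iSup_mono fun j => inf_le_inf_left _ (coord_mono fun i hi => hFG hi)
  refine Submodule.iSup_induction (fun j => M j ω)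
    (motive := fun f => ∃ F : Finset ι, f ∈ ⨆ j, M j ω ⊓ coord fun i => i ∈ F) hf
    (fun j g hg => ?_) ⟨∅, Submodule.zero_mem _⟩ ?_
  · obtain ⟨F, hF⟩ := Meas_fin ((h j).fin ω) hg
    exact ⟨F, Submodule.mem_iSup_of_mem j hF⟩
  · rintro x y ⟨F, hF⟩ ⟨G, hG⟩
    exact ⟨F ∪ G, Submodule.add_mem _ (hm _ _ Finset.subset_union_left hF)
      (hm _ _ Finset.subset_union_right hG)⟩

theorem AMeas.sup (hM : AMeas M) (hN : AMeas N) : AMeas fun ω => M ω ⊔ N ω := by
  have h1 := AMeas.isup (M := fun b : Bool => cond b M N) fun b => by cases b <;> assumption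
  simp only [iSup_bool_eq, cond] at h1
  exact h1

theorem AMeas.cond {c : Ω → Prop} (hc : Measurable c) (h : AMeas M) :
    AMeas fun ω => onIf (c ω) (M ω) := by
  refine ⟨fun ω => onIf_le fun _ => h.fin ω, fun F => ?_⟩
  have e : (fun ω => onIf (c ω) (M ω) ⊓ coord fun i => i ∈ F) =
      fun ω => onIf (c ω) (M ω ⊓ coord fun i => i ∈ F) := by
    funext ω
    by_cases hω : c ω
    · rw [onIf_pos hω, onIf_pos hω]
    · rw [onIf_neg hω, onIf_neg hω, bot_inf_eq]
  rw [e]
  exact (h.meas F).cond hc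

theorem AMeas.index {J : Type*} [Countable J] [MeasurableSpace J] [MeasurableSingletonClass J]
    {M : J → Ω → Sub ι} (h : ∀ j, AMeas (M j)) {n : Ω → J} (hn : Measurable n) :
    AMeas fun ω => M (n ω) ω :=
  ⟨fun ω => (h _).fin ω, fun F =>
    PMeas.index (K := fun j ω => M j ω ⊓ coord fun i => i ∈ F) (fun j => (h j).meas F) hn⟩

/-- Membership of a fixed vector is a measurable event. -/
theorem AMeas.mem (h : AMeas M) (f : L2 ι) : Measurable fun ω => f ∈ M ω := by
  have e : (fun ω => f ∈ M ω) = fun ω => ∃ F : Finset ι,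
      Submodule.span ℝ {f} ≤ cl (M ω ⊓ coord fun i => i ∈ F) := by
    funext ω
    simp only [Meas_cl, Submodule.span_singleton_le_iff_mem]
    exact propext ⟨Meas_fin (h.fin ω), fun ⟨_, hF⟩ => hF.1⟩
  rw [e]
  exact Measurable.exists fun F => (PMeas.const _).meas_le (h.meas F)

theorem AMeas.exactAt (h : AMeas M) {S : Ω → ι → Prop} (hS : ∀ i, Measurable fun ω => S ω i) :
    Measurable fun ω => ExactAt (M ω) (S ω) :=
  (h.pmeas.inf_coord hS).meas_le (h.inf_coord hS).pmeas

end Pool.Agent.FusfFlat
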