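import Pool.Agent.P.MP_8fb1ed_pr.Fl.Hilb

/-! Measurability of projections onto random subspaces. -/

open MeasureTheory Filter Topology Relation
open scoped ENNReal

namespace Pool.Agent.FusfFlat

open Pool.Agent.FusfTree

variable {Ω ι : Type*} [MeasurableSpace Ω] [Countable ι] {K L M N : Ω → Sub ι}

theorem PMeas.const (K : Sub ι) : PMeas fun _ : Ω => K := fun _ _ => measurable_const

theorem PMeas.comp {Ω' : Type*} [MeasurableSpace Ω'] (h : PMeas K) {π : Ω' → Ω}
    (hπ : Measurable π) : PMeas fun ω => K (π ω) := fun i j => (h i j).comp hπ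

theorem PMeas.clos (h : PMeas K) : PMeas fun ω => cl (K ω) := fun i j => by
  simp only [proj_cl]
  exact h i j

theorem PMeas.orth (h : PMeas K) : PMeas fun ω => (K ω)ᗮ := fun i j => by
  have e : (fun ω => proj (K ω)ᗮ (dl i) j) = fun ω => (dl i : L2 ι) j - proj (K ω) (dl i) j := by
    funext ω
    rw [proj_orth]
    rfl
  rw [e]
  exact measurable_const.sub (h i j)

theorem MeasP_ker (L : Sub ι) :
    LinearMap.ker (((1 : L2 ι →L[ℝ] L2 ι) - proj L : L2 ι →L[ℝ] L2 ι) : L2 ι →ₗ[ℝ] L2 ι)
      = cl L := by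
  ext v
  simp only [LinearMap.mem_ker, ContinuousLinearMap.coe_coe, sub_apply, one_apply_eq_self]
  constructor
  · intro h
    rw [sub_eq_zero.1 h]
    exact proj_mem_cl L v
  · intro h
    rw [← proj_cl, PowAux.proj_of_mem h, sub_self]

theorem PMeas.inf (hK : PMeas K) (hL : PMeas L) : PMeas fun ω => cl (K ω) ⊓ cl (L ω) := by
  let _ : MulAction PUnit.{1} ι :=
    { smul := fun _ i => i, one_smul := fun _ => rfl, mul_smul := fun _ _ _ => rfl }
  have h1 : RSub (Γ := PUnit.{1}) (fun _ ω => ω) fun ω => cl (K ω) :=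
    ⟨fun ω => (K ω).isClosed_topologicalClosure,
      ⟨⟨1, fun ω => PowAux.proj_norm_le _⟩, hK.clos, fun _ _ _ _ => rfl⟩⟩
  have h2 : ROp (Γ := PUnit.{1}) (fun _ ω => ω) fun ω => proj (L ω) :=
    ⟨⟨1, fun ω => PowAux.proj_norm_le _⟩, hL, fun _ _ _ _ => rfl⟩
  have h3 := (h1.inf_ker (ROp.one.sub h2)).rop.meas
  simp only [MeasP_ker] at h3
  exact h3

theorem PMeas.sup (hK : PMeas K) (hL : PMeas L) : PMeas fun ω => K ω ⊔ L ω := by
  have h := (hK.orth.inf hL.orth).orth.clos
  intro i j
  have e : ∀ ω, cl (cl (K ω)ᗮ ⊓ cl (L ω)ᗮ)ᗮ = cl (K ω ⊔ L ω) := fun ω => by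
    rw [cl_orth (K ω), cl_orth (L ω), Submodule.inf_orthogonal,
      Submodule.orthogonal_orthogonal_eq_closure, cl_cl]
  have h' := h i j
  simp only [e, proj_cl] at h'
  exact h'

theorem MeasP_mono {α : Type*} [CompleteLattice α] (f : ℕ → α) :
    Monotone fun n => ⨆ m ∈ Finset.range n, f m := fun _ _ hab =>
  biSup_mono fun _ hm => Finset.range_mono hab hm

theorem MeasP_sup {α J : Type*} [CompleteLattice α] (f : J → α) {e : ℕ → J}
    (he : Function.Surjective e) : ⨆ n, ⨆ m ∈ Finset.range n, f (e m) = ⨆ j, f j := by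
  refine le_antisymm (iSup_le fun n => iSup₂_le fun m _ => le_iSup f (e m)) (iSup_le fun j => ?_)
  obtain ⟨m, rfl⟩ := he j
  exact le_iSup_of_le (m + 1)
    (le_iSup₂_of_le (f := fun m' (_ : m' ∈ Finset.range (m + 1)) => f (e m')) m
      (Finset.self_mem_range_succ m) le_rfl)

theorem PMeas.isup {J : Type*} [Countable J] {K : J → Ω → Sub ι} (h : ∀ j, PMeas (K j)) :
    PMeas fun ω => ⨆ j, K j ω := by
  rcases isEmpty_or_nonempty J with hJ | hJ
  · simp only [iSup_of_empty]
    exact PMeas.const ⊥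
  obtain ⟨e, he⟩ := exists_surjective_nat J
  let S : ℕ → Ω → Sub ι := fun n ω => ⨆ m ∈ Finset.range n, K (e m) ω
  have hS : ∀ n, PMeas (S n) := by
    intro n
    induction n with
    | zero =>
      have e0 : S 0 = fun _ => ⊥ := by
        funext ω
        simp [S]
      rw [e0]
      exact PMeas.const ⊥
    | succ n ih =>
      have e1 : S (n + 1) = fun ω => K (e n) ω ⊔ S n ω := by
        funext ω
        simp only [S]
        rw [Finset.range_add_one, Finset.iSup_insert]
      rw [e1]
      exact (h (e n)).sup ih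
  have hmono : ∀ ω, Monotone fun n => S n ω := fun ω => MeasP_mono fun m => K (e m) ω
  have hsup : ∀ ω, ⨆ n, S n ω = ⨆ j, K j ω := fun ω => MeasP_sup (fun j => K j ω) he
  intro i j
  refine measurable_of_tendsto_metrizable (f := fun n ω => proj (S n ω) (dl i) j)
    (fun n => hS n i j) (tendsto_pi_nhds.2 fun ω => ?_)
  have h1 := proj_tendsto_iSup (hmono ω) (dl i)
  rw [hsup ω] at h1
  exact ((lp.evalCLM (𝕜 := ℝ) (fun _ : ι => ℝ) 2 j).continuous.tendsto _).comp h1

theorem PMeas.cond {c : Ω → Prop} (hc : Measurable c) (h : PMeas K) :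
    PMeas fun ω => onIf (c ω) (K ω) := by
  classical
  intro i j
  have e : (fun ω => proj (onIf (c ω) (K ω)) (dl i) j)
      = fun ω => if c ω then proj (K ω) (dl i) j else 0 := by
    funext ω
    by_cases hω : c ω
    · rw [onIf_pos hω, if_pos hω]
    · rw [onIf_neg hω, if_neg hω, proj_bot]
      rfl
  rw [e]
  exact Measurable.ite (measurableSet_setOfPred.mpr hc) (h i j) measurable_const

theorem MeasP_index {J : Type*} [Countable J] [MeasurableSpace J] [MeasurableSingletonClass J]
    {F : J → Ω → ℝ} (h : ∀ j, Measurable (F j)) {n : Ω → J} (hn : Measurable n) :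
    Measurable fun ω => F (n ω) ω := by
  have h1 : Measurable fun p : Ω × J => F p.2 p.1 :=
    measurable_from_prod_countable_left fun y => h y
  exact h1.comp (measurable_id.prodMk hn)

theorem PMeas.index {J : Type*} [Countable J] [MeasurableSpace J] [MeasurableSingletonClass J]
    {K : J → Ω → Sub ι} (h : ∀ j, PMeas (K j)) {n : Ω → J} (hn : Measurable n) :
    PMeas fun ω => K (n ω) ω := by
  intro i j
  exact MeasP_index (F := fun y ω => proj (K y ω) (dl i) j) (fun y => h y i j) hn

theorem PMeas.crd {S : Ω → ι → Prop} (h : ∀ i, Measurable fun ω => S ω i) :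
    PMeas fun ω => coord (S ω) := by
  classical
  intro i j
  simp only [proj_coord_apply]
  exact Measurable.ite (measurableSet_setOfPred.mpr (h j)) measurable_const measurable_const

theorem PMeas.inf_coord (hK : PMeas K) {S : Ω → ι → Prop} (h : ∀ i, Measurable fun ω => S ω i) :
    PMeas fun ω => cl (K ω) ⊓ coord (S ω) := by
  have h1 := hK.inf (PMeas.crd h)
  simp only [cl_coord] at h1
  exact h1

theorem PMeas.inf_orth (hK : PMeas K) (hL : PMeas L) :
    PMeas fun ω => cl (K ω) ⊓ (L ω)ᗮ := by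
  have h1 := hK.inf hL.orth
  simp only [cl_orth] at h1
  exact h1

theorem PMeas.enorm (h : PMeas K) (i : ι) : Measurable fun ω => ‖proj (K ω) (dl i)‖ₑ ^ 2 := by
  simp only [enorm_proj_eq]
  exact (h i i).ennreal_ofReal

theorem PMeas.meas_le (hK : PMeas K) (hL : PMeas L) :
    Measurable fun ω => K ω ≤ cl (L ω) := by
  simp only [le_cl_iff_entries]
  refine Measurable.forall fun i => Measurable.forall fun j => ?_
  exact measurableSet_setOfPred.mp (measurableSet_eq_fun (hK.sup hL i j) (hL i j))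

end Pool.Agent.FusfFlat
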