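import Pool.Agent.P.MP_8fb1ed_pr.Fl.MsgDefs

/-! Deterministic properties of the messages. -/

open MeasureTheory Filter Topology Relation
open scoped ENNReal

namespace Pool.Agent.FusfFlat

open Pool.Agent.FusfTree

namespace Dat

variable {V ι : Type*} {p : Par V ι} {d : Dat V ι}

theorem Good.ne (h : d.Good p) {u v : V} (huv : d.t u v) : u ≠ v := by
  rintro rfl
  exact h.acyc u u huv ReflTransGen.refl

theorem sp_comm (d : Dat V ι) (u v : V) : d.sp u v = d.sp v u :=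
  funext fun _ => propext and_comm

theorem Good.nrm_symm (h : d.Good p) {u v : V} (huv : d.nrm p u v) : d.nrm p v u :=
  ⟨h.symm _ _ huv.1, huv.2.2.1, huv.2.1, huv.2.2.2.symm⟩

theorem Good.nrm_iff (h : d.Good p) {u v : V} :
    d.nrm p u v ↔ d.ori p u v ∨ d.ori p v u := by
  constructor
  · intro huv
    rcases lt_or_gt_of_ne huv.2.2.2 with h1 | h1
    · exact Or.inl ⟨huv, h1⟩
    · exact Or.inr ⟨h.nrm_symm huv, h1⟩
  · rintro (h1 | h1)
    · exact h1.1
    · exact h.nrm_symm h1.1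

theorem ori_asymm {u v : V} (h : d.ori p u v) : ¬ d.ori p v u :=
  fun h' => lt_asymm h.2 h'.2

theorem Good.dz_gt (h : d.Good p) (u v : V) : -(p.W : ℤ) < d.dz u v := by
  have := h.z_lt v u
  unfold dz
  omega

theorem Good.card_sp (h : d.Good p) (i : ι) :
    {e : V × V | d.sp e.1 e.2 i}.encard ≤ (p.C ^ 2 : ℕ) := by
  have e : {e : V × V | d.sp e.1 e.2 i} = {v | d.X v i} ×ˢ {v | d.X v i} := rfl
  rw [e, Set.encard_prod, sq, Nat.cast_mul]
  exact mul_le_mul' (h.card i) (h.card i)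

theorem Msg_Ut_mono (d : Dat V ι) (p : Par V ι) (v : V) {a a' : ℤ} (ha : a ≤ a') :
    d.Ut p v a ≤ d.Ut p v a' := by
  refine units_mono fun i hi => ⟨hi.1, ?_⟩
  rcases hi.2 with h | h | h
  · exact Or.inl ⟨h.1, h.2.1, h.2.2.trans_le ha⟩
  · exact Or.inr (Or.inl ⟨h.1, h.2.trans_le ha⟩)
  · exact Or.inr (Or.inr (h.trans_le ha))

theorem Msg_L0_mono (d : Dat V ι) (p : Par V ι) (v : V) {a a' : ℤ} (ha : a ≤ a') :
    d.L0 p v a ≤ d.L0 p v a' :=
  sup_le_sup_left (Msg_Ut_mono d p v ha) _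

theorem Msg_inc_mono {m m' : V → V → ℤ → Sub ι} {s s' : ℕ} {u v : V} {a a' : ℤ} (hs : s ≤ s')
    (hm : m u v (a + d.dz u v) ≤ m' u v (a' + d.dz u v)) :
    d.inc p m s u v a ≤ d.inc p m' s' u v a' :=
  sup_le_sup (onIf_mono (fun h => ⟨h.1, h.2.trans_le hs⟩) fun _ => le_rfl)
    (onIf_mono id fun _ => hm)

theorem Msg_oth_mono {m m' : V → V → ℤ → Sub ι} {s s' : ℕ} {v w : V} {a a' : ℤ} (hs : s ≤ s')
    (ha : a ≤ a') (hm : ∀ u, m u v (a + d.dz u v) ≤ m' u v (a' + d.dz u v)) :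
    d.oth p m s v w a ≤ d.oth p m' s' v w a' :=
  sup_le_sup (sup_le_sup_right (Msg_L0_mono d p v ha) _)
    (iSup_mono fun u => onIf_mono id fun _ => Msg_inc_mono hs (hm u))

theorem Msg_L0_le_oth {m : V → V → ℤ → Sub ι} {s : ℕ} {v w : V} {a : ℤ} :
    d.L0 p v a ≤ d.oth p m s v w a :=
  le_sup_of_le_left le_sup_left

theorem Msg_Wv_le_oth {m : V → V → ℤ → Sub ι} {s : ℕ} {v w : V} {a : ℤ} :
    d.Wv v ≤ d.oth p m s v w a :=
  le_sup_of_le_left le_sup_right

theorem Msg_inc_le_oth {m : V → V → ℤ → Sub ι} {s : ℕ} {u v w : V} {a : ℤ} (hne : u ≠ w) :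
    d.inc p m s u v a ≤ d.oth p m s v w a :=
  le_sup_of_le_right (le_iSup_of_le u (onIf_pos hne _).ge)

theorem Msg_units_le_inc {m : V → V → ℤ → Sub ι} {s : ℕ} {u v : V} {a : ℤ} (huv : d.t u v)
    (hl : d.lam u v < s) : units (d.sp u v) ≤ d.inc p m s u v a :=
  le_sup_of_le_left (onIf_pos (And.intro huv hl) _).ge

theorem Msg_msg_le_inc {m : V → V → ℤ → Sub ι} {s : ℕ} {u v : V} {a : ℤ} (huv : d.nrm p u v) :
    m u v (a + d.dz u v) ≤ d.inc p m s u v a :=
  le_sup_of_le_right (onIf_pos huv _).ge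

theorem Msg_msgN_succ (d : Dat V ι) (p : Par V ι) (n : ℕ) :
    ∀ (v w : V) (a : ℤ), d.msgN p n v w a ≤ d.msgN p (n + 1) v w a := by
  induction n with
  | zero => exact fun _ _ _ => bot_le
  | succ n ih =>
    exact fun v w a => inf_le_inf_right _ (Msg_oth_mono le_rfl le_rfl fun u => ih u v _)

theorem Msg_msgN_le (d : Dat V ι) (p : Par V ι) (n : ℕ) (v w : V) (a : ℤ) :
    d.msgN p n v w a ≤ d.msg p v w a :=
  le_iSup (fun n => d.msgN p n v w a) n

theorem msgN_mono (d : Dat V ι) (p : Par V ι) (v w : V) (a : ℤ) :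
    Monotone fun n => d.msgN p n v w a :=
  monotone_nat_of_le_succ fun n => Msg_msgN_succ d p n v w a

/-- The fixed point equation. -/
theorem msg_eq (d : Dat V ι) (p : Par V ι) (v w : V) (a : ℤ) :
    d.msg p v w a = d.Oth p (d.th v) v w a ⊓ coord (d.sp v w) := by
  refine le_antisymm (iSup_le fun n => ?_) ?_
  · cases n with
    | zero => exact bot_le
    | succ n =>
      exact inf_le_inf_right _ (Msg_oth_mono le_rfl le_rfl fun u => Msg_msgN_le d p n u v _)
  · have hK : Monotone fun n => d.oth p (d.msgN p n) (d.th v) v w a := fun n n' hn =>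
      Msg_oth_mono le_rfl le_rfl fun u => msgN_mono d p u v _ hn
    have h1 : d.Oth p (d.th v) v w a ≤ ⨆ n, d.oth p (d.msgN p n) (d.th v) v w a := by
      refine sup_le (le_iSup_of_le 0 le_sup_left) (iSup_le fun u => onIf_le fun hne => ?_)
      refine sup_le (onIf_le fun h => le_iSup_of_le 0 ?_) (onIf_le fun h => iSup_le fun n => ?_)
      · exact (Msg_units_le_inc h.1 h.2).trans (Msg_inc_le_oth hne)
      · exact le_iSup_of_le n ((Msg_msg_le_inc h).trans (Msg_inc_le_oth hne))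
    refine (inf_le_inf_right _ h1).trans ?_
    rw [iSup_inf_of_mono hK]
    exact iSup_le fun n => Msg_msgN_le d p (n + 1) v w a

theorem Ut_mono (d : Dat V ι) (p : Par V ι) (v : V) : Monotone (d.Ut p v) :=
  fun _ _ ha => Msg_Ut_mono d p v ha

theorem Msg_msgN_time (d : Dat V ι) (p : Par V ι) (n : ℕ) :
    ∀ (v w : V) {a a' : ℤ}, a ≤ a' → d.msgN p n v w a ≤ d.msgN p n v w a' := by
  induction n with
  | zero => exact fun _ _ _ _ _ => bot_le
  | succ n ih =>
    exact fun v w a a' ha =>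
      inf_le_inf_right _ (Msg_oth_mono le_rfl ha fun u => ih u v (by omega))

theorem msg_mono (d : Dat V ι) (p : Par V ι) (v w : V) : Monotone (d.msg p v w) :=
  fun _ _ ha => iSup_mono fun n => Msg_msgN_time d p n v w ha

theorem Oth_mono (d : Dat V ι) (p : Par V ι) (v w : V) {s s' : ℕ} {a a' : ℤ} (hs : s ≤ s')
    (ha : a ≤ a') : d.Oth p s v w a ≤ d.Oth p s' v w a' :=
  Msg_oth_mono hs ha fun u => msg_mono d p u v (by omega)

theorem Mv_mono (d : Dat V ι) (p : Par V ι) (v : V) : Monotone (d.Mv p v) :=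
  fun _ _ ha => sup_le_sup_right (sup_le_sup (Msg_L0_mono d p v ha)
    (iSup_mono fun u => Msg_inc_mono le_rfl (msg_mono d p u v (by omega)))) _

theorem Qp_mono (d : Dat V ι) (p : Par V ι) (u v : V) (a : ℤ) :
    Monotone fun s => d.Qp p s u v a :=
  fun _ _ hs => inf_le_inf_right _ (cl_mono (sup_le_sup_left (Oth_mono d p v u hs le_rfl) _))

theorem Ut_le (d : Dat V ι) (p : Par V ι) (v : V) (a : ℤ) : d.Ut p v a ≤ units (d.X v) :=
  units_mono fun _ hi => hi.1

theorem Ut_le_Mv (d : Dat V ι) (p : Par V ι) (v : V) (a : ℤ) : d.Ut p v a ≤ d.Mv p v a :=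
  le_sup_of_le_left (le_sup_of_le_left le_sup_right)

theorem G_le_Mv (d : Dat V ι) (p : Par V ι) (v : V) (a : ℤ) : d.G v ≤ d.Mv p v a :=
  le_sup_of_le_left (le_sup_of_le_left le_sup_left)

theorem Good.Msg_L0_le (h : d.Good p) (v : V) (a : ℤ) : d.L0 p v a ≤ units (d.X v) :=
  sup_le (h.G_le v) (Ut_le d p v a)

theorem Msg_Wv_le (d : Dat V ι) (v : V) : d.Wv v ≤ units (d.X v) :=
  units_mono fun _ hi => hi.1

theorem Msg_inc_le {m : V → V → ℤ → Sub ι} {s : ℕ} {u v : V} {a : ℤ}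
    (hm : m u v (a + d.dz u v) ≤ units (d.sp u v)) : d.inc p m s u v a ≤ units (d.X v) :=
  (sup_le (onIf_le fun _ => le_rfl) (onIf_le fun _ => hm)).trans (units_mono fun _ hi => hi.2)

theorem Good.Msg_oth_le (h : d.Good p) {m : V → V → ℤ → Sub ι} {s : ℕ} {v w : V} {a : ℤ}
    (hm : ∀ u, m u v (a + d.dz u v) ≤ units (d.sp u v)) : d.oth p m s v w a ≤ units (d.X v) :=
  sup_le (sup_le (h.Msg_L0_le v a) (Msg_Wv_le d v))
    (iSup_le fun u => onIf_le fun _ => Msg_inc_le (hm u))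

theorem Good.Msg_msgN_le (h : d.Good p) (n : ℕ) :
    ∀ (v w : V) (a : ℤ), d.msgN p n v w a ≤ units (d.sp v w) := by
  induction n with
  | zero => exact fun _ _ _ => bot_le
  | succ n ih =>
    intro v w a
    refine (inf_le_inf_right _ (h.Msg_oth_le fun u => ih u v _)).trans ?_
    rw [units_inf_coord]
    exact units_mono fun _ hi => hi.2

theorem Good.msg_le (h : d.Good p) (v w : V) (a : ℤ) : d.msg p v w a ≤ units (d.sp v w) :=
  iSup_le fun n => h.Msg_msgN_le n v w a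

theorem Good.Oth_le (h : d.Good p) (s : ℕ) (v w : V) (a : ℤ) :
    d.Oth p s v w a ≤ units (d.X v) :=
  h.Msg_oth_le fun u => h.msg_le u v _

theorem Good.M0_le (h : d.Good p) (v : V) (a : ℤ) : d.M0 p v a ≤ units (d.X v) :=
  sup_le (h.Msg_L0_le v a) (iSup_le fun u => Msg_inc_le (h.msg_le u v _))

theorem Good.Mv_le (h : d.Good p) (v : V) (a : ℤ) : d.Mv p v a ≤ units (d.X v) :=
  sup_le (h.M0_le v a) (Msg_Wv_le d v)

theorem Good.Mt_le (h : d.Good p) (v : V) (a : ℤ) : d.Mt p v a ≤ units (d.X v) :=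
  sup_le (h.Msg_L0_le v _) (iSup_le fun u => sup_le (Msg_inc_le (h.msg_le u v _))
    (onIf_le fun _ => (h.msg_le u v _).trans (units_mono fun _ hi => hi.2)))

theorem Good.BB_le (h : d.Good p) : d.BB ≤ units p.Xh :=
  iSup_le fun v => (h.G_le v).trans (units_mono (h.sub v))

theorem Msg_le_Ut (d : Dat V ι) (p : Par V ι) (v : V) {a : ℤ} (ha : (p.D : ℤ) + p.D0 < a) :
    units (d.X v) ≤ d.Ut p v a :=
  units_mono fun _ hi => ⟨hi, Or.inr (Or.inr ha)⟩

theorem Good.Mv_top (h : d.Good p) (v : V) {a : ℤ} (ha : (p.D : ℤ) + p.D0 < a) :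
    d.Mv p v a = units (d.X v) :=
  le_antisymm (h.Mv_le v a) ((Msg_le_Ut d p v ha).trans (Ut_le_Mv d p v a))

theorem Good.msg_top (h : d.Good p) (v w : V) {a : ℤ} (ha : (p.D : ℤ) + p.D0 < a) :
    d.msg p v w a = units (d.sp v w) := by
  refine le_antisymm (h.msg_le v w a) ?_
  rw [msg_eq]
  refine le_inf ?_ (units_le_coord _)
  exact (units_mono fun _ hi => hi.1).trans
    ((Msg_le_Ut d p v ha).trans (le_sup_right.trans Msg_L0_le_oth))

theorem Msg_inc_le_Mv (d : Dat V ι) (p : Par V ι) (u v : V) (a : ℤ) :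
    d.inc p (d.msg p) (d.th v) u v a ≤ d.Mv p v a :=
  le_sup_of_le_left (le_sup_of_le_right
    (le_iSup (fun u => d.inc p (d.msg p) (d.th v) u v a) u))

theorem Oth_le_Mv (d : Dat V ι) (p : Par V ι) (v w : V) (a : ℤ) :
    d.Oth p (d.th v) v w a ≤ d.Mv p v a :=
  sup_le (sup_le (le_sup_of_le_left le_sup_left) le_sup_right)
    (iSup_le fun u => onIf_le fun _ => Msg_inc_le_Mv d p u v a)

theorem msg_le_Mv (d : Dat V ι) (p : Par V ι) (v w : V) (a : ℤ) :
    d.msg p v w a ≤ d.Mv p v a :=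
  (msg_eq d p v w a).le.trans (inf_le_left.trans (Oth_le_Mv d p v w a))

theorem msg_in_le_Mv {u v : V} (huv : d.nrm p u v) (a : ℤ) :
    d.msg p u v (a + d.dz u v) ≤ d.Mv p v a :=
  (Msg_msg_le_inc huv).trans (Msg_inc_le_Mv d p u v a)

theorem msg_in_le_Oth {u v w : V} (huv : d.nrm p u v) (hne : u ≠ w) (s : ℕ) (a : ℤ) :
    d.msg p u v (a + d.dz u v) ≤ d.Oth p s v w a :=
  (Msg_msg_le_inc huv).trans (Msg_inc_le_oth hne)

theorem Good.Mv_le_sup (h : d.Good p) {u v : V} (huv : d.nrm p u v) (a : ℤ) :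
    d.Mv p v a ⊔ d.Ut p v (a + 1) ≤
      d.msg p u v (a + d.dz u v) ⊔ d.Oth p (d.th v) v u (a + 1) := by
  have ha : a ≤ a + 1 := by omega
  refine sup_le (sup_le (sup_le ?_ (iSup_le fun u' => ?_)) ?_) ?_
  · exact le_sup_of_le_right ((Msg_L0_mono d p v ha).trans Msg_L0_le_oth)
  · by_cases hu : u' = u
    · subst hu
      refine sup_le (onIf_le fun h1 => ?_) (onIf_le fun _ => le_sup_left)
      have h2 := h1.2
      have h3 := h.th_le v
      have h4 := huv.2.1
      omega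
    · exact le_sup_of_le_right
        ((Msg_inc_mono le_rfl (msg_mono d p u' v (by omega))).trans (Msg_inc_le_oth hu))
  · exact le_sup_of_le_right Msg_Wv_le_oth
  · exact le_sup_of_le_right (le_sup_right.trans Msg_L0_le_oth)

/-- The deterministic part of Claim A. -/
theorem Good.claimA (h : d.Good p) {u v : V} (huv : d.t u v) (hl : d.lam u v + 1 = d.th v)
    {a : ℤ} (hex : ExactAt (d.Mt p v a ⊔ d.Wv v) (d.YI v)) :
    d.Qp p (d.th v - 1) u v a ≤ cl (d.msg p u v (a + d.dz u v) ⊔ d.msg p v u (a + 1)) := by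
  have hN : d.Mt p v a ⊔ d.Wv v ≤ units fun _ => True :=
    (sup_le (h.Mt_le v a) (Msg_Wv_le d v)).trans (units_mono fun _ _ => trivial)
  have h1 := exact_part hN (fun j => d.sp j v) (fun j => d.t j v ∧ d.lam j v + 1 = d.th v) hex
    (j := u) ⟨huv, hl⟩
  have h2 : d.msg p u v (a + d.dz u v) ⊔ d.Oth p (d.th v - 1) v u (a + 1) ≤
      d.Mt p v a ⊔ d.Wv v := by
    refine sup_le ?_ (sup_le (sup_le ?_ le_sup_right) (iSup_le fun u' => onIf_le fun _ => ?_))
    · exact le_sup_of_le_left (le_sup_of_le_right (le_iSup_of_le u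
        (le_sup_of_le_right (onIf_pos (And.intro huv hl) _).ge)))
    · exact le_sup_of_le_left le_sup_left
    · exact le_sup_of_le_left (le_sup_of_le_right (le_iSup_of_le u' le_sup_left))
  have h3 : ∀ u', u' ≠ u → d.t u' v ∧ d.lam u' v + 1 = d.th v →
      units (d.sp u' v) ≤ d.Oth p (d.th v) v u (a + 1) := fun u' hu hI =>
    (Msg_units_le_inc hI.1 (by have := hI.2; omega)).trans (Msg_inc_le_oth hu)
  have h4 : (d.Mt p v a ⊔ d.Wv v) ⊔
      (units fun i => ∃ j', j' ≠ u ∧ (d.t j' v ∧ d.lam j' v + 1 = d.th v) ∧ d.sp j' v i) ≤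
      d.msg p u v (a + d.dz u v) ⊔ d.Oth p (d.th v) v u (a + 1) := by
    refine sup_le (sup_le (sup_le ?_ (iSup_le fun u' => sup_le ?_ (onIf_le fun hI => ?_))) ?_) ?_
    · exact le_sup_of_le_right Msg_L0_le_oth
    · by_cases hu : u' = u
      · subst hu
        refine sup_le (onIf_le fun h5 => ?_) (onIf_le fun h5 => ?_)
        · have h6 := h5.2
          omega
        · have h6 := h5.2.1
          have h7 := h.th_le v
          omega
      · exact le_sup_of_le_right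
          ((Msg_inc_mono (Nat.sub_le _ _) le_rfl).trans (Msg_inc_le_oth hu))
    · by_cases hu : u' = u
      · subst hu
        exact le_sup_left
      · exact le_sup_of_le_right ((h.msg_le u' v _).trans (h3 u' hu hI))
    · exact le_sup_of_le_right Msg_Wv_le_oth
    · refine le_sup_of_le_right (Submodule.span_le.2 ?_)
      rintro _ ⟨i, ⟨j, hj, hI, hi⟩, rfl⟩
      exact h3 j hj hI (dl_mem_units hi)
  refine (inf_le_inf_right _ (cl_mono h2)).trans (h1.trans (cl_mono ?_))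
  refine (inf_le_inf_right _ h4).trans ?_
  rw [sup_inf_assoc_of_le _ ((h.msg_le u v _).trans (units_le_coord _)), msg_eq d p v u,
    sp_comm d u v]

end Dat

end Pool.Agent.FusfFlat
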