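import Pool.Agent.P.MP_8fb1ed_pr.Fl.Resamp

/-! Bags, labels and messages (paper 5.2): definitions. -/

open MeasureTheory Filter Topology Relation
open scoped ENNReal

namespace Pool.Agent.FusfFlat

open Pool.Agent.FusfTree

/-- Constants. -/
structure Par (V ι : Type*) where
  o : ι → V
  Xh : ι → Prop
  W : ℕ
  N : ℕ
  J : ℕ
  D : ℕ
  D0 : ℕ
  C : ℕ

/-- One configuration: forest, bags, generators, target set, unit sets and labels. -/
structure Dat (V ι : Type*) where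
  t : V → V → Prop
  X : V → ι → Prop
  G : V → Sub ι
  Y : ι → Prop
  w : V → ι → Prop
  z : V → V → ℕ
  lam : V → V → ℕ
  th : V → ℕ

namespace Dat

variable {V ι : Type*} (p : Par V ι) (d : Dat V ι)

/-- Separator. -/
def sp (u v : V) (i : ι) : Prop := d.X u i ∧ d.X v i

/-- Normal edges. -/
def nrm (u v : V) : Prop :=
  d.t u v ∧ p.J ≤ d.lam u v ∧ p.J ≤ d.lam v u ∧ d.lam u v ≠ d.lam v u

/-- Oriented normal edges. -/
def ori (u v : V) : Prop := d.nrm p u v ∧ d.lam u v < d.lam v u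

/-- Level difference `c v - c u` along an edge. -/
def dz (u v : V) : ℤ := (d.z u v : ℤ) - d.z v u

/-- Units present at `v` at time `a`. -/
noncomputable def Ut (v : V) (a : ℤ) : Sub ι := units fun i => d.X v i ∧
  ((p.o i = v ∧ d.Y i ∧ 0 < a) ∨ (p.o i = v ∧ (p.D : ℤ) < a) ∨ (p.D : ℤ) + p.D0 < a)

/-- Local space without the flat set. -/
noncomputable def L0 (v : V) (a : ℤ) : Sub ι := d.G v ⊔ d.Ut p v a

/-- Units of the flat set of `v`. -/
noncomputable def Wv (v : V) : Sub ι := units fun i => d.X v i ∧ d.w v i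

/-- What `v` receives from `u` at time `a` (threshold `s`). -/
noncomputable def inc (m : V → V → ℤ → Sub ι) (s : ℕ) (u v : V) (a : ℤ) : Sub ι :=
  onIf (d.t u v ∧ d.lam u v < s) (units (d.sp u v)) ⊔ onIf (d.nrm p u v) (m u v (a + d.dz u v))

/-- Everything at `v` except what comes from `w`. -/
noncomputable def oth (m : V → V → ℤ → Sub ι) (s : ℕ) (v w : V) (a : ℤ) : Sub ι :=
  (d.L0 p v a ⊔ d.Wv v) ⊔ ⨆ u, onIf (u ≠ w) (d.inc p m s u v a)

/-- Messages of depth `n`. -/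
noncomputable def msgN : ℕ → V → V → ℤ → Sub ι
  | 0 => fun _ _ _ => ⊥
  | n + 1 => fun v w a => d.oth p (msgN n) (d.th v) v w a ⊓ coord (d.sp v w)

/-- Messages. -/
noncomputable def msg (v w : V) (a : ℤ) : Sub ι := ⨆ n, d.msgN p n v w a

/-- `Oth^{(s)}_{vw}[a]`. -/
noncomputable def Oth (s : ℕ) (v w : V) (a : ℤ) : Sub ι := d.oth p (d.msg p) s v w a

/-- The bag space without the flat set. -/
noncomputable def M0 (v : V) (a : ℤ) : Sub ι :=
  d.L0 p v a ⊔ ⨆ u, d.inc p (d.msg p) (d.th v) u v a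

/-- The bag space `M_v[a]`. -/
noncomputable def Mv (v : V) (a : ℤ) : Sub ι := d.M0 p v a ⊔ d.Wv v

/-- `Q'(s)` of 5.3 for the edge `u → v`. -/
noncomputable def Qp (s : ℕ) (u v : V) (a : ℤ) : Sub ι :=
  cl (d.msg p u v (a + d.dz u v) ⊔ d.Oth p s v u (a + 1)) ⊓ coord (d.sp u v)

/-- The hybrid space `Mt` of Claim A (without the flat set). -/
noncomputable def Mt (v : V) (a : ℤ) : Sub ι :=
  d.L0 p v (a + 1) ⊔ ⨆ u, (d.inc p (d.msg p) (d.th v - 1) u v (a + 1) ⊔
    onIf (d.t u v ∧ d.lam u v + 1 = d.th v) (d.msg p u v (a + d.dz u v)))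

/-- The union of the separators of the class `I` of Claim A. -/
def YI (v : V) (i : ι) : Prop := ∃ u, (d.t u v ∧ d.lam u v + 1 = d.th v) ∧ d.sp u v i

/-- All generators. -/
noncomputable def BB : Sub ι := ⨆ v, d.G v

/-- `v` is joined to `u` in the forest with level difference `k = c v - c u`. -/
def Lev (u v : V) (k : ℤ) : Prop :=
  ReflTransGen (fun x y : V × ℤ => d.t x.1 y.1 ∧ y.2 = x.2 + d.dz x.1 y.1) (u, 0) (v, k)

/-- Deterministic requirements. -/
structure Good : Prop where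
  symm : ∀ u v, d.t u v → d.t v u
  acyc : ∀ u v, d.t u v → ¬ side d.t u v u
  z_lt : ∀ u v, d.z u v < p.W
  th_pos : ∀ v, 1 ≤ d.th v
  th_le : ∀ v, d.th v ≤ p.J
  G_le : ∀ v, d.G v ≤ units (d.X v)
  own : ∀ i, d.X (p.o i) i ↔ p.Xh i
  sub : ∀ v i, d.X v i → p.Xh i
  card : ∀ i, {v | d.X v i}.encard ≤ p.C
  walk : ∀ v i, d.X v i → ReflTransGen (fun x y => d.t x y ∧ d.X y i) (p.o i) v
  lev : ∀ v i, d.X v i → ∃ k : ℤ, d.Lev (p.o i) v k ∧ |k| ≤ p.D0

open Classical in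
/-- Change the step label of `(u, v)`. -/
noncomputable def setZ (u v : V) (j : ℕ) : Dat V ι :=
  { d with z := fun x y => if x = u ∧ y = v then j else d.z x y }

open Classical in
/-- Change the class label of `(u, v)`. -/
noncomputable def setLam (u v : V) (j : ℕ) : Dat V ι :=
  { d with lam := fun x y => if x = u ∧ y = v then j else d.lam x y }

open Classical in
/-- Change the threshold of `v`. -/
noncomputable def setTh (v : V) (j : ℕ) : Dat V ι :=
  { d with th := fun x => if x = v then j else d.th x }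

open Classical in
/-- Change the flat set of `v`. -/
noncomputable def setW (v : V) (S : ι → Prop) : Dat V ι :=
  { d with w := fun x => if x = v then S else d.w x }

/-- `d'` is the translate of `d` by `g`. -/
structure Rel {Γ : Type*} [Group Γ] [MulAction Γ V] [MulAction Γ ι] (g : Γ) (d d' : Dat V ι) :
    Prop where
  t : ∀ u v, d'.t (g • u) (g • v) ↔ d.t u v
  X : ∀ v i, d'.X (g • v) (g • i) ↔ d.X v i
  G : ∀ v, d'.G (g • v) = trS g (d.G v)
  Y : ∀ i, d'.Y (g • i) ↔ d.Y i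
  w : ∀ v i, d'.w (g • v) (g • i) ↔ d.w v i
  z : ∀ u v, d'.z (g • u) (g • v) = d.z u v
  lam : ∀ u v, d'.lam (g • u) (g • v) = d.lam u v
  th : ∀ v, d'.th (g • v) = d.th v

end Dat

section sys
variable {Γ Ω V ι : Type*} [Group Γ] [MeasurableSpace Ω] [MulAction Γ V] [MulAction Γ ι]

/-- A measurable equivariant random configuration. -/
structure Sys (p : Par V ι) (β : ι → Γ) (k : ℕ) (P : Measure Ω) (a : Γ → Ω → Ω)
    (d : Ω → Dat V ι) : Prop where
  base : IsBase β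
  mp : ∀ g, MeasurePreserving (a g) P P
  o_eqv : ∀ (g : Γ) i, p.o (g • i) = g • p.o i
  Xh_inv : ∀ (g : Γ) i, p.Xh (g • i) ↔ p.Xh i
  card : {i | β i = 1 ∧ p.Xh i}.encard ≤ k
  good : ∀ ω, (d ω).Good p
  rel : ∀ g ω, Dat.Rel g (d ω) (d (a g ω))
  mt : ∀ u v, Measurable fun ω => (d ω).t u v
  mX : ∀ v i, Measurable fun ω => (d ω).X v i
  mG : ∀ v, AMeas fun ω => (d ω).G v
  mY : ∀ i, Measurable fun ω => (d ω).Y i
  mw : ∀ v i, Measurable fun ω => (d ω).w v i
  mz : ∀ u v, Measurable fun ω => (d ω).z u v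
  mlam : ∀ u v, Measurable fun ω => (d ω).lam u v
  mth : ∀ v, Measurable fun ω => (d ω).th v

/-- The finite labels can be resampled. -/
structure Res0 (p : Par V ι) (P : Measure Ω) (d : Ω → Dat V ι) : Prop where
  W_pos : 0 < p.W
  J_pos : 0 < p.J
  J_le : p.J ≤ p.N
  rz : ∀ u v, ∃ up : Fin p.W → Ω → Ω, Resample P (unf p.W) up ∧
    ∀ j ω, d (up j ω) = (d ω).setZ u v j
  rlam : ∀ u v, ∃ up : Fin p.N → Ω → Ω, Resample P (unf p.N) up ∧
    ∀ j ω, d (up j ω) = (d ω).setLam u v j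
  rth : ∀ v, ∃ up : Fin p.J → Ω → Ω, Resample P (unf p.J) up ∧
    ∀ j ω, d (up j ω) = (d ω).setTh v (j + 1)

/-- The labels can be resampled and the flat sets make every functional of the configuration that
does not read the flat set of `v` exact at `v`. -/
structure Res (p : Par V ι) (P : Measure Ω) (a : Γ → Ω → Ω) (d : Ω → Dat V ι) : Prop
    extends Res0 p P d where
  flat : ∀ (M : Dat V ι → V → Sub ι) (Y : Dat V ι → V → ι → Prop),
    AFam a (fun ω => M (d ω)) → RRel a (fun ω => Y (d ω)) →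
    (∀ ω v, M (d ω) v ≤ coord ((d ω).X v)) → (∀ ω v i, Y (d ω) v i → (d ω).X v i) →
    (∀ ω v S, M ((d ω).setW v S) v = M (d ω) v) → (∀ ω v S, Y ((d ω).setW v S) v = Y (d ω) v) →
    ∀ᵐ ω ∂P, ∀ v, ExactAt (M (d ω) v ⊔ (d ω).Wv v) (Y (d ω) v)

variable (p : Par V ι) (P : Measure Ω) (β : ι → Γ) (d : Ω → Dat V ι)

/-- `n(a)`. -/
noncomputable def nN (s : ℤ) : ℝ≥0∞ := fdim P β fun ω v => (d ω).Mv p v s

/-- `n(a) + loc(a)`. -/
noncomputable def nL (s : ℤ) : ℝ≥0∞ :=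
  fdim P β fun ω v => (d ω).Mv p v s ⊔ (d ω).Ut p v (s + 1)

/-- `h(a, b)`. -/
noncomputable def nH (s s' : ℤ) : ℝ≥0∞ := fdim P β fun ω (e : V × V) =>
  onIf ((d ω).ori p e.1 e.2) ((d ω).msg p e.1 e.2 s ⊔ (d ω).msg p e.2 e.1 s')

/-- The two messages on the normal edge `u → v`, at times read on the clock of `v`. -/
noncomputable def nE (s s' : ℤ) : ℝ≥0∞ := fdim P β fun ω (e : V × V) =>
  onIf ((d ω).nrm p e.1 e.2)
    ((d ω).msg p e.1 e.2 (s + (d ω).dz e.1 e.2) ⊔ (d ω).msg p e.2 e.1 s')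

/-- `Q'(th v)` on normal edges. -/
noncomputable def nQ (s : ℤ) : ℝ≥0∞ := fdim P β fun ω (e : V × V) =>
  onIf ((d ω).nrm p e.1 e.2) ((d ω).Qp p ((d ω).th e.2) e.1 e.2 s)

/-- `x`. -/
noncomputable def nX : ℝ≥0∞ := fdim P β fun ω v => coord ((d ω).X v)

/-- `y`. -/
noncomputable def nY : ℝ≥0∞ := fdim P β fun ω (e : V × V) =>
  onIf ((d ω).ori p e.1 e.2) (coord ((d ω).sp e.1 e.2))

/-- `abn`. -/
noncomputable def nA : ℝ≥0∞ := fdim P β fun ω (e : V × V) =>
  onIf ((d ω).t e.1 e.2 ∧ ¬ (d ω).nrm p e.1 e.2) (coord ((d ω).sp e.1 e.2))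

/-- `kap`. -/
noncomputable def nK : ℝ≥0∞ := fdim P β (one fun _ : Ω => coord p.Xh)

/-- `dim cl BB`. -/
noncomputable def nB : ℝ≥0∞ := fdim P β (one fun ω => (d ω).BB)

end sys

end Pool.Agent.FusfFlat
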