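import Pool.Agent.P.MP_8fb1ed_pr.Fl.Msg

/-! A message into `v` does not read the data at `v`. -/

open MeasureTheory Filter Topology Relation
open scoped ENNReal

namespace Pool.Agent.FusfFlat

open Pool.Agent.FusfTree

theorem MsgInd_onIf {ι : Type*} {c c' : Prop} {K K' : Sub ι} (h : c' ↔ c) (h' : c → K' = K) :
    onIf c' K' = onIf c K := by
  by_cases e : c
  · rw [onIf, onIf, iSup_pos e, iSup_pos (h.2 e), h' e]
  · rw [onIf, onIf, iSup_neg e, iSup_neg fun e' => e (h.1 e')]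

namespace Dat

variable {V ι : Type*} {p : Par V ι} {d d' : Dat V ι}

theorem MsgInd_sp (hX : d'.X = d.X) (u v : V) : d'.sp u v = d.sp u v := by
  funext i
  rw [sp, sp, hX]

theorem MsgInd_inc (ht : d'.t = d.t) (hX : d'.X = d.X) {m m' : V → V → ℤ → Sub ι} {u x : V}
    (h : d.t u x → d'.lam u x = d.lam u x ∧ d'.lam x u = d.lam x u ∧ d'.z u x = d.z u x ∧
      d'.z x u = d.z x u ∧ ∀ a, m' u x a = m u x a) (s : ℕ) (a : ℤ) :
    d'.inc p m' s u x a = d.inc p m s u x a := by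
  rw [inc, inc, MsgInd_sp hX]
  congr 1
  · refine MsgInd_onIf ?_ fun _ => rfl
    rw [ht]
    exact and_congr_right fun e => by rw [(h e).1]
  · refine MsgInd_onIf ?_ fun e => ?_
    · rw [nrm, nrm, ht]
      exact and_congr_right fun e => by rw [(h e).1, (h e).2.1]
    · obtain ⟨-, -, h1, h2, h3⟩ := h e.1
      rw [h3, dz, dz, h1, h2]

theorem MsgInd_L0 (hX : d'.X = d.X) (hG : d'.G = d.G) (hY : d'.Y = d.Y) (x : V) (a : ℤ) :
    d'.L0 p x a = d.L0 p x a := by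
  rw [L0, L0, Ut, Ut, hX, hG, hY]

theorem MsgInd_oth (ht : d'.t = d.t) (hX : d'.X = d.X) (hG : d'.G = d.G) (hY : d'.Y = d.Y)
    {m m' : V → V → ℤ → Sub ι} {x y : V} (hw : d'.w x = d.w x)
    (h : ∀ u, u ≠ y → d.t u x → d'.lam u x = d.lam u x ∧ d'.lam x u = d.lam x u ∧
      d'.z u x = d.z u x ∧ d'.z x u = d.z x u ∧ ∀ a, m' u x a = m u x a) (s : ℕ) (a : ℤ) :
    d'.oth p m' s x y a = d.oth p m s x y a := by
  rw [oth, oth, MsgInd_L0 hX hG hY, Wv, Wv, hX, hw]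
  congr 1
  exact iSup_congr fun u => MsgInd_onIf Iff.rfl fun e => MsgInd_inc ht hX (h u e) s a

theorem Good.msg_congr (h : d.Good p) (ht : d'.t = d.t) (hX : d'.X = d.X) (hG : d'.G = d.G)
    (hY : d'.Y = d.Y) {v : V} (hw : ∀ x, x ≠ v → d'.w x = d.w x)
    (hth : ∀ x, x ≠ v → d'.th x = d.th x) (hz : ∀ x y, x ≠ v → y ≠ v → d'.z x y = d.z x y)
    (hl : ∀ x y, x ≠ v → y ≠ v → d'.lam x y = d.lam x y) {u : V} (huv : d.t u v) (a : ℤ) :
    d'.msg p u v a = d.msg p u v a := by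
  have key : ∀ n x y, d.t x y → ¬ side d.t y x v → ∀ a,
      d'.msgN p n x y a = d.msgN p n x y a := by
    intro n
    induction n with
    | zero => intro x y _ _ a; rfl
    | succ n ih =>
      intro x y hxy hs a
      have hx : x ≠ v := fun e => hs (e ▸ side_self y x)
      change d'.oth p (d'.msgN p n) (d'.th x) x y a ⊓ coord (d'.sp x y) =
        d.oth p (d.msgN p n) (d.th x) x y a ⊓ coord (d.sp x y)
      rw [MsgInd_sp hX, hth x hx, MsgInd_oth ht hX hG hY (hw x hx) fun u' hne hu' => ?_]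
      have hs' : ¬ side d.t x u' v := fun e =>
        hs (side_sub h.acyc hxy (h.symm _ _ hu') hne.symm e)
      have hu : u' ≠ v := fun e => hs' (e ▸ side_self x u')
      exact ⟨hl _ _ hu hx, hl _ _ hx hu, hz _ _ hu hx, hz _ _ hx hu, ih u' x hu' hs'⟩
  exact iSup_congr fun n => key n u v huv (h.acyc v u (h.symm _ _ huv)) a

theorem Good.msg_setZ (h : d.Good p) {u v : V} (huv : d.t u v) (j : ℕ) (a : ℤ) :
    (d.setZ u v j).msg p u v a = d.msg p u v a ∧ (d.setZ u v j).msg p v u a = d.msg p v u a :=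
  ⟨h.msg_congr (d' := d.setZ u v j) rfl rfl rfl rfl (fun _ _ => rfl) (fun _ _ => rfl)
      (fun _ _ _ hy => if_neg fun e => hy e.2) (fun _ _ _ _ => rfl) huv a,
    h.msg_congr (d' := d.setZ u v j) rfl rfl rfl rfl (fun _ _ => rfl) (fun _ _ => rfl)
      (fun _ _ hx _ => if_neg fun e => hx e.1) (fun _ _ _ _ => rfl) (h.symm _ _ huv) a⟩

theorem MsgInd_setLam (h : d.Good p) (u : V) {u' v : V} (huv : d.t u' v) (j : ℕ) (a : ℤ) :
    (d.setLam u v j).msg p u' v a = d.msg p u' v a :=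
  h.msg_congr (d' := d.setLam u v j) rfl rfl rfl rfl (fun _ _ => rfl) (fun _ _ => rfl)
    (fun _ _ _ _ => rfl) (fun _ _ _ hy => if_neg fun e => hy e.2) huv a

theorem Good.msg_setLam (h : d.Good p) {u v : V} (huv : d.t u v) (j : ℕ) (a : ℤ) :
    (d.setLam u v j).msg p u v a = d.msg p u v a ∧
      (d.setLam u v j).msg p v u a = d.msg p v u a :=
  ⟨MsgInd_setLam h u huv j a,
    h.msg_congr (d' := d.setLam u v j) rfl rfl rfl rfl (fun _ _ => rfl) (fun _ _ => rfl)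
      (fun _ _ _ _ => rfl) (fun _ _ hx _ => if_neg fun e => hx e.1) (h.symm _ _ huv) a⟩

theorem Good.Qp_setLam (h : d.Good p) {u v : V} (huv : d.t u v) (j s : ℕ) (a : ℤ) :
    (d.setLam u v j).Qp p s u v a = d.Qp p s u v a := by
  rw [Qp, Qp, Oth, Oth, MsgInd_setLam h u huv,
    MsgInd_oth (d' := d.setLam u v j) (d := d) (m := d.msg p) rfl rfl rfl rfl rfl
      fun u' hne hu' => ⟨if_neg fun e => hne e.1, if_neg fun e => h.ne huv e.1.symm, rfl, rfl,
        MsgInd_setLam h u hu' j⟩]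
  rfl

theorem MsgInd_setTh (h : d.Good p) {u v : V} (huv : d.t u v) (j : ℕ) (a : ℤ) :
    (d.setTh v j).msg p u v a = d.msg p u v a :=
  h.msg_congr (d' := d.setTh v j) rfl rfl rfl rfl (fun _ _ => rfl) (fun _ hx => if_neg hx)
    (fun _ _ _ _ => rfl) (fun _ _ _ _ => rfl) huv a

theorem Good.Qp_setTh (h : d.Good p) {u v : V} (huv : d.t u v) (j s : ℕ) (a : ℤ) :
    (d.setTh v j).Qp p s u v a = d.Qp p s u v a := by
  rw [Qp, Qp, Oth, Oth, MsgInd_setTh h huv,
    MsgInd_oth (d' := d.setTh v j) (d := d) (m := d.msg p) rfl rfl rfl rfl rfl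
      fun u' _ hu' => ⟨rfl, rfl, rfl, rfl, MsgInd_setTh h hu' j⟩]
  rfl

theorem MsgInd_setW (h : d.Good p) {u v : V} (huv : d.t u v) (S : ι → Prop) (a : ℤ) :
    (d.setW v S).msg p u v a = d.msg p u v a :=
  h.msg_congr (d' := d.setW v S) rfl rfl rfl rfl (fun _ hx => if_neg hx) (fun _ _ => rfl)
    (fun _ _ _ _ => rfl) (fun _ _ _ _ => rfl) huv a

theorem MsgInd_inc_setW (h : d.Good p) (u v : V) (S : ι → Prop) (s : ℕ) (a : ℤ) :
    (d.setW v S).inc p ((d.setW v S).msg p) s u v a = d.inc p (d.msg p) s u v a :=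
  MsgInd_inc (d' := d.setW v S) (d := d) rfl rfl
    (fun e => ⟨rfl, rfl, rfl, rfl, MsgInd_setW h e S⟩) s a

theorem Good.M0_setW (h : d.Good p) (v : V) (S : ι → Prop) (a : ℤ) :
    (d.setW v S).M0 p v a = d.M0 p v a :=
  congrArg (d.L0 p v a ⊔ ·) (iSup_congr fun u => MsgInd_inc_setW h u v S _ a)

theorem Good.Mt_setW (h : d.Good p) (v : V) (S : ι → Prop) (a : ℤ) :
    (d.setW v S).Mt p v a = d.Mt p v a :=
  congrArg (d.L0 p v (a + 1) ⊔ ·) (iSup_congr fun u =>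
    congrArg₂ (· ⊔ ·) (MsgInd_inc_setW h u v S _ _)
      (MsgInd_onIf Iff.rfl fun e => MsgInd_setW h e.1 S _))

end Dat

end Pool.Agent.FusfFlat
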