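import Pool.Agent.P.MP_8fb1ed_pr.Fl.MsgInd

/-! Translation of messages. -/

open MeasureTheory Filter Topology Relation
open scoped ENNReal

namespace Pool.Agent.FusfFlat

open Pool.Agent.FusfTree

namespace Dat

variable {V ι : Type*} {p : Par V ι} {d d' : Dat V ι}

section rel
variable {Γ : Type*} [Group Γ] [MulAction Γ V] [MulAction Γ ι] {g : Γ}

theorem Rel.sp (h : Rel g d d') (u v : V) (i : ι) :
    d'.sp (g • u) (g • v) (g • i) ↔ d.sp u v i := by
  simp only [Dat.sp, h.X]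

theorem Rel.nrm (h : Rel g d d') (u v : V) : d'.nrm p (g • u) (g • v) ↔ d.nrm p u v := by
  simp only [Dat.nrm, h.t, h.lam]

theorem Rel.ori (h : Rel g d d') (u v : V) : d'.ori p (g • u) (g • v) ↔ d.ori p u v := by
  simp only [Dat.ori, h.nrm, h.lam]

theorem Rel.dz (h : Rel g d d') (u v : V) : d'.dz (g • u) (g • v) = d.dz u v := by
  simp only [Dat.dz, h.z]

theorem Rel.YI (h : Rel g d d') (v : V) (i : ι) : d'.YI (g • v) (g • i) ↔ d.YI v i := by
  unfold Dat.YI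
  rw [(MulAction.toPerm g : Equiv.Perm V).surjective.exists]
  simp only [MulAction.toPerm_apply, h.t, h.lam, h.th, h.sp]

theorem Rel.Wv (h : Rel g d d') (v : V) : d'.Wv (g • v) = trS g (d.Wv v) := by
  unfold Dat.Wv
  exact (trS_units g fun i => by simp only [h.X, h.w]).symm

theorem Rel.Lev (h : Rel g d d') (u v : V) (k : ℤ) :
    d'.Lev (g • u) (g • v) k ↔ d.Lev u v k := by
  unfold Dat.Lev
  exact rtg_equiv (Equiv.prodCongr (MulAction.toPerm g : Equiv.Perm V) (Equiv.refl ℤ))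
    (R := fun x y : V × ℤ => d.t x.1 y.1 ∧ y.2 = x.2 + d.dz x.1 y.1)
    (R' := fun x y : V × ℤ => d'.t x.1 y.1 ∧ y.2 = x.2 + d'.dz x.1 y.1)
    (fun x y => by
      show d'.t (g • x.1) (g • y.1) ∧ y.2 = x.2 + d'.dz (g • x.1) (g • y.1) ↔ _
      rw [h.t, h.dz]) (u, 0) (v, k)

theorem MsgRel_iSup (F F' : V → Sub ι) (hF : ∀ u, F' (g • u) = trS g (F u)) :
    ⨆ u, F' u = trS g (⨆ u, F u) := by
  rw [trS_iSup, ← (MulAction.toPerm g : Equiv.Perm V).iSup_comp (g := F')]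
  simp only [MulAction.toPerm_apply, hF]

theorem MsgRel_inc (h : Rel g d d') {m m' : V → V → ℤ → Sub ι}
    (hm : ∀ u v a, m' (g • u) (g • v) a = trS g (m u v a)) (s : ℕ) (u v : V) (a : ℤ) :
    d'.inc p m' s (g • u) (g • v) a = trS g (d.inc p m s u v a) := by
  unfold Dat.inc
  rw [trS_sup, trS_onIf g (c' := d'.t (g • u) (g • v) ∧ d'.lam (g • u) (g • v) < s)
    (by rw [h.t, h.lam]), trS_onIf g (h.nrm u v), trS_units g (h.sp u v), hm, h.dz]

variable (h : Rel g d d') (ho : ∀ i, p.o (g • i) = g • p.o i)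
include h ho

theorem Rel.Ut (v : V) (a : ℤ) : d'.Ut p (g • v) a = trS g (d.Ut p v a) := by
  unfold Dat.Ut
  exact (trS_units g fun i => by simp only [h.X, h.Y, ho, smul_left_cancel_iff]).symm

theorem MsgRel_L0 (v : V) (a : ℤ) : d'.L0 p (g • v) a = trS g (d.L0 p v a) := by
  unfold Dat.L0
  rw [trS_sup, h.G, h.Ut ho]

theorem MsgRel_oth {m m' : V → V → ℤ → Sub ι}
    (hm : ∀ u v a, m' (g • u) (g • v) a = trS g (m u v a)) (s : ℕ) (v w : V) (a : ℤ) :
    d'.oth p m' s (g • v) (g • w) a = trS g (d.oth p m s v w a) := by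
  unfold Dat.oth
  rw [trS_sup, trS_sup, MsgRel_L0 h ho, h.Wv]
  congr 1
  refine MsgRel_iSup _ _ fun u => ?_
  rw [trS_onIf g (c' := g • u ≠ g • w) (by simp only [ne_eq, smul_left_cancel_iff]),
    MsgRel_inc h hm]

theorem MsgRel_msgN (n : ℕ) : ∀ (u v : V) (a : ℤ),
    d'.msgN p n (g • u) (g • v) a = trS g (d.msgN p n u v a) := by
  induction n with
  | zero => intro u v a; exact (trS_bot g).symm
  | succ n ih =>
    intro u v a
    simp only [Dat.msgN]
    rw [trS_inf, trS_coord g (h.sp u v), h.th, MsgRel_oth h ho ih]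

theorem Rel.msg (u v : V) (a : ℤ) : d'.msg p (g • u) (g • v) a = trS g (d.msg p u v a) := by
  unfold Dat.msg
  rw [trS_iSup]
  simp only [MsgRel_msgN h ho]

theorem Rel.Oth (s : ℕ) (u v : V) (a : ℤ) :
    d'.Oth p s (g • u) (g • v) a = trS g (d.Oth p s u v a) :=
  MsgRel_oth h ho (h.msg ho) s u v a

theorem Rel.M0 (v : V) (a : ℤ) : d'.M0 p (g • v) a = trS g (d.M0 p v a) := by
  unfold Dat.M0
  rw [trS_sup, MsgRel_L0 h ho, h.th]
  congr 1
  exact MsgRel_iSup _ _ fun u => MsgRel_inc h (h.msg ho) _ u v a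

theorem Rel.Mv (v : V) (a : ℤ) : d'.Mv p (g • v) a = trS g (d.Mv p v a) := by
  unfold Dat.Mv
  rw [trS_sup, h.M0 ho, h.Wv]

theorem Rel.Mt (v : V) (a : ℤ) : d'.Mt p (g • v) a = trS g (d.Mt p v a) := by
  unfold Dat.Mt
  rw [trS_sup, MsgRel_L0 h ho, h.th]
  congr 1
  refine MsgRel_iSup _ _ fun u => ?_
  rw [trS_sup, MsgRel_inc h (h.msg ho),
    trS_onIf g (c' := d'.t (g • u) (g • v) ∧ d'.lam (g • u) (g • v) + 1 = d.th v)
      (by rw [h.t, h.lam]), h.msg ho, h.dz]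

theorem Rel.Qp (s : ℕ) (u v : V) (a : ℤ) :
    d'.Qp p s (g • u) (g • v) a = trS g (d.Qp p s u v a) := by
  unfold Dat.Qp
  rw [trS_inf, trS_cl, trS_sup, trS_coord g (h.sp u v), h.msg ho, h.Oth ho, h.dz]

end rel

end Dat

end Pool.Agent.FusfFlat
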