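import Pool.Agent.P.MP_8fb1ed_pr.Fl.Resamp

/-! Section 4 of the paper: flat groups satisfy Q1. -/

open MeasureTheory Filter Topology
open scoped ENNReal

namespace Pool.Agent.FusfFlat

open Pool.Agent.FusfTree

universe u

section det
variable {Γ : Type*}

/-- The vector of a list of oriented edges. -/
noncomputable def Q1_cv (L : List (Γ × Γ)) : L2 (Γ × Γ) := (L.map dl).sum

/-- The span of the finite cycles. -/
noncomputable def Q1_cyc (G : SimpleGraph Γ) : Sub (Γ × Γ) :=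
  Submodule.span ℝ (Q1_cv '' {L | IsCyc G L})

/-- Finite cycles and the edges of `η`. -/
noncomputable def Q1_M (G : SimpleGraph Γ) (η : Cfg Γ) : Sub (Γ × Γ) :=
  Q1_cyc G ⊔ units fun e => G.Adj e.1 e.2 ∧ η s(e.1, e.2) = true

open Classical in
/-- The edges of `G` with an end in `U`. -/
noncomputable def Q1_om (G : SimpleGraph Γ) (U : Γ → Prop) : Cfg Γ := fun e =>
  decide (∃ x y, e = s(x, y) ∧ G.Adj x y ∧ U x)

theorem Q1_om_iff {G : SimpleGraph Γ} {U : Γ → Prop} {e : Sym2 Γ} :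
    Q1_om G U e = true ↔ ∃ x y, e = s(x, y) ∧ G.Adj x y ∧ U x := by
  classical
  unfold Q1_om
  exact decide_eq_true_iff

theorem Q1_cyc_le (G : SimpleGraph Γ) : Q1_cyc G ≤ units fun e => G.Adj e.1 e.2 := by
  refine Submodule.span_le.2 ?_
  rintro _ ⟨L, hL, rfl⟩
  refine list_sum_mem fun v hv => ?_
  obtain ⟨e, he, rfl⟩ := List.mem_map.1 hv
  exact dl_mem_units (hL.1 e he)

theorem Q1_M_le (G : SimpleGraph Γ) (η : Cfg Γ) : Q1_M G η ≤ units fun e => G.Adj e.1 e.2 :=
  sup_le (Q1_cyc_le G) (units_mono fun _ h => h.1)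

theorem Q1_inner (L : List (Γ × Γ)) (θ : L2 (Γ × Γ)) :
    inner ℝ (Q1_cv L) θ = (L.map θ).sum := by
  induction L with
  | nil => simp [Q1_cv]
  | cons e L ih =>
    unfold Q1_cv at ih ⊢
    rw [List.map_cons, List.sum_cons, inner_add_left, ih, OpAlgAux.inner_dl, List.map_cons, List.sum_cons]

/-- Cycles and the edges of a complete configuration span a dense subspace. -/
theorem Q1_dense {G : SimpleGraph Γ} (hG : G.Connected) {η : Cfg Γ} (hc : Complete G η)
    (hηG : ∀ e, η e = true → e ∈ G.edgeSet) {x y : Γ} (hxy : G.Adj x y) :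
    dl (x, y) ∈ cl (Q1_M G η) := by
  classical
  rw [cl, ← Submodule.orthogonal_orthogonal_eq_closure, Submodule.mem_orthogonal']
  intro θ hθ
  rw [Submodule.mem_orthogonal] at hθ
  obtain ⟨f, hf⟩ := exact_of_closed hG θ fun L hL => by
    rw [← Q1_inner]
    exact hθ _ (Submodule.mem_sup_left (Submodule.subset_span ⟨L, hL, rfl⟩))
  rw [OpAlgAux.inner_dl, hf x y hxy, hc f ?_ ?_ x y, sub_self]
  · refine (OpAlgAux.hasSum_sq θ).summable.of_nonneg_of_le (fun p => by split_ifs <;> positivity)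
      fun p => ?_
    split_ifs with hp
    · rw [← hf p.1 p.2 hp]
    · positivity
  · intro p q hpq
    have h1 : G.Adj p q := hηG _ hpq
    have h2 := hθ (dl (p, q)) (Submodule.mem_sup_right (dl_mem_units ⟨h1, hpq⟩))
    rw [OpAlgAux.inner_dl, hf p q h1] at h2
    linarith

/-- The vectors whose pairing with `g` vanishes. -/
def Q1_ker {ι : Type*} (g : ι → ℝ) : Sub ι where
  carrier := {v | HasSum (fun e => v e * g e) 0}
  add_mem' := fun {v w} hv hw => by
    have h := HasSum.add hv hw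
    rw [add_zero] at h
    simpa [add_mul] using h
  zero_mem' := by simp
  smul_mem' := fun c v hv => by
    have h := HasSum.mul_left c hv
    rw [mul_zero] at h
    simpa [mul_assoc] using h

theorem Q1_sum_dl {ι : Type*} (g : ι → ℝ) (i : ι) :
    HasSum (fun e => (dl i : L2 ι) e * g e) (g i) := by
  have h := hasSum_single (f := fun e => (dl i : L2 ι) e * g e) i fun e he => by
    simp [OpAlgAux.dl_apply, he]
  simpa [OpAlgAux.dl_apply] using h

theorem Q1_units_le {ι : Type*} {g : ι → ℝ} {S : ι → Prop} (h : ∀ i, S i → g i = 0) :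
    units S ≤ Q1_ker g := by
  refine Submodule.span_le.2 ?_
  rintro _ ⟨i, hi, rfl⟩
  have h1 := Q1_sum_dl g i
  rwa [h i hi] at h1

theorem Q1_cyc_ker (G : SimpleGraph Γ) (f : Γ → ℝ) :
    Q1_cyc G ≤ Q1_ker fun e => f e.1 - f e.2 := by
  have key : ∀ (g : Γ × Γ → ℝ) (L : List (Γ × Γ)),
      HasSum (fun e => Q1_cv L e * g e) (L.map g).sum := by
    intro g L
    induction L with
    | nil => simp [Q1_cv]
    | cons e L ih =>
      have h := (Q1_sum_dl g e).add ih
      simpa [Q1_cv, add_mul] using h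
  refine Submodule.span_le.2 ?_
  rintro _ ⟨L, hL, rfl⟩
  have h := key (fun e => f e.1 - f e.2) L
  rwa [hL.2 f] at h

/-- Exactness joins the ends of every edge at a marked vertex without using its mark. -/
theorem Q1_det {G : SimpleGraph Γ} (hG : G.Connected) {η : Cfg Γ} (hc : Complete G η)
    (hηG : ∀ e, η e = true → e ∈ G.edgeSet) {w I U : Γ → Prop} {x y : Γ}
    (hfin : {e : Γ × Γ | e.1 = x ∧ G.Adj e.1 e.2}.Finite)
    (hex : ExactAt (addU Prod.fst (fun e : Γ × Γ => G.Adj e.1 e.2) (Q1_M G η) w)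
      fun e => ∃ z, I z ∧ e.1 = z ∧ G.Adj e.1 e.2)
    (hx : I x) (hxy : G.Adj x y) (hw : ∀ z, w z → U z) (hI : ∀ z, z ≠ x → I z → U z) :
    (graphOf η ⊔ graphOf (Q1_om G U)).Reachable x y := by
  classical
  have h1 := exact_part (N := addU Prod.fst (fun e : Γ × Γ => G.Adj e.1 e.2) (Q1_M G η) w)
    (sup_le ((Q1_M_le G η).trans (units_mono fun _ _ => trivial)) (units_mono fun _ _ => trivial))
    (fun z (e : Γ × Γ) => e.1 = z ∧ G.Adj e.1 e.2) I hex hx
  rw [cl_of_finite hfin inf_le_right] at h1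
  have h2 := (h1 ⟨cl_mono le_sup_left (Q1_dense hG hc hηG hxy),
    units_le_coord _ (dl_mem_units (i := (x, y)) ⟨rfl, hxy⟩)⟩).1
  let f : Γ → ℝ := fun z => if (graphOf η ⊔ graphOf (Q1_om G U)).Reachable x z then 1 else 0
  have hf : ∀ p q, (graphOf η ⊔ graphOf (Q1_om G U)).Adj p q → f p - f q = 0 := by
    intro p q h
    have : (graphOf η ⊔ graphOf (Q1_om G U)).Reachable x p ↔
        (graphOf η ⊔ graphOf (Q1_om G U)).Reachable x q :=
      ⟨fun k => k.trans h.reachable, fun k => k.trans h.reachable.symm⟩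
    simp only [f, this, sub_self]
  have hU : ∀ p q, G.Adj p q → U p → f p - f q = 0 := fun p q h k =>
    hf p q (Or.inr ((graphOf_adj _ _ _).2 ⟨Q1_om_iff.2 ⟨p, q, rfl, h, k⟩, h.ne⟩))
  have h3 : dl (x, y) ∈ Q1_ker fun e : Γ × Γ => f e.1 - f e.2 := by
    refine (sup_le (sup_le (sup_le (Q1_cyc_ker G f) (Q1_units_le fun e he => ?_))
      (Q1_units_le fun e he => ?_)) (Q1_units_le fun e he => ?_)) h2
    · exact hf _ _ (Or.inl ((graphOf_adj _ _ _).2 ⟨he.2, he.1.ne⟩))
    · exact hU _ _ he.1 (hw _ he.2)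
    · obtain ⟨z, a1, a2, a3, a4⟩ := he
      exact hU _ _ a4 (a3 ▸ hI z a1 a2)
  have h4 := (Q1_sum_dl (fun e : Γ × Γ => f e.1 - f e.2) (x, y)).unique h3
  by_contra h5
  simp [f, h5] at h4

variable [Group Γ]

theorem Q1_tr_cv (g : Γ) (L : List (Γ × Γ)) : tr g (Q1_cv L) = Q1_cv (L.map (g • ·)) := by
  induction L with
  | nil => simp [Q1_cv]
  | cons e L ih =>
    unfold Q1_cv at ih ⊢
    simp only [List.map_cons, List.sum_cons, map_add, ih, tr_dl]

theorem Q1_cyc_smul {G : SimpleGraph Γ} (hG : Cay G) (g : Γ) {L : List (Γ × Γ)}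
    (hL : IsCyc G L) : IsCyc G (L.map (g • ·)) := by
  refine ⟨fun e he => ?_, fun f => ?_⟩
  · obtain ⟨e', he', rfl⟩ := List.mem_map.1 he
    exact (hG.inv g _ _).2 (hL.1 e' he')
  · rw [List.map_map]
    exact hL.2 fun x => f (g * x)

theorem Q1_trS_cyc {G : SimpleGraph Γ} (hG : Cay G) (g : Γ) : trS g (Q1_cyc G) = Q1_cyc G := by
  refine le_antisymm (Submodule.map_le_iff_le_comap.2 (Submodule.span_le.2 ?_))
    (Submodule.span_le.2 ?_)
  · rintro _ ⟨L, hL, rfl⟩
    show tr g (Q1_cv L) ∈ Q1_cyc G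
    rw [Q1_tr_cv]
    exact Submodule.subset_span ⟨_, Q1_cyc_smul hG g hL, rfl⟩
  · rintro _ ⟨L, hL, rfl⟩
    have h : Q1_cv L = tr g (Q1_cv (L.map (g⁻¹ • ·))) := by
      rw [Q1_tr_cv, List.map_map]
      simp [Function.comp_def]
    rw [h]
    exact mem_trS.2 (Submodule.subset_span ⟨_, Q1_cyc_smul hG g⁻¹ hL, rfl⟩)

theorem Q1_fin {G : SimpleGraph Γ} (hG : Cay G) (x : Γ) :
    {e : Γ × Γ | e.1 = x ∧ G.Adj e.1 e.2}.Finite := by
  refine (hG.fin.image fun y => (x, x * y)).subset ?_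
  rintro ⟨p, q⟩ ⟨rfl, h⟩
  refine ⟨p⁻¹ * q, (hG.inv p _ _).1 (by simpa using h), by simp⟩

end det

/-- The joint law of `F` and of the edges with an end in `U`. -/
theorem Q1_pack {Γ Ω : Type*} [Group Γ] [Countable Γ] {G : SimpleGraph Γ} (hG : Cay G)
    [MeasurableSpace Ω] {P : Measure Ω} [IsProbabilityMeasure P] {a : Γ → Ω → Ω}
    (ha : ∀ g, MeasurePreserving (a g) P P) {F : Ω → Cfg Γ} (hFm : Measurable F)
    (hFe : ∀ g ω, F (a g ω) = shift g (F ω)) (hFG : ∀ᵐ ω ∂P, ∀ e, F ω e = true → e ∈ G.edgeSet)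
    {U : Ω → Γ → Prop} (hU : RSet a U) {c : ℝ≥0∞} (pU : P {ω | U ω 1} ≤ c)
    (hr : ∀ᵐ ω ∂P, ∀ x y, G.Adj x y → (graphOf (F ω) ⊔ graphOf (Q1_om G (U ω))).Reachable x y) :
    ∃ ν : Measure (Cfg Γ × Cfg Γ), IsProbabilityMeasure ν ∧
      (∀ g : Γ, ν.map (fun p => (shift g p.1, shift g p.2)) = ν) ∧ ν.map Prod.fst = P.map F ∧
      ∫⁻ p, ({y | (graphOf p.2).Adj 1 y}.encard : ℝ≥0∞) ∂ν ≤
        ({y | G.Adj 1 y}.encard : ℝ≥0∞) * (c + c) ∧
      ∀ᵐ p ∂ν, graphOf p.1 ⊔ graphOf p.2 ≤ G ∧ (graphOf p.1 ⊔ graphOf p.2).Connected := by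
  classical
  have mom : Measurable fun q => Q1_om G (U q) := measurable_pi_lambda _ fun e =>
    (Measurable.of_discrete (f := fun b : Prop => decide b)).comp
      (Measurable.exists fun x => Measurable.exists fun y => measurable_const.and
        (measurable_const.and (hU.meas x)))
  have eom : ∀ g q, Q1_om G (U (a g q)) = shift g (Q1_om G (U q)) := fun g q => by
    funext e
    rw [Bool.eq_iff_iff, Q1_om_iff, shift, Q1_om_iff, exists_smul g]
    refine exists_congr fun x => ?_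
    rw [exists_smul g]
    refine exists_congr fun y => ?_
    rw [hU.eqv, smul_eq_mul, smul_eq_mul, hG.inv]
    refine and_congr_left' ⟨fun h => by simp [h], fun h => ?_⟩
    have := congrArg (Sym2.map fun x => g * x) h
    simpa [Sym2.map_map] using this
  let Φ : Ω → Cfg Γ × Cfg Γ := fun q => (F q, Q1_om G (U q))
  have mΦ : Measurable Φ := hFm.prodMk mom
  have madj : ∀ x y : Γ, Measurable fun η : Cfg Γ => (graphOf η).Adj x y := rrel_adj.meas
  refine ⟨P.map Φ, Measure.isProbabilityMeasure_map mΦ.aemeasurable, fun g => ?_, ?_, ?_, ?_⟩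
  · have ms : Measurable fun p : Cfg Γ × Cfg Γ => (shift g p.1, shift g p.2) :=
      ((measurable_shift g).comp measurable_fst).prodMk ((measurable_shift g).comp measurable_snd)
    have e : (fun p : Cfg Γ × Cfg Γ => (shift g p.1, shift g p.2)) ∘ Φ = Φ ∘ a g :=
      funext fun q => Prod.ext (hFe g q).symm (eom g q).symm
    rw [Measure.map_map ms mΦ, e, ← Measure.map_map mΦ (ha g).measurable, (ha g).map_eq]
  · rw [Measure.map_map measurable_fst mΦ]
    rfl
  · have me : Measurable fun p : Cfg Γ × Cfg Γ => ({y | (graphOf p.2).Adj 1 y}.encard : ℝ≥0∞) :=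
      measurable_encard_ennreal fun y => (madj 1 y).comp measurable_snd
    rw [lintegral_map me mΦ]
    simp only [encard_eq_tsum]
    have my : ∀ y, MeasurableSet {q | (graphOf (Q1_om G (U q))).Adj 1 y} := fun y =>
      ((madj 1 y).comp mom).setOf
    rw [lintegral_tsum fun y =>
      (Measurable.ite (my y) measurable_const measurable_const).aemeasurable,
      ← ENNReal.tsum_mul_right]
    refine ENNReal.tsum_le_tsum fun y => ?_
    have e : ∫⁻ q, (if (graphOf (Φ q).2).Adj 1 y then (1 : ℝ≥0∞) else 0) ∂P =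
        P {q | (graphOf (Q1_om G (U q))).Adj 1 y} := by
      rw [← lintegral_indicator_one (my y)]
      refine lintegral_congr fun q => ?_
      simp only [Set.indicator_apply, Set.mem_ofPred_eq, Pi.one_apply, Φ]
    rw [e]
    have key : ∀ q, (graphOf (Q1_om G (U q))).Adj 1 y → G.Adj 1 y ∧ (U q 1 ∨ U q y) := by
      intro q hq
      obtain ⟨u, v, e, a1, a2⟩ := Q1_om_iff.1 ((graphOf_adj _ _ _).1 hq).1
      rcases Sym2.eq_iff.1 e with ⟨rfl, rfl⟩ | ⟨rfl, rfl⟩
      · exact ⟨a1, Or.inl a2⟩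
      · exact ⟨a1.symm, Or.inr a2⟩
    split_ifs with hy
    · have sub : {q | (graphOf (Q1_om G (U q))).Adj 1 y} ⊆ {q | U q 1} ∪ {q | U q y} :=
        fun q hq => (key q hq).2
      rw [one_mul]
      exact (measure_mono sub).trans ((measure_union_le _ _).trans
        (add_le_add pU ((hU.prob_eq ha y).trans_le pU)))
    · have e0 : {q | (graphOf (Q1_om G (U q))).Adj 1 y} = ∅ :=
        Set.eq_empty_of_forall_notMem fun q hq => hy (key q hq).1
      rw [e0]
      simp
  · refine (ae_map_iff mΦ.aemeasurable ?_).2 ?_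
    · simp only [SimpleGraph.connected_iff, SimpleGraph.Preconnected,
        SimpleGraph.reachable_iff_reflTransGen, SimpleGraph.le_iff_adj]
      have m2 : ∀ x y : Γ, Measurable fun p : Cfg Γ × Cfg Γ =>
          (graphOf p.1 ⊔ graphOf p.2).Adj x y := fun x y =>
        ((madj x y).comp measurable_fst).or ((madj x y).comp measurable_snd)
      exact ((Measurable.forall fun x => Measurable.forall fun y =>
        (m2 x y).imp measurable_const).and ((Measurable.forall fun x => Measurable.forall fun y =>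
          measurable_rtg m2 x y).and measurable_const)).setOf
    filter_upwards [hFG, hr] with q q1 q2
    refine ⟨sup_le (fun x y k => q1 _ ((graphOf_adj _ _ _).1 k).1) fun x y k => ?_, ?_⟩
    · obtain ⟨u, v, e, a1, -⟩ := Q1_om_iff.1 ((graphOf_adj _ _ _).1 k).1
      rwa [← G.mem_edgeSet, e]
    refine (SimpleGraph.connected_iff _).2 ⟨fun x y => ?_, inferInstance⟩
    have r := (SimpleGraph.reachable_iff_reflTransGen x y).1 (hG.conn.preconnected x y)
    induction r with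
    | refl => exact .refl _
    | @tail u v _ k ih => exact ih.trans (q2 _ _ k)

theorem sparse_connect_flat {Γ : Type u} [Group Γ] [Countable Γ] {G : SimpleGraph Γ} (hG : Cay G)
    (hT : Flat Γ) {μ : Measure (Cfg Γ)} [IsProbabilityMeasure μ]
    (hμ : ∀ g : Γ, μ.map (shift g) = μ)
    (hμG : ∀ᵐ η ∂μ, ∀ e, η e = true → e ∈ G.edgeSet) (hμc : ∀ᵐ η ∂μ, Complete G η)
    {ε : ℝ≥0∞} (hε : 0 < ε) :
    ∃ ν : Measure (Cfg Γ × Cfg Γ), IsProbabilityMeasure ν ∧
      (∀ g : Γ, ν.map (fun p => (shift g p.1, shift g p.2)) = ν) ∧ ν.map Prod.fst = μ ∧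
      ∫⁻ p, ({y | (graphOf p.2).Adj 1 y}.encard : ℝ≥0∞) ∂ν < ε ∧
      ∀ᵐ p ∂ν, graphOf p.1 ⊔ graphOf p.2 ≤ G ∧ (graphOf p.1 ⊔ graphOf p.2).Connected := by
  classical
  have hd : ({y | G.Adj 1 y}.encard : ℝ≥0∞) ≠ ⊤ := by simpa using hG.fin
  obtain ⟨c, hc0, hc⟩ := ENNReal.exists_nnreal_pos_mul_lt
    (ENNReal.mul_ne_top hd (by norm_num : (4 : ℝ≥0∞) ≠ ⊤)) hε.ne'
  have hc1 : (0 : ℝ≥0∞) < c := by exact_mod_cast hc0
  obtain ⟨n, n0, hn⟩ := exists_div_le ENNReal.one_ne_top hc1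
  have : NeZero n := ⟨n0⟩
  obtain ⟨τ, hτ, hF⟩ := hT c hc1
  have := hτ.prob
  obtain ⟨k, hk⟩ := hG.fin.exists_encard_eq_coe
  let π : Measure (Γ → Fin n) := Measure.infinitePi fun _ => unf n
  let a : Γ → Cfg Γ × (Γ → Fin n) → Cfg Γ × (Γ → Fin n) := fun g q =>
    (shift g q.1, fun x => q.2 (g⁻¹ * x))
  have ha : ∀ g, MeasurePreserving (a g) (μ.prod π) (μ.prod π) := fun g =>
    MeasurePreserving.prod ⟨measurable_shift g, hμ g⟩
      (⟨by fun_prop, Measure.map_infinitePi_infinitePi_of_inj (P := fun _ : Γ => unf n)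
        (mul_right_injective g⁻¹)⟩ :
        MeasurePreserving (fun (z : Γ → Fin n) x => z (g⁻¹ * x)) π π)
  have mz : ∀ x : Γ, Measurable fun q : Cfg Γ × (Γ → Fin n) => q.2 x = 0 := fun x =>
    Measurable.eq_const (by fun_prop) 0
  have hE : RSet a fun q (e : Γ × Γ) => G.Adj e.1 e.2 ∧ q.1 s(e.1, e.2) = true :=
    ⟨fun e => measurable_const.and ((measurable_edge _).comp measurable_fst), fun g q e => by
      simp only [a, Prod.smul_fst, Prod.smul_snd, smul_eq_mul, hG.inv, shift_apply]⟩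
  have hC : AFam a fun _ (_ : Unit) => Q1_cyc G :=
    ⟨fun _ => AMeas.const ((Q1_cyc_le G).trans (units_mono fun _ _ => trivial)),
      fun g _ _ => (Q1_trS_cyc hG g).symm⟩
  have hI : IsInp (Prod.fst : Γ × Γ → Γ) (fun e => G.Adj e.1 e.2) k (μ.prod π) a
      (fun q => Q1_M G q.1) fun q e => ∃ z, q.2 z = 0 ∧ e.1 = z ∧ G.Adj e.1 e.2 := by
    refine ⟨fun _ _ => rfl, fun g e => hG.inv g _ _, ?_, ha, hC.sup (AFam.unit (rrel_one hE)),
      fun q => (Q1_M_le G q.1).trans (units_le_coord _),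
      fun e => Measurable.exists fun z => (mz z).and measurable_const, fun g q e => ?_⟩
    · rw [← hk]
      refine Set.encard_le_encard_of_injOn (f := Prod.snd) ?_ ?_
      · rintro ⟨x, y⟩ ⟨rfl, h⟩
        exact h
      · rintro ⟨x, y⟩ ⟨rfl, -⟩ ⟨x', y'⟩ ⟨rfl, -⟩ rfl
        rfl
    · simp [a, hG.inv]
  have h1 := hF _ _ _ _ _ _ _ _ _ hI
  have hm : MeasurePreserving (fun p : (Γ → Prop) × Cfg Γ × (Γ → Fin n) => p.2.1)
      (τ.prod (μ.prod π)) μ := measurePreserving_fst.comp measurePreserving_snd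
  have hz : MeasurePreserving (fun p : (Γ → Prop) × Cfg Γ × (Γ → Fin n) => p.2.2 1)
      (τ.prod (μ.prod π)) (unf n) :=
    (measurePreserving_eval_infinitePi (fun _ : Γ => unf n) 1).comp
      (measurePreserving_snd.comp measurePreserving_snd)
  have h2 := hm.quasiMeasurePreserving.ae hμG
  have h3 := hm.quasiMeasurePreserving.ae hμc
  have ml : ∀ g : Γ, Measurable (lsh g) := fun g =>
    measurable_pi_lambda _ fun _ => measurable_pi_apply _
  have pU : τ.prod (μ.prod π) {p | p.1 1 ∨ p.2.2 1 = 0} ≤ c + c := by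
    refine (measure_union_le (μ := τ.prod (μ.prod π)) (Prod.fst ⁻¹' {w | w 1})
      ((fun p : (Γ → Prop) × Cfg Γ × (Γ → Fin n) => p.2.2 1) ⁻¹' {0})).trans (add_le_add ?_ ?_)
    · rw [measurePreserving_fst.measure_preimage
        (measurable_pi_apply (1 : Γ)).setOf.nullMeasurableSet]
      exact hτ.dens
    · rw [hz.measure_preimage (measurableSet_singleton _).nullMeasurableSet]
      simpa [ProbabilityTheory.uniformOn_univ] using hn
  have hr : ∀ᵐ p ∂τ.prod (μ.prod π), ∀ x y, G.Adj x y →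
      (graphOf p.2.1 ⊔ graphOf (Q1_om G fun x => p.1 x ∨ p.2.2 x = 0)).Reachable x y := by
    refine ae_all_iff.2 fun x => ?_
    have h4 := (((resample_pi (fun _ : Γ => unf n) x).prod_left μ).prod_left τ).ae_unf h1
    filter_upwards [h2, h3, h4] with p p2 p3 p4 y hxy
    refine Q1_det hG.conn p3 p2 (Q1_fin hG x) (p4 0) (Function.update_self ..) hxy
      (fun z => Or.inl) fun z hz h => Or.inr ?_
    rwa [Function.update_of_ne hz] at h
  obtain ⟨ν, v1, v2, v3, v4, v5⟩ := Q1_pack hG (P := τ.prod (μ.prod π))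
    (a := fun g p => (lsh g p.1, a g p.2))
    (fun g => MeasurePreserving.prod ⟨ml g, hτ.inv g⟩ (ha g)) hm.measurable (fun _ _ => rfl) h2
    (U := fun p x => p.1 x ∨ p.2.2 x = 0)
    ⟨fun x => ((measurable_pi_apply x).comp measurable_fst).or ((mz x).comp measurable_snd),
      fun g p x => by simp [a, lsh]⟩ pU hr
  refine ⟨ν, v1, v2, v3.trans hm.map_eq, v4.trans_lt (lt_of_eq_of_lt ?_ hc), v5⟩
  ring

end Pool.Agent.FusfFlat
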