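import Pool.Agent.P.MP_8fb1ed_pr.Fl.UniDefs
import Pool.Agent.P.MP_8fb1ed_pr.Fl.SysMeas

/-! Exactness in the bags from the flat measures of the stabilisers. -/

open MeasureTheory Filter Topology Relation
open scoped ENNReal

namespace Pool.Agent.FusfFlat

open Pool.Agent.FusfTree

universe u

/-- An almost sure property of the image point is an almost sure property. -/
lemma ResW_push {Ω Ω' : Type*} [MeasurableSpace Ω] [MeasurableSpace Ω'] {P : Measure Ω}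
    {P' : Measure Ω'} {π : Ω' → Ω} (hπ : MeasurePreserving π P' P) {E : Ω → Prop}
    (hE : Measurable E) (h : ∀ᵐ ω ∂P', E (π ω)) : ∀ᵐ ω ∂P, E ω := by
  rw [← hπ.map_eq]
  exact (ae_map_iff hπ.measurable.aemeasurable (measurableSet_setOfPred.2 hE)).2 h

/-- The fibre over the identity of the stabiliser is finite. -/
lemma ResW_fin {Γ V ι : Type*} [Group Γ] [MulAction Γ V] [MulAction Γ ι] {β : ι → Γ}
    (hβ : IsBase β) {Xh : ι → Prop} (hX : ∀ (g : Γ) i, Xh (g • i) ↔ Xh i) {k : ℕ}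
    (hk : {i | β i = 1 ∧ Xh i}.encard ≤ k) (B : Finset V) (v₁ : V)
    (γ : Γ → MulAction.stabilizer Γ v₁)
    (hγ : ∀ (h : MulAction.stabilizer Γ v₁) x, γ ((h : Γ) * x) = h * γ x) :
    {i | γ (β i) = 1 ∧ Xh i ∧ (β i)⁻¹ • v₁ ∈ B}.Finite := by
  have hfin : {i | β i = 1 ∧ Xh i}.Finite := Set.finite_of_encard_le_coe hk
  refine Set.Finite.of_finite_image (f := fun i => ((β i)⁻¹ • v₁, (β i)⁻¹ • i))
    ((B.finite_toSet.prod hfin).subset ?_) ?_
  · rintro _ ⟨i, ⟨-, hi, hb⟩, rfl⟩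
    refine ⟨hb, ?_, (hX _ _).2 hi⟩
    rw [hβ, inv_mul_cancel]
  · rintro i ⟨hi, -, -⟩ j ⟨hj, -, -⟩ hij
    simp only [Prod.mk.injEq] at hij
    obtain ⟨h1, h2⟩ := hij
    have hm : β j * (β i)⁻¹ ∈ MulAction.stabilizer Γ v₁ := by
      rw [MulAction.mem_stabilizer_iff, mul_smul, h1, smul_inv_smul]
    have h3 := hγ ⟨_, hm⟩ (β i)
    simp only [inv_mul_cancel_right, hi, hj, mul_one] at h3
    have h4 : β j * (β i)⁻¹ = 1 := by
      have := congrArg (fun x : MulAction.stabilizer Γ v₁ => (x : Γ)) h3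
      simpa using this.symm
    rw [mul_inv_eq_one] at h4
    rw [h4] at h2
    exact smul_left_cancel _ h2

theorem res_of_resW {Γ Ω ι : Type u} {V : Type*} [Group Γ] [Countable Γ] [MeasurableSpace Ω]
    [MulAction Γ V] [MulAction Γ ι] [Countable V] [Countable ι] {p : Par V ι} {β : ι → Γ} {k : ℕ}
    {P : Measure Ω} [IsProbabilityMeasure P] {a : Γ → Ω → Ω} {d : Ω → Dat V ι}
    (h : Sys p β k P a d) (h0 : Res0 p P d) (hW : ResW β P d) (B : Finset V)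
    (hB : ∀ ω v i, (d ω).X v i → (β i)⁻¹ • v ∈ B) : Res p P a d := by
  refine { h0 with flat := ?_ }
  intro M Y hM hY hMX hYX hMw hYw
  have hE : ∀ v, Measurable fun ω => ExactAt (M (d ω) v ⊔ (d ω).Wv v) (Y (d ω) v) := fun v =>
    ((hM.meas v).sup (h.aWv.meas v)).exactAt (hY.meas v)
  rw [ae_all_iff]
  intro v
  obtain ⟨g, v₁, rfl, γ, μ, δ, up, hγ, -, hF, hup, hd⟩ := hW v
  have hfin := ResW_fin h.base h.Xh_inv h.card B v₁ γ hγ
  have hinp : IsInp (Γ := MulAction.stabilizer Γ v₁) (fun i => γ (β i))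
      (fun i => p.Xh i ∧ (β i)⁻¹ • v₁ ∈ B) hfin.toFinset.card P (fun g => a g)
      (fun ω => M (d ω) v₁) (fun ω => Y (d ω) v₁) := by
    refine ⟨fun s i => ?_, fun s i => ?_, ?_, fun s => h.mp s, ⟨fun _ => hM.meas v₁, ?_⟩,
      fun ω => ?_, ⟨fun i => hY.meas v₁ i, fun s ω i => ?_⟩⟩
    · show γ (β ((s : Γ) • i)) = s * γ (β i)
      rw [h.base, hγ]
    · show p.Xh ((s : Γ) • i) ∧ (β ((s : Γ) • i))⁻¹ • v₁ ∈ B ↔ p.Xh i ∧ (β i)⁻¹ • v₁ ∈ B
      have hs : (s : Γ)⁻¹ • v₁ = v₁ := MulAction.mem_stabilizer_iff.1 (s⁻¹).2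
      rw [h.Xh_inv, h.base, mul_inv_rev, mul_smul, hs]
    · rw [← hfin.encard_eq_coe_toFinset_card]
    · intro s ω j
      have hs : (s : Γ) • v₁ = v₁ := MulAction.mem_stabilizer_iff.1 s.2
      have h1 := hM.eqv (s : Γ) ω v₁
      rw [hs] at h1
      exact h1
    · exact (hMX ω v₁).trans (coord_mono fun i hi => ⟨(h.good ω).sub _ _ hi, hB ω _ _ hi⟩)
    · have hs : (s : Γ) • v₁ = v₁ := MulAction.mem_stabilizer_iff.1 s.2
      have h1 := hY.eqv (s : Γ) ω v₁ i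
      rw [hs] at h1
      exact h1
  have h1 := hF ι Ω _ _ _ P _ _ _ hinp
  have h2 : ∀ᵐ ω ∂P, ExactAt (M (d ω) v₁ ⊔ (d ω).Wv v₁) (Y (d ω) v₁) := by
    refine ResW_push hup (hE v₁) (h1.mono fun q hq => ?_)
    rw [hd, hMw, hYw]
    have h3 := exactAt_restrict (X := (d q.2).X v₁)
      (le_units ((hM.meas v₁).fin q.2) (hMX q.2 v₁)) (hYX q.2 v₁) hq
    have h4 : ((d q.2).setW v₁ fun i => q.1 (γ (β i))).Wv v₁ =
        units fun i => (d q.2).X v₁ i ∧ (p.Xh i ∧ (β i)⁻¹ • v₁ ∈ B) ∧ q.1 (γ (β i)) := by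
      unfold Dat.Wv Dat.setW
      congr 1
      funext i
      simp only [if_true]
      exact propext ⟨fun hi => ⟨hi.1, ⟨(h.good q.2).sub _ _ hi.1, hB q.2 _ _ hi.1⟩, hi.2⟩,
        fun hi => ⟨hi.1, hi.2.2⟩⟩
    rw [h4]
    exact h3
  refine ResW_push (h.mp g) (hE (g • v₁)) (h2.mono fun ω hω => ?_)
  have h5 := hM.eqv g ω v₁
  have h6 := h.aWv.eqv g ω v₁
  rw [h5, h6, ← trS_sup]
  exact (exactAt_trS g (hY.eqv g ω v₁)).2 hω

end Pool.Agent.FusfFlat
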