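import Pool.Agent.P.MP_8fb1ed_pr.Fl.Dim

/-! Resampling of coordinates. -/

open MeasureTheory Filter Topology Relation
open scoped ENNReal

namespace Pool.Agent.FusfFlat

open Pool.Agent.FusfTree

/-- Resampling one coordinate of an infinite product. -/
theorem resample_pi {I : Type*} [DecidableEq I] {F : I → Type*} [∀ i, MeasurableSpace (F i)]
    (ν : ∀ i, Measure (F i)) [∀ i, IsProbabilityMeasure (ν i)] (i : I) :
    Resample (Measure.infinitePi ν) (ν i) fun x z => Function.update z i x := by
  have hm : Measurable fun p : F i × (∀ j, F j) => Function.update p.2 i p.1 :=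
    measurable_update'.comp measurable_swap
  refine ⟨hm, Measure.eq_infinitePi ν fun s t ht => ?_⟩
  rw [Measure.map_apply hm (MeasurableSet.pi s.countable_toSet fun j _ => ht j)]
  by_cases hi : i ∈ s
  · have h1 : (fun p : F i × (∀ j, F j) => Function.update p.2 i p.1) ⁻¹' Set.pi s t =
        t i ×ˢ Set.pi (s.erase i : Finset I) t := by
      ext p
      simp only [Set.mem_preimage, Set.mem_pi, Finset.mem_coe, Set.mem_prod, Finset.mem_erase]
      refine ⟨fun h => ⟨by simpa using h i hi, fun j hj => ?_⟩, fun h j hj => ?_⟩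
      · have h2 := h j hj.2
        rwa [Function.update_of_ne hj.1] at h2
      · by_cases hji : j = i
        · subst hji
          simpa using h.1
        · rw [Function.update_of_ne hji]
          exact h.2 j ⟨hji, hj⟩
    rw [h1, Measure.prod_prod, Measure.infinitePi_pi ν fun j _ => ht j,
      Finset.mul_prod_erase s (fun j => ν j (t j)) hi]
  · have h1 : (fun p : F i × (∀ j, F j) => Function.update p.2 i p.1) ⁻¹' Set.pi s t =
        Set.univ ×ˢ Set.pi s t := by
      ext p
      simp only [Set.mem_preimage, Set.mem_pi, Finset.mem_coe, Set.mem_prod, Set.mem_univ,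
        true_and]
      refine forall₂_congr fun j hj => ?_
      have hji : j ≠ i := fun h => hi (h ▸ hj)
      rw [Function.update_of_ne hji]
    rw [h1, Measure.prod_prod, Measure.infinitePi_pi ν fun j _ => ht j, measure_univ, one_mul]

theorem Resample.prod_right {Ω Ω' F : Type*} [MeasurableSpace Ω] [MeasurableSpace Ω']
    [MeasurableSpace F] {P : Measure Ω} {ν : Measure F} [IsProbabilityMeasure P]
    [IsProbabilityMeasure ν] {up : F → Ω → Ω} (h : Resample P ν up) (P' : Measure Ω')
    [IsProbabilityMeasure P'] :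
    Resample (P.prod P') ν fun x z => (up x z.1, z.2) :=
  (MeasurePreserving.prod h (MeasurePreserving.id P')).comp
    (measurePreserving_prodAssoc ν P P').symm

theorem Resample.prod_left {Ω Ω' F : Type*} [MeasurableSpace Ω] [MeasurableSpace Ω']
    [MeasurableSpace F] {P : Measure Ω} {ν : Measure F} [IsProbabilityMeasure P]
    [IsProbabilityMeasure ν] {up : F → Ω → Ω} (h : Resample P ν up) (P' : Measure Ω')
    [IsProbabilityMeasure P'] :
    Resample (P'.prod P) ν fun x z => (z.1, up x z.2) :=
  (Measure.measurePreserving_swap.comp (h.prod_right P')).comp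
    (MeasurePreserving.prod (MeasurePreserving.id ν) Measure.measurePreserving_swap)

theorem Resamp_single (n : ℕ) [NeZero n] (j : Fin n) : unf n {j} = (n : ℝ≥0∞)⁻¹ := by
  rw [unf, ProbabilityTheory.uniformOn_univ, Measure.count_singleton, Fintype.card_fin, one_div]

/-- Averaging over a uniform finite coordinate. -/
theorem Resample.lintegral_unf {Ω : Type*} [MeasurableSpace Ω] {P : Measure Ω}
    [IsProbabilityMeasure P] {n : ℕ} [NeZero n] {up : Fin n → Ω → Ω} (h : Resample P (unf n) up)
    {f : Ω → ℝ≥0∞} (hf : Measurable f) :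
    (n : ℝ≥0∞) * ∫⁻ ω, f ω ∂P = ∑ j, ∫⁻ ω, f (up j ω) ∂P := by
  have h1 := MeasurePreserving.lintegral_comp h hf
  have h2 : Measurable fun p : Fin n × Ω => f (up p.1 p.2) := hf.comp h.measurable
  rw [lintegral_prod _ h2.aemeasurable, lintegral_fintype] at h1
  rw [← h1, Finset.mul_sum]
  refine Finset.sum_congr rfl fun j _ => ?_
  rw [Resamp_single, mul_comm, mul_assoc, ENNReal.inv_mul_cancel
    (Nat.cast_ne_zero.2 (NeZero.ne n)) (ENNReal.natCast_ne_top n), mul_one]

/-- An almost sure statement survives the resampling of a uniform finite coordinate, for every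
value of the coordinate. -/
theorem Resample.ae_unf {Ω : Type*} [MeasurableSpace Ω] {P : Measure Ω}
    [IsProbabilityMeasure P] {n : ℕ} [NeZero n] {up : Fin n → Ω → Ω} (h : Resample P (unf n) up)
    {E : Ω → Prop} (hE : ∀ᵐ ω ∂P, E ω) : ∀ᵐ ω ∂P, ∀ j, E (up j ω) := by
  have h1 : ∀ᵐ p ∂((unf n).prod P), E (up p.1 p.2) :=
    (MeasurePreserving.quasiMeasurePreserving h).ae hE
  have h2 := Measure.ae_ae_of_ae_prod h1
  rw [ae_all_iff]
  intro j
  by_contra hj
  have h3 : unf n {j} = 0 := measure_mono_null (by
    intro k hk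
    rw [Set.mem_singleton_iff.1 hk]
    exact hj) (ae_iff.1 h2)
  rw [Resamp_single] at h3
  exact ENNReal.inv_ne_zero.2 (ENNReal.natCast_ne_top n) h3

end Pool.Agent.FusfFlat
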