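import Pool.Agent.P.MP_8fb1ed_pr.Fl.Slab0

/-! Grounding by windows, time D (paper 5.7). -/

open MeasureTheory Filter Topology Relation
open scoped ENNReal

namespace Pool.Agent.FusfFlat

open Pool.Agent.FusfTree

variable {Γ Ω V ι : Type*} [Group Γ] [Countable Γ] [MeasurableSpace Ω] [MulAction Γ V]
  [MulAction Γ ι] [Countable V] [Countable ι] {p : Par V ι} {β : ι → Γ} {k : ℕ} {P : Measure Ω}
  [IsProbabilityMeasure P] {a : Γ → Ω → Ω} {d : Ω → Dat V ι}

omit [Countable Γ] [Countable V] [Countable ι] [IsProbabilityMeasure P] in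
theorem Slab_own (h : Sys p β k P a d) :
    RRel a fun (_ : Ω) (v : V) (i : ι) => p.Xh i ∧ p.o i = v :=
  ⟨fun _ _ => measurable_const, fun g _ v i => by
    rw [h.Xh_inv, h.o_eqv, smul_left_cancel_iff]⟩

omit [Countable Γ] [Countable V] [Countable ι] [IsProbabilityMeasure P] in
theorem Slab_val (h : Sys p β k P a d) {val : Ω → ι → ℕ}
    (hvm : ∀ i, Measurable fun ω => val ω i) (hve : ∀ g ω i, val (a g ω) (g • i) = val ω i)
    (l : ℕ) : RSet a fun ω i => p.Xh i ∧ val ω i = l :=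
  ⟨fun i => measurable_const.and ((measurable_of_countable fun n : ℕ => n = l).comp (hvm i)),
    fun g ω i => by rw [h.Xh_inv, hve]⟩

theorem Slab_set (h : Sys p β k P a d) {val : Ω → ι → ℕ} {om : Ω → ι → Prop}
    (hvm : ∀ i, Measurable fun ω => val ω i) (hve : ∀ g ω i, val (a g ω) (g • i) = val ω i)
    (hom : RSet a om) (l : ℕ) :
    RSet a fun ω i => p.Xh i ∧ ((om ω i ∨ (d ω).Y i) ∨ val ω i < l) :=
  ⟨fun i => measurable_const.and (((hom.meas i).or (h.mY i)).or
      ((measurable_of_countable fun n : ℕ => n < l).comp (hvm i))),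
    fun g ω i => by rw [h.Xh_inv, hve, hom.eqv, h.rY.eqv]⟩

omit [Countable Γ] [IsProbabilityMeasure P] in
theorem Slab_nK : fdim P β (fun (_ : Ω) (v : V) => units fun i => p.Xh i ∧ p.o i = v) =
    nK p P β := by
  rw [← fdim_total p.o fun _ v => (units_le_coord _).trans (coord_mono fun i hi => hi.2), nK]
  refine le_antisymm (fdim_mono' fun ω _ => iSup_le fun v =>
    (units_le_coord _).trans (coord_mono fun i hi => hi.1))
    (fdim_mono (Eventually.of_forall fun ω _ => ?_))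
  simp only [one]
  rw [iSup_units, cl_units]
  exact coord_mono fun i hi => ⟨p.o i, hi, rfl⟩

/-- Kaplansky at each vertex and exactness. -/
theorem Slab_loc (h : Sys p β k P a d)
    (hex : ∀ᵐ ω ∂P, ∀ v, ExactAt ((d ω).Mv p v p.D) fun i => p.Xh i ∧ p.o i = v) :
    nK p P β + nN p P β d p.D ≤
      fdim P β (fun ω v => (d ω).Mv p v p.D ⊓ coord fun i => p.Xh i ∧ p.o i = v) +
        nL p P β d p.D := by
  have h1 := fdim_kap h.mp h.base (h.aMv p.D).rfam (AFam.unit (Slab_own h)).rfam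
  rw [Slab_nK] at h1
  rw [add_comm, nN, ← h1, add_comm]
  refine add_le_add (fdim_mono (hex.mono fun ω hω v => ?_)) (fdim_mono' fun ω v => ?_)
  · rw [cl_units]
    exact hω v
  · refine sup_le_sup_left (units_mono fun i hi => ⟨?_, Or.inr (Or.inl ⟨hi.2, by omega⟩)⟩) _
    rw [← hi.2]
    exact ((h.good ω).own i).2 hi.1

/-- One slab. -/
theorem Slab_step (h : Sys p β k P a d) {K : ℕ} {val : Ω → ι → ℕ} {om : Ω → ι → Prop}
    (hvm : ∀ i, Measurable fun ω => val ω i) (hve : ∀ g ω i, val (a g ω) (g • i) = val ω i)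
    (hom : RSet a om) (hw : ∀ᵐ ω ∂P, Dat.Win p (d ω) K (val ω) (om ω)) (l : ℕ) :
    fdim P β (one fun ω => (d ω).BB ⊔
        units fun i => p.Xh i ∧ ((om ω i ∨ (d ω).Y i) ∨ val ω i < l + 1)) +
      fdim P β (fun ω v => onIf (∃ i, p.o i = v ∧ val ω i = l)
        ((d ω).Mv p v p.D ⊓ coord fun i => p.Xh i ∧ p.o i = v)) ≤
    fdim P β (one fun ω => (d ω).BB ⊔
        units fun i => p.Xh i ∧ ((om ω i ∨ (d ω).Y i) ∨ val ω i < l)) +
      fdim P β (fun ω v => onIf (∃ i, p.o i = v ∧ val ω i = l)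
        (units fun i => p.Xh i ∧ p.o i = v)) := by
  have h1 := fdim_kap h.mp h.base
    (h.aBB.sup (AFam.unit (rrel_one (Slab_set h hvm hve hom l)))).rfam
    (AFam.unit (rrel_one (Slab_val h hvm hve l))).rfam
  rw [← fdim_total p.o fun ω v => onIf_le fun _ =>
      inf_le_right.trans (coord_mono fun i hi => hi.2),
    ← fdim_total p.o fun ω v => onIf_le fun _ =>
      (units_le_coord _).trans (coord_mono fun i hi => hi.2)]
  refine le_trans (add_le_add (fdim_mono' fun ω _ => ?_) (fdim_mono (hw.mono fun ω hω _ => ?_)))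
    (h1.le.trans (add_le_add le_rfl (fdim_mono' fun ω _ => ?_)))
  · simp only [one]
    rw [sup_assoc, units_sup_units]
    refine sup_le_sup_left (units_mono fun i hi => ?_) _
    rcases hi.2 with h2 | h2
    · exact Or.inl ⟨hi.1, Or.inl h2⟩
    · rcases Nat.lt_succ_iff_lt_or_eq.1 h2 with h3 | h3
      · exact Or.inl ⟨hi.1, Or.inr h3⟩
      · exact Or.inr ⟨hi.1, h3⟩
  · simp only [one]
    refine le_trans (iSup_le fun v => onIf_le ?_) (le_cl _)
    rintro ⟨i₀, rfl, rfl⟩ f ⟨hf, hf'⟩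
    refine ⟨le_cl _ ?_, ?_⟩
    · obtain ⟨g, hg, hfg⟩ := (h.good ω).trunc hω i₀ p.D le_rfl hf
        (coord_mono (fun i hi => hi.2) hf')
      rw [← add_sub_cancel g f]
      refine Submodule.add_mem_sup hg (units_mono (fun i hi => ⟨hi.1, ?_⟩) hfg)
      rcases hi.2 with h2 | h2 | h2
      · exact Or.inl (Or.inl h2)
      · exact Or.inl (Or.inr h2.1)
      · exact Or.inr (by omega)
    · rw [SetLike.mem_coe, cl_units]
      exact coord_mono (fun i hi => ⟨hi.1, hω.val_eq hi.2⟩) hf'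
  · simp only [one]
    refine Submodule.span_le.2 ?_
    rintro _ ⟨i, hi, rfl⟩
    refine le_iSup (fun v => onIf (∃ i, p.o i = v ∧ val ω i = l)
      (units fun i => p.Xh i ∧ p.o i = v)) (p.o i) ?_
    rw [onIf_pos ⟨i, rfl, hi.2⟩]
    exact dl_mem_units ⟨hi.1, rfl⟩

theorem Slab_tel {q r e : ℕ → ℝ≥0∞} (h : ∀ l, q (l + 1) + r l ≤ q l + e l) (n : ℕ) :
    q n + ∑ l ∈ Finset.range n, r l ≤ q 0 + ∑ l ∈ Finset.range n, e l := by
  induction n with
  | zero => simp
  | succ n ih =>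
    rw [Finset.sum_range_succ, Finset.sum_range_succ]
    calc q (n + 1) + (∑ l ∈ Finset.range n, r l + r n)
        = (q (n + 1) + r n) + ∑ l ∈ Finset.range n, r l := by ring
      _ ≤ (q n + e n) + ∑ l ∈ Finset.range n, r l := add_le_add (h n) le_rfl
      _ = (q n + ∑ l ∈ Finset.range n, r l) + e n := by ring
      _ ≤ (q 0 + ∑ l ∈ Finset.range n, e l) + e n := add_le_add ih le_rfl
      _ = _ := by ring

theorem slabD (h : Sys p β k P a d) {K : ℕ} {val : Ω → ι → ℕ} {om : Ω → ι → Prop}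
    (hvm : ∀ i, Measurable fun ω => val ω i) (hve : ∀ g ω i, val (a g ω) (g • i) = val ω i)
    (hvl : ∀ ω i, val ω i < K) (hom : RSet a om)
    (hw : ∀ᵐ ω ∂P, Dat.Win p (d ω) K (val ω) (om ω))
    (hex : ∀ᵐ ω ∂P, ∀ v, ExactAt ((d ω).Mv p v p.D) fun i => p.Xh i ∧ p.o i = v) :
    nK p P β + nN p P β d p.D ≤
      fdim P β (one fun ω => (d ω).BB ⊔ units fun i => p.Xh i ∧ (om ω i ∨ (d ω).Y i)) +
        nL p P β d p.D := by
  refine (Slab_loc h hex).trans (add_le_add ?_ le_rfl)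
  have hc : ∀ᵐ ω ∂P, ∀ i i', p.o i = p.o i' → val ω i = val ω i' :=
    hw.mono fun ω hω i i' e => hω.val_eq e
  have h1 := Slab_tel (Slab_step h hvm hve hom hw) K
  rw [← fdim_sum_label p.o (fun ω v => inf_le_right.trans (coord_mono fun i hi => hi.2))
      ((h.aMv p.D).inf_coord (Slab_own h)).rfam.meas hvm hvl hc,
    ← fdim_sum_label p.o (fun ω v => (units_le_coord _).trans (coord_mono fun i hi => hi.2))
      (AFam.unit (Slab_own h)).rfam.meas hvm hvl hc, Slab_nK] at h1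
  have h2 : nK p P β ≤ fdim P β (one fun ω => (d ω).BB ⊔
      units fun i => p.Xh i ∧ ((om ω i ∨ (d ω).Y i) ∨ val ω i < K)) := by
    refine fdim_mono (Eventually.of_forall fun ω _ => ?_)
    simp only [one]
    rw [← cl_units]
    exact cl_mono ((units_mono fun i hi => ⟨hi, Or.inr (hvl ω i)⟩).trans le_sup_right)
  have h3 : nK p P β ≠ ⊤ :=
    ne_top_of_le_ne_top (ENNReal.natCast_ne_top k) (h.fdim_one_le fun _ => le_rfl)
  have h4 := (add_le_add h2 le_rfl).trans h1
  rw [add_comm] at h4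
  refine ((ENNReal.add_le_add_iff_right h3).1 h4).trans (fdim_mono' fun ω _ => ?_)
  exact sup_le_sup_left (units_mono fun i hi => ⟨hi.1, hi.2.resolve_right (Nat.not_lt_zero _)⟩) _

end Pool.Agent.FusfFlat
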