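import Pool.Agent.P.MP_8fb1ed_pr.Fl.SysMeas
import Pool.Agent.P.MP_8fb1ed_pr.Fl.Sound

/-! Grounding by windows, time 0 (paper 5.7). -/

open MeasureTheory Filter Topology Relation
open scoped ENNReal

namespace Pool.Agent.FusfFlat

open Pool.Agent.FusfTree

theorem Slab0_orth {ι : Type*} {S T : ι → Prop} (hST : ∀ i, S i → ¬ T i) {f g : L2 ι}
    (hf : f ∈ coord S) (hg : g ∈ coord T) : inner ℝ g f = 0 := by
  have h1 : f ∈ (coord T)ᗮ := by
    rw [coord_orth]
    exact coord_mono hST hf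
  exact (Submodule.mem_orthogonal _ _).1 h1 g hg

/-- The injectivity step. -/
theorem Slab0_inj {ι : Type*} {A B Kl : Sub ι} {S T : ι → Prop} (hST : ∀ i, S i → ¬ T i)
    (hAB : A ≤ B) (hA : A ≤ coord T) (hK : Kl ≤ coord S)
    (hz : Kl ≤ B ⊔ coord T) {w : L2 ι} (hw : w ∈ cl Kl) (ho : w ∈ (cl B ⊓ Aᗮ)ᗮ) : w = 0 := by
  have hwS : w ∈ coord S := by
    have := cl_mono hK hw
    rwa [cl_coord] at this
  have hB : ∀ z ∈ B, inner ℝ z w = 0 := by
    intro z hz
    have h1 : proj A z ∈ cl A := proj_mem_cl A z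
    have h2 : proj A z ∈ coord T := by
      have := cl_mono hA h1
      rwa [cl_coord] at this
    have h3 : z - proj A z ∈ cl B ⊓ Aᗮ := by
      refine ⟨sub_mem (le_cl B hz) (cl_mono hAB h1), ?_⟩
      have := proj_mem_cl Aᗮ z
      rwa [cl_orth, proj_orth] at this
    have h4 := (Submodule.mem_orthogonal _ _).1 ho _ h3
    have h5 := Slab0_orth hST hwS h2
    rw [inner_sub_left, h5, sub_zero] at h4
    exact h4
  have hK' : w ∈ Klᗮ := by
    refine (Submodule.mem_orthogonal _ _).2 fun f hf => ?_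
    obtain ⟨z, hz, u, hu, rfl⟩ := Submodule.mem_sup.1 (hz hf)
    rw [inner_add_left, hB z hz, Slab0_orth hST hwS hu, add_zero]
  have h6 : w ∈ (cl Kl)ᗮ := by
    rw [Submodule.orthogonal_closure]
    exact hK'
  exact inner_self_eq_zero.1 ((Submodule.mem_orthogonal _ _).1 h6 w hw)

/-- The deterministic step: an owned vector is the top part of a vector of `Z`. -/
theorem Slab0_det {V ι : Type*} {p : Par V ι} {d : Dat V ι} (h : d.Good p) {K : ℕ} {val : ι → ℕ}
    {om : ι → Prop} (hw : Dat.Win p d K val om) (l : ℕ) (v : V) :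
    onIf (∃ i, p.o i = v ∧ val i = l)
        (d.Mv p v 0 ⊓ coord fun i => (p.Xh i ∧ p.o i = v) ∧ d.Y i) ≤
      (((d.BB ⊔ units fun i => p.Xh i ∧ om i) ⊓ coord d.Y) ⊓ coord fun i => val i < l + 1) ⊔
        coord fun i => val i < l := by
  refine onIf_le ?_
  rintro ⟨i₀, rfl, rfl⟩ f ⟨hf, hfA⟩
  obtain ⟨g, hg, hfg⟩ := h.trunc hw i₀ 0 (by positivity) hf
    (coord_mono (fun i hi => hi.1.2) hfA)
  have h1 : f - g ∈ (units fun i => p.Xh i ∧ om i) ⊔ units fun i => d.Y i ∧ val i < val i₀ := by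
    rw [units_sup_units]
    refine units_mono (fun i hi => ?_) hfg
    obtain ⟨hX, ho | hY | hD⟩ := hi
    · exact Or.inl ⟨hX, ho⟩
    · exact Or.inr ⟨hY.1, by have := hY.2; omega⟩
    · have h2 := hw.val_lt i₀
      have h3 := hw.K_le
      omega
  obtain ⟨u₁, hu₁, u₂, hu₂, hu⟩ := Submodule.mem_sup.1 h1
  have hu₂' := units_le_coord _ hu₂
  have he : g + u₁ = f - u₂ := by
    have : f = u₁ + u₂ + g := by rw [hu]; abel
    rw [this]; abel
  refine Submodule.mem_sup.2 ⟨f - u₂, ⟨⟨?_, ?_⟩, ?_⟩, u₂, coord_mono (fun i hi => hi.2) hu₂',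
    by abel⟩
  · rw [← he]
    exact Submodule.add_mem_sup hg hu₁
  · exact sub_mem (coord_mono (fun i hi => hi.2) hfA) (coord_mono (fun i hi => hi.1) hu₂')
  · refine sub_mem (coord_mono (fun i hi => ?_) hfA)
      (coord_mono (fun i hi => Nat.lt_succ_of_lt hi.2) hu₂')
    rw [hw.val_eq hi.1.2]
    exact Nat.lt_succ_self _

variable {Γ Ω V ι : Type*} [Group Γ] [Countable Γ] [MeasurableSpace Ω] [MulAction Γ V]
  [MulAction Γ ι] [Countable V] [Countable ι] {p : Par V ι} {β : ι → Γ} {k : ℕ} {P : Measure Ω}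
  [IsProbabilityMeasure P] {a : Γ → Ω → Ω} {d : Ω → Dat V ι}

omit [Countable Γ] [Countable V] [Countable ι] [IsProbabilityMeasure P] in
theorem Slab0_rA (h : Sys p β k P a d) :
    RRel a fun ω (v : V) i => (p.Xh i ∧ p.o i = v) ∧ (d ω).Y i :=
  ⟨fun _ i => measurable_const.and (h.mY i), fun g ω v i => by
    rw [h.Xh_inv, h.o_eqv, smul_left_cancel_iff, (h.rel g ω).Y]⟩

theorem Slab0_R (h : Sys p β k P a d) {K : ℕ} {val : Ω → ι → ℕ} {om : Ω → ι → Prop}
    (hvm : ∀ i, Measurable fun ω => val ω i) (hve : ∀ g ω i, val (a g ω) (g • i) = val ω i)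
    (hvl : ∀ ω i, val ω i < K) (hom : RSet a om)
    (hw : ∀ᵐ ω ∂P, Dat.Win p (d ω) K (val ω) (om ω)) :
    fdim P β (fun ω v => (d ω).Mv p v 0 ⊓ coord fun i => (p.Xh i ∧ p.o i = v) ∧ (d ω).Y i) ≤
      fdim P β (one fun ω => ((d ω).BB ⊔ units fun i => p.Xh i ∧ om ω i) ⊓ coord (d ω).Y) := by
  set R : Ω → V → Sub ι :=
    fun ω v => (d ω).Mv p v 0 ⊓ coord fun i => (p.Xh i ∧ p.o i = v) ∧ (d ω).Y i with hR
  set Z : Ω → Sub ι := fun ω => ((d ω).BB ⊔ units fun i => p.Xh i ∧ om ω i) ⊓ coord (d ω).Y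
    with hZ
  have aR : AFam a R := (h.aMv 0).inf_coord (Slab0_rA h)
  have hRo : ∀ ω v, R ω v ≤ coord fun i => p.o i = v := fun ω v =>
    inf_le_right.trans (coord_mono fun i hi => hi.1.2)
  have rom : RSet a fun ω i => p.Xh i ∧ om ω i :=
    ⟨fun i => measurable_const.and (hom.meas i), fun g ω i => by rw [h.Xh_inv, hom.eqv]⟩
  have aZ : AFam a (one Z) := (h.aBB.sup (AFam.unit (rrel_one rom))).inf_coord (rrel_one h.rY)
  have rlt : ∀ l : ℕ, RSet a fun ω i => val ω i < l := fun l =>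
    ⟨fun i => (measurable_of_countable fun n : ℕ => n < l).comp (hvm i),
      fun g ω i => by rw [hve]⟩
  have aZl : ∀ l : ℕ, AFam a (one fun ω => Z ω ⊓ coord fun i => val ω i < l) := fun l =>
    aZ.inf_coord (rrel_one (rlt l))
  have rc : ∀ l : ℕ, RSet a fun ω (v : V) => ∃ i, p.o i = v ∧ val ω i = l := fun l =>
    ⟨fun v => Measurable.exists fun i =>
        measurable_const.and ((measurable_of_countable fun n : ℕ => n = l).comp (hvm i)),
      fun g ω v => by
        constructor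
        · rintro ⟨i, hi, hl⟩
          refine ⟨g⁻¹ • i, ?_, ?_⟩
          · rw [h.o_eqv, hi, inv_smul_smul]
          · rw [← hve g ω, smul_inv_smul, hl]
        · rintro ⟨i, hi, hl⟩
          exact ⟨g • i, by rw [h.o_eqv, hi], by rw [hve, hl]⟩⟩
  rw [fdim_sum_label p.o hRo aR.rfam.meas hvm hvl
    (hw.mono fun ω hω i i' hi => hω.val_eq hi)]
  have step : ∀ l : ℕ, fdim P β (one fun ω => Z ω ⊓ coord fun i => val ω i < l) +
      fdim P β (fun ω v => onIf (∃ i, p.o i = v ∧ val ω i = l) (R ω v)) ≤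
      fdim P β (one fun ω => Z ω ⊓ coord fun i => val ω i < l + 1) := by
    intro l
    have hle : ∀ ω, (Z ω ⊓ coord fun i => val ω i < l) ≤ Z ω ⊓ coord fun i => val ω i < l + 1 :=
      fun ω => inf_le_inf_left _ (coord_mono fun i hi => Nat.lt_succ_of_lt hi)
    rw [fdim_add_orth (L := one fun ω => Z ω ⊓ coord fun i => val ω i < l + 1)
      (aZl l).rfam.meas (fun ω _ => (hle ω).trans (le_cl _)),
      ← fdim_total p.o fun ω v => onIf_le fun _ => hRo ω v]
    refine add_le_add le_rfl (fdim_le_of_inj h.mp h.base (aR.cond (rc l)).total.rfam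
      ((aZl (l + 1)).rfam.inf_orth (aZl l).rfam) ?_)
    filter_upwards [hw] with ω hω _ w hw1 hw2
    refine Slab0_inj (S := fun i => val ω i = l) (T := fun i => val ω i < l)
      (fun i hi => by omega) (hle ω) inf_le_right ?_ ?_ hw1 hw2
    · refine iSup_le fun v => onIf_le ?_
      rintro ⟨i₀, hi₀, hl⟩
      refine (hRo ω v).trans (coord_mono fun i hi => ?_)
      rw [← hl]
      exact hω.val_eq (hi.trans hi₀.symm)
    · exact iSup_le fun v => Slab0_det (h.good ω) hω l v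
  have ind : ∀ n : ℕ, ∑ l ∈ Finset.range n,
      fdim P β (fun ω v => onIf (∃ i, p.o i = v ∧ val ω i = l) (R ω v)) ≤
      fdim P β (one fun ω => Z ω ⊓ coord fun i => val ω i < n) := by
    intro n
    induction n with
    | zero => simp
    | succ n ih =>
      rw [Finset.sum_range_succ]
      exact (add_le_add ih le_rfl).trans (step n)
  exact (ind K).trans (fdim_mono' fun ω _ => inf_le_left)

theorem slab0 (h : Sys p β k P a d) (hD : 0 < p.D) {K : ℕ} {val : Ω → ι → ℕ} {om : Ω → ι → Prop}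
    (hvm : ∀ i, Measurable fun ω => val ω i) (hve : ∀ g ω i, val (a g ω) (g • i) = val ω i)
    (hvl : ∀ ω i, val ω i < K) (hom : RSet a om)
    (hw : ∀ᵐ ω ∂P, Dat.Win p (d ω) K (val ω) (om ω))
    (hex : ∀ᵐ ω ∂P, ∀ v, ExactAt ((d ω).Mv p v 0) fun i => (p.Xh i ∧ p.o i = v) ∧ (d ω).Y i) :
    fdim P β (one fun ω => coord fun i => p.Xh i ∧ (d ω).Y i) + nN p P β d 0 ≤
      fdim P β (one fun ω => ((d ω).BB ⊔ units fun i => p.Xh i ∧ om ω i) ⊓ coord (d ω).Y) +
        nL p P β d 0 := by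
  have _ := hD
  have kap := fdim_kap h.mp h.base (h.aMv 0).rfam (AFam.unit (Slab0_rA h)).rfam
  have h1 : fdim P β (one fun ω => coord fun i => p.Xh i ∧ (d ω).Y i) ≤
      fdim P β fun ω (v : V) => units fun i => (p.Xh i ∧ p.o i = v) ∧ (d ω).Y i := by
    rw [← fdim_total p.o fun ω v => (units_le_coord _).trans (coord_mono fun i hi => hi.1.2)]
    refine fdim_mono (Eventually.of_forall fun ω _ => ?_)
    change _ ≤ cl (⨆ v, units fun i => (p.Xh i ∧ p.o i = v) ∧ (d ω).Y i)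
    rw [iSup_units, cl_units]
    exact coord_mono fun i hi => ⟨p.o i, ⟨hi.1, rfl⟩, hi.2⟩
  have h2 : fdim P β (fun ω v => (d ω).Mv p v 0 ⊔
      units fun i => (p.Xh i ∧ p.o i = v) ∧ (d ω).Y i) ≤ nL p P β d 0 := by
    refine fdim_mono' fun ω v => sup_le_sup_left (units_mono fun i hi => ?_) _
    obtain ⟨⟨hX, rfl⟩, hY⟩ := hi
    exact ⟨((h.good ω).own i).2 hX, Or.inl ⟨rfl, hY, by norm_num⟩⟩
  have h3 : fdim P β (fun ω v => cl ((d ω).Mv p v 0) ⊓
      cl (units fun i => (p.Xh i ∧ p.o i = v) ∧ (d ω).Y i)) ≤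
      fdim P β (fun ω v => (d ω).Mv p v 0 ⊓
        coord fun i => (p.Xh i ∧ p.o i = v) ∧ (d ω).Y i) := by
    refine fdim_mono (hex.mono fun ω hω v => ?_)
    rw [cl_units]
    exact hω v
  have h4 := Slab0_R h hvm hve hvl hom hw
  calc _ ≤ (fdim P β fun ω (v : V) => units fun i => (p.Xh i ∧ p.o i = v) ∧ (d ω).Y i) +
        nN p P β d 0 := add_le_add h1 le_rfl
    _ = _ := by rw [add_comm]; exact kap.symm
    _ ≤ nL p P β d 0 + _ := add_le_add h2 (h3.trans h4)
    _ = _ := add_comm _ _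

end Pool.Agent.FusfFlat
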