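import Pool.Agent.P.MP_8fb1ed_pr.Fl.SysMeas
import Pool.Agent.P.MP_8fb1ed_pr.Fl.Glue

/-! The gluing bound (paper 5.5). -/

open MeasureTheory Filter Topology Relation
open scoped ENNReal

namespace Pool.Agent.FusfFlat

open Pool.Agent.FusfTree

lemma Step2_inner {ι : Type*} {K : Sub ι} {b : L2 ι} (hb : b ∈ K) (f : L2 ι) :
    inner ℝ b (proj K f) = inner ℝ b f := by
  have h1 : f - proj K f ∈ (cl K)ᗮ := (cl K).sub_starProjection_mem_orthogonal f
  have h2 := (Submodule.mem_orthogonal _ _).1 h1 b (le_cl K hb)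
  rw [inner_sub_right] at h2
  linarith

lemma Step2_orth {ι : Type*} {K M : Sub ι} {g : L2 ι} (hg : g ∈ cl (K ⊓ Mᗮ)) : g ∈ Mᗮ := by
  have h1 := cl_mono (inf_le_right : K ⊓ Mᗮ ≤ Mᗮ) hg
  rwa [cl_orth] at h1

lemma Step2_msg {V ι : Type*} {p : Par V ι} {d : Dat V ι} (h : d.Good p) {u v : V}
    (huv : d.nrm p u v) (s : ℤ) :
    d.msg p u v (s - p.W) ≤ d.Mv p u s ⊓ d.Mv p v s := by
  refine le_inf ?_ ?_
  · exact (d.msg_mono p u v (by omega)).trans (d.msg_le_Mv p u v s)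
  · have h1 := h.dz_gt u v
    exact (d.msg_mono p u v (by omega)).trans (Dat.msg_in_le_Mv huv s)

lemma Step2_or {Γ Ω ι : Type*} [Group Γ] [MeasurableSpace Ω] [MulAction Γ ι] {a : Γ → Ω → Ω}
    {U U' : Ω → ι → Prop} (hU : RSet a U) (hU' : RSet a U') :
    RSet a fun ω i => U ω i ∨ U' ω i :=
  ⟨fun i => (hU.meas i).or (hU'.meas i), fun g ω i => or_congr (hU.eqv g ω i) (hU'.eqv g ω i)⟩

lemma Step2_andnot {Γ Ω ι : Type*} [Group Γ] [MeasurableSpace Ω] [MulAction Γ ι]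
    {a : Γ → Ω → Ω} {U U' : Ω → ι → Prop} (hU : RSet a U) (hU' : RSet a U') :
    RSet a fun ω i => U ω i ∧ ¬ U' ω i :=
  ⟨fun i => (hU.meas i).and (hU'.meas i).not,
    fun g ω i => and_congr (hU.eqv g ω i) (not_congr (hU'.eqv g ω i))⟩

variable {Γ Ω V ι : Type*} [Group Γ] [Countable Γ] [MeasurableSpace Ω] [MulAction Γ V]
  [MulAction Γ ι] [Countable V] [Countable ι] {p : Par V ι} {β : ι → Γ} {k : ℕ} {P : Measure Ω}
  [IsProbabilityMeasure P] {a : Γ → Ω → Ω} {d : Ω → Dat V ι}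

theorem step2 (h : Sys p β k P a d) (s : ℤ) :
    nX P β d + nH p P β d (s - p.W) (s - p.W) + nB P β d ≤
      nN p P β d s + nK p P β + nA p P β d + nY p P β d := by
  set H : Ω → V × V → Sub ι := fun ω e => onIf ((d ω).ori p e.1 e.2)
    ((d ω).msg p e.1 e.2 (s - p.W) ⊔ (d ω).msg p e.2 e.1 (s - p.W)) with hH
  set S : Ω → V × V → Sub ι := fun ω e =>
    onIf ((d ω).ori p e.1 e.2) (coord ((d ω).sp e.1 e.2)) with hS
  set A : Ω → V × V → Sub ι := fun ω e =>
    onIf ((d ω).t e.1 e.2 ∧ ¬ (d ω).nrm p e.1 e.2) (coord ((d ω).sp e.1 e.2)) with hA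
  have rab : RSet a fun ω (e : V × V) => (d ω).t e.1 e.2 ∧ ¬ (d ω).nrm p e.1 e.2 :=
    Step2_andnot h.rt h.rnrm
  have rH : RFam a H := RFam.cond h.rori ((h.amsg _).sup (h.amsg' _)).rfam
  have rS : RFam a S := RFam.cond h.rori (RFam.crd h.rsp)
  have rA : RFam a A := RFam.cond rab (RFam.crd h.rsp)
  have rM : RFam a fun ω v => (d ω).Mv p v s := (h.aMv s).rfam
  have rXc : RFam a fun ω v => coord ((d ω).X v) := RFam.crd h.rX
  have rXh : RSet a fun (_ : Ω) i => p.Xh i :=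
    ⟨fun _ => measurable_const, fun g _ i => h.Xh_inv g i⟩
  have rKc : RFam a (one fun _ : Ω => coord p.Xh) := RFam.crd (rrel_one rXh)
  have rB : RFam a (one fun ω => (d ω).BB) := h.aBB.rfam
  have rL1 := rS.inf_orth rH
  have hmsp : ∀ ω u v, (d ω).msg p u v (s - p.W) ⊔ (d ω).msg p v u (s - p.W) ≤
      coord ((d ω).sp u v) := by
    intro ω u v
    refine sup_le (((h.good ω).msg_le u v _).trans (units_le_coord _)) ?_
    rw [(d ω).sp_comm u v]
    exact ((h.good ω).msg_le v u _).trans (units_le_coord _)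
  have e1 : nX P β d = nN p P β d s +
      fdim P β fun ω v => cl (coord ((d ω).X v)) ⊓ ((d ω).Mv p v s)ᗮ :=
    fdim_add_orth rM.meas fun ω v =>
      (((h.good ω).Mv_le v s).trans (units_le_coord _)).trans (le_cl _)
  have e2 : nY p P β d = nH p P β d (s - p.W) (s - p.W) +
      fdim P β fun ω e => cl (S ω e) ⊓ (H ω e)ᗮ :=
    fdim_add_orth rH.meas fun ω e =>
      (onIf_mono id fun _ => hmsp ω e.1 e.2).trans (le_cl _)
  have e3 : nK p P β = nB P β d +
      fdim P β (one fun ω => cl (coord p.Xh) ⊓ ((d ω).BB)ᗮ) :=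
    fdim_add_orth rB.meas fun ω _ =>
      ((h.good ω).BB_le.trans (units_le_coord _)).trans (le_cl _)
  have e4 : fdim P β (fun ω e => (cl (S ω e) ⊓ (H ω e)ᗮ) ⊔ A ω e) ≤
      (fdim P β fun ω e => cl (S ω e) ⊓ (H ω e)ᗮ) + nA p P β d :=
    le_self_add.trans (fdim_kap h.mp h.base rL1 rA).le
  have e5 : (fdim P β fun ω v => cl (coord ((d ω).X v)) ⊓ ((d ω).Mv p v s)ᗮ) ≤
      fdim P β (fun ω e => (cl (S ω e) ⊓ (H ω e)ᗮ) ⊔ A ω e) +
        fdim P β (one fun ω => cl (coord p.Xh) ⊓ ((d ω).BB)ᗮ) := by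
    refine glue_le h.mp h.base p.o h.o_eqv h.rX p.C (fun ω => (h.good ω).card)
      (Step2_or h.rori rab) (rXc.inf_orth rM) (rL1.sup rA) (rKc.inf_orth rB) ?_ ?_ ?_ ?_
    · intro ω v
      exact inf_le_left.trans (cl_coord _).le
    · intro ω v i hi
      refine ⟨((h.good ω).own i).2 ((h.good ω).sub v i hi), ?_⟩
      refine ReflTransGen.mono (r := fun x y => (d ω).t x y ∧ (d ω).X y i) ?_ _ _
        ((h.good ω).walk v i hi)
      intro x y hxy
      refine ⟨?_, hxy.2⟩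
      by_cases hn : (d ω).nrm p x y
      · rcases (h.good ω).nrm_iff.1 hn with h1 | h1
        · exact Or.inl (Or.inl h1)
        · exact Or.inr (Or.inl h1)
      · exact Or.inl (Or.inr ⟨hxy.1, hn⟩)
    · intro ω e he g₁ hg₁ g₂ hg₂
      have hm : proj (coord ((d ω).sp e.1 e.2)) (g₁ - g₂) ∈ cl (coord ((d ω).sp e.1 e.2)) :=
        proj_mem_cl _ _
      change proj (coord ((d ω).sp e.1 e.2)) (g₁ - g₂) ∈ _
      rcases he with he | he
      · refine le_cl _ (Submodule.mem_sup_left ⟨?_, ?_⟩)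
        · simp only [hS, onIf_pos he]
          exact hm
        · simp only [hH, onIf_pos he]
          refine (Submodule.mem_orthogonal _ _).2 fun b hb => ?_
          have hb' : b ∈ (d ω).Mv p e.1 s ⊓ (d ω).Mv p e.2 s := by
            refine (sup_le (Step2_msg (h.good ω) he.1 s) ?_ :
              (d ω).msg p e.1 e.2 (s - p.W) ⊔ (d ω).msg p e.2 e.1 (s - p.W) ≤ _) hb
            rw [inf_comm]
            exact Step2_msg (h.good ω) ((h.good ω).nrm_symm he.1) s
          rw [Step2_inner (hmsp ω e.1 e.2 hb), inner_sub_right,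
            (Submodule.mem_orthogonal _ _).1 (Step2_orth hg₁) b hb'.1,
            (Submodule.mem_orthogonal _ _).1 (Step2_orth hg₂) b hb'.2, sub_zero]
      · refine cl_mono le_sup_right ?_
        simp only [hA, onIf_pos he]
        exact hm
    · intro ω G hG hv
      refine le_cl _ ⟨le_cl _ fun i hi => hG i fun hi' => hi (((h.good ω).own i).1 hi'), ?_⟩
      change G ∈ (⨆ v, (d ω).G v)ᗮ
      rw [← Submodule.iInf_orthogonal, Submodule.mem_iInf]
      intro v
      refine (Submodule.mem_orthogonal _ _).2 fun b hb => ?_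
      rw [← Step2_inner (units_le_coord _ ((h.good ω).G_le v hb))]
      exact (Submodule.mem_orthogonal _ _).1 (Step2_orth (hv v)) b ((d ω).G_le_Mv p v s hb)
  rw [e1, e2, e3]
  have e6 := e5.trans (add_le_add_left e4 _)
  calc _ ≤ nN p P β d s + ((fdim P β fun ω e => cl (S ω e) ⊓ (H ω e)ᗮ) + nA p P β d +
        fdim P β (one fun ω => cl (coord p.Xh) ⊓ ((d ω).BB)ᗮ)) +
        nH p P β d (s - p.W) (s - p.W) + nB P β d := by gcongr
    _ = _ := by ring

end Pool.Agent.FusfFlat
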