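import Pool.Agent.P.MP_8fb1ed_pr.Fl.Claim
import Pool.Agent.P.MP_8fb1ed_pr.Fl.Biorth
import Pool.Agent.P.MP_8fb1ed_pr.Fl.Step2

/-! The increment bound (paper 5.4). -/

open MeasureTheory Filter Topology Relation
open scoped ENNReal

namespace Pool.Agent.FusfFlat

open Pool.Agent.FusfTree

variable {Γ Ω V ι : Type*} [Group Γ] [Countable Γ] [MeasurableSpace Ω] [MulAction Γ V]
  [MulAction Γ ι] [Countable V] [Countable ι] {p : Par V ι} {β : ι → Γ} {k : ℕ} {P : Measure Ω}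
  [IsProbabilityMeasure P] {a : Γ → Ω → Ω} {d : Ω → Dat V ι}

theorem step1 (h : Sys p β k P a d) (hr : Res p P a d) (s : ℤ) :
    nL p P β d s + nE p P β d (s + 1) (s + 1) ≤
      nN p P β d (s + 1) + nE p P β d s (s + 1) + (k * p.C ^ 2 : ℕ) / (p.J : ℝ≥0∞) := by
  set D : Ω → V × V → Sub ι := fun ω e =>
    onIf ((d ω).nrm p e.1 e.2) ((d ω).msg p e.1 e.2 (s + 1 + (d ω).dz e.1 e.2)) with hDdef
  set O : Ω → V × V → Sub ι := fun ω e =>
    (d ω).msg p e.1 e.2 (s + (d ω).dz e.1 e.2) ⊔ (d ω).Oth p ((d ω).th e.2) e.2 e.1 (s + 1)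
    with hOdef
  set Q : Ω → V × V → Sub ι := fun ω e =>
    onIf ((d ω).nrm p e.1 e.2) ((d ω).Qp p ((d ω).th e.2) e.1 e.2 s) with hQdef
  have hD : RFam a D := RFam.cond h.rnrm (h.amsgz (s + 1)).rfam
  have hO : RFam a O := ((h.amsgz s).sup (h.aOthTh (s + 1))).rfam
  have hQ : RFam a Q := RFam.cond h.rnrm (by simpa using h.rQpTh 0 s)
  have hDU : ∀ ω e, D ω e ≤ coord ((d ω).sp e.1 e.2) := fun ω e =>
    onIf_le fun _ => ((h.good ω).msg_le _ _ _).trans (units_le_coord _)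
  have hnrm : ∀ ω e, D ω e ≠ ⊥ → (d ω).nrm p e.1 e.2 := fun ω e he => by
    by_contra hn
    exact he (onIf_neg hn _)
  have hb : nL p P β d s + fdim P β D ≤
      nN p P β d (s + 1) + fdim P β fun ω e => cl (D ω e) ⊓ cl (O ω e) := by
    refine biorth h.mp h.base (Prod.snd : V × V → V) (fun g e => rfl) h.rsp (p.C ^ 2)
      (fun ω i => (h.good ω).card_sp i) hD hO ((h.aMv s).sup (h.aUt (s + 1))).rfam
      (h.aMv (s + 1)).rfam hDU (fun ω v => ?_) (fun ω e => ?_) (fun ω e he => ?_)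
      (fun ω e e' _ hne heq => ?_)
    · exact (sup_le ((d ω).Mv_mono p v (by omega)) ((d ω).Ut_le_Mv p v _)).trans (le_cl _)
    · exact onIf_le fun hn => (Dat.msg_in_le_Mv hn (s + 1)).trans (le_cl _)
    · exact ((h.good ω).Mv_le_sup (hnrm ω e he) s).trans (le_cl _)
    · obtain ⟨u, v⟩ := e
      obtain ⟨u', v'⟩ := e'
      obtain rfl : v' = v := heq
      have hu : u' ≠ u := fun hh => hne (by rw [hh])
      exact onIf_le fun hn =>
        ((Dat.msg_in_le_Oth hn hu _ (s + 1)).trans le_sup_right).trans (le_cl _)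
  have h1 : (fdim P β fun ω e => cl (D ω e) ⊓ cl (O ω e)) ≤
      fdim P β fun ω e => cl (D ω e) ⊓ cl (Q ω e) := by
    refine fdim_mono' fun ω e => le_inf inf_le_left ?_
    by_cases hn : (d ω).nrm p e.1 e.2
    · refine le_trans ?_ (le_cl _)
      have hq : Q ω e = cl (O ω e) ⊓ coord ((d ω).sp e.1 e.2) := onIf_pos hn _
      rw [hq]
      refine le_inf inf_le_right (inf_le_left.trans ?_)
      exact (cl_mono (hDU ω e)).trans (cl_coord _).le
    · have hd : D ω e = ⊥ := onIf_neg hn _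
      exact inf_le_left.trans (cl_mono (hd ▸ bot_le))
  have h2 : nE p P β d (s + 1) (s + 1) ≤ fdim P β fun ω e => D ω e ⊔ Q ω e := by
    refine fdim_mono' fun ω e => onIf_le fun hn => sup_le_sup (onIf_pos hn _).ge ?_
    have hq : Q ω e = cl (O ω e) ⊓ coord ((d ω).sp e.1 e.2) := onIf_pos hn _
    rw [hq, Dat.msg_eq, Dat.sp_comm]
    exact inf_le_inf_right _ (le_sup_right.trans (le_cl _))
  have h3 := fdim_kap h.mp h.base hD hQ
  have h4 : fdim P β Q ≤ nE p P β d s (s + 1) + (k * p.C ^ 2 : ℕ) / (p.J : ℝ≥0∞) :=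
    nQ_le h hr s
  have hfin : fdim P β D ≠ ⊤ :=
    ne_top_of_le_ne_top (ENNReal.natCast_ne_top _) (h.fdim_E_le hDU)
  refine (ENNReal.add_le_add_iff_left hfin).1 ?_
  calc fdim P β D + (nL p P β d s + nE p P β d (s + 1) (s + 1))
      = (nL p P β d s + fdim P β D) + nE p P β d (s + 1) (s + 1) := by ring
    _ ≤ (nN p P β d (s + 1) + fdim P β fun ω e => cl (D ω e) ⊓ cl (Q ω e)) +
        fdim P β fun ω e => D ω e ⊔ Q ω e :=
      add_le_add (hb.trans (add_le_add le_rfl h1)) h2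
    _ = nN p P β d (s + 1) + (fdim P β D + fdim P β Q) := by rw [← h3]; ring
    _ ≤ nN p P β d (s + 1) + (fdim P β D +
        (nE p P β d s (s + 1) + (k * p.C ^ 2 : ℕ) / (p.J : ℝ≥0∞))) := by gcongr
    _ = _ := by ring

end Pool.Agent.FusfFlat
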