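import Pool.Agent.P.MP_8fb1ed_pr.Fl.Bags
import Pool.Agent.P.MP_8fb1ed_pr.Fl.Coind

/-! Construction of the universal system. -/

open MeasureTheory Filter Topology Relation
open scoped ENNReal

namespace Pool.Agent.FusfFlat

open Pool.Agent.FusfTree

universe u

theorem Uni_mp_iid {Γ I F : Type*} [Group Γ] [MulAction Γ I] [MeasurableSpace F] (μ : Measure F)
    [IsProbabilityMeasure μ] (g : Γ) :
    MeasurePreserving (fun (z : I → F) i => z (g⁻¹ • i)) (Measure.infinitePi fun _ => μ)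
      (Measure.infinitePi fun _ => μ) :=
  ⟨by fun_prop, Measure.map_infinitePi_infinitePi_of_inj (P := fun _ : I => μ)
    (MulAction.injective g⁻¹)⟩

theorem Uni_meas_lsh {Γ : Type*} [Group Γ] (g : Γ) : Measurable (lsh g : (Γ → Prop) → Γ → Prop) :=
  measurable_pi_lambda _ fun _ => measurable_pi_apply _

theorem Uni_mp_coind {Γ V : Type*} [Group Γ] [MulAction Γ V] (ν : V → Measure (Γ → Prop))
    [∀ v, IsProbabilityMeasure (ν v)] (hν : ∀ (g : Γ) v, (ν v).map (lsh g) = ν (g • v)) (g : Γ) :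
    MeasurePreserving (fun (z : V → Γ → Prop) v => lsh g (z (g⁻¹ • v))) (Measure.infinitePi ν)
      (Measure.infinitePi ν) := by
  have h1 : MeasurePreserving (fun (z : V → Γ → Prop) v => z (g⁻¹ • v)) (Measure.infinitePi ν)
      (Measure.infinitePi fun v => ν (g⁻¹ • v)) :=
    ⟨by fun_prop, Measure.map_infinitePi_infinitePi_of_inj (P := ν) (MulAction.injective g⁻¹)⟩
  have h2 := Measure.infinitePi_map_pi (μ := fun v => ν (g⁻¹ • v)) (f := fun _ => lsh g)
    fun _ => Uni_meas_lsh g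
  simp only [hν, smul_inv_smul] at h2
  have h3 : MeasurePreserving (fun (z : V → Γ → Prop) v => lsh g (z v))
      (Measure.infinitePi fun v => ν (g⁻¹ • v)) (Measure.infinitePi ν) :=
    ⟨measurable_pi_lambda _ fun v => (Uni_meas_lsh g).comp (measurable_pi_apply v), h2⟩
  exact h3.comp h1

theorem Uni_resample_map {Ω F F' : Type*} [MeasurableSpace Ω] [MeasurableSpace F]
    [MeasurableSpace F'] {P : Measure Ω} [IsProbabilityMeasure P] {μ : Measure F'}
    [IsProbabilityMeasure μ] {φ : F' → F} (hφ : Measurable φ) {up : F → Ω → Ω}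
    (h : Resample P (μ.map φ) up) : Resample P μ fun w => up (φ w) :=
  MeasurePreserving.comp h
    (MeasurePreserving.prod (⟨hφ, rfl⟩ : MeasurePreserving φ μ (μ.map φ)) (MeasurePreserving.id P))

theorem Uni_lev {V ι : Type*} (d : Dat V ι) {W : ℕ} (hz : ∀ u v, d.z u v < W) (u : V) :
    ∀ (n : ℕ) (v : V), Near d.t n u v → ∃ k : ℤ, d.Lev u v k ∧ |k| ≤ (n * W : ℕ)
  | 0, v, h => by
    obtain rfl : v = u := h
    exact ⟨0, ReflTransGen.refl, by simp⟩
  | n + 1, v, h => by
    rcases h with h | ⟨x, h, hx⟩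
    · obtain ⟨k, h1, h2⟩ := Uni_lev d hz u n v h
      exact ⟨k, h1, h2.trans (Int.ofNat_le.2 (Nat.mul_le_mul_right W n.le_succ))⟩
    · obtain ⟨k, h1, h2⟩ := Uni_lev d hz u n x h
      refine ⟨k + d.dz x v, ReflTransGen.tail h1 ⟨hx, rfl⟩, ?_⟩
      have a := hz x v
      have b := hz v x
      have h3 : |d.dz x v| ≤ W := by
        rw [Dat.dz, abs_le]
        omega
      refine (abs_add_le _ _).trans ?_
      push_cast at h2 ⊢
      linarith

/-- The sample space. -/
abbrev Uni_Sp (Γ V : Type u) (W N J : ℕ) : Type u :=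
  Cfg V × (V × V → Fin W) × (V × V → Fin N) × (V → Fin J) × (V → Γ → Prop)

/-- The action on the sample space. -/
def Uni_act {Γ V : Type u} [Group Γ] [MulAction Γ V] {W N J : ℕ} (g : Γ) :
    Uni_Sp Γ V W N J → Uni_Sp Γ V W N J :=
  Prod.map (vshift g) (Prod.map (fun z i => z (g⁻¹ • i)) (Prod.map (fun z i => z (g⁻¹ • i))
    (Prod.map (fun z i => z (g⁻¹ • i)) fun z v => lsh g (z (g⁻¹ • v)))))

/-- The universal configuration. -/
noncomputable def Uni_dat {Γ V : Type u} {W N J : ℕ} (t : Cfg V → V → V → Prop) (T : Cfg V → V → Γ → Prop)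
    (θ : Uni_Sp Γ V W N J) : Dat V Γ where
  t := t θ.1
  X := T θ.1
  G := fun _ => ⊥
  Y := fun _ => False
  w := θ.2.2.2.2
  z := fun u v => θ.2.1 (u, v)
  lam := fun u v => θ.2.2.1 (u, v)
  th := fun v => θ.2.2.2.1 v + 1

section
variable {Γ V : Type u} [Group Γ] [MulAction Γ V] {v₀ : V} {B : Finset V} {r : ℕ}
  {t : Cfg V → V → V → Prop} {T : Cfg V → V → Γ → Prop} {W N J : ℕ}

theorem Uni_good (hb : Bags v₀ B r t T) (D : ℕ) (θ : Uni_Sp Γ V W N J) :
    (Uni_dat t T θ).Good (mkPar v₀ id (fun _ => True) W N J D (r * W) B.card) where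
  symm := hb.symm θ.1
  acyc := hb.acyc θ.1
  z_lt u v := (θ.2.1 (u, v)).2
  th_pos _ := Nat.le_add_left _ _
  th_le v := (θ.2.2.2.1 v).2
  G_le _ := bot_le
  own y := iff_of_true (hb.self θ.1 y) trivial
  sub _ _ _ := trivial
  card y := by
    have h := Set.encard_le_encard_of_injOn (s := {v | T θ.1 v y}) (t := (B : Set V))
      (f := fun v => y⁻¹ • v) (fun v hv => hb.mem θ.1 v y hv) (MulAction.injective y⁻¹).injOn
    rwa [Set.encard_coe_eq_coe_finsetCard] at h
  walk := hb.walk θ.1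
  lev v y h := Uni_lev (Uni_dat t T θ) (fun u v => (θ.2.1 (u, v)).2) _ r v (hb.near θ.1 v y h)

theorem Uni_rel (hb : Bags v₀ B r t T) (g : Γ) (θ : Uni_Sp Γ V W N J) :
    Dat.Rel g (Uni_dat t T θ) (Uni_dat t T (Uni_act g θ)) where
  t := hb.rt.eqv g θ.1
  X := hb.rT.eqv g θ.1
  G _ := (Submodule.map_bot _).symm
  Y _ := Iff.rfl
  w v y := by
    change θ.2.2.2.2 (g⁻¹ • g • v) (g⁻¹ * (g * y)) ↔ θ.2.2.2.2 v y
    rw [inv_smul_smul, inv_mul_cancel_left]
  z u v := by
    change (θ.2.1 (g⁻¹ • g • u, g⁻¹ • g • v) : ℕ) = θ.2.1 (u, v)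
    rw [inv_smul_smul, inv_smul_smul]
  lam u v := by
    change (θ.2.2.1 (g⁻¹ • g • u, g⁻¹ • g • v) : ℕ) = θ.2.2.1 (u, v)
    rw [inv_smul_smul, inv_smul_smul]
  th v := by
    change (θ.2.2.2.1 (g⁻¹ • g • v) : ℕ) + 1 = θ.2.2.2.1 v + 1
    rw [inv_smul_smul]

omit [Group Γ] [MulAction Γ V]

open Classical in
theorem Uni_update {n : ℕ} (z : V × V → Fin n) (u v : V) (j : Fin n) :
    (fun x y => (Function.update z (u, v) j (x, y) : ℕ)) =
      fun x y => if x = u ∧ y = v then (j : ℕ) else z (x, y) := by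
  funext x y
  rw [Function.update_apply]
  by_cases h : x = u ∧ y = v
  · rw [if_pos h, if_pos (Prod.ext h.1 h.2)]
  · rw [if_neg h, if_neg fun e => h (Prod.ext_iff.1 e)]

open Classical in
theorem Uni_setZ (θ : Uni_Sp Γ V W N J) (u v : V) (j : Fin W) :
    Uni_dat t T (θ.1, Function.update θ.2.1 (u, v) j, θ.2.2) = (Uni_dat t T θ).setZ u v j :=
  congrArg (fun z => { Uni_dat t T θ with z := z }) (Uni_update θ.2.1 u v j)

open Classical in
theorem Uni_setLam (θ : Uni_Sp Γ V W N J) (u v : V) (j : Fin N) :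
    Uni_dat t T (θ.1, θ.2.1, Function.update θ.2.2.1 (u, v) j, θ.2.2.2) =
      (Uni_dat t T θ).setLam u v j :=
  congrArg (fun z => { Uni_dat t T θ with lam := z }) (Uni_update θ.2.2.1 u v j)

open Classical in
theorem Uni_setTh (θ : Uni_Sp Γ V W N J) (v : V) (j : Fin J) :
    Uni_dat t T (θ.1, θ.2.1, θ.2.2.1, Function.update θ.2.2.2.1 v j, θ.2.2.2.2) =
      (Uni_dat t T θ).setTh v (j + 1) := by
  refine congrArg (fun z => { Uni_dat t T θ with th := z }) (funext fun x => ?_)
  change (Function.update θ.2.2.2.1 v j x : ℕ) + 1 = if x = v then _ else (θ.2.2.2.1 x : ℕ) + 1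
  rw [Function.update_apply]
  split_ifs <;> rfl

open Classical in
theorem Uni_setW (θ : Uni_Sp Γ V W N J) (v : V) (S : Γ → Prop) :
    Uni_dat t T (θ.1, θ.2.1, θ.2.2.1, θ.2.2.2.1, Function.update θ.2.2.2.2 v S) =
      (Uni_dat t T θ).setW v S :=
  congrArg (fun z => { Uni_dat t T θ with w := z })
    (funext fun x => Function.update_apply θ.2.2.2.2 v S x)

end

theorem exists_uni {Γ V : Type u} [Group Γ] [Countable Γ] [MulAction Γ V] [Countable V] {v₀ : V}
    {τ : Measure (Cfg V)} [IsProbabilityMeasure τ] (hi : ∀ g : Γ, τ.map (vshift g) = τ)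
    {B : Finset V} {r : ℕ} {t : Cfg V → V → V → Prop} {T : Cfg V → V → Γ → Prop}
    (hb : Bags v₀ B r t T) (hf : ∀ v : V, Flat (MulAction.stabilizer Γ v)) {δ : ℝ≥0∞}
    (hδ : 0 < δ) {W N J : ℕ} (hW : 0 < W) (hJ : 0 < J) (hN : J ≤ N) (D : ℕ) :
    ∃ (Θ : Type u) (_ : MeasurableSpace Θ) (Q : Measure Θ) (_ : IsProbabilityMeasure Q)
      (b : Γ → Θ → Θ) (U : Θ → Dat V Γ),
      Sys (mkPar v₀ id (fun _ => True) W N J D (r * W) B.card) id 1 Q b U ∧
      Res0 (mkPar v₀ id (fun _ => True) W N J D (r * W) B.card) Q U ∧ ResW id Q U ∧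
      (∀ θ v y, (U θ).X v y → y⁻¹ • v ∈ B) ∧
      (∀ v y, Q {θ | ¬ (U θ).X v y} = τ {η | ¬ T η v y}) ∧
      ∀ v y, Q {θ | (U θ).w v y} ≤ δ := by
  classical
  obtain ⟨ν, hν, hνg, hνδ, hνW⟩ := exists_coind hf hδ
  have : Nonempty (Fin W) := ⟨⟨0, hW⟩⟩
  have : Nonempty (Fin J) := ⟨⟨0, hJ⟩⟩
  have : Nonempty (Fin N) := ⟨⟨0, hJ.trans_le hN⟩⟩
  let QW : Measure (V × V → Fin W) := Measure.infinitePi fun _ => unf W
  let QN : Measure (V × V → Fin N) := Measure.infinitePi fun _ => unf N
  let QJ : Measure (V → Fin J) := Measure.infinitePi fun _ => unf J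
  let Qw : Measure (V → Γ → Prop) := Measure.infinitePi ν
  have mval : ∀ n : ℕ, Measurable (Fin.val : Fin n → ℕ) := fun _ => Measurable.of_discrete
  refine ⟨Uni_Sp Γ V W N J, inferInstance, τ.prod (QW.prod (QN.prod (QJ.prod Qw))),
    inferInstance, Uni_act, Uni_dat t T, ?_, ?_, ?_, fun θ => hb.mem θ.1, fun v y => ?_,
    fun v y => ?_⟩
  · exact
      { base := fun _ _ => rfl
        mp := fun g => MeasurePreserving.prod ⟨measurable_vshift g, hi g⟩
          ((Uni_mp_iid _ g).prod ((Uni_mp_iid _ g).prod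
            ((Uni_mp_iid _ g).prod (Uni_mp_coind ν hνg g))))
        o_eqv := fun g y => mul_smul g y v₀
        Xh_inv := fun _ _ => Iff.rfl
        card := Set.encard_le_one_iff.2 fun x y hx hy => hx.1.trans hy.1.symm
        good := Uni_good hb D
        rel := Uni_rel hb
        mt := fun u v => (hb.rt.meas u v).comp measurable_fst
        mX := fun v y => (hb.rT.meas v y).comp measurable_fst
        mG := fun _ => AMeas.bot
        mY := fun _ => measurable_const
        mw := fun v y => (measurable_pi_apply y).comp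
          ((measurable_pi_apply v).comp measurable_snd.snd.snd.snd)
        mz := fun u v => (mval W).comp ((measurable_pi_apply (u, v)).comp measurable_snd.fst)
        mlam := fun u v =>
          (mval N).comp ((measurable_pi_apply (u, v)).comp measurable_snd.snd.fst)
        mth := fun v => ((mval J).comp
          ((measurable_pi_apply v).comp measurable_snd.snd.snd.fst)).add_const 1 }
  · exact
      { W_pos := hW
        J_pos := hJ
        J_le := hN
        rz := fun u v => ⟨_, ((resample_pi (fun _ : V × V => unf W) (u, v)).prod_right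
          (QN.prod (QJ.prod Qw))).prod_left τ, fun j θ => by convert Uni_setZ θ u v j⟩
        rlam := fun u v => ⟨_, (((resample_pi (fun _ : V × V => unf N) (u, v)).prod_right
          (QJ.prod Qw)).prod_left QW).prod_left τ, fun j θ => by convert Uni_setLam θ u v j⟩
        rth := fun v => ⟨_, ((((resample_pi (fun _ : V => unf J) v).prod_right Qw).prod_left
          QN).prod_left QW).prod_left τ, fun j θ => by convert Uni_setTh θ v j⟩ }
  · intro v
    obtain ⟨g, v₁, hv, γ, μ, hγ, hμ, hfl, e⟩ := hνW v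
    have := hμ.prob
    have h1 := ((((resample_pi ν v₁).prod_left QJ).prod_left QN).prod_left QW).prod_left τ
    rw [e] at h1
    exact ⟨g, v₁, hv, γ, μ, δ, _, hγ, hμ, hfl,
      Uni_resample_map (measurable_pi_lambda _ fun _ => measurable_pi_apply _) h1,
      fun w θ => Uni_setW θ v₁ fun x => w (γ x)⟩
  · exact (measurePreserving_fst (μ := τ) (ν := QW.prod (QN.prod (QJ.prod Qw)))).measure_preimage
      (s := {η | ¬ T η v y}) (hb.rT.meas v y).not.setOf.nullMeasurableSet
  · have h1 : MeasurePreserving (fun θ : Uni_Sp Γ V W N J => θ.2.2.2.2 v)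
        (τ.prod (QW.prod (QN.prod (QJ.prod Qw)))) (ν v) :=
      (measurePreserving_eval_infinitePi ν v).comp (measurePreserving_snd.comp
        (measurePreserving_snd.comp (measurePreserving_snd.comp measurePreserving_snd)))
    exact (h1.measure_preimage (s := {w | w y})
      (measurable_pi_apply y).setOf.nullMeasurableSet).trans_le (hνδ v y)

end Pool.Agent.FusfFlat
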