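import Pool.Agent.P.MP_8fb1ed_pr.Fl.Core
import Pool.Agent.P.MP_8fb1ed_pr.Fl.Exact
import Pool.Agent.P.MP_8fb1ed_pr.Fl.Uni
import Pool.Agent.P.MP_8fb1ed_pr.Fl.Levels
import Pool.Agent.P.MP_8fb1ed_pr.Fl.Lift
import Pool.Agent.P.MP_8fb1ed_pr.Fl.ResW

/-! The tree step. -/

open MeasureTheory Filter Topology Relation
open scoped ENNReal

namespace Pool.Agent.FusfFlat

open Pool.Agent.FusfTree

universe u

theorem Tree_big {A η : ℝ≥0∞} (hA : A ≠ ⊤) (hη : 0 < η) (n₀ : ℕ) :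
    ∃ n : ℕ, n₀ ≤ n ∧ 0 < n ∧ A / n ≤ η := by
  obtain ⟨W, hW, h⟩ := exists_div_le hA hη
  refine ⟨W + n₀, by omega, by omega, le_trans ?_ h⟩
  exact ENNReal.div_le_div_left (by exact_mod_cast Nat.le_add_right W n₀) _

theorem Tree_coord {Γ Ω ι : Type*} [Group Γ] [MeasurableSpace Ω] [MulAction Γ ι] [Countable ι]
    {P : Measure Ω} {β : ι → Γ} {Xh : ι → Prop} {k : ℕ}
    (hk : {i | β i = 1 ∧ Xh i}.encard ≤ k) {om : Ω → Γ → Prop}
    (hm : Measurable fun ω => om ω 1) :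
    fdim P β (one fun ω => coord fun i => Xh i ∧ om ω (β i)) ≤ k * P {ω | om ω 1} := by
  have e := fdim_coord (P := P) (β := β) (U := fun ω (_ : Unit) i => Xh i ∧ om ω (β i))
  refine le_trans (le_of_eq e) ?_
  rw [← lintegral_indicator_const hm.setOf]
  refine lintegral_mono fun ω => ?_
  by_cases h : om ω 1
  · rw [Set.indicator_of_mem (s := {ω | om ω 1}) h]
    have h1 : {p : Unit × ι | β p.2 = 1 ∧ Xh p.2 ∧ om ω (β p.2)}.encard ≤
        {i | β i = 1 ∧ Xh i}.encard :=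
      Set.encard_le_encard_of_injOn (f := Prod.snd) (fun p hp => ⟨hp.1, hp.2.1⟩)
        fun p _ q _ e => Prod.ext rfl e
    exact (ENat.toENNReal_le.2 (h1.trans hk)).trans (le_of_eq (by simp))
  · have h1 : {p : Unit × ι | β p.2 = 1 ∧ Xh p.2 ∧ om ω (β p.2)} = ∅ :=
      Set.eq_empty_of_forall_notMem fun p hp => h (hp.1 ▸ hp.2.2)
    simp only [h1, Set.encard_empty]
    simp

theorem Tree_flatE {Γ V Θ Θ' : Type u} [Group Γ] [Countable Γ] [MulAction Γ V] [Countable V]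
    [MeasurableSpace Θ] [MeasurableSpace Θ'] {Q : Measure Θ} [IsProbabilityMeasure Q]
    {Q' : Measure Θ'} [IsProbabilityMeasure Q'] {b : Γ → Θ → Θ} {b' : Γ → Θ' → Θ'} {v₀ : V}
    {U : Θ → Dat V Γ} {W N J K D0 S : ℕ} {B : Finset V} {A : Finset Γ}
    (hU : Sys (mkPar v₀ id (fun _ => True) W N J K D0 B.card) id 1 Q b U)
    (hU0 : Res0 (mkPar v₀ id (fun _ => True) W N J K D0 B.card) Q U) (hUW : ResW id Q U)
    (hUB : ∀ θ v y, (U θ).X v y → y⁻¹ • v ∈ B) (hK : 0 < K) (hS : 0 < S) {π : Θ' → Θ}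
    {val : Θ' → Γ → ℕ} {om : Θ' → Γ → Prop} (hb' : ∀ g, MeasurePreserving (b' g) Q' Q')
    (hπ : MeasurePreserving π Q' Q) (hπe : ∀ g θ, π (b' g θ) = b g (π θ))
    (hvm : ∀ y, Measurable fun θ => val θ y) (hve : ∀ g θ y, val (b' g θ) (g * y) = val θ y)
    (hvl : ∀ θ y, val θ y < K) (hom : RSet b' om)
    (hwin : ∀ᵐ θ ∂Q', Dat.Win (mkPar v₀ id (fun _ => True) W N J K D0 B.card) (U (π θ)) K (val θ)
      (om θ)) (hbad : ∀ θ y, (U (π θ)).bad v₀ A y → om θ y) (k : ℕ) :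
    FlatE (k * Q' {θ | om θ 1} +
      errB (mkPar v₀ (id : Γ → Γ) (fun _ => True) W N J K D0 B.card) k S) k A
      (Q'.map om) := by
  have mom : Measurable om := measurable_pi_lambda _ hom.meas
  intro ι Ω _ _ _ β Xh P _ a M Y hI
  have hMu : ∀ ω, M ω ≤ units Xh := fun ω => le_units ((hI.hM.meas ()).fin ω) (hI.le ω)
  have hs := lift_sys (A := A) hU hI
  have hr := res_of_resW hs (lift_res0 hU0) (lift_resW hUW) B fun q v i hi => hUB q.1 v _ hi.2
  have hπ' : MeasurePreserving (Prod.map π id) (Q'.prod P) (Q.prod P) :=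
    hπ.prod (MeasurePreserving.id P)
  have hc := core hs hr (S := S) hK hS (a' := fun g q => (b' g q.1, a g q.2))
    (fun g => (hb' g).prod (hI.mp g)) hπ' (fun g q => Prod.ext (hπe g q.1) rfl)
    (K := K) (val := fun q i => val q.1 (β i)) (om := fun q i => om q.1 (β i))
    (fun i => (hvm _).comp measurable_fst) (fun g q i => by rw [hI.base, hve])
    (fun q i => hvl _ _)
    ⟨fun i => (hom.meas _).comp measurable_fst, fun g q i => by
      rw [hI.base]; exact hom.eqv g q.1 (β i)⟩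
    ((measurePreserving_fst.quasiMeasurePreserving.ae hwin).mono fun q hq => lift_win hq)
  have mM : AMeas M := hI.hM.meas ()
  have m0 : AMeas fun ω => trunc β A (M ω) :=
    AMeas.isup (M := fun (x : Γ) ω => M ω ⊓ coord fun i => x⁻¹ * β i ∈ A)
      fun x => mM.inf_coord fun _ => measurable_const
  have m1 : PMeas fun ω => cl (trunc β A (M ω)) ⊓ coord (Y ω) := m0.pmeas.inf_coord hI.hY.meas
  have e1 := fdim_factor (β := β) (K := one fun ω => cl (trunc β A (M ω)) ⊓ coord (Y ω))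
    (measurePreserving_snd (μ := Q) (ν := P)) fun _ => m1
  have m3 : AMeas fun p : (Γ → Prop) × Ω => addU β Xh (M p.2) p.1 :=
    (mM.comp measurable_snd).sup (AMeas.unit (S := fun (p : (Γ → Prop) × Ω) i => Xh i ∧ p.1 (β i))
      fun i => measurable_const.and ((measurable_pi_apply (β i)).comp measurable_fst))
  have m2 : PMeas fun p : (Γ → Prop) × Ω => addU β Xh (M p.2) p.1 ⊓ coord (Y p.2) :=
    (m3.inf_coord fun i => (hI.hY.meas i).comp measurable_snd).pmeas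
  have hμ' : MeasurePreserving (Prod.map om id) (Q'.prod P) ((Q'.map om).prod P) :=
    (MeasurePreserving.mk mom rfl).prod (MeasurePreserving.id P)
  have e2 := fdim_factor (β := β)
    (K := one fun p : (Γ → Prop) × Ω => addU β Xh (M p.2) p.1 ⊓ coord (Y p.2)) hμ' fun _ => m2
  rw [← e1, ← e2]
  refine le_trans (fdim_mono' fun q _ => ?_) (hc.trans ?_)
  · exact inf_le_inf_right _ (cl_mono (trunc_le_BB (hMu q.2)))
  rw [add_assoc]
  refine add_le_add (fdim_mono' fun q _ => ?_) ?_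
  · exact inf_le_inf_right _ (sup_le (BB_le_addU (hbad q.1)) le_sup_right)
  refine add_le_add ?_ le_rfl
  refine (Tree_coord hI.card (om := fun q : Θ' × Ω => om q.1)
    ((hom.meas 1).comp measurable_fst)).trans ?_
  have e3 : (Q'.prod P) {q | om q.1 1} = Q' {θ | om θ 1} :=
    measurePreserving_fst.measure_preimage (hom.meas 1).setOf.nullMeasurableSet
  rw [e3]

theorem Tree_mono {Γ : Type u} [Group Γ] {ε ε' : ℝ≥0∞} {k : ℕ} {A : Finset Γ}
    {μ : Measure (Γ → Prop)} (h : FlatE ε k A μ) (hε : ε ≤ ε') : FlatE ε' k A μ :=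
  fun ι Ω _ _ _ β Xh P _ a M Y hI => (h ι Ω β Xh P a M Y hI).trans (add_le_add le_rfl hε)

theorem flatE_of_rel {Γ : Type u} [Group Γ] [Countable Γ]
    (h : RelTreeable (fun G _ => Countable G → Flat G) Γ) (δ ε : ℝ≥0∞) (hδ : 0 < δ) (hε : 0 < ε)
    (k : ℕ) (A : Finset Γ) : ∃ μ : Measure (Γ → Prop), InvSet δ μ ∧ FlatE ε k A μ := by
  have hε2 : 0 < ε / 2 := ENNReal.div_pos hε.ne' (by norm_num)
  obtain ⟨θ, hθ, hθ1, hθ2⟩ := exists_mul_le (A := (k : ℝ≥0∞)) (ENNReal.natCast_ne_top k)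
    (lt_min hδ hε2)
  have hq : 0 < θ / 4 := ENNReal.div_pos hθ.ne' (by norm_num)
  obtain ⟨ε₁, hε₁, -, hε₁'⟩ := exists_mul_le (A := (A.card : ℝ≥0∞) ^ 2 * 2) (by finiteness) hq
  obtain ⟨V, _, v₀, τ, _, hst, _, hτi, hτa, hτA⟩ := h A ε₁ hε₁
  obtain ⟨B, r, t, T, hb, hT⟩ := exists_bags v₀ hτi hτa A hε₁ hτA
  obtain ⟨ρ, hρ, -, hρ'⟩ := exists_mul_le (A := ((k * B.card ^ 2 : ℕ) : ℝ≥0∞) * 4)
    (by finiteness) hε2
  obtain ⟨W, -, hW, hW'⟩ := Tree_big ENNReal.one_ne_top hρ 0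
  obtain ⟨K, hK1, hK, hK'⟩ := Tree_big (A := 2 * ((r * W : ℕ) : ℝ≥0∞)) (by finiteness) hq (r * W)
  obtain ⟨S, -, hS, hS'⟩ := Tree_big ENNReal.one_ne_top hρ 0
  obtain ⟨J, -, hJ, hJ'⟩ := Tree_big
    (ENNReal.natCast_ne_top (K + r * W + 1 + W + 3 * W * S)) hρ 0
  obtain ⟨N, hN1, -, hN'⟩ := Tree_big
    (A := ((2 * J + 1 : ℕ) : ℝ≥0∞) + (B.card : ℝ≥0∞) ^ 2 * J) (by finiteness) (lt_min hρ hq) J
  obtain ⟨δ', hδ', -, hδ''⟩ := exists_mul_le (ENNReal.natCast_ne_top B.card) hq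
  obtain ⟨Θ, _, Q, _, b, U, hU, hU0, hUW, hUB, hUT, hUw⟩ :=
    exists_uni hτi hb (fun v => hst v inferInstance) hδ' hW hJ hN1 K
  obtain ⟨Θ', _, Q', _, b', π, val, om, hb', hπ, hπe, hvm, hve, hvl, hom, hwin, hbad, hden⟩ :=
    exists_om hU hU0 hUB hK hK1 A (fun c hc => (hUT v₀ c).le.trans (hT c hc)) hUw
  have hden' : Q' {θ | om θ 1} ≤ θ := by
    refine hden.trans ?_
    have h4 : (B.card : ℝ≥0∞) ^ 2 * (J / N) ≤ θ / 4 := by
      rw [← mul_div_assoc]
      exact (ENNReal.div_le_div_right le_add_self _).trans (hN'.trans (min_le_right _ _))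
    calc _ ≤ θ / 4 + θ / 4 + θ / 4 + θ / 4 :=
          add_le_add (add_le_add (add_le_add (by rwa [← mul_assoc]) hK') hδ'') h4
      _ = 4 * (θ / 4) := by ring
      _ = θ := ENNReal.mul_div_cancel (by norm_num) (by norm_num)
  have mom : Measurable om := measurable_pi_lambda _ hom.meas
  have mlsh : ∀ g : Γ, Measurable (lsh g) := fun g =>
    measurable_pi_lambda _ fun _ => measurable_pi_apply _
  have hprob : IsProbabilityMeasure (Q'.map om) := Measure.isProbabilityMeasure_map mom.aemeasurable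
  refine ⟨Q'.map om, ⟨hprob, fun g => ?_, ?_⟩, ?_⟩
  · have e : lsh g ∘ om = om ∘ b' g := by
      funext x y
      have := hom.eqv g x (g⁻¹ * y)
      rw [smul_eq_mul, mul_inv_cancel_left] at this
      exact propext this.symm
    rw [Measure.map_map (mlsh g) mom, e, ← Measure.map_map mom (hb' g).measurable, (hb' g).map_eq]
  · rw [Measure.map_apply mom (measurable_pi_apply (1 : Γ)).setOf]
    exact hden'.trans (hθ1.trans (min_le_left _ _))
  refine Tree_mono (Tree_flatE hU hU0 hUW hUB hK hS hb' hπ hπe hvm hve hvl hom hwin hbad k) ?_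
  rw [← ENNReal.add_halves ε]
  refine add_le_add ?_ ?_
  · exact (mul_le_mul_right hden' _).trans (hθ2.trans (min_le_right _ _))
  · refine le_trans ?_ hρ'
    rw [mul_assoc]
    refine mul_le_mul_right ?_ _
    have h4 : ((2 * J + 1 : ℕ) : ℝ≥0∞) / N ≤ ρ :=
      (ENNReal.div_le_div_right le_self_add _).trans (hN'.trans (min_le_left _ _))
    calc _ ≤ ρ + ρ + ρ + ρ :=
          add_le_add (add_le_add (add_le_add h4 (by rwa [← one_div])) (by rwa [← one_div])) hJ'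
      _ = 4 * ρ := by ring

theorem flat_of_treeHier {Γ : Type u} [Group Γ] [Countable Γ] (h : TreeHier Γ) : Flat Γ :=
  h (fun G _ => Countable G → Flat G) (fun G _ _ _ => flat_of_subsingleton G)
    (fun _ _ hG _ => flat_of_flatE (flatE_of_rel hG)) inferInstance

end Pool.Agent.FusfFlat
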