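import Pool.Agent.P.MP_8fb1ed_pr.Fl.MsgDefs

/-! The universal randomness (paper 5.1): definitions. The universal part is itself a
configuration with coordinate set `Γ`. -/

open MeasureTheory Filter Topology Relation
open scoped ENNReal

namespace Pool.Agent.FusfFlat

open Pool.Agent.FusfTree

universe u

/-- `v` is reached from `u` in at most `n` steps. -/
def Near {V : Type*} (t : V → V → Prop) : ℕ → V → V → Prop
  | 0, u, v => v = u
  | n + 1, u, v => Near t n u v ∨ ∃ x, Near t n u x ∧ t x v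

/-- A random forest `t` on `V` with finite subtrees `T y ∋ y • v₀`. -/
structure Bags {Γ V : Type*} [Group Γ] [MulAction Γ V] (v₀ : V) (B : Finset V) (r : ℕ)
    (t : Cfg V → V → V → Prop) (T : Cfg V → V → Γ → Prop) : Prop where
  rt : RRel (vshift : Γ → Cfg V → Cfg V) t
  rT : RRel (vshift : Γ → Cfg V → Cfg V) T
  symm : ∀ η u v, t η u v → t η v u
  acyc : ∀ η u v, t η u v → ¬ side (t η) u v u
  self : ∀ η y, T η (y • v₀) y
  mem : ∀ η v y, T η v y → y⁻¹ • v ∈ B
  walk : ∀ η v y, T η v y → ReflTransGen (fun p q => t η p q ∧ T η q y) (y • v₀) v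
  near : ∀ η v y, T η v y → Near (t η) r (y • v₀) v

/-- Constants over a coordinate set with base map `β`. -/
def mkPar {Γ V ι : Type*} [Group Γ] [MulAction Γ V] (v₀ : V) (β : ι → Γ) (Xh : ι → Prop)
    (W N J D D0 C : ℕ) : Par V ι :=
  ⟨fun i => β i • v₀, Xh, W, N, J, D, D0, C⟩

/-- The flat set of one vertex in each orbit can be resampled from a flat measure of the
stabiliser. -/
def ResW {Γ Ω ι : Type u} {V : Type*} [Group Γ] [MeasurableSpace Ω] [MulAction Γ V]
    (β : ι → Γ) (P : Measure Ω) (d : Ω → Dat V ι) : Prop :=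
  ∀ v : V, ∃ (g : Γ) (v₁ : V), v = g • v₁ ∧
    ∃ (γ : Γ → MulAction.stabilizer Γ v₁) (μ : Measure (MulAction.stabilizer Γ v₁ → Prop))
      (δ : ℝ≥0∞) (up : (MulAction.stabilizer Γ v₁ → Prop) → Ω → Ω),
      (∀ (h : MulAction.stabilizer Γ v₁) x, γ ((h : Γ) * x) = h * γ x) ∧ InvSet δ μ ∧ FlatM μ ∧
      Resample P μ up ∧ ∀ w ω, d (up w ω) = (d ω).setW v₁ fun i => w (γ (β i))

namespace Dat

variable {Γ V ι : Type*} [Group Γ] [MulAction Γ V]

/-- The cell `x A` lies in the bag of its owner. -/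
def good (u : Dat V Γ) (v₀ : V) (A : Finset Γ) (x : Γ) : Prop := ∀ c ∈ A, u.X (x • v₀) (x * c)

/-- `y` lies in a cell that is not good. -/
def bad (u : Dat V Γ) (v₀ : V) (A : Finset Γ) (y : Γ) : Prop :=
  ∃ c ∈ A, ¬ u.good v₀ A (y * c⁻¹)

/-- The configuration built from the universal part and the data `M`, `Y`. -/
noncomputable def lift (u : Dat V Γ) (v₀ : V) (A : Finset Γ) (β : ι → Γ) (Xh : ι → Prop)
    (M : Sub ι) (Y : ι → Prop) : Dat V ι where
  t := u.t
  X := fun v i => Xh i ∧ u.X v (β i)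
  G := fun v => ⨆ x : Γ, onIf (x • v₀ = v)
    (onIf (u.good v₀ A x) (M ⊓ coord fun i => x⁻¹ * β i ∈ A) ⊔
      onIf (u.bad v₀ A x) (units fun i => Xh i ∧ β i = x))
  Y := Y
  w := fun v i => u.w v (β i)
  z := u.z
  lam := u.lam
  th := u.th

end Dat

end Pool.Agent.FusfFlat
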